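import Pool.Agent.Lib.MP_008109_al.AB.General

/-!
# MP_008109_al, module AUC: few orbits only if the automorphism group has the size of the continuum
-/

set_option autoImplicit false

universe u

namespace Pool.Agent.Lib.MP_008109_al.AB

theorem infinite_of_dagger {X : Type u} [Group X] (hX : HasDagger X) : Infinite X := by
  classical
  by_contra h
  rw [not_infinite_iff_finite] at h
  have := Fintype.ofFinite X
  exact hX ⟨∅, Finset.univ, by simp, fun z => Or.inl (Finset.mem_univ z)⟩

theorem card_aut_of_few {X : Type u} [Group X] [Countable X] (hX : HasDagger X)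
    (h : Cardinal.mk (SpecialOrbits X) < Cardinal.continuum) :
    Cardinal.mk (X ≃* X) = Cardinal.continuum := by
  classical
  have hinf := infinite_of_dagger hX
  apply le_antisymm
  · have h1 : Function.Injective (fun σ : X ≃* X => (fun x => σ x : X → X)) := by
      intro σ τ h
      exact MulEquiv.ext (fun x => congrFun h x)
    refine (Cardinal.mk_le_of_injective h1).trans ?_
    rw [← Cardinal.power_def, Cardinal.mk_eq_aleph0 X]
    simp
  · by_contra hlt
    rw [not_le] at hlt
    have huniv : {x : X | (orbOf (Set.univ : Set X) x).Finite}.Infinite := by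
      have e : {x : X | (orbOf (Set.univ : Set X) x).Finite} = Set.univ := by
        apply Set.eq_univ_of_forall
        intro x
        have h2 : orbOf (Set.univ : Set X) x ⊆ {x} := by
          rintro y ⟨α, hα, rfl⟩
          exact hα x trivial
        exact (Set.finite_singleton x).subset h2
      rw [e]
      exact Set.infinite_univ
    obtain ⟨f, x, hspec, hcode⟩ := exists_special_family hX Set.univ huniv
    let f' : ULift.{u} (Set ℕ) → {S : Set X // IsSpecial S} := fun A => ⟨f A.down, hspec A.down⟩
    have hf' : Function.Injective f' := by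
      rintro ⟨A⟩ ⟨B⟩ hAB
      have hAB' : f A = f B := congrArg Subtype.val hAB
      have : A = B := by
        ext n
        rw [← hcode A n (x n) (Or.inl (orbOf_self _ _)), ← hcode B n (x n)
          (Or.inl (orbOf_self _ _)), hAB']
      rw [this]
    have h1 := Cardinal.mk_le_of_injective hf'
    have h2 : Cardinal.mk (ULift.{u} (Set ℕ)) = Cardinal.continuum.{u} := by
      rw [Cardinal.mk_uLift, Cardinal.mk_set, Cardinal.mk_nat, Cardinal.two_power_aleph0,
        Cardinal.lift_continuum]
    rw [h2] at h1
    have h3 := Cardinal.mk_le_mk_mul_of_mk_preimage_le (c := Cardinal.mk (X ≃* X))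
      (fun S : {S : Set X // IsSpecial S} =>
        (⟨{T | ∃ α : X ≃* X, α '' S.1 = T}, S.1, S.2, rfl⟩ : SpecialOrbits X)) (by
        rintro ⟨O, S, hS, rfl⟩
        refine Cardinal.mk_le_of_surjective
          (f := fun α : {α : X ≃* X // IsSpecial (α '' S) ∧
            {T | ∃ β : X ≃* X, β '' (α '' S) = T} = {T | ∃ α : X ≃* X, α '' S = T}} =>
            ⟨⟨α.1 '' S, α.2.1⟩, Subtype.ext α.2.2⟩) ?_ |>.trans (Cardinal.mk_subtype_le _)
        rintro ⟨⟨T, hT⟩, hTO⟩
        have hTO' : {T' | ∃ α : X ≃* X, α '' T = T'} = {T' | ∃ α : X ≃* X, α '' S = T'} :=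
          congrArg Subtype.val hTO
        have hm : T ∈ {T' | ∃ α : X ≃* X, α '' S = T'} := by
          rw [← hTO']
          exact ⟨MulEquiv.refl X, by simp⟩
        obtain ⟨α, hα⟩ := hm
        subst hα
        exact ⟨⟨α, hT, hTO'⟩, rfl⟩)
    exact absurd (h1.trans h3) (not_le.2 (Cardinal.mul_lt_of_lt Cardinal.aleph0_le_continuum h hlt))

end Pool.Agent.Lib.MP_008109_al.AB
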