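import Pool.Agent.Lib.MP_008109_al.AB.Gen

/-!
# MP_008109_al, module DAG: the abelian groups with property (†)
-/

set_option autoImplicit false
universe u v

namespace Pool.Agent.Lib.MP_008109_al.AB

theorem dagger_of_squares (X : Type u) [CommGroup X]
    (h : (Set.range fun x : X => x ^ 2).Infinite) : HasDagger X := by
  classical
  rintro ⟨F, E, -, hc⟩
  have h2 : (mult (Additive X) 2).Infinite := by
    intro hfin
    apply h
    refine (hfin.image Additive.toMul).subset ?_
    rintro _ ⟨x, rfl⟩
    exact ⟨2 • Additive.ofMul x, ⟨Additive.ofMul x, rfl⟩, rfl⟩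
  have h1 : (mult (Additive X) 1).Infinite := by
    refine h2.mono ?_
    rintro x ⟨y, rfl⟩
    exact ⟨2 • y, by simp⟩
  obtain ⟨g, hg⟩ := avoid ({1, 2} : Finset ℕ) (by
      intro d hd
      rcases Finset.mem_insert.1 hd with rfl | hd
      · exact h1
      · rw [Finset.mem_singleton.1 hd]
        exact h2)
    (E.image Additive.ofMul ∪ F.image fun p => Additive.ofMul (p.1 * p.2))
  rcases hc (Additive.toMul g) with hz | ⟨p, hp, hz⟩
  · refine hg 1 (by simp) (Additive.ofMul (Additive.toMul g))
      (Finset.mem_union_left _ (Finset.mem_image_of_mem _ hz)) ?_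
    simp
  · refine hg 2 (by simp) (Additive.ofMul (p.1 * p.2))
      (Finset.mem_union_right _ (Finset.mem_image_of_mem (fun p : X × X => Additive.ofMul (p.1 * p.2)) hp)) ?_
    have hz' : p.1 * (Additive.toMul g)⁻¹ = Additive.toMul g * p.2⁻¹ := hz
    have h3 : (Additive.toMul g) ^ 2 = p.1 * p.2 := by
      have h4 : p.1 = Additive.toMul g * p.2⁻¹ * Additive.toMul g := by
        rw [← hz']
        simp
      rw [h4, pow_two]
      have h5 : ∀ a b : X, a * a = a * b⁻¹ * a * b := by
        intro a b
        rw [mul_comm (a * b⁻¹) a, mul_assoc a (a * b⁻¹) b]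
        simp
      exact h5 _ _
    exact congrArg Additive.ofMul h3

theorem dagger_iff (X : Type u) [CommGroup X] :
    HasDagger X ↔ ((∀ x : X, x * x = 1) ∧ Infinite X) ∨
      (Set.range fun x : X => x ^ 2).Infinite := by
  classical
  constructor
  · intro hd
    have hinf : Infinite X := by
      by_contra hfin
      rw [not_infinite_iff_finite] at hfin
      have := Fintype.ofFinite X
      exact hd ⟨∅, Finset.univ, by simp, fun z => Or.inl (Finset.mem_univ z)⟩
    by_cases h2 : ∀ x : X, x * x = 1
    · exact Or.inl ⟨h2, hinf⟩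
    · right
      push Not at h2
      obtain ⟨x0, hx0⟩ := h2
      by_contra hfin
      rw [Set.not_infinite] at hfin
      let c : X → X := fun a => if a = 1 then x0 else 1
      refine hd ⟨hfin.toFinset.image fun a => (c a, (c a)⁻¹ * a), ∅, ?_, fun z => Or.inr ?_⟩
      · intro p hp
        obtain ⟨a, -, rfl⟩ := Finset.mem_image.1 hp
        simp only [c]
        by_cases ha : a = 1
        · rw [if_pos ha, ha, mul_one]
          intro h
          apply hx0
          nth_rewrite 1 [h]
          simp
        · rw [if_neg ha]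
          simpa using fun h => ha h.symm
      · refine ⟨(c (z ^ 2), (c (z ^ 2))⁻¹ * z ^ 2), Finset.mem_image.2 ⟨z ^ 2, ?_, rfl⟩, ?_⟩
        · rw [Set.Finite.mem_toFinset]
          exact ⟨z, rfl⟩
        · show c (z ^ 2) * z⁻¹ = z * ((c (z ^ 2))⁻¹ * z ^ 2)⁻¹
          rw [mul_inv_rev, inv_inv, pow_two, mul_inv_rev]
          group
          rw [mul_comm]
  · rintro (⟨h2, hinf⟩ | h)
    · exact hasDagger h2
    · exact dagger_of_squares X h

end Pool.Agent.Lib.MP_008109_al.AB
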