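import Pool.Agent.Lib.MP_008109_al.AB.Spec

/-!
# MP_008109_al: module REG, regular subgroups isomorphic to an abelian group (helper22)
-/

set_option autoImplicit false

universe u v

namespace Pool.Agent.Lib.MP_008109_al.AB

namespace REGM

section Regular

variable {X : Type u} [CommGroup X] {V : Type v} {R : SimpleGraph V}

theorem conn_iff {H : Subgroup (R ≃g R)} (φ : X ≃* H) (v0 : V)
    (x y : X) : x * y⁻¹ ∈ conn φ v0 ↔ R.Adj ((φ x : R ≃g R) v0) ((φ y : R ≃g R) v0) := by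
  have h1 : (φ (x * y⁻¹) : R ≃g R) v0 = (φ y : R ≃g R).symm ((φ x : R ≃g R) v0) := by
    rw [mul_comm, map_mul, map_inv]
    rfl
  change R.Adj v0 ((φ (x * y⁻¹) : R ≃g R) v0) ↔ _
  rw [h1, ← (φ y : R ≃g R).map_adj_iff, RelIso.apply_symm_apply, R.adj_comm]

theorem conn_inv {H : Subgroup (R ≃g R)} (φ : X ≃* H) (v0 : V) (x : X) (hx : x ∈ conn φ v0) :
    x⁻¹ ∈ conn φ v0 := by
  have h1 := (conn_iff φ v0 1 x).2
  rw [one_mul] at h1
  apply h1
  have h2 : R.Adj v0 ((φ x : R ≃g R) v0) := hx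
  rw [map_one]
  exact h2

theorem conn_special (hR : HasStar R) {H : Subgroup (R ≃g R)}
    (hH : IsRegular H) (φ : X ≃* H) (v0 : V) : IsSpecial (conn φ v0) := by
  classical
  refine ⟨fun s hs => conn_inv φ v0 s hs, ?_, ?_⟩
  · intro h
    have h3 : R.Adj v0 ((φ 1 : R ≃g R) v0) := h
    rw [map_one] at h3
    exact R.irrefl h3
  · intro U W hd
    let e := orb hH φ v0
    obtain ⟨z, hU, hW⟩ := hR (U.map e.toEmbedding) (W.map e.toEmbedding) (by
      rw [Finset.disjoint_map]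
      exact hd)
    obtain ⟨x, rfl⟩ := e.surjective z
    refine ⟨x, fun u hu => ?_, fun w hw h => ?_⟩
    · exact (conn_iff φ v0 x u).2 (hU (e u) (Finset.mem_map_of_mem _ hu))
    · exact hW (e w) (Finset.mem_map_of_mem _ hw) ((conn_iff φ v0 x w).1 h)

end Regular

end REGM

open REGM in
/-- REG -/
theorem regular_conj_of {X : Type u} [CommGroup X] {V : Type v} {R : SimpleGraph V}
    (hR : HasStar R)
    (ho : ∀ S T : Set X, IsSpecial S → IsSpecial T → ∃ α : X ≃* X, α '' S = T)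
    {H K : Subgroup (R ≃g R)} (hH : IsRegular H) (hK : IsRegular K) (φ : X ≃* H) (ψ : X ≃* K) :
    ∃ g : R ≃g R, H.map (MulAut.conj g).toMonoidHom = K := by
  obtain ⟨v0, -, -⟩ := hR ∅ ∅ (by simp)
  obtain ⟨α, hα⟩ := ho _ _ (REGM.conn_special hR hH φ v0) (REGM.conn_special hR hK ψ v0)
  have hα' : ∀ x, α x ∈ conn ψ v0 ↔ x ∈ conn φ v0 := by
    intro x
    rw [← hα]
    exact α.injective.mem_set_image
  let eH := orb hH φ v0
  let eK := orb hK ψ v0
  let g0 : V ≃ V := (eH.symm.trans α.toEquiv).trans eK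
  have hg0 : ∀ x, g0 (eH x) = eK (α x) := fun x => by
    change eK (α (eH.symm (eH x))) = _
    rw [Equiv.symm_apply_apply]
  let g : R ≃g R := ⟨g0, by
    intro a b
    obtain ⟨x, rfl⟩ := eH.surjective a
    obtain ⟨y, rfl⟩ := eH.surjective b
    rw [hg0, hg0]
    change R.Adj ((ψ (α x) : R ≃g R) v0) ((ψ (α y) : R ≃g R) v0) ↔
      R.Adj ((φ x : R ≃g R) v0) ((φ y : R ≃g R) v0)
    rw [← REGM.conn_iff, ← REGM.conn_iff, ← hα' (x * y⁻¹), map_mul, map_inv]⟩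
  have hg : ∀ x, g (eH x) = eK (α x) := hg0
  have hconj : ∀ x : X, g * (φ x : R ≃g R) * g⁻¹ = (ψ (α x) : R ≃g R) := by
    intro x
    rw [mul_inv_eq_iff_eq_mul]
    ext v
    obtain ⟨y, rfl⟩ := eH.surjective v
    have h3 : (φ x : R ≃g R) (eH y) = eH (x * y) := by
      change (φ x : R ≃g R) ((φ y : R ≃g R) v0) = (φ (x * y) : R ≃g R) v0
      rw [map_mul]
      rfl
    have h4 : (ψ (α x) : R ≃g R) (eK (α y)) = eK (α (x * y)) := by
      change (ψ (α x) : R ≃g R) ((ψ (α y) : R ≃g R) v0) = (ψ (α (x * y)) : R ≃g R) v0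
      rw [map_mul, map_mul]
      rfl
    change g ((φ x : R ≃g R) (eH y)) = (ψ (α x) : R ≃g R) (g (eH y))
    rw [h3, hg, hg, h4]
  refine ⟨g, ?_⟩
  ext k
  rw [Subgroup.mem_map]
  constructor
  · rintro ⟨h, hh, rfl⟩
    have h5 := hconj (φ.symm ⟨h, hh⟩)
    rw [MulEquiv.apply_symm_apply] at h5
    change g * h * g⁻¹ ∈ K
    rw [h5]
    exact (ψ _).2
  · intro hk
    refine ⟨(φ (α.symm (ψ.symm ⟨k, hk⟩)) : R ≃g R), (φ _).2, ?_⟩
    change g * (φ (α.symm (ψ.symm ⟨k, hk⟩)) : R ≃g R) * g⁻¹ = k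
    rw [hconj, MulEquiv.apply_symm_apply, MulEquiv.apply_symm_apply]

end Pool.Agent.Lib.MP_008109_al.AB
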