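import Pool.Agent.Lib.MP_008109_al.AB.Coset

/-!
# MP_008109_al: back-and-forth over the subgroup of triples

Let `G` be a countable abelian group with finitely many elements of the form `3 x`.  Two special
subsets which agree on these elements are moved to each other by an automorphism of `G` which fixes
these elements.
-/

set_option autoImplicit false

universe u

namespace Pool.Agent.Lib.MP_008109_al.AB

section Three

variable {G : Type u} [AddCommGroup G]

/-- A finite partial isomorphism from `(G, S)` to `(G, T)` which is the identity on the triples. -/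
structure Fit (S T : Set G) (A : AddSubgroup (G × G)) : Prop where
  fin : (A : Set (G × G)).Finite
  zero : ∀ p ∈ A, p.1 = 0 ↔ p.2 = 0
  mem : ∀ p ∈ A, p.1 ∈ S ↔ p.2 ∈ T
  triple : ∀ x : G, (3 • x, 3 • x) ∈ A

/-- Adjoin one element whose triple is already there. -/
def adj3 (A : AddSubgroup (G × G)) (q : G × G) (hq : 3 • q ∈ A) : AddSubgroup (G × G) where
  carrier := {p | p ∈ A ∨ p - q ∈ A ∨ p + q ∈ A}
  zero_mem' := Or.inl A.zero_mem
  add_mem' := by
    rintro a b (ha | ha | ha) (hb | hb | hb)
    · exact Or.inl (A.add_mem ha hb)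
    · right; left
      have := A.add_mem ha hb
      have e : a + b - q = a + (b - q) := by abel
      rw [e]; exact this
    · right; right
      have := A.add_mem ha hb
      have e : a + b + q = a + (b + q) := by abel
      rw [e]; exact this
    · right; left
      have := A.add_mem ha hb
      have e : a + b - q = a - q + b := by abel
      rw [e]; exact this
    · right; right
      have := A.add_mem (A.add_mem ha hb) hq
      have e : a + b + q = a - q + (b - q) + 3 • q := by abel
      rw [e]; exact this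
    · left
      have := A.add_mem ha hb
      have e : a + b = a - q + (b + q) := by abel
      rw [e]; exact this
    · right; right
      have := A.add_mem ha hb
      have e : a + b + q = a + q + b := by abel
      rw [e]; exact this
    · left
      have := A.add_mem ha hb
      have e : a + b = a + q + (b - q) := by abel
      rw [e]; exact this
    · right; left
      have := A.sub_mem (A.add_mem ha hb) hq
      have e : a + b - q = a + q + (b + q) - 3 • q := by abel
      rw [e]; exact this
  neg_mem' := by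
    rintro a (ha | ha | ha)
    · exact Or.inl (A.neg_mem ha)
    · right; right
      have := A.neg_mem ha
      have e : -a + q = -(a - q) := by abel
      rw [e]; exact this
    · right; left
      have := A.neg_mem ha
      have e : -a - q = -(a + q) := by abel
      rw [e]; exact this

theorem mem_adj3 (A : AddSubgroup (G × G)) (q : G × G) (hq : 3 • q ∈ A) (p : G × G) :
    p ∈ adj3 A q hq ↔ p ∈ A ∨ p - q ∈ A ∨ p + q ∈ A := Iff.rfl

theorem le_adj3 (A : AddSubgroup (G × G)) (q : G × G) (hq : 3 • q ∈ A) :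
    A ≤ adj3 A q hq := fun _ hp => Or.inl hp

theorem fit_extend [Infinite G] (h3 : (mult G 3).Finite) (S T : Set G) (hS : Spec S)
    (hT : Spec T) (A : AddSubgroup (G × G)) (hA : Fit S T A) (v : G) :
    ∃ A' : AddSubgroup (G × G), Fit S T A' ∧ A ≤ A' ∧ ∃ y, (v, y) ∈ A' := by
  classical
  by_cases hv : ∃ y, (v, y) ∈ A
  · exact ⟨A, hA, le_rfl, hv⟩
  obtain ⟨hfin, h0, hm, htr⟩ := hA
  -- the kernel of multiplication by three has finite index
  let f : G →+ G := DistribSMul.toAddMonoidHom G (3 : ℕ)
  have hf : ∀ x, f x = 3 • x := fun x => rfl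
  have hfi : f.ker.FiniteIndex := by
    have hr : Finite f.range := by
      refine Set.Finite.subset h3 ?_
      rintro y ⟨x, rfl⟩
      exact ⟨x, rfl⟩
    have : Finite (G ⧸ f.ker) :=
      Finite.of_equiv _ (QuotientAddGroup.quotientKerEquivRange f).symm.toEquiv
    exact AddSubgroup.finiteIndex_of_finite_quotient
  let U : Finset G := (hfin.toFinset.filter (fun p => v + p.1 ∈ S)).image fun p => -p.2
  let V : Finset G := (hfin.toFinset.filter (fun p => v + p.1 ∉ S)).image fun p => -p.2
  have hinj : ∀ p ∈ A, ∀ q ∈ A, p.2 = q.2 → p.1 = q.1 := by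
    intro p hp q hq h
    have hpq := A.sub_mem hp hq
    have := (h0 _ hpq).2 (by simp [h])
    simpa [sub_eq_zero] using this
  have hdisj : Disjoint U V := by
    rw [Finset.disjoint_left]
    intro b hbU hbV
    simp only [U, V, Finset.mem_image, Finset.mem_filter, Set.Finite.mem_toFinset,
      SetLike.mem_coe] at hbU hbV
    obtain ⟨p, ⟨hp, hpS⟩, rfl⟩ := hbU
    obtain ⟨q, ⟨hq, hqS⟩, hqp⟩ := hbV
    rw [hinj q hq p hp (neg_injective hqp)] at hqS
    exact hqS hpS
  obtain ⟨z, hzH, hzU, hzV, hU, hV⟩ := ext_coset T hT f.ker v U V hdisj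
  have hz3 : 3 • z = 3 • v := by
    have : f (z - v) = 0 := hzH
    rw [hf, smul_sub, sub_eq_zero] at this
    exact this
  have hz : ∀ p ∈ A, p.2 ≠ z := by
    rintro p hp rfl
    have hpn : -p ∈ A := A.neg_mem hp
    by_cases hc : v + (-p).1 ∈ S
    · apply hzU
      simp only [U, Finset.mem_image, Finset.mem_filter, Set.Finite.mem_toFinset, SetLike.mem_coe]
      exact ⟨-p, ⟨hpn, hc⟩, by simp⟩
    · apply hzV
      simp only [V, Finset.mem_image, Finset.mem_filter, Set.Finite.mem_toFinset, SetLike.mem_coe]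
      exact ⟨-p, ⟨hpn, hc⟩, by simp⟩
  have hzS : ∀ p ∈ A, (v + p.1 ∈ S ↔ z + p.2 ∈ T) := by
    intro p hp
    by_cases hc : v + p.1 ∈ S
    · have : -p.2 ∈ U := by
        simp only [U, Finset.mem_image, Finset.mem_filter, Set.Finite.mem_toFinset,
          SetLike.mem_coe]
        exact ⟨p, ⟨hp, hc⟩, rfl⟩
      have h := hU _ this
      rw [sub_neg_eq_add] at h
      exact ⟨fun _ => h, fun _ => hc⟩
    · have : -p.2 ∈ V := by
        simp only [V, Finset.mem_image, Finset.mem_filter, Set.Finite.mem_toFinset,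
          SetLike.mem_coe]
        exact ⟨p, ⟨hp, hc⟩, rfl⟩
      have h := hV _ this
      rw [sub_neg_eq_add] at h
      exact ⟨fun h' => absurd h' hc, fun h' => absurd h' h⟩
  have hq : 3 • ((v, z) : G × G) ∈ A := by
    have : 3 • ((v, z) : G × G) = (3 • v, 3 • v) := by
      rw [Prod.smul_mk, hz3]
    rw [this]
    exact htr v
  have hsymS : ∀ s, s ∈ S ↔ -s ∈ S := fun s =>
    ⟨fun h => hS.neg s h, fun h => by simpa using hS.neg _ h⟩
  have hsymT : ∀ s, s ∈ T ↔ -s ∈ T := fun s =>
    ⟨fun h => hT.neg s h, fun h => by simpa using hT.neg _ h⟩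
  have hplus0 : ∀ p, p - (v, z) ∈ A → (p.1 ≠ 0 ∧ p.2 ≠ 0) := by
    intro p hp
    have hn := A.neg_mem hp
    constructor
    · intro h
      apply hv
      refine ⟨z - p.2, ?_⟩
      have : (v, z - p.2) = -(p - (v, z)) := by
        ext
        · simp [h]
        · simp
      rw [this]
      exact hn
    · intro h
      apply hz _ hn
      simp [h]
  have hplusm : ∀ p, p - (v, z) ∈ A → (p.1 ∈ S ↔ p.2 ∈ T) := by
    intro p hp
    have := hzS _ hp
    simpa using this
  refine ⟨adj3 A (v, z) hq, ⟨?_, ?_, ?_, ?_⟩, le_adj3 A _ hq, z, ?_⟩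
  · have hsub : ((adj3 A (v, z) hq : AddSubgroup (G × G)) : Set (G × G)) ⊆
        (A : Set (G × G)) ∪ ((fun p => p + (v, z)) '' (A : Set (G × G)) ∪
          (fun p => p - (v, z)) '' (A : Set (G × G))) := by
      rintro p (hp | hp | hp)
      · exact Or.inl hp
      · right; left
        exact ⟨p - (v, z), hp, by simp⟩
      · right; right
        exact ⟨p + (v, z), hp, by simp⟩
    exact (hfin.union ((hfin.image _).union (hfin.image _))).subset hsub
  · rintro p (hp | hp | hp)
    · exact h0 p hp
    · have := hplus0 p hp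
      exact ⟨fun h => absurd h this.1, fun h => absurd h this.2⟩
    · have hp' : -p - (v, z) ∈ A := by
        have := A.neg_mem hp
        have e : -p - (v, z) = -(p + (v, z)) := by abel
        rw [e]; exact this
      have := hplus0 (-p) hp'
      constructor
      · intro h
        exact absurd (by simp [h]) this.1
      · intro h
        exact absurd (by simp [h]) this.2
  · rintro p (hp | hp | hp)
    · exact hm p hp
    · exact hplusm p hp
    · have hp' : -p - (v, z) ∈ A := by
        have := A.neg_mem hp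
        have e : -p - (v, z) = -(p + (v, z)) := by abel
        rw [e]; exact this
      have := hplusm (-p) hp'
      rw [hsymS, hsymT]
      exact this
  · intro x
    exact Or.inl (htr x)
  · right; left
    simp

theorem fit_swap (S T : Set G) (A : AddSubgroup (G × G)) (hA : Fit S T A) :
    Fit T S (A.comap (AddEquiv.prodComm : G × G ≃+ G × G).toAddMonoidHom) := by
  obtain ⟨hfin, h0, hm, htr⟩ := hA
  refine ⟨?_, ?_, ?_, ?_⟩
  · rw [AddSubgroup.coe_comap]
    apply Set.Finite.preimage _ hfin
    exact (AddEquiv.prodComm : G × G ≃+ G × G).injective.injOn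
  · intro p hp
    exact (h0 _ hp).symm
  · intro p hp
    exact (hm _ hp).symm
  · intro x
    exact htr x

theorem fit_extend' [Infinite G] (h3 : (mult G 3).Finite) (S T : Set G) (hS : Spec S)
    (hT : Spec T) (A : AddSubgroup (G × G)) (hA : Fit S T A) (y : G) :
    ∃ A' : AddSubgroup (G × G), Fit S T A' ∧ A ≤ A' ∧ ∃ x, (x, y) ∈ A' := by
  obtain ⟨A', hA', hle, x, hx⟩ := fit_extend h3 T S hT hS _ (fit_swap S T A hA) y
  refine ⟨_, fit_swap T S A' hA', ?_, x, ?_⟩
  · intro p hp
    apply hle
    exact hp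
  · exact hx

/-- A group with a special subset is infinite. -/
theorem Spec.infinite {S : Set G} (hS : Spec S) : Infinite G := by
  classical
  by_contra hc
  rw [not_infinite_iff_finite] at hc
  have := Fintype.ofFinite G
  obtain ⟨z, hz, -⟩ := hS.ext Finset.univ ∅ (by simp)
  exact hz (Finset.mem_univ z)

end Three

/-- Two special subsets which agree on the triples are in one orbit of the pointwise stabilizer of
the triples, if there are finitely many triples. -/
theorem orbit_three {G : Type u} [AddCommGroup G] [Countable G] (h3 : (mult G 3).Finite)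
    (S T : Set G) (hS : Spec S) (hT : Spec T) (h : ∀ x : G, 3 • x ∈ S ↔ 3 • x ∈ T) :
    ∃ α : G ≃+ G, (∀ x, α (3 • x) = 3 • x) ∧ α '' S = T := by
  classical
  have hinf : Infinite G := hS.infinite
  have : Encodable G := Encodable.ofCountable G
  let P := {A : AddSubgroup (G × G) // Fit S T A}
  let D : G ⊕ G → Order.Cofinal P := fun s => match s with
    | Sum.inl x =>
      { carrier := {A : P | ∃ y, (x, y) ∈ A.1}
        isCofinal := by
          rintro ⟨A, hA⟩
          obtain ⟨A', hA', hle, h⟩ := fit_extend h3 S T hS hT A hA x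
          exact ⟨⟨A', hA'⟩, h, hle⟩ }
    | Sum.inr y =>
      { carrier := {A : P | ∃ x, (x, y) ∈ A.1}
        isCofinal := by
          rintro ⟨A, hA⟩
          obtain ⟨A', hA', hle, h⟩ := fit_extend' h3 S T hS hT A hA y
          exact ⟨⟨A', hA'⟩, h, hle⟩ }
  -- the start: the diagonal over the triples
  let f : G →+ G × G :=
    { toFun := fun x => (3 • x, 3 • x)
      map_zero' := by simp
      map_add' := fun x y => by simp [smul_add] }
  have hbot : Fit S T f.range := by
    refine ⟨?_, ?_, ?_, ?_⟩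
    · have hsub : (f.range : Set (G × G)) ⊆ (fun y : G => (y, y)) '' mult G 3 := by
        rintro p ⟨x, rfl⟩
        exact ⟨3 • x, ⟨x, rfl⟩, rfl⟩
      exact (h3.image _).subset hsub
    · rintro p ⟨x, rfl⟩
      exact Iff.rfl
    · rintro p ⟨x, rfl⟩
      exact h x
    · intro x
      exact ⟨x, rfl⟩
  let I : Order.Ideal P := Order.idealOfCofinals ⟨f.range, hbot⟩ D
  have hl : ∀ x : G, ∃ y, ∃ A ∈ I, (x, y) ∈ A.1 := by
    intro x
    obtain ⟨A, hA, hAI⟩ := Order.cofinal_meets_idealOfCofinals (⟨f.range, hbot⟩ : P) D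
      (Sum.inl x)
    obtain ⟨y, hy⟩ := hA
    exact ⟨y, A, hAI, hy⟩
  have hr : ∀ y : G, ∃ x, ∃ A ∈ I, (x, y) ∈ A.1 := by
    intro y
    obtain ⟨A, hA, hAI⟩ := Order.cofinal_meets_idealOfCofinals (⟨f.range, hbot⟩ : P) D
      (Sum.inr y)
    obtain ⟨x, hx⟩ := hA
    exact ⟨x, A, hAI, hx⟩
  have hI0 : (⟨f.range, hbot⟩ : P) ∈ I := Order.mem_idealOfCofinals _ D
  have hadd : ∀ p q : G × G, (∃ A ∈ I, p ∈ A.1) → (∃ A ∈ I, q ∈ A.1) →
      ∃ A ∈ I, p + q ∈ A.1 := by
    rintro p q ⟨A, hA, hp⟩ ⟨B, hB, hq⟩
    obtain ⟨K, hK, hAK, hBK⟩ := I.directed A hA B hB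
    exact ⟨K, hK, K.1.add_mem (hAK hp) (hBK hq)⟩
  have hneg : ∀ p : G × G, (∃ A ∈ I, p ∈ A.1) → ∃ A ∈ I, -p ∈ A.1 := by
    rintro p ⟨A, hA, hp⟩
    exact ⟨A, hA, A.1.neg_mem hp⟩
  have hzero : ∀ p : G × G, (∃ A ∈ I, p ∈ A.1) → (p.1 = 0 ↔ p.2 = 0) := by
    rintro p ⟨A, hA, hp⟩
    exact A.2.zero p hp
  have hST : ∀ p : G × G, (∃ A ∈ I, p ∈ A.1) → (p.1 ∈ S ↔ p.2 ∈ T) := by
    rintro p ⟨A, hA, hp⟩
    exact A.2.mem p hp
  choose a ha using hl
  choose b hb using hr
  have huniq : ∀ x y y' : G, (∃ A ∈ I, (x, y) ∈ A.1) → (∃ A ∈ I, (x, y') ∈ A.1) → y = y' := by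
    intro x y y' h h'
    have := (hzero _ (hadd _ _ h (hneg _ h'))).1 (by simp)
    simpa [add_neg_eq_zero] using this
  have huniq' : ∀ x x' y : G, (∃ A ∈ I, (x, y) ∈ A.1) → (∃ A ∈ I, (x', y) ∈ A.1) → x = x' := by
    intro x x' y h h'
    have := (hzero _ (hadd _ _ h (hneg _ h'))).2 (by simp)
    simpa [add_neg_eq_zero] using this
  let α : G ≃+ G :=
    { toFun := a
      invFun := b
      left_inv := fun x => huniq' _ _ _ (hb (a x)) (ha x)
      right_inv := fun y => huniq _ _ _ (ha (b y)) (hb y)
      map_add' := fun x y => by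
        have := hadd _ _ (ha x) (ha y)
        exact huniq _ _ _ (ha (x + y)) this }
  refine ⟨α, ?_, ?_⟩
  · intro x
    exact huniq _ _ _ (ha (3 • x)) ⟨_, hI0, ⟨x, rfl⟩⟩
  · ext y
    constructor
    · rintro ⟨x, hx, rfl⟩
      exact (hST _ (ha x)).1 hx
    · intro hy
      refine ⟨b y, (hST _ (hb y)).2 hy, ?_⟩
      exact huniq _ _ _ (ha (b y)) (hb y)

end Pool.Agent.Lib.MP_008109_al.AB
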