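import Pool.Agent.Lib.MP_008109_al.AB.Spec

/-!
# MP_008109_al: from multiplicative to additive notation
-/

set_option autoImplicit false

universe u

namespace Pool.Agent.Lib.MP_008109_al.AB

theorem isSpecial_iff_spec {X : Type u} [CommGroup X] (S : Set X) :
    IsSpecial S ↔ Spec (G := Additive X) (Additive.toMul ⁻¹' S) := by
  constructor
  · intro h
    have hs := h.strong
    obtain ⟨hi, h1, -⟩ := h
    refine ⟨fun s hs' => hi _ hs', h1, fun U V hd => ?_⟩
    obtain ⟨z, hz1, hz2, hz3, hz4⟩ := hs.2.2 (U.map Additive.toMul.toEmbedding)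
      (V.map Additive.toMul.toEmbedding) ((Finset.disjoint_map _).2 hd)
    refine ⟨Additive.ofMul z, fun h => hz1 ?_, fun h => hz2 ?_, fun u hu => ?_, fun v hv => ?_⟩
    · exact Finset.mem_map.2 ⟨Additive.ofMul z, h, rfl⟩
    · exact Finset.mem_map.2 ⟨Additive.ofMul z, h, rfl⟩
    · have h3 := hz3 (Additive.toMul u) (Finset.mem_map.2 ⟨u, hu, rfl⟩)
      rw [Set.mem_preimage, toMul_sub, div_eq_mul_inv]
      exact h3
    · have h3 := hz4 (Additive.toMul v) (Finset.mem_map.2 ⟨v, hv, rfl⟩)
      rw [Set.mem_preimage, toMul_sub, div_eq_mul_inv]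
      exact h3
  · intro h
    refine ⟨fun s hs => h.neg (Additive.ofMul s) hs, h.zero, fun U V hd => ?_⟩
    obtain ⟨z, -, -, hz3, hz4⟩ := h.ext (U.map Additive.ofMul.toEmbedding)
      (V.map Additive.ofMul.toEmbedding) ((Finset.disjoint_map _).2 hd)
    refine ⟨Additive.toMul z, fun u hu => ?_, fun v hv hadj => ?_⟩
    · have h3 := hz3 (Additive.ofMul u) (Finset.mem_map.2 ⟨u, hu, rfl⟩)
      rw [Set.mem_preimage, toMul_sub, div_eq_mul_inv] at h3
      exact h3
    · have h3 := hz4 (Additive.ofMul v) (Finset.mem_map.2 ⟨v, hv, rfl⟩)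
      rw [Set.mem_preimage, toMul_sub, div_eq_mul_inv] at h3
      exact h3 hadj

/-- Sets of the additive form. -/
def toAdd (X : Type u) : Set X ≃ Set (Additive X) :=
  Equiv.Set.congr (Additive.ofMul (α := X))

theorem toAdd_apply {X : Type u} (S : Set X) : toAdd X S = Additive.toMul ⁻¹' S := by
  unfold toAdd
  rw [Equiv.Set.congr_apply]
  exact Equiv.image_eq_preimage_symm _ _

theorem orbit_transfer {X : Type u} [CommGroup X] (S T : Set X) :
    (∃ α : X ≃* X, α '' S = T) ↔ ∃ α : Additive X ≃+ Additive X, α '' toAdd X S = toAdd X T := by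
  constructor
  · rintro ⟨α, rfl⟩
    refine ⟨MulEquiv.toAdditive α, ?_⟩
    rw [toAdd_apply, toAdd_apply]
    rfl
  · rintro ⟨α, h⟩
    refine ⟨MulEquiv.toAdditive.symm α, ?_⟩
    rw [toAdd_apply, toAdd_apply] at h
    exact h

theorem specialOrbits_equiv (X : Type u) [CommGroup X] :
    Cardinal.mk (SpecialOrbits X) = Cardinal.mk (AOrbits (Additive X)) := by
  have h : AOrbits (Additive X) = (Equiv.Set.congr (toAdd X)) '' SpecialOrbits X := by
    ext O
    constructor
    · rintro ⟨S, hS, rfl⟩
      refine ⟨{T | ∃ α : X ≃* X, α '' ((toAdd X).symm S) = T}, ⟨(toAdd X).symm S, ?_, rfl⟩, ?_⟩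
      · rw [isSpecial_iff_spec, ← toAdd_apply, Equiv.apply_symm_apply]
        exact hS
      · rw [Equiv.Set.congr_apply]
        ext T
        constructor
        · rintro ⟨T', hT', rfl⟩
          have h1 := (orbit_transfer _ _).1 hT'
          rw [Equiv.apply_symm_apply] at h1
          exact h1
        · rintro h1
          refine ⟨(toAdd X).symm T, (orbit_transfer _ _).2 ?_, Equiv.apply_symm_apply _ _⟩
          rw [Equiv.apply_symm_apply, Equiv.apply_symm_apply]
          exact h1
    · rintro ⟨O', ⟨S, hS, rfl⟩, rfl⟩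
      refine ⟨toAdd X S, ?_, ?_⟩
      · rw [toAdd_apply]
        exact (isSpecial_iff_spec S).1 hS
      · rw [Equiv.Set.congr_apply]
        ext T
        constructor
        · rintro ⟨T', hT', rfl⟩
          exact (orbit_transfer _ _).1 hT'
        · rintro h1
          refine ⟨(toAdd X).symm T, (orbit_transfer _ _).2 ?_, Equiv.apply_symm_apply _ _⟩
          rw [Equiv.apply_symm_apply]
          exact h1
  rw [h]
  exact (Cardinal.mk_image_eq (Equiv.injective _)).symm

end Pool.Agent.Lib.MP_008109_al.AB
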