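import Pool.Agent.Lib.MP_008109_al.AB.Trace
import Pool.Agent.Lib.MP_008109_al.AB.Transfer
import Pool.Agent.Lib.MP_008109_al.AB.Three
import Pool.Agent.Lib.MP_008109_al.AB.Dagger
import Pool.Agent.Lib.MP_008109_al.AB.AutCard
import Pool.Agent.Lib.MP_008109_al.AB.Regular

/-!
# MP_008109_al: exact counting for abelian groups with finitely many cubes
-/

set_option autoImplicit false

universe u v

namespace Pool.Agent.Lib.MP_008109_al.AB

theorem exists_special_of_dagger {X : Type u} [Group X] [Countable X] (hX : HasDagger X) :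
    ∃ S : Set X, IsSpecial S := by
  have hinf := infinite_of_dagger hX
  have huniv : {x : X | (orbOf (Set.univ : Set X) x).Finite}.Infinite := by
    have e : {x : X | (orbOf (Set.univ : Set X) x).Finite} = Set.univ := by
      apply Set.eq_univ_of_forall
      intro x
      have h2 : orbOf (Set.univ : Set X) x ⊆ {x} := by
        rintro y ⟨α, hα, rfl⟩
        exact hα x trivial
      exact (Set.finite_singleton x).subset h2
    rw [e]
    exact Set.infinite_univ
  obtain ⟨f, x, hspec, -⟩ := exists_special_family hX Set.univ huniv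
  exact ⟨f ∅, hspec ∅⟩

/-- multiplicative form of `orbit_three` -/
theorem orbit_three_mul {X : Type u} [CommGroup X] [Countable X]
    (h3 : (Set.range fun x : X => x ^ 3).Finite) (S T : Set X) (hS : IsSpecial S)
    (hT : IsSpecial T) (h : ∀ x : X, x ^ 3 ∈ S ↔ x ^ 3 ∈ T) : ∃ α : X ≃* X, α '' S = T := by
  have h3' : (mult (Additive X) 3).Finite := by
    refine (h3.image (Additive.ofMul : X → Additive X)).subset ?_
    rintro y ⟨x, rfl⟩
    exact ⟨x.toMul ^ 3, ⟨x.toMul, rfl⟩, rfl⟩
  have hcA : Countable (Additive X) := ‹Countable X›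
  obtain ⟨α, -, hα⟩ := orbit_three (G := Additive X) h3' (Additive.toMul ⁻¹' S)
    (Additive.toMul ⁻¹' T) ((isSpecial_iff_spec S).1 hS) ((isSpecial_iff_spec T).1 hT)
    (fun x => h x.toMul)
  refine ⟨MulEquiv.toAdditive.symm α, ?_⟩
  ext y
  constructor
  · rintro ⟨x, hx, rfl⟩
    have : α (Additive.ofMul x) ∈ Additive.toMul ⁻¹' T := by
      rw [← hα]
      exact ⟨Additive.ofMul x, hx, rfl⟩
    exact this
  · intro hy
    have hy' : Additive.ofMul y ∈ Additive.toMul ⁻¹' T := hy
    rw [← hα] at hy'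
    obtain ⟨x, hx, hxy⟩ := hy'
    exact ⟨x.toMul, hx, hxy⟩

theorem mk_traceOrbits_eq_one {X : Type u} [CommGroup X] (h : ∀ x : X, x ^ 3 = 1) :
    Cardinal.mk (TraceOrbits X) = 1 := by
  rw [Cardinal.eq_one_iff_unique]
  refine ⟨⟨?_⟩, ⟨⟨_, ∅, Set.empty_subset _, by simp, by simp, rfl⟩⟩⟩
  have key : ∀ D : Set X, D ⊆ (Set.range fun x : X => x ^ 3) → (1 : X) ∉ D → D = ∅ := by
    intro D hD h1
    rw [Set.eq_empty_iff_forall_notMem]
    intro d hd
    obtain ⟨x, hx⟩ := hD hd
    simp only [h] at hx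
    rw [← hx] at hd
    exact h1 hd
  rintro ⟨O, D, hD, -, h1, rfl⟩ ⟨O', D', hD', -, h1', rfl⟩
  apply Subtype.ext
  simp only
  rw [key D hD h1, key D' hD' h1']

/-- The model of exponent three. -/
abbrev X3 : Type := Multiplicative (ℕ →₀ ZMod 3)

theorem exp_three (x : X3) : x ^ 3 = 1 := by
  apply Multiplicative.toAdd.injective
  ext i
  have : ∀ a : ZMod 3, 3 • a = 0 := by decide
  simp only [toAdd_pow, toAdd_one, Finsupp.coe_smul, Pi.smul_apply, Finsupp.coe_zero, Pi.zero_apply]
  exact this _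

theorem dagger_X3 : HasDagger X3 := by
  rw [dagger_iff]
  right
  have hinf : Infinite X3 := (inferInstance : Infinite (ℕ →₀ ZMod 3))
  have e : (Set.range fun x : X3 => x ^ 2) = Set.univ := by
    apply Set.eq_univ_of_forall
    intro x
    refine ⟨x ^ 2, ?_⟩
    change (x ^ 2) ^ 2 = x
    rw [← pow_mul]
    calc x ^ (2 * 2) = x ^ 3 * x := by rw [← pow_succ]
      _ = x := by rw [exp_three, one_mul]
  rw [e]
  exact Set.infinite_univ

end Pool.Agent.Lib.MP_008109_al.AB
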