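import Pool.Agent.Lib.MP_008109_al.AB.Spec2

/-!
# MP_008109_al: module SHR (helper22)

Finitely many left translates of a finite union of left cosets of subgroups of infinite index have
empty intersection: otherwise some ultrafilter contains all the translates, hence for every `x` a coset
`x a H`; for fixed `(a, H)` all these `x` lie in one left coset of `a H a⁻¹`, and a group is not a finite union
of left cosets of subgroups of infinite index (B. H. Neumann).
-/

set_option autoImplicit false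
universe u

namespace Pool.Agent.Lib.MP_008109_al.AB

open scoped Pointwise in
/-- SHR -/
theorem exists_translates {X : Type u} [Group X] (G : Finset (X × Subgroup X))
    (hG : ∀ p ∈ G, p.2.index = 0) :
    ∃ T : Finset X, ∀ z : X, ∃ x ∈ T, ∀ p ∈ G, p.1⁻¹ * (x⁻¹ * z) ∉ p.2 := by
  classical
  by_contra hcon
  push Not at hcon
  let f : X → Set X := fun x => {z | ∃ p ∈ G, p.1⁻¹ * (x⁻¹ * z) ∈ p.2}
  have hne : (Filter.generate (Set.range f)).NeBot := by
    rw [Filter.generate_neBot_iff]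
    intro t ht hf
    choose g hg using ht
    obtain ⟨z, hz⟩ := hcon (hf.toFinset.attach.image fun a => g (hf.mem_toFinset.1 a.2))
    refine ⟨z, fun a ha => ?_⟩
    rw [← hg ha]
    exact hz _ (Finset.mem_image.2 ⟨⟨a, hf.mem_toFinset.2 ha⟩, Finset.mem_attach _ _, rfl⟩)
  let U : Ultrafilter X := Ultrafilter.of (Filter.generate (Set.range f))
  have hU : ∀ x, f x ∈ U := fun x =>
    Ultrafilter.of_le _ (Filter.mem_generate_of_mem ⟨x, rfl⟩)
  let S : X × Subgroup X → Set X := fun p => {x | {z | p.1⁻¹ * (x⁻¹ * z) ∈ p.2} ∈ U}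
  have hcov : ∀ x, ∃ p ∈ G, x ∈ S p := by
    intro x
    have h1 : f x = ⋃ p ∈ (G : Set (X × Subgroup X)), {z | p.1⁻¹ * (x⁻¹ * z) ∈ p.2} := by
      ext z
      simp [f]
    have h2 := hU x
    rw [h1, Ultrafilter.finite_biUnion_mem_iff G.finite_toSet] at h2
    exact h2
  let K : X × Subgroup X → Subgroup X := fun p => p.2.map (MulAut.conj p.1).toMonoidHom
  let g : X × Subgroup X → X := fun p => if h : (S p).Nonempty then h.choose else 1
  have hS : ∀ p, ∀ x ∈ S p, x ∈ g p • (K p : Set X) := by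
    intro p x hx
    have hne' : (S p).Nonempty := ⟨x, hx⟩
    have hg : g p = hne'.choose := dif_pos hne'
    have hy : g p ∈ S p := hg ▸ hne'.choose_spec
    obtain ⟨z, hz1, hz2⟩ := U.nonempty_of_mem (Filter.inter_mem hx hy)
    rw [Set.mem_smul_set_iff_inv_smul_mem, smul_eq_mul]
    change (g p)⁻¹ * x ∈ Subgroup.map (MulAut.conj p.1).toMonoidHom p.2
    have hz1' : p.1⁻¹ * (x⁻¹ * z) ∈ p.2 := hz1
    have hz2' : p.1⁻¹ * ((g p)⁻¹ * z) ∈ p.2 := hz2
    refine ⟨(p.1⁻¹ * ((g p)⁻¹ * z)) * (p.1⁻¹ * (x⁻¹ * z))⁻¹,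
      p.2.mul_mem hz2' (p.2.inv_mem hz1'), ?_⟩
    simp only [MulEquiv.toMonoidHom_eq_coe, MonoidHom.coe_coe, MulAut.conj_apply]
    group
  have hun : ⋃ p ∈ G, g p • (K p : Set X) = Set.univ := by
    rw [Set.eq_univ_iff_forall]
    intro x
    obtain ⟨p, hp, hx⟩ := hcov x
    exact Set.mem_biUnion hp (hS p x hx)
  obtain ⟨k, hk, hfin⟩ := Subgroup.exists_finiteIndex_of_leftCoset_cover hun
  apply hfin.index_ne_zero
  rw [Subgroup.index_map_of_bijective (MulAut.conj k.1).bijective]
  exact hG k hk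

end Pool.Agent.Lib.MP_008109_al.AB
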