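import Pool.Agent.Lib.MP_008109_al.AB.Avoid
import Pool.Agent.Lib.MP_008109_al.AB.Shrink

/-!
# MP_008109_al, module ABS: an avoidable set contains no coset of a subgroup of finite index

If the group has property (dagger), then no avoidable set contains a coset of a subgroup of
finite index.
-/

set_option autoImplicit false
universe u

namespace Pool.Agent.Lib.MP_008109_al.AB

/-- The whole group is not avoidable. -/
theorem not_avoidable_univ {X : Type u} [Group X] (hX : HasDagger X) :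
    ¬ Avoidable (Set.univ : Set X) := by
  classical
  rintro ⟨F, G, hF, hG, hcov⟩
  obtain ⟨T, hT⟩ := exists_translates G hG
  apply hX
  refine ⟨(T ×ˢ F).image (fun q => (q.1 * q.2.1 * q.1⁻¹ * (q.1 * q.2.2), q.1 * q.2.2)), ∅, ?_, ?_⟩
  · intro p hp
    obtain ⟨q, hq, rfl⟩ := Finset.mem_image.1 hp
    have hq' := Finset.mem_product.1 hq
    intro h
    apply hF q.2 hq'.2
    have h1 : q.1 * q.2.1 * q.1⁻¹ = 1 := by
      have h2 : q.1 * q.2.1 * q.1⁻¹ * (q.1 * q.2.2) = 1 * (q.1 * q.2.2) := by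
        rw [one_mul]
        exact h
      exact mul_right_cancel h2
    have h3 : q.1 * q.2.1 = q.1 * 1 := by
      rw [mul_one]
      exact mul_inv_eq_one.1 h1
    exact mul_left_cancel h3
  · intro z
    right
    obtain ⟨x, hx, hxz⟩ := hT z
    rcases hcov (x⁻¹ * z) (Set.mem_univ _) with ⟨p, hp, h⟩ | ⟨p, hp, h⟩
    · refine ⟨_, Finset.mem_image.2 ⟨(x, p), Finset.mem_product.2 ⟨hx, hp⟩, rfl⟩, ?_⟩
      change x * p.1 * x⁻¹ * (x * p.2) * z⁻¹ = z * (x * p.2)⁻¹
      rw [← h]
      group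
    · exact absurd h (hxz p hp)

theorem exists_avoid {X : Type u} [Group X] (hX : HasDagger X) {A : Set X} (hA : Avoidable A)
    (N : Subgroup X) [N.FiniteIndex] (g : X) : ∃ z : X, g⁻¹ * z ∈ N ∧ z ∉ A := by
  classical
  by_contra hcon
  push Not at hcon
  apply not_avoidable_univ hX
  have hfin : Finite (X ⧸ N) := Subgroup.finite_quotient_of_finiteIndex
  have h1 : Avoidable (⋃ q ∈ (Set.univ : Set (X ⧸ N)), {z : X | g * (Quotient.out q)⁻¹ * z ∈ A}) :=
    Avoidable.biUnion Set.finite_univ (fun q _ => hA.preimage_mul_left _)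
  have h2 : (⋃ q ∈ (Set.univ : Set (X ⧸ N)), {z : X | g * (Quotient.out q)⁻¹ * z ∈ A}) =
      Set.univ := by
    rw [Set.eq_univ_iff_forall]
    intro z
    refine Set.mem_iUnion₂.2 ⟨(z : X ⧸ N), Set.mem_univ _, ?_⟩
    change g * (Quotient.out (z : X ⧸ N))⁻¹ * z ∈ A
    apply hcon
    have h3 : ((Quotient.out (z : X ⧸ N) : X) : X ⧸ N) = (z : X ⧸ N) := Quotient.out_eq' _
    have h4 := QuotientGroup.eq.1 h3
    have h5 : g⁻¹ * (g * (Quotient.out (z : X ⧸ N))⁻¹ * z) = (Quotient.out (z : X ⧸ N))⁻¹ * z := by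
      group
    rw [h5]
    exact h4
  rw [h2] at h1
  exact h1

end Pool.Agent.Lib.MP_008109_al.AB
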