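import Pool.Agent.Lib.MP_008109_al.AB.Spec

/-!
# MP_008109_al: module AUT, the automorphism group of a group with finitely many cubes (helper22)
-/

set_option autoImplicit false

universe u

namespace Pool.Agent.Lib.MP_008109_al.AB

namespace AUTM

section

variable {G : Type u} [AddCommGroup G]

theorem card_le [Countable G] [Infinite G] : Cardinal.mk (G ≃+ G) ≤ Cardinal.continuum := by
  have hX : Cardinal.mk G = Cardinal.aleph0 := Cardinal.mk_eq_aleph0 G
  have h1 : Function.Injective (fun σ : G ≃+ G => (fun x => σ x : G → G)) := by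
    intro σ τ h
    exact AddEquiv.ext (fun x => congrFun h x)
  have h2 := Cardinal.mk_le_of_injective h1
  rw [← Cardinal.power_def, hX] at h2
  simpa using h2

/-- A transvection with a homomorphism to `ℤ / 3` that vanishes on its direction. -/
def tv (D : AddSubgroup G) (f : ZMod 3 →+ G) (hf : ∀ k, f k ∈ D) (l : G ⧸ D →+ ZMod 3) :
    G ≃+ G where
  toFun x := x + f (l (QuotientAddGroup.mk x))
  invFun x := x - f (l (QuotientAddGroup.mk x))
  left_inv x := by
    have h1 : (QuotientAddGroup.mk (x + f (l (QuotientAddGroup.mk x))) : G ⧸ D) =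
        QuotientAddGroup.mk x := by
      rw [QuotientAddGroup.eq]
      have := D.neg_mem (hf (l (QuotientAddGroup.mk x)))
      convert this using 1
      abel
    change x + f (l (QuotientAddGroup.mk x)) -
      f (l (QuotientAddGroup.mk (x + f (l (QuotientAddGroup.mk x))))) = x
    rw [h1]
    abel
  right_inv x := by
    have h1 : (QuotientAddGroup.mk (x - f (l (QuotientAddGroup.mk x))) : G ⧸ D) =
        QuotientAddGroup.mk x := by
      rw [QuotientAddGroup.eq]
      have := hf (l (QuotientAddGroup.mk x))
      convert this using 1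
      abel
    change x - f (l (QuotientAddGroup.mk x)) +
      f (l (QuotientAddGroup.mk (x - f (l (QuotientAddGroup.mk x))))) = x
    rw [h1]
    abel
  map_add' x y := by
    rw [QuotientAddGroup.mk_add, map_add, map_add]
    abel

theorem tv_apply (D : AddSubgroup G) (f : ZMod 3 →+ G) (hf : ∀ k, f k ∈ D) (l : G ⧸ D →+ ZMod 3)
    (x : G) : tv D f hf l x = x + f (l (QuotientAddGroup.mk x)) := rfl

theorem card_ge [Infinite G] (h3 : (Set.range fun x : G => 3 • x).Finite) :
    Cardinal.continuum ≤ Cardinal.mk (G ≃+ G) := by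
  classical
  let c : G →+ G := nsmulAddMonoidHom 3
  have hc : ∀ x, c x = 3 • x := fun x => rfl
  have hfr : Finite c.range := by
    have h4 : ((c.range : AddSubgroup G) : Set G) = Set.range fun x : G => 3 • x := by
      ext y
      simp [AddMonoidHom.mem_range, hc]
    exact (h4 ▸ h3 : ((c.range : AddSubgroup G) : Set G).Finite)
  have hker : Infinite c.ker := by
    by_contra h
    rw [not_infinite_iff_finite] at h
    have := (AddMonoidHom.finite_iff_finite_ker_range c).2 ⟨h, hfr⟩
    exact not_finite G
  -- an element of order three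
  obtain ⟨v, hv⟩ := exists_ne (0 : c.ker)
  have hv3 : 3 • (v : G) = 0 := by
    have := v.2
    rwa [AddMonoidHom.mem_ker, hc] at this
  have hv0 : (v : G) ≠ 0 := fun h => hv (Subtype.ext h)
  have hord : addOrderOf (v : G) = 3 := addOrderOf_eq_prime hv3 hv0
  let f : ZMod 3 →+ G := ZMod.lift 3 ⟨zmultiplesHom G (v : G), by
    simp only [zmultiplesHom_apply]
    exact_mod_cast hv3⟩
  have hfi : Function.Injective f := by
    rw [ZMod.lift_injective]
    intro m hm
    simp only [zmultiplesHom_apply] at hm
    rw [ZMod.intCast_zmod_eq_zero_iff_dvd]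
    rw [← hord]
    exact addOrderOf_dvd_iff_zsmul_eq_zero.2 hm
  let F : c.range × ZMod 3 →+ G := AddMonoidHom.coprod c.range.subtype f
  let D : AddSubgroup G := F.range
  have hFf : Finite F.range := by
    have : ((F.range : AddSubgroup G) : Set G).Finite := by
      rw [AddMonoidHom.coe_range]
      exact Set.finite_range F
    exact this
  have hfD : ∀ k, f k ∈ D := fun k => ⟨(0, k), by simp [F]⟩
  have hcD : ∀ x, 3 • x ∈ D := fun x => ⟨(⟨c x, x, rfl⟩, 0), by simp [F, hc]⟩
  have hD3 : ∀ x : G ⧸ D, 3 • x = 0 := by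
    intro x
    obtain ⟨y, rfl⟩ := QuotientAddGroup.mk_surjective x
    rw [← QuotientAddGroup.mk_nsmul, QuotientAddGroup.eq_zero_iff]
    exact hcD y
  have hinf : Infinite (G ⧸ D) := by
    by_contra h
    rw [not_infinite_iff_finite] at h
    have h5 : Finite (QuotientAddGroup.mk' D).ker := by
      rw [QuotientAddGroup.ker_mk']
      exact hFf
    have := (AddMonoidHom.finite_iff_finite_ker_range (QuotientAddGroup.mk' D)).2
      ⟨h5, inferInstance⟩
    exact not_finite G
  let _ : Module (ZMod 3) (G ⧸ D) := AddCommGroup.zmodModule (n := 3) hD3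
  let b := Module.Basis.ofVectorSpace (ZMod 3) (G ⧸ D)
  have hi : Infinite (Module.Basis.ofVectorSpaceIndex (ZMod 3) (G ⧸ D)) := by
    by_contra hfin
    rw [not_infinite_iff_finite] at hfin
    have h3 : Finite (Module.Basis.ofVectorSpaceIndex (ZMod 3) (G ⧸ D) → ZMod 3) :=
      Pi.finite
    have h4 : Finite (Module.Basis.ofVectorSpaceIndex (ZMod 3) (G ⧸ D) →₀ ZMod 3) :=
      Finite.of_equiv _ (Finsupp.equivFunOnFinite
        (α := Module.Basis.ofVectorSpaceIndex (ZMod 3) (G ⧸ D)) (M := ZMod 3)).symm
    have : Finite (G ⧸ D) := Finite.of_equiv _ b.repr.toEquiv.symm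
    exact not_finite (G ⧸ D)
  have h1 : Function.Injective
      (fun s : Module.Basis.ofVectorSpaceIndex (ZMod 3) (G ⧸ D) → ZMod 3 =>
        tv D f hfD (b.constr (ZMod 3) s).toAddMonoidHom) := by
    intro s t hst
    apply (b.constr (ZMod 3)).injective
    apply LinearMap.ext
    intro x
    obtain ⟨y, rfl⟩ := QuotientAddGroup.mk_surjective x
    have h5 := DFunLike.congr_fun hst y
    simp only [tv_apply] at h5
    exact hfi (add_left_cancel h5)
  have h2 := Cardinal.mk_le_of_injective h1
  refine le_trans ?_ h2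
  rw [Cardinal.mk_arrow, ← Cardinal.two_power_aleph0]
  have h6 : (2 : Cardinal.{u}) ≤ Cardinal.lift.{u} (Cardinal.mk (ZMod 3)) := by
    rw [Cardinal.mk_fintype, ZMod.card, Cardinal.lift_natCast]
    exact_mod_cast (by norm_num : (2 : ℕ) ≤ 3)
  have h7 : Cardinal.aleph0.{u} ≤ Cardinal.lift.{0}
      (Cardinal.mk (Module.Basis.ofVectorSpaceIndex (ZMod 3) (G ⧸ D))) := by
    rw [Cardinal.lift_uzero]
    exact Cardinal.aleph0_le_mk _
  exact le_trans (Cardinal.power_le_power_left two_ne_zero h7)
    (Cardinal.power_le_power_right h6)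

end

end AUTM

open AUTM in
/-- AUT -/
theorem card_aut_three {X : Type u} [CommGroup X] [Countable X] [Infinite X]
    (h3 : (Set.range fun x : X => x ^ 3).Finite) :
    Cardinal.mk (X ≃* X) = Cardinal.continuum := by
  have h1 : Cardinal.mk (X ≃* X) = Cardinal.mk (Additive X ≃+ Additive X) :=
    Cardinal.mk_congr MulEquiv.toAdditive
  have hc : Countable (Additive X) := ‹Countable X›
  have hi : Infinite (Additive X) := ‹Infinite X›
  rw [h1]
  apply le_antisymm (AUTM.card_le (G := Additive X))
  apply AUTM.card_ge (G := Additive X)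
  exact h3

end Pool.Agent.Lib.MP_008109_al.AB
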