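import Pool.Agent.Lib.MP_008109_al.AB.Spec2

/-!
# MP_008109_al: avoidable sets

Closure properties of `Avoidable` and the basic examples.
-/

set_option autoImplicit false

universe u

namespace Pool.Agent.Lib.MP_008109_al.AB

section ABL

variable {X : Type u} [Group X]

theorem Avoidable.mono {A B : Set X} (hB : Avoidable B) (h : A ⊆ B) : Avoidable A := by
  obtain ⟨F, G, h1, h2, h3⟩ := hB
  exact ⟨F, G, h1, h2, fun z hz => h3 z (h hz)⟩

theorem Avoidable.union {A B : Set X} (hA : Avoidable A) (hB : Avoidable B) :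
    Avoidable (A ∪ B) := by
  classical
  obtain ⟨F, G, h1, h2, h3⟩ := hA
  obtain ⟨F', G', h1', h2', h3'⟩ := hB
  refine ⟨F ∪ F', G ∪ G', ?_, ?_, ?_⟩
  · intro p hp
    rcases Finset.mem_union.1 hp with hp | hp
    · exact h1 p hp
    · exact h1' p hp
  · intro p hp
    rcases Finset.mem_union.1 hp with hp | hp
    · exact h2 p hp
    · exact h2' p hp
  · rintro z (hz | hz)
    · rcases h3 z hz with ⟨p, hp, h⟩ | ⟨p, hp, h⟩
      · exact Or.inl ⟨p, Finset.mem_union_left _ hp, h⟩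
      · exact Or.inr ⟨p, Finset.mem_union_left _ hp, h⟩
    · rcases h3' z hz with ⟨p, hp, h⟩ | ⟨p, hp, h⟩
      · exact Or.inl ⟨p, Finset.mem_union_right _ hp, h⟩
      · exact Or.inr ⟨p, Finset.mem_union_right _ hp, h⟩

theorem avoidable_empty : Avoidable (∅ : Set X) := by
  refine ⟨∅, ∅, ?_, ?_, ?_⟩
  · intro p hp
    exact absurd hp (Finset.notMem_empty p)
  · intro p hp
    exact absurd hp (Finset.notMem_empty p)
  · intro z hz
    exact absurd hz (Set.notMem_empty z)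

theorem Avoidable.biUnion {ι : Type*} {K : Set ι} (hK : K.Finite) {A : ι → Set X}
    (h : ∀ i ∈ K, Avoidable (A i)) : Avoidable (⋃ i ∈ K, A i) := by
  induction K, hK using Set.Finite.induction_on with
  | empty => simpa using (avoidable_empty : Avoidable (∅ : Set X))
  | @insert a s _ _ ih =>
    rw [Set.biUnion_insert]
    exact (h a (Set.mem_insert a s)).union (ih fun i hi => h i (Set.mem_insert_of_mem a hi))

theorem avoidable_coset (k : X) (H : Subgroup X) (hH : H.index = 0) :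
    Avoidable {z : X | k⁻¹ * z ∈ H} := by
  refine ⟨∅, {(k, H)}, ?_, ?_, ?_⟩
  · intro p hp
    exact absurd hp (Finset.notMem_empty p)
  · intro p hp
    rw [Finset.mem_singleton] at hp
    rw [hp]
    exact hH
  · intro z hz
    exact Or.inr ⟨(k, H), Finset.mem_singleton_self _, hz⟩

theorem avoidable_finite [Infinite X] {K : Set X} (hK : K.Finite) : Avoidable K := by
  have h : Avoidable (⋃ k ∈ K, {z : X | k⁻¹ * z ∈ (⊥ : Subgroup X)}) := by
    refine Avoidable.biUnion hK fun k _ => avoidable_coset k ⊥ ?_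
    rw [Subgroup.index_bot, Nat.card_eq_zero_of_infinite]
  refine h.mono fun k hk => ?_
  rw [Set.mem_iUnion₂]
  refine ⟨k, hk, ?_⟩
  rw [Set.mem_setOf_eq, inv_mul_cancel]
  exact Subgroup.one_mem _

theorem avoidable_sqrt (b c : X) (hc : c ≠ 1) : Avoidable {z : X | (z * b) * (z * b) = c} := by
  refine ⟨{(c, b⁻¹)}, ∅, ?_, ?_, ?_⟩
  · intro p hp
    rw [Finset.mem_singleton] at hp
    rw [hp]
    exact hc
  · intro p hp
    exact absurd hp (Finset.notMem_empty p)
  · intro z hz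
    refine Or.inl ⟨(c, b⁻¹), Finset.mem_singleton_self _, ?_⟩
    simpa using hz

/-- The conjugate `g H g⁻¹` of a subgroup of infinite index has infinite index. -/
theorem index_conj_eq_zero (g : X) {H : Subgroup X} (hH : H.index = 0) :
    (H.map (MulAut.conj g).toMonoidHom).index = 0 := by
  rw [Subgroup.index_map_of_bijective (MulAut.conj g).bijective]
  exact hH

theorem mem_conj_iff (g z : X) (H : Subgroup X) :
    z ∈ H.map (MulAut.conj g).toMonoidHom ↔ g⁻¹ * z * g ∈ H := by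
  rw [Subgroup.mem_map]
  constructor
  · rintro ⟨y, hy, rfl⟩
    have : g⁻¹ * (MulAut.conj g).toMonoidHom y * g = y := by
      simp [mul_assoc]
    rw [this]
    exact hy
  · intro h
    refine ⟨_, h, ?_⟩
    simp [mul_assoc]

theorem avoidable_right_coset (k : X) (H : Subgroup X) (hH : H.index = 0) :
    Avoidable {z : X | z * k⁻¹ ∈ H} := by
  refine (avoidable_coset k _ (index_conj_eq_zero k⁻¹ hH)).mono fun z hz => ?_
  rw [Set.mem_setOf_eq] at hz ⊢
  rw [mem_conj_iff]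
  have : k⁻¹⁻¹ * (k⁻¹ * z) * k⁻¹ = z * k⁻¹ := by group
  rw [this]
  exact hz

theorem avoidable_conj (w k : X) (hw : w ∉ FCc X) : Avoidable {z : X | z⁻¹ * w * z = k} := by
  have hC : (Subgroup.centralizer ({w} : Set X)).index = 0 := by
    by_contra h
    exact hw ⟨h⟩
  by_cases hne : ∃ z₀ : X, z₀⁻¹ * w * z₀ = k
  · obtain ⟨z₀, hz₀⟩ := hne
    refine (avoidable_right_coset z₀ _ hC).mono fun z hz => ?_
    rw [Set.mem_setOf_eq] at hz ⊢
    rw [Subgroup.mem_centralizer_iff]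
    rintro h rfl
    have h1 : z⁻¹ * h * z = z₀⁻¹ * h * z₀ := hz.trans hz₀.symm
    calc h * (z * z₀⁻¹) = z * (z⁻¹ * h * z) * z₀⁻¹ := by group
      _ = z * (z₀⁻¹ * h * z₀) * z₀⁻¹ := by rw [h1]
      _ = z * z₀⁻¹ * h := by group
  · refine avoidable_empty.mono fun z hz => ?_
    exact (hne ⟨z, hz⟩).elim

theorem Avoidable.preimage_mul_left {A : Set X} (hA : Avoidable A) (g : X) :
    Avoidable {z : X | g * z ∈ A} := by
  classical
  obtain ⟨F, G, h1, h2, h3⟩ := hA
  refine ⟨F.image fun p => (g⁻¹ * p.1 * g, g⁻¹ * p.2), G.image fun p => (g⁻¹ * p.1, p.2),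
    ?_, ?_, ?_⟩
  · intro p hp
    obtain ⟨q, hq, rfl⟩ := Finset.mem_image.1 hp
    intro h
    apply h1 q hq
    have h' : g⁻¹ * q.1 * g = 1 := h
    have : q.1 = g * (g⁻¹ * q.1 * g) * g⁻¹ := by group
    rw [this, h']
    group
  · intro p hp
    obtain ⟨q, hq, rfl⟩ := Finset.mem_image.1 hp
    exact h2 q hq
  · intro z hz
    rcases h3 _ hz with ⟨p, hp, h⟩ | ⟨p, hp, h⟩
    · refine Or.inl ⟨_, Finset.mem_image_of_mem _ hp, ?_⟩
      change z * (g⁻¹ * p.2)⁻¹ * (z * (g⁻¹ * p.2)⁻¹) = g⁻¹ * p.1 * g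
      rw [← h]
      group
    · refine Or.inr ⟨_, Finset.mem_image_of_mem _ hp, ?_⟩
      change (g⁻¹ * p.1)⁻¹ * z ∈ p.2
      have : (g⁻¹ * p.1)⁻¹ * z = p.1⁻¹ * (g * z) := by group
      rw [this]
      exact h

theorem Avoidable.preimage_mul_right {A : Set X} (hA : Avoidable A) (g : X) :
    Avoidable {z : X | z * g ∈ A} := by
  classical
  obtain ⟨F, G, h1, h2, h3⟩ := hA
  refine ⟨F.image fun p => (p.1, p.2 * g⁻¹),
    G.image fun p => (p.1 * g⁻¹, p.2.map (MulAut.conj g).toMonoidHom), ?_, ?_, ?_⟩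
  · intro p hp
    obtain ⟨q, hq, rfl⟩ := Finset.mem_image.1 hp
    exact h1 q hq
  · intro p hp
    obtain ⟨q, hq, rfl⟩ := Finset.mem_image.1 hp
    exact index_conj_eq_zero g (h2 q hq)
  · intro z hz
    rcases h3 _ hz with ⟨p, hp, h⟩ | ⟨p, hp, h⟩
    · refine Or.inl ⟨_, Finset.mem_image_of_mem _ hp, ?_⟩
      change z * (p.2 * g⁻¹)⁻¹ * (z * (p.2 * g⁻¹)⁻¹) = p.1
      rw [← h]
      group
    · refine Or.inr ⟨_, Finset.mem_image_of_mem _ hp, ?_⟩
      change (p.1 * g⁻¹)⁻¹ * z ∈ p.2.map (MulAut.conj g).toMonoidHom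
      rw [mem_conj_iff]
      have : g⁻¹ * ((p.1 * g⁻¹)⁻¹ * z) * g = p.1⁻¹ * (z * g) := by group
      rw [this]
      exact h

end ABL

end Pool.Agent.Lib.MP_008109_al.AB
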