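import Pool.Agent.Lib.MP_008109_al.AB.Spec2

/-!
# MP_008109_al: module CEN, back-and-forth over a central subgroup of exponent three (helper92)

Let `X = F0 Z` with `F0` finite and `Z` central, of exponent three. Two special subsets which agree on
`F0` are moved to each other by an automorphism of `X` which fixes `F0` pointwise.
-/

set_option autoImplicit false
universe u

namespace Pool.Agent.Lib.MP_008109_al.AB

namespace CENM

/-- Representatives of finitely many cosets of an infinite subgroup whose quotients avoid a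
symmetric finite set. -/
theorem exists_reps {X : Type u} [Group X] (Z : Subgroup X) (hZ : Infinite Z)
    (D : Finset X) (hD : ∀ d ∈ D, d⁻¹ ∈ D) (Q : Finset (X ⧸ Z)) :
    ∃ a : X ⧸ Z → X, (∀ q, ((a q : X) : X ⧸ Z) = q) ∧
      ∀ q ∈ Q, ∀ q' ∈ Q, q ≠ q' → a q * (a q')⁻¹ ∉ D := by
  classical
  induction Q using Finset.induction_on with
  | empty =>
    exact ⟨Quotient.out, fun q => QuotientGroup.out_eq' q, by simp⟩
  | insert q Q hq ih =>
    obtain ⟨a, ha, hav⟩ := ih
    let B : Finset X := Q.biUnion fun r => D.image fun d => (a q)⁻¹ * (d * a r)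
    obtain ⟨h, hh⟩ := Infinite.exists_notMem_finset (B.preimage (fun h : Z => (h : X))
      (Subtype.val_injective.injOn))
    have hh' : (h : X) ∉ B := by
      intro hc
      exact hh (by simpa using hc)
    let c : X := a q * h
    have hc : ((c : X) : X ⧸ Z) = q := by
      have : ((a q * (h : X) : X) : X ⧸ Z) = (a q : X) := by
        rw [eq_comm, QuotientGroup.eq]
        simp
      rw [show ((c : X) : X ⧸ Z) = ((a q * (h : X) : X) : X ⧸ Z) from rfl, this, ha q]
    have hcD : ∀ r ∈ Q, c * (a r)⁻¹ ∉ D := by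
      intro r hr hd
      apply hh'
      simp only [B, Finset.mem_biUnion, Finset.mem_image]
      refine ⟨r, hr, c * (a r)⁻¹, hd, ?_⟩
      simp only [c]
      group
    refine ⟨Function.update a q c, ?_, ?_⟩
    · intro r
      by_cases hr : r = q
      · subst hr
        simpa using hc
      · rw [Function.update_of_ne hr]
        exact ha r
    · intro r hr r' hr' hne
      rw [Finset.mem_insert] at hr hr'
      rcases hr with rfl | hr
      · rcases hr' with rfl | hr'
        · exact absurd rfl hne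
        · rw [Function.update_self, Function.update_of_ne (fun h => hne h.symm)]
          exact hcD r' hr'
      · rcases hr' with rfl | hr'
        · rw [Function.update_self, Function.update_of_ne hne]
          intro hd
          apply hcD r hr
          have := hD _ hd
          rwa [mul_inv_rev, inv_inv] at this
        · have h1 : r ≠ q := fun h => hq (h ▸ hr)
          have h2 : r' ≠ q := fun h => hq (h ▸ hr')
          rw [Function.update_of_ne h1, Function.update_of_ne h2]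
          exact hav r hr r' hr' hne

theorem infinite_of {X : Type u} [Group X] [Infinite X] (Z : Subgroup X) [Z.FiniteIndex] :
    Infinite Z := by
  by_contra hc
  rw [not_infinite_iff_finite] at hc
  have hq : Finite (X ⧸ Z) := inferInstance
  have : Finite X := Finite.of_equiv _ (Subgroup.groupEquivQuotientProdSubgroup (s := Z)).symm
  exact not_finite X

/-- the witness can be chosen in a normal subgroup of finite index -/
theorem ext_normal {X : Type u} [Group X] [Infinite X] (T : Set X) (hT : StrongSpecial T)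
    (Z : Subgroup X) [Z.Normal] [Z.FiniteIndex] (U V : Finset X) (hd : Disjoint U V) :
    ∃ z ∈ Z, z ∉ U ∧ z ∉ V ∧ (∀ u ∈ U, z * u⁻¹ ∈ T) ∧ (∀ v ∈ V, z * v⁻¹ ∉ T) := by
  classical
  have hfq : Finite (X ⧸ Z) := inferInstance
  have hZi : Infinite Z := infinite_of Z
  have := Fintype.ofFinite (X ⧸ Z)
  let D : Finset X := (U ×ˢ V).image (fun p => p.1⁻¹ * p.2) ∪
    (U ×ˢ V).image (fun p => p.2⁻¹ * p.1)
  have hD : ∀ d ∈ D, d⁻¹ ∈ D := by
    intro d hd
    simp only [D, Finset.mem_union, Finset.mem_image, Finset.mem_product] at hd ⊢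
    rcases hd with ⟨p, hp, rfl⟩ | ⟨p, hp, rfl⟩
    · exact Or.inr ⟨p, hp, by group⟩
    · exact Or.inl ⟨p, hp, by group⟩
  obtain ⟨a, ha, hav⟩ := exists_reps Z hZi D hD Finset.univ
  let U' : Finset X := Finset.univ.biUnion fun q : X ⧸ Z => U.image fun u => u * a q
  let V' : Finset X := Finset.univ.biUnion fun q : X ⧸ Z => V.image fun v => v * a q
  have hU' : ∀ q, ∀ u ∈ U, u * a q ∈ U' := by
    intro q u hu
    simp only [U', Finset.mem_biUnion, Finset.mem_image]
    exact ⟨q, Finset.mem_univ q, u, hu, rfl⟩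
  have hV' : ∀ q, ∀ v ∈ V, v * a q ∈ V' := by
    intro q v hv
    simp only [V', Finset.mem_biUnion, Finset.mem_image]
    exact ⟨q, Finset.mem_univ q, v, hv, rfl⟩
  have hd' : Disjoint U' V' := by
    rw [Finset.disjoint_left]
    intro b hbU hbV
    simp only [U', V', Finset.mem_biUnion, Finset.mem_image] at hbU hbV
    obtain ⟨q, -, u, hu, rfl⟩ := hbU
    obtain ⟨q', -, v, hv, he⟩ := hbV
    by_cases hq : q = q'
    · subst hq
      have : v = u := mul_right_cancel he
      subst this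
      exact (Finset.disjoint_left.1 hd) hu hv
    · apply hav q (Finset.mem_univ _) q' (Finset.mem_univ _) hq
      have : a q * (a q')⁻¹ = u⁻¹ * v := by
        rw [mul_inv_eq_iff_eq_mul, mul_assoc, he]
        group
      rw [this]
      simp only [D, Finset.mem_union, Finset.mem_image, Finset.mem_product]
      exact Or.inl ⟨(u, v), ⟨hu, hv⟩, rfl⟩
  obtain ⟨z, hzU, hzV, h1, h2⟩ := hT.2.2 U' V' hd'
  let q : X ⧸ Z := ((z : X) : X ⧸ Z)
  refine ⟨z * (a q)⁻¹, ?_, ?_, ?_, ?_, ?_⟩
  · have h3 : ((a q : X) : X ⧸ Z) = ((z : X) : X ⧸ Z) := ha q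
    rw [QuotientGroup.eq] at h3
    have h4 := (inferInstance : Z.Normal).conj_mem _ h3 (a q)
    have e : a q * ((a q)⁻¹ * z) * (a q)⁻¹ = z * (a q)⁻¹ := by group
    rwa [e] at h4
  · intro h
    apply hzU
    have := hU' q _ h
    rwa [inv_mul_cancel_right] at this
  · intro h
    apply hzV
    have := hV' q _ h
    rwa [inv_mul_cancel_right] at this
  · intro u hu
    have := h1 _ (hU' q u hu)
    rwa [mul_inv_rev, ← mul_assoc] at this
  · intro v hv
    have := h2 _ (hV' q v hv)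
    rwa [mul_inv_rev, ← mul_assoc] at this

section Fit

variable {X : Type u} [Group X]

/-- A finite partial isomorphism from `(X, S)` to `(X, T)` which is the identity on `F0`. -/
structure Fit (F0 : Subgroup X) (S T : Set X) (A : Subgroup (X × X)) : Prop where
  fin : (A : Set (X × X)).Finite
  one : ∀ p ∈ A, p.1 = 1 ↔ p.2 = 1
  mem : ∀ p ∈ A, p.1 ∈ S ↔ p.2 ∈ T
  diag : ∀ x ∈ F0, (x, x) ∈ A

/-- Adjoin one central element of order three. -/
def adj3 (A : Subgroup (X × X)) (q : X × X) (hq : ∀ p, q * p = p * q) (h3 : q * q * q = 1) :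
    Subgroup (X × X) where
  carrier := {p | p ∈ A ∨ p * q⁻¹ ∈ A ∨ p * q ∈ A}
  one_mem' := Or.inl A.one_mem
  mul_mem' := by
    have hqi : ∀ p, q⁻¹ * p = p * q⁻¹ := fun p => by
      rw [inv_mul_eq_iff_eq_mul, ← mul_assoc, hq, mul_inv_cancel_right]
    have hqq : q * q = q⁻¹ := by
      rw [eq_inv_iff_mul_eq_one]
      exact h3
    have hqq' : q⁻¹ * q⁻¹ = q := by
      rw [← mul_inv_rev, hqq, inv_inv]
    rintro a b (ha | ha | ha) (hb | hb | hb)
    · exact Or.inl (A.mul_mem ha hb)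
    · right; left
      have := A.mul_mem ha hb
      rwa [← mul_assoc] at this
    · right; right
      have := A.mul_mem ha hb
      rwa [← mul_assoc] at this
    · right; left
      have := A.mul_mem ha hb
      have e : a * b * q⁻¹ = a * q⁻¹ * b := by rw [mul_assoc, mul_assoc, hqi]
      rw [e]; exact this
    · right; right
      have := A.mul_mem ha hb
      have e : a * b * q = a * q⁻¹ * (b * q⁻¹) := by
        rw [mul_assoc a q⁻¹, ← mul_assoc q⁻¹ b, hqi, mul_assoc b, hqq', mul_assoc]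
      rw [e]; exact this
    · left
      have := A.mul_mem ha hb
      have e : a * b = a * q⁻¹ * (b * q) := by
        rw [mul_assoc a q⁻¹, ← mul_assoc q⁻¹ b, hqi, mul_assoc b, inv_mul_cancel, mul_one]
      rw [e]; exact this
    · right; right
      have := A.mul_mem ha hb
      have e : a * b * q = a * q * b := by rw [mul_assoc, mul_assoc, hq]
      rw [e]; exact this
    · left
      have := A.mul_mem ha hb
      have e : a * b = a * q * (b * q⁻¹) := by
        rw [mul_assoc a q, ← mul_assoc q b, hq, mul_assoc b, mul_inv_cancel, mul_one]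
      rw [e]; exact this
    · right; left
      have := A.mul_mem ha hb
      have e : a * b * q⁻¹ = a * q * (b * q) := by
        rw [mul_assoc a q, ← mul_assoc q b, hq, mul_assoc b, hqq, mul_assoc]
      rw [e]; exact this
  inv_mem' := by
    have hqi : ∀ p, q⁻¹ * p = p * q⁻¹ := fun p => by
      rw [inv_mul_eq_iff_eq_mul, ← mul_assoc, hq, mul_inv_cancel_right]
    rintro a (ha | ha | ha)
    · exact Or.inl (A.inv_mem ha)
    · right; right
      have := A.inv_mem ha
      rw [mul_inv_rev, inv_inv, hq] at this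
      exact this
    · right; left
      have := A.inv_mem ha
      rw [mul_inv_rev, hqi] at this
      exact this

theorem le_adj3 (A : Subgroup (X × X)) (q : X × X) (hq : ∀ p, q * p = p * q)
    (h3 : q * q * q = 1) : A ≤ adj3 A q hq h3 := fun _ hp => Or.inl hp

theorem fit_central [Infinite X] (Z : Subgroup X) (hZ : Z ≤ Subgroup.center X)
    (h3 : ∀ z ∈ Z, z * z * z = 1) [Z.FiniteIndex] (F0 : Subgroup X)
    (S T : Set X) (hS : StrongSpecial S) (hT : StrongSpecial T) (A : Subgroup (X × X))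
    (hA : Fit F0 S T A) (v : X) (hvZ : v ∈ Z) :
    ∃ A' : Subgroup (X × X), Fit F0 S T A' ∧ A ≤ A' ∧ ∃ y, (v, y) ∈ A' := by
  classical
  by_cases hv : ∃ y, (v, y) ∈ A
  · exact ⟨A, hA, le_rfl, hv⟩
  obtain ⟨hfin, h1, hm, hdg⟩ := hA
  have hcen : ∀ z ∈ Z, ∀ g, z * g = g * z := fun z hz g =>
    (Subgroup.mem_center_iff.1 (hZ hz) g).symm
  have hnorm : Z.Normal := ⟨fun n hn g => by
    rw [← hcen n hn g, mul_inv_cancel_right]
    exact hn⟩
  let U : Finset X := (hfin.toFinset.filter (fun p => v * p.1 ∈ S)).image fun p => p.2⁻¹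
  let V : Finset X := (hfin.toFinset.filter (fun p => v * p.1 ∉ S)).image fun p => p.2⁻¹
  have hinj : ∀ p ∈ A, ∀ q ∈ A, p.2 = q.2 → p.1 = q.1 := by
    intro p hp q hq h
    have hpq := A.mul_mem hp (A.inv_mem hq)
    have := (h1 _ hpq).2 (by simp [h])
    simpa [mul_inv_eq_one] using this
  have hdisj : Disjoint U V := by
    rw [Finset.disjoint_left]
    intro b hbU hbV
    simp only [U, V, Finset.mem_image, Finset.mem_filter, Set.Finite.mem_toFinset,
      SetLike.mem_coe] at hbU hbV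
    obtain ⟨p, ⟨hp, hpS⟩, rfl⟩ := hbU
    obtain ⟨q, ⟨hq, hqS⟩, hqp⟩ := hbV
    rw [hinj q hq p hp (inv_injective hqp)] at hqS
    exact hqS hpS
  obtain ⟨z, hzZ, hzU, hzV, hU, hV⟩ := ext_normal T hT Z U V hdisj
  have hz : ∀ p ∈ A, p.2 ≠ z := by
    rintro p hp rfl
    have hpn : p⁻¹ ∈ A := A.inv_mem hp
    by_cases hc : v * (p⁻¹).1 ∈ S
    · apply hzU
      simp only [U, Finset.mem_image, Finset.mem_filter, Set.Finite.mem_toFinset, SetLike.mem_coe]
      exact ⟨p⁻¹, ⟨hpn, hc⟩, by simp⟩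
    · apply hzV
      simp only [V, Finset.mem_image, Finset.mem_filter, Set.Finite.mem_toFinset, SetLike.mem_coe]
      exact ⟨p⁻¹, ⟨hpn, hc⟩, by simp⟩
  have hzS : ∀ p ∈ A, (v * p.1 ∈ S ↔ z * p.2 ∈ T) := by
    intro p hp
    by_cases hc : v * p.1 ∈ S
    · have : p.2⁻¹ ∈ U := by
        simp only [U, Finset.mem_image, Finset.mem_filter, Set.Finite.mem_toFinset,
          SetLike.mem_coe]
        exact ⟨p, ⟨hp, hc⟩, rfl⟩
      have h := hU _ this
      rw [inv_inv] at h
      exact ⟨fun _ => h, fun _ => hc⟩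
    · have : p.2⁻¹ ∈ V := by
        simp only [V, Finset.mem_image, Finset.mem_filter, Set.Finite.mem_toFinset,
          SetLike.mem_coe]
        exact ⟨p, ⟨hp, hc⟩, rfl⟩
      have h := hV _ this
      rw [inv_inv] at h
      exact ⟨fun h' => absurd h' hc, fun h' => absurd h' h⟩
  have hq3 : ((v, z) : X × X) * (v, z) * (v, z) = 1 := by
    ext
    · exact h3 v hvZ
    · exact h3 z hzZ
  have hqc : ∀ p : X × X, ((v, z) : X × X) * p = p * (v, z) := by
    intro p
    ext
    · exact hcen v hvZ p.1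
    · exact hcen z hzZ p.2
  have hsymS : ∀ s, s ∈ S ↔ s⁻¹ ∈ S := fun s =>
    ⟨fun h => hS.1 s h, fun h => by simpa using hS.1 _ h⟩
  have hsymT : ∀ s, s ∈ T ↔ s⁻¹ ∈ T := fun s =>
    ⟨fun h => hT.1 s h, fun h => by simpa using hT.1 _ h⟩
  have hplus0 : ∀ p : X × X, p * (v, z)⁻¹ ∈ A → (p.1 ≠ 1 ∧ p.2 ≠ 1) := by
    intro p hp
    have hn := A.inv_mem hp
    constructor
    · intro h
      apply hv
      refine ⟨z * p.2⁻¹, ?_⟩
      have : (v, z * p.2⁻¹) = (p * (v, z)⁻¹)⁻¹ := by
        ext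
        · simp [h]
        · simp
      rw [this]
      exact hn
    · intro h
      apply hz _ hn
      simp [h]
  have hplusm : ∀ p : X × X, p * (v, z)⁻¹ ∈ A → (p.1 ∈ S ↔ p.2 ∈ T) := by
    intro p hp
    have h5 := hzS _ hp
    have e1 : v * (p * (v, z)⁻¹).1 = p.1 := by
      change v * (p.1 * v⁻¹) = p.1
      rw [hcen v hvZ, inv_mul_cancel_right]
    have e2 : z * (p * (v, z)⁻¹).2 = p.2 := by
      change z * (p.2 * z⁻¹) = p.2
      rw [hcen z hzZ, inv_mul_cancel_right]
    rw [e1, e2] at h5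
    exact h5
  have hflip : ∀ p : X × X, p * (v, z) ∈ A → p⁻¹ * (v, z)⁻¹ ∈ A := by
    intro p hp
    have h5 := A.inv_mem hp
    rw [← hqc, mul_inv_rev] at h5
    exact h5
  refine ⟨adj3 A (v, z) hqc hq3, ⟨?_, ?_, ?_, ?_⟩, le_adj3 A _ hqc hq3, z, ?_⟩
  · have hsub : ((adj3 A (v, z) hqc hq3 : Subgroup (X × X)) : Set (X × X)) ⊆
        (A : Set (X × X)) ∪ ((fun p => p * (v, z)) '' (A : Set (X × X)) ∪
          (fun p => p * (v, z)⁻¹) '' (A : Set (X × X))) := by
      rintro p (hp | hp | hp)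
      · exact Or.inl hp
      · right; left
        exact ⟨p * (v, z)⁻¹, hp, inv_mul_cancel_right _ _⟩
      · right; right
        exact ⟨p * (v, z), hp, mul_inv_cancel_right _ _⟩
    exact (hfin.union ((hfin.image _).union (hfin.image _))).subset hsub
  · rintro p (hp | hp | hp)
    · exact h1 p hp
    · have := hplus0 p hp
      exact ⟨fun h => absurd h this.1, fun h => absurd h this.2⟩
    · have := hplus0 p⁻¹ (hflip p hp)
      constructor
      · intro h
        exact absurd (by simp [h]) this.1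
      · intro h
        exact absurd (by simp [h]) this.2
  · rintro p (hp | hp | hp)
    · exact hm p hp
    · exact hplusm p hp
    · have := hplusm p⁻¹ (hflip p hp)
      rw [hsymS, hsymT]
      exact this
  · intro x hx
    exact Or.inl (hdg x hx)
  · right; left
    rw [mul_inv_cancel]
    exact A.one_mem

theorem fit_extend [Infinite X] (Z : Subgroup X) (hZ : Z ≤ Subgroup.center X)
    (h3 : ∀ z ∈ Z, z * z * z = 1) [Z.FiniteIndex] (F0 : Subgroup X)
    (hFZ : ∀ x : X, ∃ f ∈ F0, ∃ z ∈ Z, x = f * z)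
    (S T : Set X) (hS : StrongSpecial S) (hT : StrongSpecial T) (A : Subgroup (X × X))
    (hA : Fit F0 S T A) (v : X) :
    ∃ A' : Subgroup (X × X), Fit F0 S T A' ∧ A ≤ A' ∧ ∃ y, (v, y) ∈ A' := by
  obtain ⟨f, hf, z, hz, rfl⟩ := hFZ v
  obtain ⟨A', hA', hle, y, hy⟩ := fit_central Z hZ h3 F0 S T hS hT A hA z hz
  exact ⟨A', hA', hle, f * y, A'.mul_mem (hA'.diag f hf) hy⟩

theorem fit_swap (F0 : Subgroup X) (S T : Set X) (A : Subgroup (X × X)) (hA : Fit F0 S T A) :
    Fit F0 T S (A.comap (MulEquiv.prodComm : X × X ≃* X × X).toMonoidHom) := by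
  obtain ⟨hfin, h0, hm, htr⟩ := hA
  refine ⟨?_, ?_, ?_, ?_⟩
  · rw [Subgroup.coe_comap]
    apply Set.Finite.preimage _ hfin
    exact (MulEquiv.prodComm : X × X ≃* X × X).injective.injOn
  · intro p hp
    exact (h0 _ hp).symm
  · intro p hp
    exact (hm _ hp).symm
  · intro x hx
    exact htr x hx

theorem fit_extend' [Infinite X] (Z : Subgroup X) (hZ : Z ≤ Subgroup.center X)
    (h3 : ∀ z ∈ Z, z * z * z = 1) [Z.FiniteIndex] (F0 : Subgroup X)
    (hFZ : ∀ x : X, ∃ f ∈ F0, ∃ z ∈ Z, x = f * z)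
    (S T : Set X) (hS : StrongSpecial S) (hT : StrongSpecial T) (A : Subgroup (X × X))
    (hA : Fit F0 S T A) (y : X) :
    ∃ A' : Subgroup (X × X), Fit F0 S T A' ∧ A ≤ A' ∧ ∃ x, (x, y) ∈ A' := by
  obtain ⟨A', hA', hle, x, hx⟩ :=
    fit_extend Z hZ h3 F0 hFZ T S hT hS _ (fit_swap F0 S T A hA) y
  refine ⟨_, fit_swap F0 T S A' hA', ?_, x, ?_⟩
  · intro p hp
    apply hle
    exact hp
  · exact hx

/-- A group with a special subset is infinite. -/
theorem infinite_of_special {S : Set X} (hS : StrongSpecial S) : Infinite X := by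
  classical
  by_contra hc
  rw [not_infinite_iff_finite] at hc
  have := Fintype.ofFinite X
  obtain ⟨z, hz, -⟩ := hS.2.2 Finset.univ ∅ (by simp)
  exact hz (Finset.mem_univ z)

end Fit

end CENM

open CENM in
/-- Two special subsets which agree on `F0` are in one orbit of the pointwise stabilizer of `F0`. -/
theorem orbit_central {X : Type u} [Group X] [Countable X] (Z : Subgroup X)
    (hZ : Z ≤ Subgroup.center X) (h3 : ∀ z ∈ Z, z * z * z = 1) [Z.FiniteIndex]
    (F0 : Subgroup X) (hF0 : (F0 : Set X).Finite) (hFZ : ∀ x : X, ∃ f ∈ F0, ∃ z ∈ Z, x = f * z)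
    (S T : Set X) (hS : IsSpecial S) (hT : IsSpecial T) (h : ∀ x ∈ F0, x ∈ S ↔ x ∈ T) :
    ∃ α : X ≃* X, (∀ x ∈ F0, α x = x) ∧ α '' S = T := by
  classical
  have hS' := hS.strong
  have hT' := hT.strong
  have hinf : Infinite X := infinite_of_special hS'
  have : Encodable X := Encodable.ofCountable X
  let P := {A : Subgroup (X × X) // Fit F0 S T A}
  let D : X ⊕ X → Order.Cofinal P := fun s => match s with
    | Sum.inl x =>
      { carrier := {A : P | ∃ y, (x, y) ∈ A.1}
        isCofinal := by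
          rintro ⟨A, hA⟩
          obtain ⟨A', hA', hle, h⟩ := fit_extend Z hZ h3 F0 hFZ S T hS' hT' A hA x
          exact ⟨⟨A', hA'⟩, h, hle⟩ }
    | Sum.inr y =>
      { carrier := {A : P | ∃ x, (x, y) ∈ A.1}
        isCofinal := by
          rintro ⟨A, hA⟩
          obtain ⟨A', hA', hle, h⟩ := fit_extend' Z hZ h3 F0 hFZ S T hS' hT' A hA y
          exact ⟨⟨A', hA'⟩, h, hle⟩ }
  -- the start: the diagonal over `F0`
  let f : X →* X × X := MonoidHom.prod (MonoidHom.id X) (MonoidHom.id X)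
  have hf : ∀ x, f x = (x, x) := fun _ => rfl
  have hbot : Fit F0 S T (F0.map f) := by
    refine ⟨?_, ?_, ?_, ?_⟩
    · rw [Subgroup.coe_map]
      exact hF0.image _
    · rintro p ⟨x, _, rfl⟩
      exact Iff.rfl
    · rintro p ⟨x, hx, rfl⟩
      exact h x hx
    · intro x hx
      exact ⟨x, hx, rfl⟩
  let I : Order.Ideal P := Order.idealOfCofinals ⟨F0.map f, hbot⟩ D
  have hl : ∀ x : X, ∃ y, ∃ A ∈ I, (x, y) ∈ A.1 := by
    intro x
    obtain ⟨A, hA, hAI⟩ := Order.cofinal_meets_idealOfCofinals (⟨F0.map f, hbot⟩ : P) D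
      (Sum.inl x)
    obtain ⟨y, hy⟩ := hA
    exact ⟨y, A, hAI, hy⟩
  have hr : ∀ y : X, ∃ x, ∃ A ∈ I, (x, y) ∈ A.1 := by
    intro y
    obtain ⟨A, hA, hAI⟩ := Order.cofinal_meets_idealOfCofinals (⟨F0.map f, hbot⟩ : P) D
      (Sum.inr y)
    obtain ⟨x, hx⟩ := hA
    exact ⟨x, A, hAI, hx⟩
  have hI0 : (⟨F0.map f, hbot⟩ : P) ∈ I := Order.mem_idealOfCofinals _ D
  have hadd : ∀ p q : X × X, (∃ A ∈ I, p ∈ A.1) → (∃ A ∈ I, q ∈ A.1) →
      ∃ A ∈ I, p * q ∈ A.1 := by
    rintro p q ⟨A, hA, hp⟩ ⟨B, hB, hq⟩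
    obtain ⟨K, hK, hAK, hBK⟩ := I.directed A hA B hB
    exact ⟨K, hK, K.1.mul_mem (hAK hp) (hBK hq)⟩
  have hneg : ∀ p : X × X, (∃ A ∈ I, p ∈ A.1) → ∃ A ∈ I, p⁻¹ ∈ A.1 := by
    rintro p ⟨A, hA, hp⟩
    exact ⟨A, hA, A.1.inv_mem hp⟩
  have hzero : ∀ p : X × X, (∃ A ∈ I, p ∈ A.1) → (p.1 = 1 ↔ p.2 = 1) := by
    rintro p ⟨A, hA, hp⟩
    exact A.2.one p hp
  have hST : ∀ p : X × X, (∃ A ∈ I, p ∈ A.1) → (p.1 ∈ S ↔ p.2 ∈ T) := by
    rintro p ⟨A, hA, hp⟩
    exact A.2.mem p hp
  choose a ha using hl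
  choose b hb using hr
  have huniq : ∀ x y y' : X, (∃ A ∈ I, (x, y) ∈ A.1) → (∃ A ∈ I, (x, y') ∈ A.1) → y = y' := by
    intro x y y' h h'
    have := (hzero _ (hadd _ _ h (hneg _ h'))).1 (by simp)
    simpa [mul_inv_eq_one] using this
  have huniq' : ∀ x x' y : X, (∃ A ∈ I, (x, y) ∈ A.1) → (∃ A ∈ I, (x', y) ∈ A.1) → x = x' := by
    intro x x' y h h'
    have := (hzero _ (hadd _ _ h (hneg _ h'))).2 (by simp)
    simpa [mul_inv_eq_one] using this
  let α : X ≃* X :=
    { toFun := a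
      invFun := b
      left_inv := fun x => huniq' _ _ _ (hb (a x)) (ha x)
      right_inv := fun y => huniq _ _ _ (ha (b y)) (hb y)
      map_mul' := fun x y => by
        have := hadd _ _ (ha x) (ha y)
        exact huniq _ _ _ (ha (x * y)) this }
  refine ⟨α, ?_, ?_⟩
  · intro x hx
    exact huniq _ _ _ (ha x) ⟨_, hI0, ⟨x, hx, rfl⟩⟩
  · ext y
    constructor
    · rintro ⟨x, hx, rfl⟩
      exact (hST _ (ha x)).1 hx
    · intro hy
      refine ⟨b y, (hST _ (hb y)).2 hy, ?_⟩
      exact huniq _ _ _ (ha (b y)) (hb y)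

end Pool.Agent.Lib.MP_008109_al.AB
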