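import Pool.Agent.Lib.MP_008109_al.AB.Spec

/-!
# MP_008109_al: coding graphs on the natural numbers in special subsets
-/

set_option autoImplicit false

universe u

namespace Pool.Agent.Lib.MP_008109_al.AB

/-- Elements of word length at most `n` over `B`. -/
def L {G : Type u} [AddCommGroup G] (B : Set G) : ℕ → Set G
  | 0 => {0}
  | n + 1 => {x | ∃ b y, (b = 0 ∨ b ∈ B ∨ -b ∈ B) ∧ y ∈ L B n ∧ x = b + y}

namespace L

variable {G : Type u} [AddCommGroup G] {B B' : Set G} {m n : ℕ} {x y : G}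

theorem zero_mem (n : ℕ) : (0 : G) ∈ L B n := by
  induction n with
  | zero => exact rfl
  | succ n ih => exact ⟨0, 0, Or.inl rfl, ih, by simp⟩

theorem succ (h : x ∈ L B n) : x ∈ L B (n + 1) := ⟨0, x, Or.inl rfl, h, by simp⟩

theorem mono (h : x ∈ L B m) (hmn : m ≤ n) : x ∈ L B n := by
  induction n, hmn using Nat.le_induction with
  | base => exact h
  | succ k _ ih => exact succ ih

theorem one (h : x ∈ B) : x ∈ L B 1 := ⟨x, 0, Or.inr (Or.inl h), rfl, by simp⟩

theorem add (hx : x ∈ L B m) (hy : y ∈ L B n) : x + y ∈ L B (m + n) := by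
  induction m generalizing x with
  | zero =>
    have h0 : x = 0 := hx
    subst h0
    simpa using hy
  | succ m ih =>
    obtain ⟨b, z, hb, hz, rfl⟩ := hx
    have h := ih hz
    rw [Nat.succ_add]
    exact ⟨b, z + y, hb, h, by abel⟩

theorem neg (hx : x ∈ L B n) : -x ∈ L B n := by
  induction n generalizing x with
  | zero =>
    have h0 : x = 0 := hx
    subst h0
    rw [neg_zero]
    exact rfl
  | succ n ih =>
    obtain ⟨b, z, hb, hz, rfl⟩ := hx
    refine ⟨-b, -z, ?_, ih hz, by abel⟩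
    rcases hb with rfl | hb | hb
    · left; simp
    · right; right; simpa using hb
    · right; left; exact hb

theorem sub (hx : x ∈ L B m) (hy : y ∈ L B n) : x - y ∈ L B (m + n) := by
  rw [sub_eq_add_neg]
  exact add hx (neg hy)

theorem subset (hB : B ⊆ B') (h : x ∈ L B n) : x ∈ L B' n := by
  induction n generalizing x with
  | zero => exact h
  | succ n ih =>
    obtain ⟨b, z, hb, hz, rfl⟩ := h
    refine ⟨b, z, ?_, ih hz, rfl⟩
    rcases hb with rfl | hb | hb
    · exact Or.inl rfl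
    · exact Or.inr (Or.inl (hB hb))
    · exact Or.inr (Or.inr (hB hb))

theorem finite (hB : B.Finite) (n : ℕ) : (L B n).Finite := by
  induction n with
  | zero => exact Set.finite_singleton _
  | succ n ih =>
    have h1 : ({0} ∪ B ∪ (Neg.neg '' B)).Finite :=
      ((Set.finite_singleton _).union hB).union (hB.image _)
    refine ((h1.prod ih).image (fun p => p.1 + p.2)).subset ?_
    rintro x ⟨b, z, hb, hz, rfl⟩
    refine ⟨(b, z), ⟨?_, hz⟩, rfl⟩
    rcases hb with rfl | hb | hb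
    · exact Or.inl (Or.inl rfl)
    · exact Or.inl (Or.inr hb)
    · exact Or.inr ⟨-b, hb, by simp⟩

end L

/-- Generic sequences. -/
theorem exists_gen_seq {G : Type u} [AddCommGroup G] (Q : G → G → Prop)
    (gen : ∀ K : Finset G, ∃ g : G, ∀ a ∈ K, Q g a) (C : ℕ → Finset G) :
    ∃ g : ℕ → G, ∀ k, ∀ a ∈ L ((C k : Set G) ∪ g '' {m | m < k}) 8, Q (g k) a := by
  classical
  have hfin : ∀ (n : ℕ) (f : (m : ℕ) → m < n → G),
      (L ((C n : Set G) ∪ {x | ∃ (m : ℕ) (h : m < n), x = f m h}) 8).Finite := by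
    intro n f
    apply L.finite
    refine (C n).finite_toSet.union ?_
    refine (Set.finite_range (fun i : Fin n => f i.1 i.2)).subset ?_
    rintro x ⟨m, h, rfl⟩
    exact ⟨⟨m, h⟩, rfl⟩
  let F : (n : ℕ) → ((m : ℕ) → m < n → G) → G :=
    fun n f => Classical.choose (gen (hfin n f).toFinset)
  let z : ℕ → G := (wellFounded_lt (α := ℕ)).fix F
  refine ⟨z, fun k a ha => ?_⟩
  have h : z k = F k (fun m _ => z m) := WellFounded.fix_eq _ _ _
  have h' := Classical.choose_spec (gen (hfin k (fun m _ => z m)).toFinset) a (by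
    rw [Set.Finite.mem_toFinset]
    refine L.subset ?_ ha
    apply Set.union_subset_union_right
    rintro x ⟨m, hm, rfl⟩
    exact ⟨m, hm, rfl⟩)
  rw [h]
  exact h'

/-- The ingredients of the construction. -/
structure Data (G : Type u) [AddCommGroup G] where
  F4 : Finset G
  t : G
  U : ℕ → Finset G
  V : ℕ → Finset G
  E : ℕ → ℕ → Prop
  C : ℕ → Finset G
  g : ℕ → G
  t0 : t ≠ 0
  t2 : t + t ≠ 0
  tF : t ∉ F4
  tF' : -t ∉ F4
  tF2 : -(t + t) ∉ F4
  disj : ∀ n, Disjoint (U n) (V n)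
  cover : ∀ U' V' : Finset G, Disjoint U' V' → ∃ n, U n = U' ∧ V n = V'
  symm : ∀ m n, E m n → E n m
  mono : ∀ m n, m ≤ n → C m ⊆ C n
  hF : ∀ n, F4 ⊆ C n
  ht : ∀ n, t ∈ C n
  hU : ∀ n, U n ⊆ C n
  hV : ∀ n, V n ⊆ C n
  gen : ∀ k, ∀ a ∈ L ((C k : Set G) ∪ g '' {m | m < k}) 8,
    g k ≠ a ∧ g k + g k ≠ a ∧ g k + g k + g k ≠ a ∧ (a ∉ F4 → g k + g k + g k + g k ≠ a)

namespace Data

variable {G : Type u} [AddCommGroup G] (D : Data G)

/-- known elements at stage `k` -/
def B (k : ℕ) : Set G := (D.C k : Set G) ∪ D.g '' {m | m < k}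

theorem B_mono {k l : ℕ} (h : k ≤ l) : D.B k ⊆ D.B l := by
  apply Set.union_subset_union
  · exact_mod_cast D.mono k l h
  · apply Set.image_mono
    intro m hm
    exact lt_of_lt_of_le hm h

theorem g_mem {k l : ℕ} (h : k < l) : D.g k ∈ L (D.B l) 1 :=
  L.one (Or.inr ⟨k, h, rfl⟩)

theorem C_mem {k : ℕ} {x : G} (h : x ∈ D.C k) : x ∈ L (D.B k) 1 := L.one (Or.inl h)

theorem gen1 {k : ℕ} {a : G} (ha : a ∈ L (D.B k) 8) : D.g k ≠ a := (D.gen k a ha).1
theorem gen2 {k : ℕ} {a : G} (ha : a ∈ L (D.B k) 8) : D.g k + D.g k ≠ a := (D.gen k a ha).2.1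
theorem gen3 {k : ℕ} {a : G} (ha : a ∈ L (D.B k) 8) : D.g k + D.g k + D.g k ≠ a :=
  (D.gen k a ha).2.2.1
theorem gen4 {k : ℕ} {a : G} (ha : a ∈ L (D.B k) 8) (hF : a ∉ D.F4) :
    D.g k + D.g k + D.g k + D.g k ≠ a := (D.gen k a ha).2.2.2 hF

/-- the designated elements -/
def q (n : ℕ) : G := D.g (2 * n + 1)

/-- the first kind of members added at stage `k`: `g k + h` -/
def P1 (k : ℕ) (h : G) : Prop :=
  (∃ n, k = 2 * n ∧ ∃ u ∈ D.U n, h = -u) ∨
    ∃ n, k = 2 * n + 1 ∧ (h = 0 ∨ h = D.t ∨ ∃ m, m < n ∧ D.E m n ∧ h = -D.q m)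

/-- the second kind of members added at stage `k`: `2 g k` -/
def P2 (k : ℕ) : Prop := ∃ n, k = 2 * n + 1

/-- the members added at stage `k`, up to sign -/
def Pos (k : ℕ) (x : G) : Prop :=
  (∃ h, D.P1 k h ∧ x = D.g k + h) ∨ (P2 k ∧ x = D.g k + D.g k)

/-- the members added at stage `k` -/
def InS (k : ℕ) (x : G) : Prop := D.Pos k x ∨ D.Pos k (-x)

/-- the special subset -/
def S : Set G := {x | ∃ k, D.InS k x}

theorem P1_mem {k : ℕ} {h : G} (hP : D.P1 k h) : h ∈ L (D.B k) 1 := by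
  rcases hP with ⟨n, rfl, u, hu, rfl⟩ | ⟨n, rfl, rfl | rfl | ⟨m, hm, -, rfl⟩⟩
  · exact L.neg (D.C_mem (D.mono n _ (by omega) (D.hU n hu)))
  · exact L.zero_mem 1
  · exact D.C_mem (D.ht _)
  · exact L.neg (D.g_mem (by omega))

theorem neg_mem {x : G} (h : x ∈ D.S) : -x ∈ D.S := by
  obtain ⟨k, h | h⟩ := h
  · exact ⟨k, Or.inr (by simpa using h)⟩
  · exact ⟨k, Or.inl h⟩

/-- Lemma A -/
theorem lt_of_inS {k l : ℕ} {y : G} (hy : y ∈ L (D.B l) 7) (h : D.InS k y) : k < l := by
  by_contra hlt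
  rw [not_lt] at hlt
  have hyk : y ∈ L (D.B k) 7 := L.subset (D.B_mono hlt) hy
  have key : ∀ y : G, y ∈ L (D.B k) 7 → ¬ D.Pos k y := by
    rintro y hy (⟨h, hP, rfl⟩ | ⟨-, rfl⟩)
    · refine D.gen1 (a := (D.g k + h) - h) (L.sub hy (D.P1_mem hP)) (by abel)
    · exact D.gen2 (L.succ hy) rfl
  rcases h with h | h
  · exact key y hyk h
  · exact key (-y) (L.neg hyk) h

/-- Lemma B -/
theorem mem_of_inS {k l : ℕ} {y : G} (hkl : k < l) (h : D.InS k y) : y ∈ L (D.B l) 2 := by
  have key : ∀ y : G, D.Pos k y → y ∈ L (D.B l) 2 := by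
    rintro y (⟨h, hP, rfl⟩ | ⟨-, rfl⟩)
    · exact L.add (D.g_mem hkl) (L.subset (D.B_mono hkl.le) (D.P1_mem hP))
    · exact L.add (D.g_mem hkl) (D.g_mem hkl)
  rcases h with h | h
  · exact key y h
  · have := L.neg (key (-y) h)
    simpa using this

/-- Lemma C -/
theorem mem_one_iff {k : ℕ} {a : G} (ha : a ∈ L (D.B k) 5) :
    D.g k + a ∈ D.S ↔ D.P1 k a := by
  constructor
  · rintro ⟨l, hl⟩
    have hlk : l ≤ k := by
      by_contra hlt
      rw [not_le] at hlt
      have h1 : D.g k + a ∈ L (D.B l) 7 :=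
        L.mono (L.add (D.g_mem hlt) (L.subset (D.B_mono hlt.le) ha)) (by omega)
      exact absurd (D.lt_of_inS h1 hl) (lt_irrefl _)
    rcases hlk.lt_or_eq with hlt | rfl
    · exfalso
      exact D.gen1 (a := (D.g k + a) - a)
        (L.mono (L.sub (D.mem_of_inS hlt hl) ha) (by omega)) (by abel)
    · rcases hl with (⟨h, hP, he⟩ | ⟨-, he⟩) | (⟨h, hP, he⟩ | ⟨-, he⟩)
      · rw [add_left_cancel he]
        exact hP
      · exfalso
        rw [add_left_cancel he] at ha
        exact D.gen1 (L.mono ha (by omega)) rfl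
      · exfalso
        refine D.gen2 (a := -a - h) (L.mono (L.sub (L.neg ha) (D.P1_mem hP)) (by omega)) ?_
        have h2 : D.g l + D.g l = -(-(D.g l + a)) + D.g l - a := by abel
        rw [h2, he]
        abel
      · exfalso
        refine D.gen3 (a := -a) (L.mono (L.neg ha) (by omega)) ?_
        rw [← he]
        abel
  · intro h
    exact ⟨k, Or.inl (Or.inl ⟨a, h, rfl⟩)⟩

/-- Lemma D -/
theorem mem_two {k : ℕ} {a : G} (ha : a ∈ L (D.B k) 5) (h : D.g k + D.g k + a ∈ D.S) :
    P2 k ∧ (a = 0 ∨ -a ∈ D.F4) := by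
  obtain ⟨l, hl⟩ := h
  have hlk : l ≤ k := by
    by_contra hlt
    rw [not_le] at hlt
    have h1 : D.g k + D.g k + a ∈ L (D.B l) 7 :=
      L.mono (L.add (L.add (D.g_mem hlt) (D.g_mem hlt)) (L.subset (D.B_mono hlt.le) ha)) (by omega)
    exact absurd (D.lt_of_inS h1 hl) (lt_irrefl _)
  rcases hlk.lt_or_eq with hlt | rfl
  · exfalso
    exact D.gen2 (a := (D.g k + D.g k + a) - a)
      (L.mono (L.sub (D.mem_of_inS hlt hl) ha) (by omega)) (by abel)
  · rcases hl with (⟨h, hP, he⟩ | ⟨hP, he⟩) | (⟨h, hP, he⟩ | ⟨hP, he⟩)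
    · exfalso
      refine D.gen1 (a := h - a) (L.mono (L.sub (D.P1_mem hP) ha) (by omega)) ?_
      have h2 : D.g l = (D.g l + D.g l + a) - D.g l - a := by abel
      rw [h2, he]
      abel
    · refine ⟨hP, Or.inl ?_⟩
      have := add_left_cancel (he.trans (add_zero _).symm)
      exact this
    · exfalso
      refine D.gen3 (a := -a - h) (L.mono (L.sub (L.neg ha) (D.P1_mem hP)) (by omega)) ?_
      have h2 : D.g l + D.g l + D.g l = -(-(D.g l + D.g l + a)) + D.g l - a := by abel
      rw [h2, he]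
      abel
    · refine ⟨hP, ?_⟩
      by_contra hcon
      rw [not_or] at hcon
      refine D.gen4 (a := -a) (L.mono (L.neg ha) (by omega)) hcon.2 ?_
      have h2 : D.g l + D.g l + D.g l + D.g l = (D.g l + D.g l) - (-(D.g l + D.g l + a)) - a := by
        abel
      rw [h2, he]
      abel

theorem zero_notMem : (0 : G) ∉ D.S := by
  rintro ⟨k, hk⟩
  exact absurd (D.lt_of_inS (l := 0) (L.zero_mem 7) hk) (by omega)

theorem spec : Spec D.S where
  neg := fun s hs => D.neg_mem hs
  zero := D.zero_notMem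
  ext := by
    intro U' V' hd
    obtain ⟨n, rfl, rfl⟩ := D.cover U' V' hd
    have hU : ∀ u ∈ D.U n, u ∈ L (D.B (2 * n)) 1 := fun u hu =>
      D.C_mem (D.mono n _ (by omega) (D.hU n hu))
    have hV : ∀ u ∈ D.V n, u ∈ L (D.B (2 * n)) 1 := fun u hu =>
      D.C_mem (D.mono n _ (by omega) (D.hV n hu))
    refine ⟨D.g (2 * n), ?_, ?_, ?_, ?_⟩
    · intro h
      exact D.gen1 (L.mono (hU _ h) (by omega)) rfl
    · intro h
      exact D.gen1 (L.mono (hV _ h) (by omega)) rfl
    · intro u hu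
      rw [sub_eq_add_neg, D.mem_one_iff (L.mono (L.neg (hU u hu)) (by omega))]
      exact Or.inl ⟨n, rfl, u, hu, rfl⟩
    · intro v hv hS
      rw [sub_eq_add_neg, D.mem_one_iff (L.mono (L.neg (hV v hv)) (by omega))] at hS
      rcases hS with ⟨n', hn, u, hu, he⟩ | ⟨n', hn, -⟩
      · obtain rfl : n = n' := by omega
        rw [neg_inj.1 he] at hv
        exact (Finset.disjoint_left.1 (D.disj n)) hu hv
      · omega

theorem q_inj : Function.Injective D.q := by
  have key : ∀ m n, m < n → D.q m ≠ D.q n := by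
    intro m n hmn h
    exact D.gen1 (k := 2 * n + 1) (a := D.g (2 * m + 1))
      (L.mono (D.g_mem (by omega)) (by omega)) h.symm
  intro m n h
  rcases lt_trichotomy m n with h' | h' | h'
  · exact absurd h (key m n h')
  · exact h'
  · exact absurd h.symm (key n m h')

theorem P1_q {n : ℕ} {h : G} (hP : D.P1 (2 * n + 1) h) :
    h = 0 ∨ h = D.t ∨ ∃ m, m < n ∧ D.E m n ∧ h = -D.q m := by
  rcases hP with ⟨n', hn, -⟩ | ⟨n', hn, h'⟩
  · omega
  · obtain rfl : n = n' := by omega
    exact h'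

theorem edge {m n : ℕ} (hmn : m < n) : D.q n - D.q m ∈ D.S ↔ D.E m n := by
  have h1 : D.q m ∈ L (D.B (2 * n + 1)) 1 := D.g_mem (by omega)
  rw [sub_eq_add_neg]
  change D.g (2 * n + 1) + -D.q m ∈ D.S ↔ _
  rw [D.mem_one_iff (L.mono (L.neg h1) (by omega))]
  constructor
  · intro h
    rcases D.P1_q h with h' | h' | ⟨m', hm', hE, h'⟩
    · exfalso
      exact D.gen1 (k := 2 * m + 1) (L.zero_mem 8) (neg_eq_zero.1 h')
    · exfalso
      exact D.gen1 (k := 2 * m + 1) (a := -D.t)
        (L.mono (L.neg (D.C_mem (D.ht _))) (by omega)) (by rw [← h', neg_neg]; rfl)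
    · rw [D.q_inj (neg_inj.1 h')]
      exact hE
  · intro h
    exact Or.inr ⟨n, rfl, Or.inr (Or.inr ⟨m, hmn, h, rfl⟩)⟩

theorem codes : Codes D.t D.E D.S := by
  have ht : ∀ k, D.t ∈ L (D.B k) 1 := fun k => D.C_mem (D.ht k)
  refine ⟨D.q, D.q_inj, ?_, ?_⟩
  · intro x
    constructor
    · rintro ⟨⟨k, hx⟩, hxt, hx2⟩
      rw [two_nsmul] at hx2
      -- members of the second kind are excluded
      have no2 : ∀ e : G, (e = D.t ∨ e = -D.t) → D.g k + D.g k + e ∉ D.S := by
        rintro e (rfl | rfl) h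
        · obtain ⟨-, h | h⟩ := D.mem_two (L.mono (ht k) (by omega)) h
          · exact D.t0 h
          · exact D.tF' h
        · obtain ⟨-, h | h⟩ := D.mem_two (L.mono (L.neg (ht k)) (by omega)) h
          · exact D.t0 (neg_eq_zero.1 h)
          · rw [neg_neg] at h
            exact D.tF h
      -- members of the first kind whose double is a member
      have no1 : ∀ h, D.P1 k h → (D.g k + h) + (D.g k + h) ∈ D.S → h = 0 ∧ ∃ n, k = 2 * n + 1 := by
        intro h hP h2
        have e1 : (D.g k + h) + (D.g k + h) = D.g k + D.g k + (h + h) := by abel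
        rw [e1] at h2
        obtain ⟨⟨n, rfl⟩, h3⟩ := D.mem_two
          (L.mono (L.add (D.P1_mem hP) (D.P1_mem hP)) (by omega)) h2
        refine ⟨?_, n, rfl⟩
        rcases D.P1_q hP with h' | h' | ⟨m, hm, -, h'⟩
        · exact h'
        · exfalso
          rw [h'] at h3
          rcases h3 with h3 | h3
          · exact D.t2 h3
          · exact D.tF2 h3
        · exfalso
          have e2 : h + h = -(D.g (2 * m + 1) + D.g (2 * m + 1)) := by
            rw [h']
            change -D.g (2 * m + 1) + -D.g (2 * m + 1) = _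
            abel
          rw [e2, neg_neg, neg_eq_zero] at h3
          rcases h3 with h3 | h3
          · exact D.gen2 (L.zero_mem 8) h3
          · exact D.gen2 (L.mono (D.C_mem (D.hF _ h3)) (by omega)) rfl
      rcases hx with (⟨h, hP, he⟩ | ⟨-, he⟩) | (⟨h, hP, he⟩ | ⟨-, he⟩)
      · rw [he] at hx2
        obtain ⟨rfl, n, rfl⟩ := no1 h hP hx2
        exact ⟨n, by rw [he, add_zero]; rfl⟩
      · exfalso
        rw [he] at hxt
        exact no2 _ (Or.inl rfl) hxt
      · exfalso
        have hx2' := D.neg_mem hx2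
        have e1 : -(x + x) = -x + -x := by abel
        rw [e1, he] at hx2'
        obtain ⟨rfl, n, rfl⟩ := no1 h hP hx2'
        have hxt' := D.neg_mem hxt
        have e2 : -(x + D.t) = -x + -D.t := by abel
        rw [e2, he, add_zero, D.mem_one_iff (L.mono (L.neg (ht _)) (by omega))] at hxt'
        rcases D.P1_q hxt' with h' | h' | ⟨m, hm, -, h'⟩
        · exact D.t0 (neg_eq_zero.1 h')
        · apply D.t2
          nth_rewrite 1 [← h']
          abel
        · exact D.gen1 (k := 2 * m + 1) (L.mono (ht _) (by omega)) (neg_inj.1 h').symm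
      · exfalso
        have hxt' := D.neg_mem hxt
        have e2 : -(x + D.t) = -x + -D.t := by abel
        rw [e2, he] at hxt'
        exact no2 _ (Or.inr rfl) hxt'
    · rintro ⟨n, rfl⟩
      refine ⟨⟨2 * n + 1, Or.inl (Or.inl ⟨0, Or.inr ⟨n, rfl, Or.inl rfl⟩, ?_⟩)⟩,
        ⟨2 * n + 1, Or.inl (Or.inl ⟨D.t, Or.inr ⟨n, rfl, Or.inr (Or.inl rfl)⟩, rfl⟩)⟩,
        ⟨2 * n + 1, Or.inl (Or.inr ⟨⟨n, rfl⟩, ?_⟩)⟩⟩
      · rw [add_zero]; rfl
      · rw [two_nsmul]; rfl
  · intro m n hmn
    rcases lt_or_gt_of_ne hmn with h | h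
    · rw [← D.edge h]
      constructor
      · intro h'
        have := D.neg_mem h'
        rwa [neg_sub] at this
      · intro h'
        have := D.neg_mem h'
        rwa [neg_sub] at this
    · rw [D.edge h]
      exact ⟨D.symm n m, D.symm m n⟩

end Data

/-- Coding, from generic choices. -/
theorem coding_of_gen {G : Type u} [AddCommGroup G] [Countable G] (F4 : Finset G)
    (gen : ∀ K : Finset G, ∃ g : G, ∀ a ∈ K,
      g ≠ a ∧ 2 • g ≠ a ∧ 3 • g ≠ a ∧ (a ∉ F4 → 4 • g ≠ a)) :
    ∃ t : G, ∀ E : ℕ → ℕ → Prop, (∀ m n, E m n → E n m) →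
      ∃ S : Set G, Spec S ∧ Codes t E S := by
  classical
  obtain ⟨t, ht⟩ := gen (insert 0 (F4 ∪ F4.image Neg.neg))
  refine ⟨t, fun E hE => ?_⟩
  have hc : Countable {p : Finset G × Finset G // Disjoint p.1 p.2} := inferInstance
  have hne : Nonempty {p : Finset G × Finset G // Disjoint p.1 p.2} := ⟨⟨(∅, ∅), by simp⟩⟩
  obtain ⟨e, he⟩ := exists_surjective_nat {p : Finset G × Finset G // Disjoint p.1 p.2}
  let C : ℕ → Finset G := fun n =>
    insert t (F4 ∪ (Finset.range (n + 1)).biUnion (fun m => (e m).1.1 ∪ (e m).1.2))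
  obtain ⟨g, hg⟩ := exists_gen_seq (fun g a =>
    g ≠ a ∧ 2 • g ≠ a ∧ 3 • g ≠ a ∧ (a ∉ F4 → 4 • g ≠ a)) gen C
  have hC : ∀ m n, m ≤ n → (e m).1.1 ∪ (e m).1.2 ⊆ C n := by
    intro m n hmn
    refine Finset.Subset.trans ?_ (Finset.subset_insert _ _)
    refine Finset.Subset.trans ?_ Finset.subset_union_right
    exact Finset.subset_biUnion_of_mem (fun m => (e m).1.1 ∪ (e m).1.2)
      (Finset.mem_range.2 (Nat.lt_succ_of_le hmn))
  let D : Data G :=
    { F4 := F4
      t := t
      U := fun n => (e n).1.1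
      V := fun n => (e n).1.2
      E := E
      C := C
      g := g
      t0 := (ht 0 (Finset.mem_insert_self _ _)).1
      t2 := by
        have := (ht 0 (Finset.mem_insert_self _ _)).2.1
        rwa [two_nsmul] at this
      tF := fun h => (ht t (by simp [h])).1 rfl
      tF' := fun h => (ht t (by
        simp only [Finset.mem_insert, Finset.mem_union, Finset.mem_image]
        exact Or.inr (Or.inr ⟨-t, h, by simp⟩))).1 rfl
      tF2 := fun h => (ht (t + t) (by
        simp only [Finset.mem_insert, Finset.mem_union, Finset.mem_image]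
        exact Or.inr (Or.inr ⟨-(t + t), h, by simp⟩))).2.1 (two_nsmul t)
      disj := fun n => (e n).2
      cover := by
        intro U' V' hd
        obtain ⟨n, hn⟩ := he ⟨(U', V'), hd⟩
        exact ⟨n, by rw [hn], by rw [hn]⟩
      symm := hE
      mono := by
        intro m n hmn
        apply Finset.insert_subset_insert
        apply Finset.union_subset_union_right
        apply Finset.biUnion_subset_biUnion_of_subset_left
        exact Finset.range_subset_range.2 (by omega)
      hF := fun n => Finset.Subset.trans Finset.subset_union_left (Finset.subset_insert _ _)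
      ht := fun n => Finset.mem_insert_self _ _
      hU := fun n => Finset.Subset.trans Finset.subset_union_left (hC n n le_rfl)
      hV := fun n => Finset.Subset.trans Finset.subset_union_right (hC n n le_rfl)
      gen := by
        intro k a ha
        obtain ⟨h1, h2, h3, h4⟩ := hg k a ha
        refine ⟨h1, ?_, ?_, ?_⟩
        · rwa [two_nsmul] at h2
        · have e3 : g k + g k + g k = 3 • g k := by abel
          rwa [e3]
        · have e4 : g k + g k + g k + g k = 4 • g k := by abel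
          rwa [e4] }
  exact ⟨D.S, D.spec, D.codes⟩

end Pool.Agent.Lib.MP_008109_al.AB
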