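import Pool.Agent.Lib.MP_008109_al.AB.Spec

/-!
# MP_008109_al: the extension property inside a coset of a subgroup of finite index

If `S` is a special subset of an infinite abelian group and `H` is a subgroup of finite index, then
the witness of the extension property can be chosen in any given coset of `H`.
-/

set_option autoImplicit false

universe u

namespace Pool.Agent.Lib.MP_008109_al.AB

/-- Representatives of finitely many cosets of an infinite subgroup whose differences avoid a
symmetric finite set. -/
theorem exists_reps {G : Type u} [AddCommGroup G] (H : AddSubgroup G) (hH : Infinite H)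
    (D : Finset G) (hD : ∀ d ∈ D, -d ∈ D) (Q : Finset (G ⧸ H)) :
    ∃ a : G ⧸ H → G, (∀ q, ((a q : G) : G ⧸ H) = q) ∧
      ∀ q ∈ Q, ∀ q' ∈ Q, q ≠ q' → a q - a q' ∉ D := by
  classical
  induction Q using Finset.induction_on with
  | empty =>
    exact ⟨Quotient.out, fun q => QuotientAddGroup.out_eq' q, by simp⟩
  | insert q Q hq ih =>
    obtain ⟨a, ha, hav⟩ := ih
    -- the finite set to avoid
    let B : Finset G := Q.biUnion fun r => D.image fun d => a r + d - a q
    obtain ⟨h, hh⟩ := Infinite.exists_notMem_finset (B.preimage (fun h : H => (h : G))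
      (Subtype.val_injective.injOn))
    have hh' : (h : G) ∉ B := by
      intro hc
      exact hh (by simpa using hc)
    let c : G := a q + h
    have hc : ((c : G) : G ⧸ H) = q := by
      have : ((a q + (h : G) : G) : G ⧸ H) = (a q : G) := by
        rw [eq_comm, QuotientAddGroup.eq]
        simp
      rw [show ((c : G) : G ⧸ H) = ((a q + (h : G) : G) : G ⧸ H) from rfl, this, ha q]
    have hcD : ∀ r ∈ Q, c - a r ∉ D := by
      intro r hr hd
      apply hh'
      simp only [B, Finset.mem_biUnion, Finset.mem_image]
      refine ⟨r, hr, c - a r, hd, ?_⟩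
      simp only [c]
      abel
    refine ⟨Function.update a q c, ?_, ?_⟩
    · intro r
      by_cases hr : r = q
      · subst hr
        simpa using hc
      · rw [Function.update_of_ne hr]
        exact ha r
    · intro r hr r' hr' hne
      rw [Finset.mem_insert] at hr hr'
      rcases hr with rfl | hr
      · rcases hr' with rfl | hr'
        · exact absurd rfl hne
        · rw [Function.update_self, Function.update_of_ne (fun h => hne h.symm)]
          exact hcD r' hr'
      · rcases hr' with rfl | hr'
        · rw [Function.update_self, Function.update_of_ne hne]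
          intro hd
          apply hcD r hr
          have := hD _ hd
          rwa [neg_sub] at this
        · have h1 : r ≠ q := fun h => hq (h ▸ hr)
          have h2 : r' ≠ q := fun h => hq (h ▸ hr')
          rw [Function.update_of_ne h1, Function.update_of_ne h2]
          exact hav r hr r' hr' hne

theorem ext_coset {G : Type u} [AddCommGroup G] [Infinite G] (S : Set G) (hS : Spec S)
    (H : AddSubgroup G) [H.FiniteIndex] (x : G) (U V : Finset G) (hd : Disjoint U V) :
    ∃ z : G, z - x ∈ H ∧ z ∉ U ∧ z ∉ V ∧ (∀ u ∈ U, z - u ∈ S) ∧ (∀ v ∈ V, z - v ∉ S) := by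
  classical
  have hfq : Finite (G ⧸ H) := inferInstance
  have hH : Infinite H := by
    by_contra hc
    rw [not_infinite_iff_finite] at hc
    have : Finite G := Finite.of_equiv _ (AddSubgroup.addGroupEquivQuotientProdAddSubgroup
      (s := H)).symm
    exact not_finite G
  have := Fintype.ofFinite (G ⧸ H)
  let D : Finset G := (U ×ˢ V).image (fun p => p.1 - p.2) ∪ (U ×ˢ V).image (fun p => p.2 - p.1)
  have hD : ∀ d ∈ D, -d ∈ D := by
    intro d hd
    simp only [D, Finset.mem_union, Finset.mem_image, Finset.mem_product] at hd ⊢
    rcases hd with ⟨p, hp, rfl⟩ | ⟨p, hp, rfl⟩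
    · exact Or.inr ⟨p, hp, by abel⟩
    · exact Or.inl ⟨p, hp, by abel⟩
  obtain ⟨a, ha, hav⟩ := exists_reps H hH D hD Finset.univ
  let U' : Finset G := Finset.univ.biUnion fun q : G ⧸ H => U.image fun u => u + a q
  let V' : Finset G := Finset.univ.biUnion fun q : G ⧸ H => V.image fun v => v + a q
  have hU' : ∀ q, ∀ u ∈ U, u + a q ∈ U' := by
    intro q u hu
    simp only [U', Finset.mem_biUnion, Finset.mem_image]
    exact ⟨q, Finset.mem_univ q, u, hu, rfl⟩
  have hV' : ∀ q, ∀ v ∈ V, v + a q ∈ V' := by
    intro q v hv
    simp only [V', Finset.mem_biUnion, Finset.mem_image]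
    exact ⟨q, Finset.mem_univ q, v, hv, rfl⟩
  have hd' : Disjoint U' V' := by
    rw [Finset.disjoint_left]
    intro b hbU hbV
    simp only [U', V', Finset.mem_biUnion, Finset.mem_image] at hbU hbV
    obtain ⟨q, -, u, hu, rfl⟩ := hbU
    obtain ⟨q', -, v, hv, he⟩ := hbV
    by_cases hq : q = q'
    · subst hq
      have : v = u := add_right_cancel he
      subst this
      exact (Finset.disjoint_left.1 hd) hu hv
    · apply hav q (Finset.mem_univ _) q' (Finset.mem_univ _) hq
      have : a q - a q' = v - u := by
        rw [sub_eq_sub_iff_add_eq_add, add_comm (a q) u, ← he]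
      rw [this]
      simp only [D, Finset.mem_union, Finset.mem_image, Finset.mem_product]
      exact Or.inr ⟨(u, v), ⟨hu, hv⟩, rfl⟩
  obtain ⟨z, hzU, hzV, h1, h2⟩ := hS.ext U' V' hd'
  let q : G ⧸ H := ((z - x : G) : G ⧸ H)
  refine ⟨z - a q, ?_, ?_, ?_, ?_, ?_⟩
  · have h3 : ((a q : G) : G ⧸ H) = ((z - x : G) : G ⧸ H) := ha q
    rw [QuotientAddGroup.eq] at h3
    have : z - a q - x = -a q + (z - x) := by abel
    rw [this]
    exact h3
  · intro h
    apply hzU
    have := hU' q _ h
    rwa [sub_add_cancel] at this
  · intro h
    apply hzV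
    have := hV' q _ h
    rwa [sub_add_cancel] at this
  · intro u hu
    have := h1 _ (hU' q u hu)
    have e : z - a q - u = z - (u + a q) := by abel
    rw [e]
    exact this
  · intro v hv
    have := h2 _ (hV' q v hv)
    have e : z - a q - v = z - (v + a q) := by abel
    rw [e]
    exact this

end Pool.Agent.Lib.MP_008109_al.AB
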