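import Pool.Agent.Lib.MP_008109_al.AB.Spec

/-!
# MP_008109_al, module CNT: continuum many orbits from the coding

If every graph on the natural numbers is coded by a special subset (with one and the same `t`),
then there are continuum many orbits of the automorphism group on the special subsets.
-/

set_option autoImplicit false
universe u

namespace Pool.Agent.Lib.MP_008109_al.AB

namespace CNTM

variable {G : Type u} [AddCommGroup G]

/-- The set of all `x` with `x`, `x + t` and `2 x` in `S`. -/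
def Q (S : Set G) (t : G) : Set G := {x | x ∈ S ∧ x + t ∈ S ∧ 2 • x ∈ S}

/-- The numbers of neighbours in the coded graph. -/
def J (S : Set G) (t : G) : Set ℕ :=
  {n | ∃ x ∈ Q S t, Set.ncard {y | y ∈ Q S t ∧ x - y ∈ S} = n}

theorem mem_im (α : G ≃+ G) (S : Set G) (x : G) : α x ∈ α '' S ↔ x ∈ S :=
  α.injective.mem_set_image

theorem Q_image (α : G ≃+ G) (S : Set G) (t : G) : Q (α '' S) (α t) = α '' Q S t := by
  ext y
  obtain ⟨x, rfl⟩ := α.surjective y
  rw [mem_im]
  unfold Q
  simp only [Set.mem_setOf_eq]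
  rw [← map_add, ← map_nsmul, mem_im, mem_im, mem_im]

theorem nb_image (α : G ≃+ G) (S : Set G) (t x : G) :
    {y | y ∈ Q (α '' S) (α t) ∧ α x - y ∈ α '' S} = α '' {y | y ∈ Q S t ∧ x - y ∈ S} := by
  ext y
  obtain ⟨z, rfl⟩ := α.surjective y
  rw [mem_im, Q_image]
  simp only [Set.mem_setOf_eq]
  rw [← map_sub, mem_im, mem_im]

theorem J_image (α : G ≃+ G) (S : Set G) (t : G) : J (α '' S) (α t) = J S t := by
  ext n
  unfold J
  simp only [Set.mem_setOf_eq]
  constructor
  · rintro ⟨w, hw, h⟩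
    obtain ⟨x, rfl⟩ := α.surjective w
    rw [nb_image, Set.ncard_image_of_injective _ α.injective] at h
    rw [Q_image, mem_im] at hw
    exact ⟨x, hw, h⟩
  · rintro ⟨x, hx, h⟩
    refine ⟨α x, ?_, ?_⟩
    · rw [Q_image, mem_im]
      exact hx
    · rw [nb_image, Set.ncard_image_of_injective _ α.injective]
      exact h

/-- The graph attached to a set of natural numbers: a clique with `k + 2` vertices for each
member `k`. -/
def E (A : Set ℕ) (i j : ℕ) : Prop :=
  i ≠ j ∧ (Nat.unpair i).1 = (Nat.unpair j).1 ∧ (Nat.unpair i).1 ∈ A ∧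
    (Nat.unpair i).2 < (Nat.unpair i).1 + 2 ∧ (Nat.unpair j).2 < (Nat.unpair i).1 + 2

theorem E_symm (A : Set ℕ) (i j : ℕ) (h : E A i j) : E A j i := by
  obtain ⟨h1, h2, h3, h4, h5⟩ := h
  refine ⟨h1.symm, h2.symm, ?_, ?_, ?_⟩
  · rw [← h2]
    exact h3
  · rw [← h2]
    exact h5
  · rw [← h2]
    exact h4

theorem ncard_E (A : Set ℕ) (i : ℕ) (hA : (Nat.unpair i).1 ∈ A)
    (hi : (Nat.unpair i).2 < (Nat.unpair i).1 + 2) :
    Set.ncard {j | E A i j} = (Nat.unpair i).1 + 1 := by
  classical
  have h1 : {j | E A i j} = (fun b => Nat.pair (Nat.unpair i).1 b) ''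
      (((Finset.range ((Nat.unpair i).1 + 2)).erase (Nat.unpair i).2 : Finset ℕ) : Set ℕ) := by
    ext j
    simp only [Set.mem_setOf_eq, Set.mem_image, Finset.coe_erase, Finset.coe_range,
      Set.mem_diff, Set.mem_Iio, Set.mem_singleton_iff]
    constructor
    · rintro ⟨h1, h2, h3, h4, h5⟩
      refine ⟨(Nat.unpair j).2, ⟨h5, ?_⟩, ?_⟩
      · intro h
        apply h1
        rw [← Nat.pair_unpair i, ← Nat.pair_unpair j, h2, h]
      · rw [h2]
        exact Nat.pair_unpair j
    · rintro ⟨b, ⟨hb, hb'⟩, rfl⟩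
      refine ⟨?_, ?_, hA, hi, ?_⟩
      · intro h
        apply hb'
        have h2 := congrArg (fun n => (Nat.unpair n).2) h
        simp only [Nat.unpair_pair] at h2
        exact h2.symm
      · rw [Nat.unpair_pair]
      · rw [Nat.unpair_pair]
        exact hb
  rw [h1, Set.ncard_image_of_injective, Set.ncard_coe_finset, Finset.card_erase_of_mem,
    Finset.card_range]
  · omega
  · exact Finset.mem_range.2 hi
  · intro b c h
    have h2 := congrArg (fun n => (Nat.unpair n).2) h
    simpa using h2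

/-- The set can be read off from the numbers of neighbours. -/
theorem decode (A : Set ℕ) (S : Set G) (t : G) (hS : Spec S) (hc : Codes t (E A) S) (k : ℕ) :
    k + 1 ∈ J S t ↔ k ∈ A := by
  obtain ⟨q, hq, hQ, hE⟩ := hc
  have hnb : ∀ i, {y | y ∈ Q S t ∧ q i - y ∈ S} = q '' {j | E A i j} := by
    intro i
    ext y
    simp only [Set.mem_setOf_eq, Set.mem_image]
    constructor
    · rintro ⟨h1, h2⟩
      obtain ⟨j, rfl⟩ := (hQ y).1 h1
      have hij : i ≠ j := by
        rintro rfl
        rw [sub_self] at h2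
        exact hS.zero h2
      exact ⟨j, (hE i j hij).1 h2, rfl⟩
    · rintro ⟨j, hj, rfl⟩
      exact ⟨(hQ _).2 ⟨j, rfl⟩, (hE i j hj.1).2 hj⟩
  have hcard : ∀ i, Set.ncard {y | y ∈ Q S t ∧ q i - y ∈ S} = Set.ncard {j | E A i j} := by
    intro i
    rw [hnb, Set.ncard_image_of_injective _ hq]
  constructor
  · rintro ⟨x, hx, h⟩
    obtain ⟨i, rfl⟩ := (hQ x).1 hx
    rw [hcard] at h
    have hne : {j | E A i j}.Nonempty := by
      rw [Set.nonempty_iff_ne_empty]
      intro h0
      rw [h0, Set.ncard_empty] at h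
      omega
    obtain ⟨j, hj⟩ := hne
    have h2 := ncard_E A i hj.2.2.1 hj.2.2.2.1
    rw [h2] at h
    have h3 : (Nat.unpair i).1 = k := by omega
    rw [← h3]
    exact hj.2.2.1
  · intro hk
    refine ⟨q (Nat.pair k 0), (hQ _).2 ⟨_, rfl⟩, ?_⟩
    rw [hcard, ncard_E]
    · rw [Nat.unpair_pair]
    · rw [Nat.unpair_pair]
      exact hk
    · rw [Nat.unpair_pair]
      show 0 < k + 2
      omega

end CNTM

open CNTM in
theorem card_orbits {G : Type u} [AddCommGroup G] [Countable G] (t : G)
    (hcod : ∀ E : ℕ → ℕ → Prop, (∀ m n, E m n → E n m) → ∃ S : Set G, Spec S ∧ Codes t E S) :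
    Cardinal.mk (AOrbits G) = Cardinal.continuum := by
  classical
  have hrep : ∀ O : AOrbits G, ∃ S : Set G, Spec S ∧ O.1 = {T | ∃ α : G ≃+ G, α '' S = T} :=
    fun O => O.2
  choose rep hrepS hrepO using hrep
  apply le_antisymm
  · have h1 : Function.Injective rep := by
      intro O O' h
      apply Subtype.ext
      rw [hrepO O, hrepO O', h]
    have h2 := Cardinal.mk_le_of_injective h1
    refine h2.trans ?_
    rw [Cardinal.mk_set, ← Cardinal.two_power_aleph0]
    exact Cardinal.power_le_power_left two_ne_zero (Cardinal.mk_le_aleph0 (α := G))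
  · let h : AOrbits G × G → ULift.{u} (Set ℕ) := fun p => ⟨{k | k + 1 ∈ J (rep p.1) p.2}⟩
    have hsurj : Function.Surjective h := by
      rintro ⟨A⟩
      obtain ⟨S, hS, hc⟩ := hcod (E A) (E_symm A)
      let O : AOrbits G := ⟨{T | ∃ α : G ≃+ G, α '' S = T}, S, hS, rfl⟩
      have hSO : S ∈ O.1 := ⟨AddEquiv.refl G, by simp⟩
      rw [hrepO O] at hSO
      obtain ⟨α, hα⟩ := hSO
      refine ⟨(O, α.symm t), ?_⟩
      apply ULift.ext
      change {k | k + 1 ∈ J (rep O) (α.symm t)} = A
      have h1 : J (rep O) (α.symm t) = J S t := by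
        rw [← J_image α, hα, AddEquiv.apply_symm_apply]
      rw [h1]
      ext k
      exact decode A S t hS hc k
    have h1 := Cardinal.mk_le_of_surjective hsurj
    have h2 : Cardinal.mk (ULift.{u} (Set ℕ)) = Cardinal.continuum.{u} := by
      rw [Cardinal.mk_uLift, Cardinal.mk_set, Cardinal.mk_nat, Cardinal.two_power_aleph0,
        Cardinal.lift_continuum]
    rw [h2, Cardinal.mk_prod, Cardinal.lift_id, Cardinal.lift_id] at h1
    by_contra hlt
    rw [not_le] at hlt
    have h3 : Cardinal.mk G < Cardinal.continuum :=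
      lt_of_le_of_lt (Cardinal.mk_le_aleph0 (α := G)) Cardinal.aleph0_lt_continuum
    exact absurd h1 (not_le.2 (Cardinal.mul_lt_of_lt Cardinal.aleph0_le_continuum hlt h3))

end Pool.Agent.Lib.MP_008109_al.AB
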