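import Pool.Agent.Lib.MP_008109_al.AB.Spec2

/-!
# MP_008109_al, AB/DER: an FC group with finitely many cubes whose derived group has finite index

If `X` is locally finite, equal to its FC-centre, with finitely many cubes and infinite derived
group, then the derived group has infinite index.
-/

set_option autoImplicit false

universe u

namespace Pool.Agent.Lib.MP_008109_al.AB

namespace DERM

/-- Finitely many conjugates. -/
lemma conj_finite {X : Type u} [Group X] (x : X) (h : (Subgroup.centralizer {x}).FiniteIndex) :
    (Set.range fun g : X => g * x * g⁻¹).Finite := by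
  let C := Subgroup.centralizer ({x} : Set X)
  have hfin : Finite (X ⧸ C) := Subgroup.finite_quotient_of_finiteIndex
  let f : X ⧸ C → X := Quotient.lift (fun g : X => g * x * g⁻¹) (by
    intro a b hab
    have hab' : a⁻¹ * b ∈ C := QuotientGroup.leftRel_apply.1 hab
    have h1 := Subgroup.mem_centralizer_iff.1 hab' x rfl
    have h2 : a * (x * (a⁻¹ * b)) = a * (a⁻¹ * b * x) := by rw [h1]
    have h3 : a * x * a⁻¹ * b = b * x := by
      have h4 : a * (a⁻¹ * b * x) = b * x := by group
      rw [← h4, ← h2]
      group
    change a * x * a⁻¹ = b * x * b⁻¹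
    rw [← h3]
    group)
  refine (Set.finite_range f).subset ?_
  rintro _ ⟨g, rfl⟩
  exact ⟨QuotientGroup.mk g, rfl⟩

/-- Main lemma: a locally finite perfect group of exponent three in which every element has
finitely many conjugates is trivial. -/
lemma trivial_of {G : Type u} [Group G] (h3 : ∀ x : G, x ^ 3 = 1) (hp : commutator G = ⊤)
    (hc : ∀ x : G, (Set.range fun g : G => g * x * g⁻¹).Finite)
    (hl : ∀ S : Set G, S.Finite → (Subgroup.closure S : Set G).Finite) : Subsingleton G := by
  have hcen : ∀ x g : G, g * x * g⁻¹ = x := by
    intro x g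
    let P := Subgroup.normalClosure ({x} : Set G)
    have hP : Finite P := by
      have h1 : (Group.conjugatesOfSet ({x} : Set G)).Finite := by
        refine (hc x).subset ?_
        intro y hy
        rw [Group.mem_conjugatesOfSet_iff] at hy
        obtain ⟨a, ha, hay⟩ := hy
        rw [Set.mem_singleton_iff] at ha
        subst ha
        rw [isConj_iff] at hay
        exact hay
      exact (hl _ h1).to_subtype
    have hA : Finite (MulAut P) := by
      refine Finite.of_injective (fun e : MulAut P => (e : P → P)) ?_
      intro a b hab
      exact MulEquiv.ext (congrFun hab)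
    let φ : G →* MulAut P := MulAut.conjNormal
    have hR : Subsingleton φ.range := by
      by_contra hns
      rw [not_subsingleton_iff_nontrivial] at hns
      have hfin : Finite φ.range := inferInstance
      have hpg : IsPGroup 3 φ.range := by
        intro y
        obtain ⟨z, hz⟩ := φ.rangeRestrict_surjective y
        refine ⟨1, ?_⟩
        rw [← hz, ← map_pow, pow_one, h3, map_one]
      have hF : Fact (Nat.Prime 3) := ⟨Nat.prime_three⟩
      have hnil : Group.IsNilpotent φ.range := hpg.isNilpotent
      have hsol : Group.IsSolvable φ.range := inferInstance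
      have hlt := Group.IsSolvable.commutator_lt_top_of_nontrivial (G := φ.range)
      refine hlt.ne ?_
      rw [commutator_def, ← Subgroup.map_top_of_surjective _ φ.rangeRestrict_surjective,
        ← Subgroup.map_commutator, ← commutator_def, hp]
    have h1 : φ g = 1 := by
      have h2 : φ.rangeRestrict g = 1 := Subsingleton.elim _ _
      exact congrArg Subtype.val h2
    have hx : x ∈ P := Subgroup.subset_normalClosure rfl
    have h2 : φ g ⟨x, hx⟩ = ⟨x, hx⟩ := by rw [h1]; rfl
    have h3 := congrArg Subtype.val h2
    rw [MulAut.conjNormal_apply] at h3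
    exact h3
  have hcomm : commutator G = ⊥ := by
    rw [commutator_def, Subgroup.commutator_eq_bot_iff_le_centralizer]
    intro a _
    rw [Subgroup.mem_centralizer_iff]
    intro b _
    have := hcen a b
    rw [mul_inv_eq_iff_eq_mul] at this
    exact this
  rw [hp] at hcomm
  exact ⟨fun a b => by
    have ha : a ∈ (⊤ : Subgroup G) := trivial
    have hb : b ∈ (⊤ : Subgroup G) := trivial
    rw [hcomm, Subgroup.mem_bot] at ha hb
    rw [ha, hb]⟩

end DERM

open DERM in
/-- DER. -/
theorem commutator_index_eq_zero {X : Type u} [Group X] (hlf : LocFin X) (hFC : FCc X = ⊤)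
    (h3 : {y : X | ∃ x : X, y = x * x * x}.Finite) (hX' : (commutator X : Set X).Infinite) :
    (commutator X).index = 0 := by
  by_contra hne
  have hfi : (commutator X).FiniteIndex := ⟨hne⟩
  have hfin : Finite (X ⧸ commutator X) := Subgroup.finite_quotient_of_finiteIndex
  have hcl : ∀ S : Set X, S.Finite → (Subgroup.closure S : Set X).Finite := by
    intro S hS
    have h := hlf hS.toFinset
    rwa [hS.coe_toFinset] at h
  have hc : ∀ x : X, (Set.range fun g : X => g * x * g⁻¹).Finite := by
    intro x
    refine conj_finite x ?_
    have hx : x ∈ FCc X := by rw [hFC]; trivial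
    exact hx
  let R : Set X := Set.range (Quotient.out : X ⧸ commutator X → X)
  have hR : R.Finite := Set.finite_range _
  let K : Set X := R ∪ {y : X | ∃ x : X, y = x * x * x}
  have hK : K.Finite := hR.union h3
  let M := Subgroup.normalClosure K
  have hM : (M : Set X).Finite := by
    refine hcl _ ?_
    have h1 : Group.conjugatesOfSet K ⊆ ⋃ a ∈ K, Set.range fun g : X => g * a * g⁻¹ := by
      intro y hy
      rw [Group.mem_conjugatesOfSet_iff] at hy
      obtain ⟨a, ha, hay⟩ := hy
      rw [isConj_iff] at hay
      exact Set.mem_biUnion ha hay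
    exact (hK.biUnion fun a _ => hc a).subset h1
  let π : X →* X ⧸ M := QuotientGroup.mk' M
  have hπ : Function.Surjective π := QuotientGroup.mk'_surjective M
  have hsub : Subsingleton (X ⧸ M) := by
    refine trivial_of ?_ ?_ ?_ ?_
    · intro y
      obtain ⟨x, rfl⟩ := hπ y
      rw [← map_pow]
      refine (QuotientGroup.eq_one_iff _).2 (Subgroup.subset_normalClosure (Or.inr ⟨x, ?_⟩))
      rw [pow_succ, pow_two]
    · rw [eq_top_iff]
      intro y _
      obtain ⟨x, rfl⟩ := hπ y
      have h1 : (commutator (X ⧸ M)) = (commutator X).map π := by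
        rw [commutator_def, commutator_def, Subgroup.map_commutator,
          Subgroup.map_top_of_surjective _ hπ]
      rw [h1]
      let r : X := Quotient.out (QuotientGroup.mk x : X ⧸ commutator X)
      have hr : r⁻¹ * x ∈ commutator X := by
        rw [← QuotientGroup.eq]
        exact Quotient.out_eq _
      refine ⟨r⁻¹ * x, hr, ?_⟩
      have h2 : π r = 1 := (QuotientGroup.eq_one_iff _).2
        (Subgroup.subset_normalClosure (Or.inl ⟨_, rfl⟩))
      rw [map_mul, map_inv, h2, inv_one, one_mul]
    · intro y
      obtain ⟨x, rfl⟩ := hπ y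
      refine ((hc x).image π).subset ?_
      rintro _ ⟨g, rfl⟩
      obtain ⟨h, rfl⟩ := hπ g
      exact ⟨h * x * h⁻¹, ⟨h, rfl⟩, by simp only [map_mul, map_inv]⟩
    · intro S hS
      obtain ⟨T, hT, hTS⟩ : ∃ T : Set X, T.Finite ∧ π '' T = S := by
        refine ⟨Function.surjInv hπ '' S, hS.image _, ?_⟩
        rw [Set.image_image]
        simp only [Function.surjInv_eq hπ, Set.image_id']
      rw [← hTS, ← MonoidHom.map_closure]
      exact (hcl T hT).image π
  apply hX'
  refine hM.subset ?_
  intro x _
  have h1 : π x = 1 := Subsingleton.elim _ _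
  exact (QuotientGroup.eq_one_iff _).1 h1

end Pool.Agent.Lib.MP_008109_al.AB
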