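import Pool.Agent.Lib.MP_008109_al.AB.Spec2

/-!
# MP_008109_al, module DST: a family of subsets of `H` separated by all automorphisms (helper26)

`D A` is the union of the subgroups `F k`, `k ∈ A`, without `1`, where `F 0, F 1, ..` are finite subgroups of `H`
of different orders such that `F k` meets the subgroup generated by the previous ones trivially.
-/

set_option autoImplicit false

universe u

namespace Pool.Agent.Lib.MP_008109_al.AB

namespace DstM

variable {X : Type u} [Group X]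

theorem cent_finiteIndex (hFC : FCc X = ⊤) {B : Set X} (hB : B.Finite) :
    (Subgroup.centralizer B).FiniteIndex := by
  induction B, hB using Set.Finite.induction_on with
  | empty =>
    have h : Subgroup.centralizer (∅ : Set X) = ⊤ := by
      rw [eq_top_iff]
      intro g _
      rw [Subgroup.mem_centralizer_iff]
      intro h hh
      exact absurd hh (Set.notMem_empty h)
    rw [h]
    infer_instance
  | @insert a s _ _ ih =>
    have ha : (Subgroup.centralizer ({a} : Set X)).FiniteIndex := by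
      have : a ∈ FCc X := by rw [hFC]; trivial
      exact this
    have h : Subgroup.centralizer ({a} : Set X) ⊓ Subgroup.centralizer s ≤
        Subgroup.centralizer (insert a s) := by
      rintro g ⟨h1, h2⟩
      rw [Subgroup.mem_centralizer_iff]
      rintro h (rfl | hh)
      · exact Subgroup.mem_centralizer_iff.1 h1 h rfl
      · exact Subgroup.mem_centralizer_iff.1 h2 h hh
    exact Subgroup.finiteIndex_of_le h

theorem inf_infinite (H : Subgroup X) (hH : (H : Set X).Infinite) (C : Subgroup X)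
    (hC : C.FiniteIndex) : ((H ⊓ C : Subgroup X) : Set X).Infinite := by
  intro hf
  have h1 := (C.subgroupOf H).card_mul_index
  have : Infinite H := hH.to_subtype
  rw [(Nat.card_eq_zero_of_infinite : Nat.card H = 0)] at h1
  have h2 : (C.subgroupOf H).index ≠ 0 := Subgroup.FiniteIndex.index_ne_zero
  have h3 : Nat.card (C.subgroupOf H) = 0 := by
    rcases Nat.mul_eq_zero.1 h1 with h | h
    · exact h
    · exact absurd h h2
  have hfin : Finite ((H ⊓ C : Subgroup X) : Set X) := hf.to_subtype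
  have h4 : Finite (C.subgroupOf H) := by
    refine Finite.of_injective (β := ((H ⊓ C : Subgroup X) : Set X))
      (fun x => ⟨((x : H) : X), x.1.2, x.2⟩) ?_
    intro x y hxy
    have h5 := congrArg Subtype.val hxy
    exact Subtype.ext (Subtype.ext h5)
  have h6 : 0 < Nat.card (C.subgroupOf H) := Nat.card_pos
  omega

/-- an infinite set of commuting elements -/
theorem ab_infinite (hFC : FCc X = ⊤) (K : Subgroup X) (hK : (K : Set X).Infinite) :
    ∃ B : Set X, B ⊆ K ∧ B.Infinite ∧ ∀ x ∈ B, ∀ y ∈ B, x * y = y * x := by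
  obtain ⟨m, hm⟩ := zorn_subset {B : Set X | B ⊆ K ∧ ∀ x ∈ B, ∀ y ∈ B, x * y = y * x} (by
    intro c hc hch
    refine ⟨⋃₀ c, ⟨?_, ?_⟩, fun s hs => Set.subset_sUnion_of_mem hs⟩
    · exact Set.sUnion_subset (fun s hs => (hc hs).1)
    · rintro x ⟨s, hs, hx⟩ y ⟨t, ht, hy⟩
      rcases hch.total hs ht with h | h
      · exact (hc ht).2 x (h hx) y hy
      · exact (hc hs).2 x hx y (h hy))
  have hm1 : m ⊆ K ∧ ∀ x ∈ m, ∀ y ∈ m, x * y = y * x := hm.1
  refine ⟨m, hm1.1, ?_, hm1.2⟩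
  intro hfin
  have h1 := inf_infinite K hK _ (cent_finiteIndex hFC hfin)
  obtain ⟨z, hz, hzm⟩ := h1.exists_notMem_finite hfin
  obtain ⟨hzK, hzC⟩ := hz
  have hzc : ∀ x ∈ m, x * z = z * x := fun x hx => Subgroup.mem_centralizer_iff.1 hzC x hx
  have h2 : insert z m ∈ {B : Set X | B ⊆ K ∧ ∀ x ∈ B, ∀ y ∈ B, x * y = y * x} := by
    refine ⟨Set.insert_subset hzK hm1.1, ?_⟩
    rintro x (rfl | hx) y (rfl | hy)
    · rfl
    · exact (hzc y hy).symm
    · exact hzc x hx
    · exact hm1.2 x hx y hy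
  exact hzm (hm.2 h2 (Set.subset_insert z m) (Set.mem_insert z m))

theorem q_ex (hFC : FCc X = ⊤) (h3 : {y : X | ∃ x : X, y = x * x * x}.Finite) (H : Subgroup X)
    (hH : (H : Set X).Infinite) (M : Subgroup X) (hM : (M : Set X).Finite) :
    ∃ q ∈ H, q ∉ M ∧ (∀ m ∈ M, m * q = q * m) ∧ q * q * q = 1 := by
  have hK := inf_infinite H hH _ (cent_finiteIndex hFC hM)
  obtain ⟨B, hBK, hB, hBc⟩ := ab_infinite hFC _ hK
  -- an infinite fibre of the cubes
  obtain ⟨y, hy⟩ : ∃ y : X, {x ∈ B | x * x * x = y}.Infinite := by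
    by_contra hc
    push Not at hc
    refine hB ((h3.biUnion (t := fun y => {x ∈ B | x * x * x = y}) (fun y _ => ?_)).subset ?_)
    · exact hc y
    · intro x hx
      rw [Set.mem_iUnion₂]
      exact ⟨x * x * x, ⟨x, rfl⟩, hx, rfl⟩
  obtain ⟨x0, hx0, hx0y⟩ := hy.nonempty
  have himg : ((fun x => x0 * x⁻¹) '' {x ∈ B | x * x * x = y}).Infinite := by
    refine hy.image ?_
    intro a _ b _ hab
    exact inv_injective (mul_left_cancel hab)
  obtain ⟨q, ⟨x, ⟨hx, hxy⟩, rfl⟩, hqM⟩ := himg.exists_notMem_finite hM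
  have hq : x0 * x⁻¹ ∈ (H ⊓ Subgroup.centralizer (M : Set X) : Subgroup X) :=
    Subgroup.mul_mem _ (hBK hx0) (Subgroup.inv_mem _ (hBK hx))
  refine ⟨x0 * x⁻¹, hq.1, hqM, fun m hm => Subgroup.mem_centralizer_iff.1 hq.2 m hm, ?_⟩
  have hcx : Commute x0 x⁻¹ := (show Commute x0 x from hBc x0 hx0 x hx).inv_right
  have e1 : x0 * x⁻¹ * (x0 * x⁻¹) * (x0 * x⁻¹) = (x0 * x⁻¹) ^ 3 := by
    rw [pow_succ, pow_two]
  rw [e1, hcx.mul_pow]
  have e2 : x0 ^ 3 = x0 * x0 * x0 := by rw [pow_succ, pow_two]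
  have e3 : (x⁻¹) ^ 3 = (x * x * x)⁻¹ := by rw [inv_pow, pow_succ, pow_two]
  rw [e2, e3, hx0y, hxy, mul_inv_cancel]

/-- the subgroup generated by `F` and an element `q` of order `3` commuting with `F` -/
def adj (F : Subgroup X) (q : X) (hq : ∀ f ∈ F, f * q = q * f) (h3 : q ^ 3 = 1) : Subgroup X where
  carrier := {x | ∃ f ∈ F, ∃ i : ℕ, x = f * q ^ i}
  one_mem' := ⟨1, F.one_mem, 0, by simp⟩
  mul_mem' := by
    rintro _ _ ⟨f, hf, i, rfl⟩ ⟨f', hf', j, rfl⟩
    refine ⟨f * f', F.mul_mem hf hf', i + j, ?_⟩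
    have h1 : f' * q ^ i = q ^ i * f' := (show Commute f' q from hq f' hf').pow_right i
    rw [pow_add, mul_assoc, mul_assoc, ← mul_assoc (q ^ i), ← h1, mul_assoc f' (q ^ i)]
  inv_mem' := by
    rintro _ ⟨f, hf, i, rfl⟩
    refine ⟨f⁻¹, F.inv_mem hf, 2 * i, ?_⟩
    have h1 : f⁻¹ * q ^ i = q ^ i * f⁻¹ :=
      (show Commute f⁻¹ q from hq _ (F.inv_mem hf)).pow_right i
    have h2 : q ^ (2 * i) * q ^ i = 1 := by
      rw [← pow_add, show 2 * i + i = 3 * i by ring, pow_mul, h3, one_pow]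
    rw [mul_inv_rev]
    have h3' : (q ^ i)⁻¹ = q ^ (2 * i) := (eq_inv_of_mul_eq_one_left h2).symm
    have h4 : f⁻¹ * q ^ (2 * i) = q ^ (2 * i) * f⁻¹ :=
      (show Commute f⁻¹ q from hq _ (F.inv_mem hf)).pow_right (2 * i)
    rw [h3', h4]

theorem mem_adj {F : Subgroup X} {q : X} {hq : ∀ f ∈ F, f * q = q * f} {h3 : q ^ 3 = 1} {x : X} :
    x ∈ adj F q hq h3 ↔ ∃ f ∈ F, ∃ i : ℕ, x = f * q ^ i := Iff.rfl

theorem closure_fin (hlf : LocFin X) {S : Set X} (hS : S.Finite) :
    (Subgroup.closure S : Set X).Finite := by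
  have := hlf hS.toFinset
  rwa [Set.Finite.coe_toFinset] at this

theorem step (hlf : LocFin X) (hFC : FCc X = ⊤)
    (h3 : {y : X | ∃ x : X, y = x * x * x}.Finite) (H : Subgroup X) (hH : (H : Set X).Infinite)
    (L : Subgroup X) (hL : (L : Set X).Finite) (F : Subgroup X) (hFH : F ≤ H)
    (hF : (F : Set X).Finite) (hFL : F ⊓ L = ⊥) :
    ∃ F' : Subgroup X, F' ≤ H ∧ (F' : Set X).Finite ∧ F' ⊓ L = ⊥ ∧
      (F : Set X).ncard < (F' : Set X).ncard := by
  set M : Subgroup X := Subgroup.closure ((F : Set X) ∪ L) with hMdef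
  have hM : (M : Set X).Finite := closure_fin hlf (hF.union hL)
  have hFM : F ≤ M := fun x hx => Subgroup.subset_closure (Or.inl hx)
  have hLM : L ≤ M := fun x hx => Subgroup.subset_closure (Or.inr hx)
  obtain ⟨q, hqH, hqM, hqc, hq3⟩ := q_ex hFC h3 H hH M hM
  have hq3' : q ^ 3 = 1 := by
    rw [pow_succ, pow_two]
    exact hq3
  have hqF : ∀ f ∈ F, f * q = q * f := fun f hf => hqc f (hFM hf)
  have hfin : (adj F q hqF hq3' : Set X).Finite := by
    refine (closure_fin hlf (hF.union (Set.finite_singleton q))).subset ?_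
    rintro x ⟨f, hf, i, rfl⟩
    have m1 : f ∈ Subgroup.closure ((F : Set X) ∪ {q}) := Subgroup.subset_closure (Or.inl hf)
    have m2 : q ∈ Subgroup.closure ((F : Set X) ∪ {q}) := Subgroup.subset_closure (Or.inr rfl)
    exact (Subgroup.closure ((F : Set X) ∪ {q})).mul_mem m1
      ((Subgroup.closure ((F : Set X) ∪ {q})).pow_mem m2 i)
  refine ⟨adj F q hqF hq3', ?_, hfin, ?_, ?_⟩
  · rintro x ⟨f, hf, i, rfl⟩
    exact H.mul_mem (hFH hf) (H.pow_mem hqH i)
  · rw [eq_bot_iff]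
    rintro x ⟨⟨f, hf, i, hx⟩, hxL⟩
    rw [Subgroup.mem_bot]
    have hmem : q ^ i ∈ M := by
      have : q ^ i = f⁻¹ * x := by rw [hx]; group
      rw [this]
      exact M.mul_mem (M.inv_mem (hFM hf)) (hLM hxL)
    have hmod : q ^ i = q ^ (i % 3) := by
      conv_lhs => rw [← Nat.div_add_mod i 3]
      rw [pow_add, pow_mul, hq3', one_pow, one_mul]
    rw [hmod] at hmem hx
    have hlt : i % 3 < 3 := Nat.mod_lt _ (by norm_num)
    have hcase : i % 3 = 0 ∨ i % 3 = 1 ∨ i % 3 = 2 := by omega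
    rcases hcase with h | h | h
    · rw [h, pow_zero, mul_one] at hx
      rw [hx] at hxL ⊢
      have h5 : f ∈ F ⊓ L := ⟨hf, hxL⟩
      rw [hFL, Subgroup.mem_bot] at h5
      exact h5
    · rw [h, pow_one] at hmem
      exact absurd hmem hqM
    · rw [h] at hmem
      have h5 : q = q ^ 2 * q ^ 2 := by
        rw [← pow_add]
        show q = q ^ (3 + 1)
        rw [pow_add, hq3', one_mul, pow_one]
      exact absurd (h5 ▸ M.mul_mem hmem hmem) hqM
  · refine Set.ncard_lt_ncard ⟨?_, ?_⟩ hfin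
    · intro f hf
      exact ⟨f, hf, 0, by simp⟩
    · intro hsub
      have h5 : q ∈ (F : Set X) := hsub ⟨1, F.one_mem, 1, by simp⟩
      exact hqM (hFM h5)

theorem big (hlf : LocFin X) (hFC : FCc X = ⊤)
    (h3 : {y : X | ∃ x : X, y = x * x * x}.Finite) (H : Subgroup X) (hH : (H : Set X).Infinite)
    (L : Subgroup X) (hL : (L : Set X).Finite) (n : ℕ) :
    ∃ F : Subgroup X, F ≤ H ∧ (F : Set X).Finite ∧ F ⊓ L = ⊥ ∧ n ≤ (F : Set X).ncard := by
  induction n with
  | zero => exact ⟨⊥, bot_le, by simp, by simp, Nat.zero_le _⟩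
  | succ n ih =>
    obtain ⟨F, h1, h2, h4, h5⟩ := ih
    obtain ⟨F', k1, k2, k4, k5⟩ := step hlf hFC h3 H hH L hL F h1 h2 h4
    exact ⟨F', k1, k2, k4, by omega⟩

/-- the sequence of subgroups -/
theorem seq_ex (hlf : LocFin X) (hFC : FCc X = ⊤)
    (h3 : {y : X | ∃ x : X, y = x * x * x}.Finite) (H : Subgroup X) (hH : (H : Set X).Infinite) :
    ∃ (F L : ℕ → Subgroup X), (∀ k, F k ≤ H) ∧ (∀ k, (F k : Set X).Finite) ∧
      (∀ k, F k ⊓ L k = ⊥) ∧ (∀ j k, j < k → F j ≤ L k) ∧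
      (∀ j k, j < k → (F j : Set X).ncard < (F k : Set X).ncard) ∧
      ∀ k, 1 < (F k : Set X).ncard := by
  have hb : ∀ L : {L : Subgroup X // (L : Set X).Finite}, ∃ F : Subgroup X, F ≤ H ∧
      (F : Set X).Finite ∧ F ⊓ L.1 = ⊥ ∧ (L.1 : Set X).ncard + 1 ≤ (F : Set X).ncard :=
    fun L => big hlf hFC h3 H hH L.1 L.2 _
  choose F hF1 hF2 hF3 hF4 using hb
  let nx : {L : Subgroup X // (L : Set X).Finite} → {L : Subgroup X // (L : Set X).Finite} :=
    fun L => ⟨Subgroup.closure ((L.1 : Set X) ∪ F L), closure_fin hlf (L.2.union (hF2 L))⟩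
  let L : ℕ → {L : Subgroup X // (L : Set X).Finite} :=
    fun k => nx^[k] ⟨⊥, by simp⟩
  have hL : ∀ k, L (k + 1) = nx (L k) := fun k => Function.iterate_succ_apply' nx k _
  have hLs : ∀ k, (L k).1 ≤ (L (k + 1)).1 := by
    intro k
    rw [hL k]
    exact fun x hx => Subgroup.subset_closure (Or.inl hx)
  have hFs : ∀ k, F (L k) ≤ (L (k + 1)).1 := by
    intro k
    rw [hL k]
    exact fun x hx => Subgroup.subset_closure (Or.inr hx)
  have hmono : Monotone (fun k => (L k).1) := monotone_nat_of_le_succ hLs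
  have hFL : ∀ j k, j < k → F (L j) ≤ (L k).1 := fun j k hjk => (hFs j).trans (hmono hjk)
  refine ⟨fun k => F (L k), fun k => (L k).1, fun k => hF1 _, fun k => hF2 _, fun k => hF3 _,
    hFL, ?_, ?_⟩
  · intro j k hjk
    have h1 := hF4 (L k)
    have h2 : (F (L j) : Set X).ncard ≤ ((L k).1 : Set X).ncard :=
      Set.ncard_le_ncard (hFL j k hjk) (L k).2
    show (F (L j) : Set X).ncard < (F (L k) : Set X).ncard
    omega
  · intro k
    have h1 := hF4 (L k)
    have h2 : 0 < ((L k).1 : Set X).ncard :=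
      (Set.ncard_pos (L k).2).2 ⟨1, (L k).1.one_mem⟩
    show 1 < (F (L k) : Set X).ncard
    omega

end DstM

open DstM in
theorem exists_family {X : Type u} [Group X] (hlf : LocFin X) (hFC : FCc X = ⊤)
    (h3 : {y : X | ∃ x : X, y = x * x * x}.Finite) (H : Subgroup X) (hH : (H : Set X).Infinite) :
    ∃ D : Set ℕ → Set X, (∀ A, D A ⊆ H ∧ (∀ d ∈ D A, d⁻¹ ∈ D A) ∧ (1 : X) ∉ D A) ∧
      ∀ A B, ∀ α : X ≃* X, α '' D A = D B → A = B := by
  obtain ⟨F, L, hFH, hFf, hFL, hFs, hlt, hone⟩ := seq_ex hlf hFC h3 H hH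
  -- different `F k` meet trivially
  have hbot : ∀ k x, x ∈ F k → x ∈ L k → x = 1 := by
    intro k x h1 h2
    have : x ∈ F k ⊓ L k := ⟨h1, h2⟩
    rw [hFL, Subgroup.mem_bot] at this
    exact this
  have hdis : ∀ j k x, j ≠ k → x ∈ F j → x ∈ F k → x = 1 := by
    intro j k x hjk h1 h2
    rcases lt_or_gt_of_ne hjk with h | h
    · exact hbot k x h2 (hFs j k h h1)
    · exact hbot j x h1 (hFs k j h h2)
  have hinj : ∀ j k, (F j : Set X).ncard = (F k : Set X).ncard → j = k := by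
    intro j k h
    rcases lt_trichotomy j k with h1 | h1 | h1
    · exact absurd h (hlt j k h1).ne
    · exact h1
    · exact absurd h (hlt k j h1).ne'
  set D : Set ℕ → Set X := fun A => {x | x ≠ 1 ∧ ∃ k ∈ A, x ∈ F k} with hD
  have key : ∀ (A : Set ℕ) (k : ℕ) (x y : X), k ∈ A → x ∈ F k → x ≠ 1 →
      (y ∈ F k ↔ (y = 1 ∨ y ∈ D A) ∧ (x * y = 1 ∨ x * y ∈ D A)) := by
    intro A k x y hk hx hx1
    have hmem : ∀ z, z ∈ F k → z = 1 ∨ z ∈ D A := by
      intro z hz
      by_cases h : z = 1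
      · exact Or.inl h
      · exact Or.inr ⟨h, k, hk, hz⟩
    constructor
    · intro hy
      exact ⟨hmem y hy, hmem _ ((F k).mul_mem hx hy)⟩
    · rintro ⟨h1 | ⟨h1, l, hl, hyl⟩, h2⟩
      · rw [h1]
        exact (F k).one_mem
      · by_contra hyk
        have hkl : k ≠ l := by
          rintro rfl
          exact hyk hyl
        rcases h2 with h2 | ⟨h2, j, hj, hxy⟩
        · have e : y = x⁻¹ := eq_inv_of_mul_eq_one_right h2
          exact hyk (e ▸ (F k).inv_mem hx)
        · have ex : x = x * y * y⁻¹ := by group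
          have ey : y = x⁻¹ * (x * y) := by group
          by_cases hjk : j = k
          · subst hjk
            exact hyk (ey ▸ (F j).mul_mem ((F j).inv_mem hx) hxy)
          by_cases hjl : j = l
          · subst hjl
            refine hx1 (hdis k j x hkl hx ?_)
            rw [ex]
            exact (F j).mul_mem hxy ((F j).inv_mem hyl)
          have hcase : (l < k ∧ j < k) ∨ (k < l ∧ j < l) ∨ (k < j ∧ l < j) := by omega
          rcases hcase with ⟨c1, c2⟩ | ⟨c1, c2⟩ | ⟨c1, c2⟩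
          · refine hx1 (hbot k x hx ?_)
            rw [ex]
            exact (L k).mul_mem (hFs j k c2 hxy) ((L k).inv_mem (hFs l k c1 hyl))
          · refine h1 (hbot l y hyl ?_)
            rw [ey]
            exact (L l).mul_mem ((L l).inv_mem (hFs k l c1 hx)) (hFs j l c2 hxy)
          · exact h2 (hbot j _ hxy ((L j).mul_mem (hFs k j c1 hx) (hFs l j c2 hyl)))
  have main : ∀ A B, ∀ α : X ≃* X, α '' D A = D B → A ⊆ B := by
    intro A B α hα k hk
    have hiff : ∀ z, α z ∈ D B ↔ z ∈ D A := by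
      intro z
      rw [← hα]
      exact α.injective.mem_set_image
    obtain ⟨x, hxF, hx1⟩ : ∃ x ∈ F k, x ≠ 1 := by
      obtain ⟨x, hx, hne⟩ := Set.exists_ne_of_one_lt_ncard (hone k) 1
      exact ⟨x, hx, hne⟩
    have hxD : α x ∈ D B := (hiff x).2 ⟨hx1, k, hk, hxF⟩
    obtain ⟨hαx1, l, hl, hαx⟩ := hxD
    have himg : α '' (F k : Set X) = (F l : Set X) := by
      ext w
      obtain ⟨y, rfl⟩ := α.surjective w
      rw [α.injective.mem_set_image, SetLike.mem_coe, SetLike.mem_coe,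
        key A k x y hk hxF hx1, key B l (α x) (α y) hl hαx hαx1, ← map_mul, hiff, hiff,
        map_eq_one_iff α α.injective, map_eq_one_iff α α.injective]
    have hcard : (F k : Set X).ncard = (F l : Set X).ncard := by
      rw [← himg, Set.ncard_image_of_injective _ α.injective]
    rw [hinj k l hcard]
    exact hl
  refine ⟨D, fun A => ⟨?_, ?_, ?_⟩, fun A B α hα => ?_⟩
  · rintro x ⟨_, k, _, hx⟩
    exact hFH k hx
  · rintro x ⟨h1, k, hk, hx⟩
    exact ⟨fun h => h1 (inv_eq_one.1 h), k, hk, (F k).inv_mem hx⟩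
  · rintro ⟨h, _⟩
    exact h rfl
  · refine Set.Subset.antisymm (main A B α hα) (main B A α.symm ?_)
    rw [← hα]
    ext w
    constructor
    · rintro ⟨_, ⟨y, hy, rfl⟩, rfl⟩
      simpa using hy
    · intro hw
      exact ⟨α w, ⟨w, hw, rfl⟩, by simp⟩

end Pool.Agent.Lib.MP_008109_al.AB
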