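import Pool.Agent.Lib.MP_008109_al.AB.Gen

/-!
# MP_008109_al, module EXS: special subsets exist

If a countable abelian group has infinitely many doubles, generic choices give a special subset.
-/

set_option autoImplicit false
universe u

namespace Pool.Agent.Lib.MP_008109_al.AB

namespace EXSM

/-- Sequences of generic choices. -/
theorem exists_seq {G : Type u} [AddCommGroup G]
    (hg : ∀ K : Finset G, ∃ g : G, g ∉ K ∧ 2 • g ∉ K)
    (P : (n : ℕ) → ((m : ℕ) → m < n → G) → Finset G) :
    ∃ z : ℕ → G, ∀ n, z n ∉ P n (fun m _ => z m) ∧ 2 • z n ∉ P n (fun m _ => z m) := by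
  classical
  let F : (n : ℕ) → ((m : ℕ) → m < n → G) → G := fun n f => Classical.choose (hg (P n f))
  let z : ℕ → G := (wellFounded_lt (α := ℕ)).fix F
  refine ⟨z, fun n => ?_⟩
  have h : z n = F n (fun m _ => z m) := WellFounded.fix_eq _ _ _
  have h' := Classical.choose_spec (hg (P n (fun m _ => z m)))
  rw [h]
  exact h'

end EXSM

theorem exists_spec {G : Type u} [AddCommGroup G] [Countable G] (h2 : (mult G 2).Infinite) :
    ∃ S : Set G, Spec S := by
  classical
  obtain ⟨F3, F4, -, hgen⟩ := exists_gen h2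
  have hg : ∀ K : Finset G, ∃ g : G, g ∉ K ∧ 2 • g ∉ K := by
    intro K
    obtain ⟨g, hg⟩ := hgen K
    exact ⟨g, fun h => (hg g h).1 rfl, fun h => (hg _ h).2.1 rfl⟩
  -- enumerate the pairs of disjoint finite sets
  have hc : Countable {p : Finset G × Finset G // Disjoint p.1 p.2} := inferInstance
  have hne : Nonempty {p : Finset G × Finset G // Disjoint p.1 p.2} := ⟨⟨(∅, ∅), by simp⟩⟩
  obtain ⟨e, he⟩ := exists_surjective_nat {p : Finset G × Finset G // Disjoint p.1 p.2}
  let A : ℕ → Finset G := fun n => (e n).1.1 ∪ (e n).1.2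
  let P : (n : ℕ) → ((m : ℕ) → m < n → G) → Finset G := fun n f =>
    (A n ∪ (A n ×ˢ A n).image (fun q => q.1 + q.2)) ∪
      ((Finset.range n).attach.biUnion (fun m =>
        (A m.1 ×ˢ A n).image (fun q => f m.1 (Finset.mem_range.1 m.2) - q.1 + q.2) ∪
        (A m.1 ×ˢ A n).image (fun q => q.1 - f m.1 (Finset.mem_range.1 m.2) + q.2)))
  obtain ⟨z, hz⟩ := EXSM.exists_seq hg P
  have hz1 : ∀ n, ∀ w ∈ A n, z n ≠ w := by
    rintro n w hw rfl
    exact (hz n).1 (Finset.mem_union_left _ (Finset.mem_union_left _ hw))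
  have hz2 : ∀ n m, m < n → ∀ w ∈ A n, ∀ w' ∈ A m, z n - w ≠ z m - w' := by
    intro n m hmn w hw w' hw' h
    apply (hz n).1
    refine Finset.mem_union_right _ ?_
    rw [Finset.mem_biUnion]
    refine ⟨⟨m, Finset.mem_range.2 hmn⟩, Finset.mem_attach _ _, ?_⟩
    refine Finset.mem_union_left _ (Finset.mem_image.2 ⟨(w', w), Finset.mem_product.2 ⟨hw', hw⟩, ?_⟩)
    change z m - w' + w = z n
    rw [← h, sub_add_cancel]
  have hz3 : ∀ n m, m < n → ∀ w ∈ A n, ∀ w' ∈ A m, z n - w ≠ -(z m - w') := by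
    intro n m hmn w hw w' hw' h
    apply (hz n).1
    refine Finset.mem_union_right _ ?_
    rw [Finset.mem_biUnion]
    refine ⟨⟨m, Finset.mem_range.2 hmn⟩, Finset.mem_attach _ _, ?_⟩
    refine Finset.mem_union_right _
      (Finset.mem_image.2 ⟨(w', w), Finset.mem_product.2 ⟨hw', hw⟩, ?_⟩)
    change w' - z m + w = z n
    rw [← neg_sub, ← h, sub_add_cancel]
  have hz4 : ∀ n, ∀ w ∈ A n, ∀ w' ∈ A n, z n - w ≠ -(z n - w') := by
    intro n w hw w' hw' h
    apply (hz n).2
    refine Finset.mem_union_left _ (Finset.mem_union_right _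
      (Finset.mem_image.2 ⟨(w, w'), Finset.mem_product.2 ⟨hw, hw'⟩, ?_⟩))
    change w + w' = 2 • z n
    have h3 : z n = -(z n - w') + w := by rw [← h, sub_add_cancel]
    calc w + w' = (-(z n - w') + w) + z n := by abel
      _ = z n + z n := by rw [← h3]
      _ = 2 • z n := (two_nsmul _).symm
  let S : Set G := {s | ∃ n, ∃ u ∈ (e n).1.1, s = z n - u ∨ s = -(z n - u)}
  refine ⟨S, ?_, ?_, ?_⟩
  · rintro s ⟨n, u, hu, h | h⟩
    · exact ⟨n, u, hu, Or.inr (by rw [h])⟩
    · exact ⟨n, u, hu, Or.inl (by rw [h, neg_neg])⟩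
  · rintro ⟨n, u, hu, h | h⟩
    · exact hz1 n u (Finset.mem_union_left _ hu) (sub_eq_zero.1 h.symm)
    · exact hz1 n u (Finset.mem_union_left _ hu) (sub_eq_zero.1 (neg_eq_zero.1 h.symm))
  · intro U V hd
    obtain ⟨n, hn⟩ := he ⟨(U, V), hd⟩
    have hU : (e n).1.1 = U := by rw [hn]
    have hV : (e n).1.2 = V := by rw [hn]
    refine ⟨z n, ?_, ?_, fun u hu => ⟨n, u, by rw [hU]; exact hu, Or.inl rfl⟩, ?_⟩
    · intro h
      exact hz1 n (z n) (Finset.mem_union_left _ (by rw [hU]; exact h)) rfl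
    · intro h
      exact hz1 n (z n) (Finset.mem_union_right _ (by rw [hV]; exact h)) rfl
    · rintro v hv ⟨m, u, hu, h⟩
      have hvn : v ∈ A n := Finset.mem_union_right _ (by rw [hV]; exact hv)
      have hum : u ∈ A m := Finset.mem_union_left _ hu
      rcases lt_trichotomy n m with hlt | rfl | hlt
      · rcases h with h | h
        · exact hz2 m n hlt u hum v hvn h.symm
        · exact hz3 m n hlt u hum v hvn (by rw [h, neg_neg])
      · rcases h with h | h
        · have h3 : v = u := sub_right_injective h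
          subst h3
          rw [hU] at hu
          exact (Finset.disjoint_left.1 hd) hu hv
        · exact hz4 n v hvn u hum h
      · rcases h with h | h
        · exact hz2 n m hlt v hvn u hum h
        · exact hz3 n m hlt v hvn u hum h

end Pool.Agent.Lib.MP_008109_al.AB
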