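import Pool.Agent.Lib.MP_008109_al.AB.FiniteOrbits

/-!
# MP_008109_al: groups with a derived subgroup of order three (module EXTRA, helper87)

Let `X` be a countable group with finite centre whose derived subgroup is central and of order three.
Two special subsets with the same trace on a suitable finite subgroup are in one orbit, so there are
only finitely many orbits.
-/

set_option autoImplicit false
universe u

namespace Pool.Agent.Lib.MP_008109_al.AB

namespace EXTM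

open CENM

/-- The cyclic group of order three. -/
abbrev Y3 : Type := Multiplicative (ZMod 3)

variable {X : Type u} [Group X]

/-- Every homomorphism from a finite subgroup which kills the radical is given by an element. -/
theorem duality (β : X →* X →* Y3) (W : Subgroup X) [Finite W] (f : W →* Y3)
    (hf : ∀ w : W, (∀ x, β x w = 1) → f w = 1) : ∃ x, ∀ w : W, β x w = f w := by
  classical
  have : Fintype W := Fintype.ofFinite W
  let P : Submodule (ZMod 3) (W → ZMod 3) :=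
    { carrier := {g | ∃ x, ∀ w : W, g w = Multiplicative.toAdd (β x w)}
      add_mem' := by
        rintro g h ⟨x, hx⟩ ⟨y, hy⟩
        refine ⟨x * y, fun w => ?_⟩
        rw [map_mul, MonoidHom.mul_apply, toAdd_mul, ← hx w, ← hy w]
        rfl
      zero_mem' := by
        refine ⟨1, fun w => ?_⟩
        rw [map_one, MonoidHom.one_apply, toAdd_one]
        rfl
      smul_mem' := by
        rintro c g ⟨x, hx⟩
        refine ⟨x ^ c.val, fun w => ?_⟩
        rw [map_pow, MonoidHom.pow_apply, toAdd_pow, ← hx w, nsmul_eq_mul, ZMod.natCast_val,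
          ZMod.cast_id]
        rfl }
  by_contra hcon
  push Not at hcon
  let F : W → ZMod 3 := fun w => Multiplicative.toAdd (f w)
  have hF : F ∉ P := by
    rintro ⟨x, hx⟩
    obtain ⟨w, hw⟩ := hcon x
    exact hw (Multiplicative.toAdd.injective (hx w).symm)
  obtain ⟨K, hK, hKP⟩ := Submodule.exists_dual_map_eq_bot_of_notMem hF inferInstance
  let c : W → ZMod 3 := fun w => K (fun j => if w = j then 1 else 0)
  have hKs : ∀ g : W → ZMod 3, K g = ∑ w, g w * c w := by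
    intro g
    rw [LinearMap.pi_apply_eq_sum_univ K g]
    rfl
  let w0 : W := ((Finset.univ : Finset W).toList.map (fun w : W => w ^ (c w).val)).prod
  have key : ∀ φ : W →* Y3, Multiplicative.toAdd (φ w0) =
      ∑ w, Multiplicative.toAdd (φ w) * c w := by
    intro φ
    have h1 : φ w0 = ∏ w : W, φ (w ^ (c w).val) := by
      change φ ((Finset.univ : Finset W).toList.map (fun w : W => w ^ (c w).val)).prod = _
      rw [map_list_prod, List.map_map, ← Finset.prod_map_toList]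
      rfl
    rw [h1, toAdd_prod]
    refine Finset.sum_congr rfl fun w _ => ?_
    rw [map_pow, toAdd_pow, nsmul_eq_mul, ZMod.natCast_val, ZMod.cast_id]
    ring
  have h2 : ∀ x, β x w0 = 1 := by
    intro x
    have h3 : (fun w : W => Multiplicative.toAdd (β x w)) ∈ P := ⟨x, fun _ => rfl⟩
    have h4 : K (fun w : W => Multiplicative.toAdd (β x w)) = 0 := by
      have h5 : K (fun w : W => Multiplicative.toAdd (β x w)) ∈ P.map K := ⟨_, h3, rfl⟩
      rw [hKP] at h5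
      exact (Submodule.mem_bot _).1 h5
    rw [hKs] at h4
    have h5 := key ((β x).comp W.subtype)
    have h6 : ∑ w : W, Multiplicative.toAdd (((β x).comp W.subtype) w) * c w = 0 := h4
    rw [h6] at h5
    exact Multiplicative.toAdd.injective (h5.trans toAdd_one.symm)
  have h3 := hf w0 h2
  apply hK
  rw [hKs]
  have h4 := key f
  rw [h3, toAdd_one] at h4
  exact h4.symm

/-- Choice of the finite subgroup. -/
theorem stab (β : X →* X →* Y3) (Z : Subgroup X) (hZ : (Z : Set X).Finite)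
    (hcube : ∀ x : X, x ^ 3 ∈ Z) :
    ∃ F0 : Subgroup X, (F0 : Set X).Finite ∧ Z ≤ F0 ∧
      ∀ W : Subgroup X, (W : Set X).Finite → F0 ≤ W → ∀ x, (∀ w ∈ F0, β x w = 1) →
        ∃ y, (∀ w ∈ W, β y w = 1) ∧ y ^ 3 = x ^ 3 := by
  classical
  let cu : Subgroup X → Set X := fun F => {z | ∃ x, (∀ w ∈ F, β x w = 1) ∧ x ^ 3 = z}
  have hcuf : ∀ F, (cu F).Finite := by
    intro F
    apply hZ.subset
    rintro z ⟨x, -, rfl⟩
    exact hcube x
  have hex : ∃ n, ∃ F : Subgroup X, (F : Set X).Finite ∧ Z ≤ F ∧ (cu F).ncard = n :=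
    ⟨_, Z, hZ, le_rfl, rfl⟩
  obtain ⟨F0, h1, h2, h3⟩ := Nat.find_spec hex
  refine ⟨F0, h1, h2, ?_⟩
  intro W hW hFW x hx
  have h4 : cu W ⊆ cu F0 := by
    rintro z ⟨y, hy, rfl⟩
    exact ⟨y, fun w hw => hy w (hFW hw), rfl⟩
  have h5 : (cu F0).ncard ≤ (cu W).ncard := by
    rw [h3]
    exact Nat.find_min' hex ⟨W, hW, h2.trans hFW, rfl⟩
  have h6 := Set.eq_of_subset_of_ncard_le h4 h5 (hcuf F0)
  have h7 : x ^ 3 ∈ cu F0 := ⟨x, hx, rfl⟩
  rw [← h6] at h7
  exact h7

/-- Adjoin one element which normalises `A` and whose cube is in `A`. -/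
def adjN (A : Subgroup (X × X)) (q : X × X) (hq1 : ∀ p ∈ A, q * p * q⁻¹ ∈ A)
    (hq2 : ∀ p ∈ A, q⁻¹ * p * q ∈ A) (h3 : q * q * q ∈ A) : Subgroup (X × X) where
  carrier := {p | p ∈ A ∨ p * q⁻¹ ∈ A ∨ p * q ∈ A}
  one_mem' := Or.inl A.one_mem
  mul_mem' := by
    have h3' : q⁻¹ * q⁻¹ * q⁻¹ ∈ A := by
      have := A.inv_mem h3
      rwa [mul_inv_rev, mul_inv_rev, ← mul_assoc] at this
    rintro a b (ha | ha | ha) (hb | hb | hb)
    · exact Or.inl (A.mul_mem ha hb)
    · right; left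
      have := A.mul_mem ha hb
      rwa [← mul_assoc] at this
    · right; right
      have := A.mul_mem ha hb
      rwa [← mul_assoc] at this
    · right; left
      have := A.mul_mem ha (hq1 b hb)
      have e : a * b * q⁻¹ = a * q⁻¹ * (q * b * q⁻¹) := by group
      rw [e]; exact this
    · right; right
      have := A.mul_mem (A.mul_mem ha (hq1 _ hb)) h3
      have e : a * b * q = a * q⁻¹ * (q * (b * q⁻¹) * q⁻¹) * (q * q * q) := by group
      rw [e]; exact this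
    · left
      have := A.mul_mem ha (hq1 _ hb)
      have e : a * b = a * q⁻¹ * (q * (b * q) * q⁻¹) := by group
      rw [e]; exact this
    · right; right
      have := A.mul_mem ha (hq2 b hb)
      have e : a * b * q = a * q * (q⁻¹ * b * q) := by group
      rw [e]; exact this
    · left
      have := A.mul_mem ha (hq2 _ hb)
      have e : a * b = a * q * (q⁻¹ * (b * q⁻¹) * q) := by group
      rw [e]; exact this
    · right; left
      have := A.mul_mem (A.mul_mem ha (hq2 _ hb)) h3'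
      have e : a * b * q⁻¹ = a * q * (q⁻¹ * (b * q) * q) * (q⁻¹ * q⁻¹ * q⁻¹) := by group
      rw [e]; exact this
  inv_mem' := by
    rintro a (ha | ha | ha)
    · exact Or.inl (A.inv_mem ha)
    · right; right
      have := hq2 _ (A.inv_mem ha)
      have e : a⁻¹ * q = q⁻¹ * (a * q⁻¹)⁻¹ * q := by group
      rw [e]; exact this
    · right; left
      have := hq1 _ (A.inv_mem ha)
      have e : a⁻¹ * q⁻¹ = q * (a * q)⁻¹ * q⁻¹ := by group
      rw [e]; exact this

theorem le_adjN (A : Subgroup (X × X)) (q : X × X) (hq1 : ∀ p ∈ A, q * p * q⁻¹ ∈ A)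
    (hq2 : ∀ p ∈ A, q⁻¹ * p * q ∈ A) (h3 : q * q * q ∈ A) : A ≤ adjN A q hq1 hq2 h3 :=
  fun _ hp => Or.inl hp

/-- The extension step. -/
theorem fit_extra [Infinite X] (β : X →* X →* Y3)
    (hbr : ∀ x y x' y', β x y = β x' y' → x * y * x⁻¹ * y⁻¹ = x' * y' * x'⁻¹ * y'⁻¹)
    (Z F0 : Subgroup X) (hZ : (Z : Set X).Finite) (hZc : ∀ z ∈ Z, ∀ g, z * g = g * z)
    (hcen : ∀ w, (∀ x, x * w = w * x) → w ∈ Z) (hcom : ∀ x y, x * y * x⁻¹ * y⁻¹ ∈ Z)
    (hcube : ∀ x : X, x ^ 3 ∈ Z) (hcm : ∀ a b : X, (a * b) ^ 3 = a ^ 3 * b ^ 3) (hZF : Z ≤ F0)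
    (hstab : ∀ W : Subgroup X, (W : Set X).Finite → F0 ≤ W → ∀ x, (∀ w ∈ F0, β x w = 1) →
        ∃ y, (∀ w ∈ W, β y w = 1) ∧ y ^ 3 = x ^ 3)
    (S T : Set X) (hS : StrongSpecial S) (hT : StrongSpecial T) (A : Subgroup (X × X))
    (hA : Fit F0 S T A) (v : X) :
    ∃ A' : Subgroup (X × X), Fit F0 S T A' ∧ A ≤ A' ∧ ∃ y, (v, y) ∈ A' := by
  classical
  by_cases hv : ∃ y, (v, y) ∈ A
  · exact ⟨A, hA, le_rfl, hv⟩
  obtain ⟨hfin, h1, hm, hdg⟩ := hA
  have hfinA : Finite A := hfin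
  let s2 : A →* X := (MonoidHom.snd X X).comp A.subtype
  have hs2 : ∀ a : A, s2 a = a.1.2 := fun _ => rfl
  have hinj2 : Function.Injective s2 := by
    rw [injective_iff_map_eq_one]
    intro a ha
    have h2 : a.1.2 = 1 := ha
    have h3 : a.1.1 = 1 := (h1 a.1 a.2).2 h2
    apply Subtype.ext
    exact Prod.ext h3 h2
  have hinj : ∀ p ∈ A, ∀ q ∈ A, p.2 = q.2 → p.1 = q.1 := by
    intro p hp q hq h
    have hpq := A.mul_mem hp (A.inv_mem hq)
    have := (h1 _ hpq).2 (by simp [h])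
    simpa [mul_inv_eq_one] using this
  have hW'fin : (s2.range : Set X).Finite := by
    rw [MonoidHom.coe_range]
    exact Set.finite_range s2
  have hW'f : Finite s2.range := hW'fin
  have hmemW : ∀ p ∈ A, p.2 ∈ s2.range := fun p hp => ⟨⟨p, hp⟩, rfl⟩
  let e2 : A ≃* s2.range := MonoidHom.ofInjective hinj2
  let f : s2.range →* Y3 := (β v).comp (((MonoidHom.fst X X).comp A.subtype).comp
    (e2.symm : s2.range →* A))
  have hfe : ∀ (p : X × X) (hp : p ∈ A), f ⟨p.2, hmemW p hp⟩ = β v p.1 := by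
    intro p hp
    have h2 : e2 ⟨p, hp⟩ = ⟨p.2, hmemW p hp⟩ := Subtype.ext rfl
    have h3 : e2.symm ⟨p.2, hmemW p hp⟩ = ⟨p, hp⟩ := by
      rw [← h2, MulEquiv.symm_apply_apply]
    change β v ((e2.symm ⟨p.2, hmemW p hp⟩ : A).1.1) = _
    rw [h3]
  obtain ⟨v2, hv2⟩ := duality β s2.range f (by
    intro w hw
    have hwZ : (w : X) ∈ Z := by
      apply hcen
      intro x
      have h2 := hbr x w 1 1 (by rw [hw x, map_one])
      simp only [mul_one, inv_one] at h2
      rwa [mul_inv_eq_one, mul_inv_eq_iff_eq_mul] at h2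
    have hwA : ((w : X), (w : X)) ∈ A := hdg _ (hZF hwZ)
    have h2 := hfe _ hwA
    rw [← hw v]
    exact h2)
  have hv2' : ∀ p ∈ A, β v2 p.2 = β v p.1 := by
    intro p hp
    have h2 := hv2 ⟨p.2, hmemW p hp⟩
    rw [hfe p hp] at h2
    exact h2
  have hFW : F0 ≤ s2.range := fun w hw => hmemW _ (hdg w hw)
  obtain ⟨k0, hk0, hk0'⟩ := hstab s2.range hW'fin hFW (v2 * v⁻¹) (by
    intro w hw
    have h2 := hv2' _ (hdg w hw)
    rw [map_mul, map_inv, MonoidHom.mul_apply, MonoidHom.inv_apply, mul_inv_eq_one]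
    exact h2)
  let v1 : X := k0⁻¹ * v2
  have hv1 : ∀ p ∈ A, β v1 p.2 = β v p.1 := by
    intro p hp
    change β (k0⁻¹ * v2) p.2 = _
    rw [map_mul, map_inv, MonoidHom.mul_apply, MonoidHom.inv_apply, hk0 _ (hmemW p hp), inv_one,
      one_mul, hv2' p hp]
  have hv1c : v1 ^ 3 = v ^ 3 := by
    change (k0⁻¹ * v2) ^ 3 = _
    rw [hcm, inv_pow, hk0', hcm, mul_inv_rev, inv_pow, inv_inv, mul_assoc, inv_mul_cancel, mul_one]
  let pih : X →* (s2.range → Y3) :=
    { toFun := fun x w => β x w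
      map_one' := by
        funext w
        rw [map_one]
        rfl
      map_mul' := fun x y => by
        funext w
        rw [map_mul]
        rfl }
  let cuh : X →* X :=
    { toFun := fun x => x ^ 3
      map_one' := one_pow 3
      map_mul' := hcm }
  have hcuf : Finite cuh.range := by
    have h2 : (cuh.range : Set X).Finite := by
      apply hZ.subset
      rintro z ⟨x, rfl⟩
      exact hcube x
    exact h2
  have hfi1 : pih.ker.FiniteIndex := inferInstance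
  have hfi2 : cuh.ker.FiniteIndex := inferInstance
  let K : Subgroup X := pih.ker ⊓ cuh.ker
  have hKn : K.Normal := inferInstanceAs (pih.ker ⊓ cuh.ker).Normal
  have hKf : K.FiniteIndex := inferInstanceAs (pih.ker ⊓ cuh.ker).FiniteIndex
  have hK1 : ∀ k ∈ K, ∀ p ∈ A, β k p.2 = 1 := by
    intro k hk p hp
    have h2 : pih k = 1 := hk.1
    exact congrFun h2 ⟨p.2, hmemW p hp⟩
  have hK2 : ∀ k ∈ K, k ^ 3 = 1 := fun k hk => hk.2
  let U : Finset X := (hfin.toFinset.filter (fun p => v * p.1 ∈ S)).image fun p => (v1 * p.2)⁻¹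
  let V : Finset X := (hfin.toFinset.filter (fun p => v * p.1 ∉ S)).image fun p => (v1 * p.2)⁻¹
  have hdisj : Disjoint U V := by
    rw [Finset.disjoint_left]
    intro b hbU hbV
    simp only [U, V, Finset.mem_image, Finset.mem_filter, Set.Finite.mem_toFinset,
      SetLike.mem_coe] at hbU hbV
    obtain ⟨p, ⟨hp, hpS⟩, rfl⟩ := hbU
    obtain ⟨q, ⟨hq, hqS⟩, hqp⟩ := hbV
    rw [hinj q hq p hp (mul_left_cancel (inv_injective hqp))] at hqS
    exact hqS hpS
  obtain ⟨z, hzK, hzU, hzV, hU, hV⟩ := ext_normal T hT K U V hdisj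
  let v' : X := z * v1
  have ha : ∀ p ∈ A, β v' p.2 = β v p.1 := by
    intro p hp
    change β (z * v1) p.2 = _
    rw [map_mul, MonoidHom.mul_apply, hK1 z hzK p hp, one_mul, hv1 p hp]
  have hb : v' ^ 3 = v ^ 3 := by
    change (z * v1) ^ 3 = _
    rw [hcm, hK2 z hzK, one_mul, hv1c]
  have hz : ∀ p ∈ A, p.2 ≠ v' := by
    intro p hp h
    have hpn : p⁻¹ ∈ A := A.inv_mem hp
    have hze : z = (v1 * (p⁻¹).2)⁻¹ := by
      have h2 : p.2 = z * v1 := h
      rw [Prod.snd_inv, mul_inv_rev, inv_inv, h2, mul_inv_cancel_right]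
    by_cases hc : v * (p⁻¹).1 ∈ S
    · apply hzU
      simp only [U, Finset.mem_image, Finset.mem_filter, Set.Finite.mem_toFinset, SetLike.mem_coe]
      exact ⟨p⁻¹, ⟨hpn, hc⟩, hze.symm⟩
    · apply hzV
      simp only [V, Finset.mem_image, Finset.mem_filter, Set.Finite.mem_toFinset, SetLike.mem_coe]
      exact ⟨p⁻¹, ⟨hpn, hc⟩, hze.symm⟩
  have hzS : ∀ p ∈ A, (v * p.1 ∈ S ↔ v' * p.2 ∈ T) := by
    intro p hp
    have hass : v' * p.2 = z * ((v1 * p.2)⁻¹)⁻¹ := by
      rw [inv_inv, ← mul_assoc]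
    rw [hass]
    by_cases hc : v * p.1 ∈ S
    · have : (v1 * p.2)⁻¹ ∈ U := by
        simp only [U, Finset.mem_image, Finset.mem_filter, Set.Finite.mem_toFinset,
          SetLike.mem_coe]
        exact ⟨p, ⟨hp, hc⟩, rfl⟩
      have h := hU _ this
      exact ⟨fun _ => h, fun _ => hc⟩
    · have : (v1 * p.2)⁻¹ ∈ V := by
        simp only [V, Finset.mem_image, Finset.mem_filter, Set.Finite.mem_toFinset,
          SetLike.mem_coe]
        exact ⟨p, ⟨hp, hc⟩, rfl⟩
      have h := hV _ this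
      exact ⟨fun h' => absurd h' hc, fun h' => absurd h' h⟩
  have hcc : ∀ p ∈ A, v' * p.2 * v'⁻¹ * p.2⁻¹ = v * p.1 * v⁻¹ * p.1⁻¹ := fun p hp =>
    hbr _ _ _ _ (ha p hp)
  have hq1 : ∀ p ∈ A, ((v, v') : X × X) * p * (v, v')⁻¹ ∈ A := by
    intro p hp
    have h2 := A.mul_mem (hdg _ (hZF (hcom v p.1))) hp
    have e : ((v, v') : X × X) * p * (v, v')⁻¹ =
        (v * p.1 * v⁻¹ * p.1⁻¹, v * p.1 * v⁻¹ * p.1⁻¹) * p := by
      apply Prod.ext
      · change v * p.1 * v⁻¹ = v * p.1 * v⁻¹ * p.1⁻¹ * p.1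
        rw [inv_mul_cancel_right]
      · change v' * p.2 * v'⁻¹ = v * p.1 * v⁻¹ * p.1⁻¹ * p.2
        rw [← hcc p hp, inv_mul_cancel_right]
    rw [e]
    exact h2
  have hconj : ∀ a b : X, a⁻¹ * b * a = (a * b * a⁻¹ * b⁻¹)⁻¹ * b := by
    intro a b
    have h2 := hZc _ (hcom a b) a
    have h3 : a⁻¹ * b * a = a⁻¹ * ((a * b * a⁻¹ * b⁻¹)⁻¹ * (a * b * a⁻¹ * b⁻¹)) * b * a := by
      rw [inv_mul_cancel, mul_one]
    have h4 : a⁻¹ * (a * b * a⁻¹ * b⁻¹)⁻¹ = (a * b * a⁻¹ * b⁻¹)⁻¹ * a⁻¹ := by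
      rw [← mul_inv_rev, ← mul_inv_rev, h2]
    rw [h3, ← mul_assoc, h4]
    group
  have hq2 : ∀ p ∈ A, ((v, v') : X × X)⁻¹ * p * (v, v') ∈ A := by
    intro p hp
    have h2 := A.mul_mem (hdg _ (F0.inv_mem (hZF (hcom v p.1)))) hp
    have e : ((v, v') : X × X)⁻¹ * p * (v, v') =
        ((v * p.1 * v⁻¹ * p.1⁻¹)⁻¹, (v * p.1 * v⁻¹ * p.1⁻¹)⁻¹) * p := by
      apply Prod.ext
      · change v⁻¹ * p.1 * v = (v * p.1 * v⁻¹ * p.1⁻¹)⁻¹ * p.1
        exact hconj v p.1
      · change v'⁻¹ * p.2 * v' = (v * p.1 * v⁻¹ * p.1⁻¹)⁻¹ * p.2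
        rw [← hcc p hp]
        exact hconj v' p.2
    rw [e]
    exact h2
  have hq3 : ((v, v') : X × X) * (v, v') * (v, v') ∈ A := by
    have h2 := hdg _ (hZF (hcube v))
    have e : ((v, v') : X × X) * (v, v') * (v, v') = (v ^ 3, v ^ 3) := by
      apply Prod.ext
      · change v * v * v = v ^ 3
        rw [pow_succ, pow_two]
      · change v' * v' * v' = v ^ 3
        rw [← hb, pow_succ, pow_two]
    rw [e]
    exact h2
  have hsymS : ∀ s, s ∈ S ↔ s⁻¹ ∈ S := fun s =>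
    ⟨fun h => hS.1 s h, fun h => by simpa using hS.1 _ h⟩
  have hsymT : ∀ s, s ∈ T ↔ s⁻¹ ∈ T := fun s =>
    ⟨fun h => hT.1 s h, fun h => by simpa using hT.1 _ h⟩
  have hplus0 : ∀ p : X × X, p * (v, v')⁻¹ ∈ A → (p.1 ≠ 1 ∧ p.2 ≠ 1) := by
    intro p hp
    have hn := A.inv_mem hp
    constructor
    · intro h
      apply hv
      refine ⟨v' * p.2⁻¹, ?_⟩
      have : (v, v' * p.2⁻¹) = (p * (v, v')⁻¹)⁻¹ := by
        ext
        · simp [h]
        · simp
      rw [this]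
      exact hn
    · intro h
      apply hz _ hn
      simp [h]
  have hplusm : ∀ p : X × X, p * (v, v')⁻¹ ∈ A → (p.1 ∈ S ↔ p.2 ∈ T) := by
    intro p hp
    have h5 := hzS _ (hq2 _ hp)
    have e1 : v * (((v, v') : X × X)⁻¹ * (p * (v, v')⁻¹) * (v, v')).1 = p.1 := by
      change v * (v⁻¹ * (p.1 * v⁻¹) * v) = p.1
      group
    have e2 : v' * (((v, v') : X × X)⁻¹ * (p * (v, v')⁻¹) * (v, v')).2 = p.2 := by
      change v' * (v'⁻¹ * (p.2 * v'⁻¹) * v') = p.2
      group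
    rw [e1, e2] at h5
    exact h5
  have hflip : ∀ p : X × X, p * (v, v') ∈ A → p⁻¹ * (v, v')⁻¹ ∈ A := by
    intro p hp
    have h5 := hq1 _ (A.inv_mem hp)
    have e : ((v, v') : X × X) * (p * (v, v'))⁻¹ * (v, v')⁻¹ = p⁻¹ * (v, v')⁻¹ := by group
    rw [e] at h5
    exact h5
  refine ⟨adjN A (v, v') hq1 hq2 hq3, ⟨?_, ?_, ?_, ?_⟩, le_adjN A _ hq1 hq2 hq3, v', ?_⟩
  · have hsub : ((adjN A (v, v') hq1 hq2 hq3 : Subgroup (X × X)) : Set (X × X)) ⊆
        (A : Set (X × X)) ∪ ((fun p => p * (v, v')) '' (A : Set (X × X)) ∪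
          (fun p => p * (v, v')⁻¹) '' (A : Set (X × X))) := by
      rintro p (hp | hp | hp)
      · exact Or.inl hp
      · right; left
        exact ⟨p * (v, v')⁻¹, hp, inv_mul_cancel_right _ _⟩
      · right; right
        exact ⟨p * (v, v'), hp, mul_inv_cancel_right _ _⟩
    exact (hfin.union ((hfin.image _).union (hfin.image _))).subset hsub
  · rintro p (hp | hp | hp)
    · exact h1 p hp
    · have := hplus0 p hp
      exact ⟨fun h => absurd h this.1, fun h => absurd h this.2⟩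
    · have := hplus0 p⁻¹ (hflip p hp)
      constructor
      · intro h
        exact absurd (by simp [h]) this.1
      · intro h
        exact absurd (by simp [h]) this.2
  · rintro p (hp | hp | hp)
    · exact hm p hp
    · exact hplusm p hp
    · have := hplusm p⁻¹ (hflip p hp)
      rw [hsymS, hsymT]
      exact this
  · intro x hx
    exact Or.inl (hdg x hx)
  · right; left
    rw [mul_inv_cancel]
    exact A.one_mem

/-- Back and forth, from the extension step. -/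
theorem orbit_step [Countable X] (F0 : Subgroup X) (hF0 : (F0 : Set X).Finite)
    (hstep : ∀ S T : Set X, StrongSpecial S → StrongSpecial T → ∀ A : Subgroup (X × X),
      Fit F0 S T A → ∀ v : X, ∃ A' : Subgroup (X × X), Fit F0 S T A' ∧ A ≤ A' ∧ ∃ y, (v, y) ∈ A')
    (S T : Set X) (hS : IsSpecial S) (hT : IsSpecial T) (h : ∀ x ∈ F0, x ∈ S ↔ x ∈ T) :
    ∃ α : X ≃* X, α '' S = T := by
  classical
  have hS' := hS.strong
  have hT' := hT.strong
  have : Encodable X := Encodable.ofCountable X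
  have hstep' : ∀ A : Subgroup (X × X), Fit F0 S T A → ∀ y : X,
      ∃ A' : Subgroup (X × X), Fit F0 S T A' ∧ A ≤ A' ∧ ∃ x, (x, y) ∈ A' := by
    intro A hA y
    obtain ⟨A', hA', hle, x, hx⟩ := hstep T S hT' hS' _ (fit_swap F0 S T A hA) y
    refine ⟨_, fit_swap F0 T S A' hA', ?_, x, ?_⟩
    · intro p hp
      apply hle
      exact hp
    · exact hx
  let P := {A : Subgroup (X × X) // Fit F0 S T A}
  let D : X ⊕ X → Order.Cofinal P := fun s => match s with
    | Sum.inl x =>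
      { carrier := {A : P | ∃ y, (x, y) ∈ A.1}
        isCofinal := by
          rintro ⟨A, hA⟩
          obtain ⟨A', hA', hle, h⟩ := hstep S T hS' hT' A hA x
          exact ⟨⟨A', hA'⟩, h, hle⟩ }
    | Sum.inr y =>
      { carrier := {A : P | ∃ x, (x, y) ∈ A.1}
        isCofinal := by
          rintro ⟨A, hA⟩
          obtain ⟨A', hA', hle, h⟩ := hstep' A hA y
          exact ⟨⟨A', hA'⟩, h, hle⟩ }
  let f : X →* X × X := MonoidHom.prod (MonoidHom.id X) (MonoidHom.id X)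
  have hbot : Fit F0 S T (F0.map f) := by
    refine ⟨?_, ?_, ?_, ?_⟩
    · rw [Subgroup.coe_map]
      exact hF0.image _
    · rintro p ⟨x, _, rfl⟩
      exact Iff.rfl
    · rintro p ⟨x, hx, rfl⟩
      exact h x hx
    · intro x hx
      exact ⟨x, hx, rfl⟩
  let I : Order.Ideal P := Order.idealOfCofinals ⟨F0.map f, hbot⟩ D
  have hl : ∀ x : X, ∃ y, ∃ A ∈ I, (x, y) ∈ A.1 := by
    intro x
    obtain ⟨A, hA, hAI⟩ := Order.cofinal_meets_idealOfCofinals (⟨F0.map f, hbot⟩ : P) D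
      (Sum.inl x)
    obtain ⟨y, hy⟩ := hA
    exact ⟨y, A, hAI, hy⟩
  have hr : ∀ y : X, ∃ x, ∃ A ∈ I, (x, y) ∈ A.1 := by
    intro y
    obtain ⟨A, hA, hAI⟩ := Order.cofinal_meets_idealOfCofinals (⟨F0.map f, hbot⟩ : P) D
      (Sum.inr y)
    obtain ⟨x, hx⟩ := hA
    exact ⟨x, A, hAI, hx⟩
  have hadd : ∀ p q : X × X, (∃ A ∈ I, p ∈ A.1) → (∃ A ∈ I, q ∈ A.1) →
      ∃ A ∈ I, p * q ∈ A.1 := by
    rintro p q ⟨A, hA, hp⟩ ⟨B, hB, hq⟩
    obtain ⟨K, hK, hAK, hBK⟩ := I.directed A hA B hB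
    exact ⟨K, hK, K.1.mul_mem (hAK hp) (hBK hq)⟩
  have hneg : ∀ p : X × X, (∃ A ∈ I, p ∈ A.1) → ∃ A ∈ I, p⁻¹ ∈ A.1 := by
    rintro p ⟨A, hA, hp⟩
    exact ⟨A, hA, A.1.inv_mem hp⟩
  have hzero : ∀ p : X × X, (∃ A ∈ I, p ∈ A.1) → (p.1 = 1 ↔ p.2 = 1) := by
    rintro p ⟨A, hA, hp⟩
    exact A.2.one p hp
  have hST : ∀ p : X × X, (∃ A ∈ I, p ∈ A.1) → (p.1 ∈ S ↔ p.2 ∈ T) := by
    rintro p ⟨A, hA, hp⟩
    exact A.2.mem p hp
  choose a ha using hl
  choose b hb using hr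
  have huniq : ∀ x y y' : X, (∃ A ∈ I, (x, y) ∈ A.1) → (∃ A ∈ I, (x, y') ∈ A.1) → y = y' := by
    intro x y y' h h'
    have := (hzero _ (hadd _ _ h (hneg _ h'))).1 (by simp)
    simpa [mul_inv_eq_one] using this
  have huniq' : ∀ x x' y : X, (∃ A ∈ I, (x, y) ∈ A.1) → (∃ A ∈ I, (x', y) ∈ A.1) → x = x' := by
    intro x x' y h h'
    have := (hzero _ (hadd _ _ h (hneg _ h'))).2 (by simp)
    simpa [mul_inv_eq_one] using this
  let α : X ≃* X :=
    { toFun := a
      invFun := b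
      left_inv := fun x => huniq' _ _ _ (hb (a x)) (ha x)
      right_inv := fun y => huniq _ _ _ (ha (b y)) (hb y)
      map_mul' := fun x y => by
        have := hadd _ _ (ha x) (ha y)
        exact huniq _ _ _ (ha (x * y)) this }
  refine ⟨α, ?_⟩
  ext y
  constructor
  · rintro ⟨x, hx, rfl⟩
    exact (hST _ (ha x)).1 hx
  · intro hy
    refine ⟨b y, (hST _ (hb y)).2 hy, ?_⟩
    exact huniq _ _ _ (ha (b y)) (hb y)

theorem br_left (hc : ∀ x y : X, ∀ g, x * y * x⁻¹ * y⁻¹ * g = g * (x * y * x⁻¹ * y⁻¹))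
    (x x' y : X) : (x * x') * y * (x * x')⁻¹ * y⁻¹ =
      (x * y * x⁻¹ * y⁻¹) * (x' * y * x'⁻¹ * y⁻¹) := by
  have h1 : (x * x') * y * (x * x')⁻¹ * y⁻¹ =
      x * (x' * y * x'⁻¹ * y⁻¹) * (y * x⁻¹ * y⁻¹) := by group
  rw [h1, ← hc x' y x]
  have h2 : x' * y * x'⁻¹ * y⁻¹ * x * (y * x⁻¹ * y⁻¹) =
      (x' * y * x'⁻¹ * y⁻¹) * (x * y * x⁻¹ * y⁻¹) := by group
  rw [h2, hc x' y]

theorem br_right (hc : ∀ x y : X, ∀ g, x * y * x⁻¹ * y⁻¹ * g = g * (x * y * x⁻¹ * y⁻¹))
    (x y y' : X) : x * (y * y') * x⁻¹ * (y * y')⁻¹ =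
      (x * y * x⁻¹ * y⁻¹) * (x * y' * x⁻¹ * y'⁻¹) := by
  have h1 : x * (y * y') * x⁻¹ * (y * y')⁻¹ =
      (x * y * x⁻¹) * (x * y' * x⁻¹ * y'⁻¹ * y⁻¹) := by group
  rw [h1, hc x y' y⁻¹, ← mul_assoc]

theorem cube_mul (hc : ∀ x y : X, ∀ g, x * y * x⁻¹ * y⁻¹ * g = g * (x * y * x⁻¹ * y⁻¹))
    (h3 : ∀ x y : X, (x * y * x⁻¹ * y⁻¹) ^ 3 = 1) (a b : X) : (a * b) ^ 3 = a ^ 3 * b ^ 3 := by
  have hba : b * a = (b * a * b⁻¹ * a⁻¹) * (a * b) := by group
  have hcc := hc b a
  have hc3 := h3 b a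
  generalize b * a * b⁻¹ * a⁻¹ = c at hba hcc hc3
  have h1 : (a * b) ^ 3 = a * (b * a) * (b * a) * b := by
    rw [pow_succ, pow_two]
    simp only [mul_assoc]
  have h2 : a * (c * (a * b)) = c * (a * (a * b)) := by
    rw [← mul_assoc, ← hcc a, mul_assoc]
  have h4 : a * (a * b) * (c * (a * b)) = c * (a * (a * b) * (a * b)) := by
    rw [← mul_assoc (a * (a * b)) c, ← hcc (a * (a * b)), mul_assoc]
  have h5 : a * (a * b) * (a * b) = a * a * (b * a) * b := by
    simp only [mul_assoc]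
  have h6 : a * a * (c * (a * b)) = c * (a * a * (a * b)) := by
    rw [← mul_assoc (a * a) c, ← hcc (a * a), mul_assoc]
  rw [h1, hba, h2, mul_assoc c (a * (a * b)), h4, h5, hba, h6]
  have h7 : c * (c * (c * (a * a * (a * b)) * b)) * b = c ^ 3 * (a ^ 3 * b ^ 3) := by
    simp only [pow_succ, pow_zero, one_mul, mul_assoc]
  rw [h7, hc3, one_mul]

end EXTM

open EXTM CENM in
/-- A countable group with finite centre whose derived subgroup is central of order three has only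
finitely many orbits of special subsets. -/
theorem finite_orbits_extraspecial {X : Type u} [Group X] [Countable X]
    (hZ : (Subgroup.center X : Set X).Finite) (hc : commutator X ≤ Subgroup.center X)
    (h3 : Nat.card (commutator X) = 3) : (SpecialOrbits X).Finite := by
  classical
  by_cases hex : ∃ S : Set X, IsSpecial S
  swap
  · apply Set.Finite.subset Set.finite_empty
    rintro O ⟨S, hS, -⟩
    exact hex ⟨S, hS⟩
  obtain ⟨S0, hS0⟩ := hex
  have hinf : Infinite X := infinite_of_special hS0.strong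
  have hmem : ∀ x y : X, x * y * x⁻¹ * y⁻¹ ∈ commutator X := fun x y =>
    Subgroup.commutator_mem_commutator (Subgroup.mem_top x) (Subgroup.mem_top y)
  have hcomm : ∀ x y : X, ∀ g, x * y * x⁻¹ * y⁻¹ * g = g * (x * y * x⁻¹ * y⁻¹) := fun x y g =>
    (Subgroup.mem_center_iff.1 (hc (hmem x y)) g).symm
  have hexp : ∀ x y : X, (x * y * x⁻¹ * y⁻¹) ^ 3 = 1 := by
    intro x y
    have h4 : (⟨_, hmem x y⟩ : commutator X) ^ Nat.card (commutator X) = 1 := pow_card_eq_one'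
    rw [h3] at h4
    exact congrArg Subtype.val h4
  have hcard : Nat.card Y3 = 3 := by
    rw [Nat.card_eq_fintype_card]
    exact (Fintype.card_multiplicative (ZMod 3)).trans (ZMod.card 3)
  have : Fact (Nat.Prime 3) := ⟨by norm_num⟩
  let e : commutator X ≃* Y3 := mulEquivOfPrimeCardEq (p := 3) h3 hcard
  let β : X →* X →* Y3 :=
    MonoidHom.mk' (fun x => MonoidHom.mk' (fun y => e ⟨x * y * x⁻¹ * y⁻¹, hmem x y⟩) (by
      intro y y'
      rw [← map_mul]
      congr 1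
      apply Subtype.ext
      exact br_right hcomm x y y')) (by
      intro x x'
      ext y
      change e ⟨(x * x') * y * (x * x')⁻¹ * y⁻¹, _⟩ =
        e ⟨x * y * x⁻¹ * y⁻¹, _⟩ * e ⟨x' * y * x'⁻¹ * y⁻¹, _⟩
      rw [← map_mul]
      congr 1
      apply Subtype.ext
      exact br_left hcomm x x' y)
  have hβ : ∀ x y, β x y = e ⟨x * y * x⁻¹ * y⁻¹, hmem x y⟩ := fun _ _ => rfl
  have hbr : ∀ x y x' y', β x y = β x' y' → x * y * x⁻¹ * y⁻¹ = x' * y' * x'⁻¹ * y'⁻¹ := by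
    intro x y x' y' h
    rw [hβ, hβ] at h
    exact congrArg Subtype.val (e.injective h)
  have hcen : ∀ w : X, (∀ x, x * w = w * x) → w ∈ Subgroup.center X := fun w hw =>
    Subgroup.mem_center_iff.2 hw
  have hY : ∀ y : Y3, y ^ 3 = 1 := by
    intro y
    have h4 : y ^ Nat.card Y3 = 1 := pow_card_eq_one'
    rwa [hcard] at h4
  have hcube : ∀ x : X, x ^ 3 ∈ Subgroup.center X := by
    intro x
    apply hcen
    intro y
    have h4 := hbr (x ^ 3) y 1 1 (by
      rw [map_pow, MonoidHom.pow_apply, hY, map_one])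
    simp only [mul_one, inv_one] at h4
    rw [mul_inv_eq_one, mul_inv_eq_iff_eq_mul] at h4
    exact h4.symm
  obtain ⟨F0, hF0, hZF, hstab⟩ := stab β (Subgroup.center X) hZ hcube
  apply finite_of_trace (F0 : Set X) hF0
  intro S T hS hT h
  apply orbit_step F0 hF0 _ S T hS hT h
  intro S T hS hT A hA v
  exact fit_extra β hbr (Subgroup.center X) F0 hZ
    (fun z hz g => (Subgroup.mem_center_iff.1 hz g).symm) hcen (fun x y => hc (hmem x y)) hcube
    (cube_mul hcomm hexp) hZF hstab S T hS hT A hA v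

end Pool.Agent.Lib.MP_008109_al.AB
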