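import Pool.Agent.Lib.MP_008109_al.AB.Mult

/-!
# MP_008109_al, module FCO: coding with squares in the FC-centre
-/

set_option autoImplicit false

universe u

namespace Pool.Agent.Lib.MP_008109_al.AB

/-- The generic condition. -/
structure FGen {X : Type u} [Group X] (F4 L : Subgroup X) (g : X) : Prop where
  fc : g ∈ FCc X
  notMem : g ∉ L
  comm : ∀ k ∈ L, k ∈ FCc X → k * g = g * k
  sq : g * g ∉ L
  cube : g * g * g ∉ L
  four : g * g * g * g ∈ L → g * g * g * g ∈ F4
  root : ∀ b ∈ L, ∀ c ∈ L, c ≠ 1 → (g * b) * (g * b) ≠ c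

/-- The ingredients of the construction. -/
structure FData (X : Type u) [Group X] where
  F4 : Subgroup X
  t : X
  U : ℕ → Finset X
  V : ℕ → Finset X
  E : ℕ → ℕ → Prop
  L : ℕ → Subgroup X
  g : ℕ → X
  tfc : t ∈ FCc X
  tF : t ∉ F4
  tF2 : t * t ∉ F4
  disj : ∀ n, Disjoint (U n) (V n)
  cover : ∀ U' V' : Finset X, Disjoint U' V' → ∃ n, U n = U' ∧ V n = V'
  symm : ∀ m n, E m n → E n m
  mono : ∀ m n, m ≤ n → L m ≤ L n
  hF : ∀ n, F4 ≤ L n
  ht : ∀ n, t ∈ L n
  hU : ∀ n, ∀ u ∈ U n, u ∈ L n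
  hV : ∀ n, ∀ u ∈ V n, u ∈ L n
  hg : ∀ m n, m < n → g m ∈ L n
  gen : ∀ k, FGen F4 (L k) (g k)

namespace FData

variable {X : Type u} [Group X] (D : FData X)

/-- the designated elements -/
def q (n : ℕ) : X := D.g (2 * n + 1)

/-- the first kind of members added at stage `k`: `g k * h` -/
def P1 (k : ℕ) (h : X) : Prop :=
  (∃ n, k = 2 * n ∧ ∃ u ∈ D.U n, h = u⁻¹) ∨
    ∃ n, k = 2 * n + 1 ∧ (h = 1 ∨ h = D.t ∨ ∃ m, m < n ∧ D.E m n ∧ h = (D.q m)⁻¹)

/-- the second kind of members added at stage `k`: `g k * g k` -/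
def P2 (k : ℕ) : Prop := ∃ n, k = 2 * n + 1

/-- the members added at stage `k`, up to inversion -/
def Pos (k : ℕ) (x : X) : Prop :=
  (∃ h, D.P1 k h ∧ x = D.g k * h) ∨ (P2 k ∧ x = D.g k * D.g k)

/-- the members added at stage `k` -/
def InS (k : ℕ) (x : X) : Prop := D.Pos k x ∨ D.Pos k x⁻¹

/-- the special subset -/
def S : Set X := {x | ∃ k, D.InS k x}

theorem P1_mem {k : ℕ} {h : X} (hP : D.P1 k h) : h ∈ D.L k := by
  rcases hP with ⟨n, rfl, u, hu, rfl⟩ | ⟨n, rfl, rfl | rfl | ⟨m, hm, -, rfl⟩⟩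
  · exact (D.L _).inv_mem (D.mono n _ (by omega) (D.hU n u hu))
  · exact (D.L _).one_mem
  · exact D.ht _
  · exact (D.L _).inv_mem (D.hg _ _ (by omega))

theorem inv_mem {x : X} (h : x ∈ D.S) : x⁻¹ ∈ D.S := by
  obtain ⟨k, h | h⟩ := h
  · exact ⟨k, Or.inr (by simpa using h)⟩
  · exact ⟨k, Or.inl h⟩

theorem inv_mem_iff {x : X} : x⁻¹ ∈ D.S ↔ x ∈ D.S :=
  ⟨fun h => by simpa using D.inv_mem h, D.inv_mem⟩

/-- Lemma A -/
theorem lt_of_inS {k l : ℕ} {y : X} (hy : y ∈ D.L l) (h : D.InS k y) : k < l := by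
  by_contra hlt
  rw [not_lt] at hlt
  have hyk : y ∈ D.L k := D.mono _ _ hlt hy
  have key : ∀ y : X, y ∈ D.L k → ¬ D.Pos k y := by
    rintro y hy (⟨h, hP, rfl⟩ | ⟨-, rfl⟩)
    · exact (D.gen k).notMem (((D.L k).mul_mem_cancel_right (D.P1_mem hP)).1 hy)
    · exact (D.gen k).sq hy
  rcases h with h | h
  · exact key y hyk h
  · exact key y⁻¹ ((D.L k).inv_mem hyk) h

/-- Lemma B -/
theorem mem_of_inS {k l : ℕ} {y : X} (hkl : k < l) (h : D.InS k y) : y ∈ D.L l := by
  have key : ∀ y : X, D.Pos k y → y ∈ D.L l := by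
    rintro y (⟨h, hP, rfl⟩ | ⟨-, rfl⟩)
    · exact (D.L l).mul_mem (D.hg _ _ hkl) (D.mono _ _ hkl.le (D.P1_mem hP))
    · exact (D.L l).mul_mem (D.hg _ _ hkl) (D.hg _ _ hkl)
  rcases h with h | h
  · exact key y h
  · have := (D.L l).inv_mem (key _ h)
    simpa using this

theorem stage_eq {k : ℕ} {y : X} (hy : y ∈ D.L (k + 1)) (hy' : y ∉ D.L k) {l : ℕ}
    (hl : D.InS l y) : l = k := by
  have h1 := D.lt_of_inS hy hl
  rcases Nat.lt_succ_iff_lt_or_eq.1 h1 with h2 | h2
  · exact absurd (D.mem_of_inS h2 hl) hy'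
  · exact h2

/-- Lemma C -/
theorem mem_one_iff {k : ℕ} {a : X} (ha : a ∈ D.L k) : D.g k * a ∈ D.S ↔ D.P1 k a := by
  constructor
  · rintro ⟨l, hl⟩
    have hk1 : D.g k * a ∈ D.L (k + 1) :=
      (D.L _).mul_mem (D.hg _ _ (by omega)) (D.mono _ _ (by omega) ha)
    have hk2 : D.g k * a ∉ D.L k := fun h =>
      (D.gen k).notMem (((D.L k).mul_mem_cancel_right ha).1 h)
    obtain rfl := D.stage_eq hk1 hk2 hl
    rcases hl with (⟨h, hP, he⟩ | ⟨-, he⟩) | (⟨h, hP, he⟩ | ⟨-, he⟩)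
    · rw [mul_left_cancel he]
      exact hP
    · exfalso
      rw [mul_left_cancel he] at ha
      exact (D.gen l).notMem ha
    · by_cases hah : h⁻¹ * a = 1
      · rw [inv_mul_eq_one] at hah
        rw [← hah]
        exact hP
      · exfalso
        refine (D.gen l).root a ha (h⁻¹ * a)
          ((D.L l).mul_mem ((D.L l).inv_mem (D.P1_mem hP)) ha) hah ?_
        have h3 : D.g l * a = (D.g l * h)⁻¹ := by
          rw [← he, inv_inv]
        calc (D.g l * a) * (D.g l * a) = (D.g l * h)⁻¹ * (D.g l * a) := by rw [← h3]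
          _ = h⁻¹ * a := by group
    · exfalso
      apply (D.gen l).cube
      have h3 : D.g l * D.g l * D.g l = a⁻¹ := by
        rw [← he, mul_inv_rev]
        group
      rw [h3]
      exact (D.L l).inv_mem ha
  · intro h
    exact ⟨k, Or.inl (Or.inl ⟨a, h, rfl⟩)⟩

/-- Lemma D -/
theorem mem_two {k : ℕ} {a : X} (ha : a ∈ D.L k) (haN : a ∈ FCc X)
    (h : D.g k * D.g k * a ∈ D.S) : P2 k ∧ (a = 1 ∨ a⁻¹ ∈ D.F4) := by
  obtain ⟨l, hl⟩ := h
  have hk1 : D.g k * D.g k * a ∈ D.L (k + 1) :=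
    (D.L _).mul_mem ((D.L _).mul_mem (D.hg _ _ (by omega)) (D.hg _ _ (by omega)))
      (D.mono _ _ (by omega) ha)
  have hk2 : D.g k * D.g k * a ∉ D.L k := fun h =>
    (D.gen k).sq (((D.L k).mul_mem_cancel_right ha).1 h)
  obtain rfl := D.stage_eq hk1 hk2 hl
  have hc : a * D.g l = D.g l * a := (D.gen l).comm a ha haN
  rcases hl with (⟨h, hP, he⟩ | ⟨hP, he⟩) | (⟨h, hP, he⟩ | ⟨hP, he⟩)
  · exfalso
    rw [mul_assoc] at he
    have h2 := mul_left_cancel he
    apply (D.gen l).notMem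
    rw [← (D.L l).mul_mem_cancel_right ha, h2]
    exact D.P1_mem hP
  · exact ⟨hP, Or.inl (mul_eq_left.1 he)⟩
  · exfalso
    apply (D.gen l).cube
    -- (g g a)⁻¹ = g h, so g g a g h = 1
    have h2 : D.g l * D.g l * a * (D.g l * h) = 1 := by
      rw [← he, mul_inv_cancel]
    have h3 : D.g l * D.g l * D.g l * (a * h) = 1 := by
      rw [← h2]
      calc D.g l * D.g l * D.g l * (a * h) = D.g l * D.g l * (D.g l * a) * h := by group
        _ = D.g l * D.g l * (a * D.g l) * h := by rw [hc]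
        _ = D.g l * D.g l * a * (D.g l * h) := by group
    rw [mul_eq_one_iff_eq_inv] at h3
    rw [h3]
    exact (D.L l).inv_mem ((D.L l).mul_mem ha (D.P1_mem hP))
  · refine ⟨hP, Or.inr ?_⟩
    have h2 : D.g l * D.g l * a * (D.g l * D.g l) = 1 := by
      have h0 := mul_inv_cancel (D.g l * D.g l * a)
      rwa [he] at h0
    have h3 : D.g l * D.g l * D.g l * D.g l * a = 1 := by
      rw [← h2]
      calc D.g l * D.g l * D.g l * D.g l * a = D.g l * D.g l * D.g l * (D.g l * a) := by group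
        _ = D.g l * D.g l * D.g l * (a * D.g l) := by rw [hc]
        _ = D.g l * D.g l * (D.g l * a) * D.g l := by group
        _ = D.g l * D.g l * (a * D.g l) * D.g l := by rw [hc]
        _ = D.g l * D.g l * a * (D.g l * D.g l) := by group
    rw [mul_eq_one_iff_eq_inv] at h3
    rw [← h3]
    apply (D.gen l).four
    rw [h3]
    exact (D.L l).inv_mem ha

theorem one_notMem : (1 : X) ∉ D.S := by
  rintro ⟨k, hk⟩
  exact absurd (D.lt_of_inS (l := 0) (D.L 0).one_mem hk) (by omega)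

theorem special : IsSpecial D.S := by
  refine ⟨fun s hs => D.inv_mem hs, D.one_notMem, ?_⟩
  intro U' V' hd
  obtain ⟨n, rfl, rfl⟩ := D.cover U' V' hd
  refine ⟨D.g (2 * n), ?_, ?_⟩
  · intro u hu
    change D.g (2 * n) * u⁻¹ ∈ D.S
    rw [D.mem_one_iff ((D.L _).inv_mem (D.mono n _ (by omega) (D.hU n u hu)))]
    exact Or.inl ⟨n, rfl, u, hu, rfl⟩
  · intro v hv hS
    change D.g (2 * n) * v⁻¹ ∈ D.S at hS
    rw [D.mem_one_iff ((D.L _).inv_mem (D.mono n _ (by omega) (D.hV n v hv)))] at hS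
    rcases hS with ⟨n', hn, u, hu, he⟩ | ⟨n', hn, -⟩
    · obtain rfl : n = n' := by omega
      rw [inv_injective he] at hv
      exact (Finset.disjoint_left.1 (D.disj n)) hu hv
    · omega

theorem q_inj : Function.Injective D.q := by
  have key : ∀ m n, m < n → D.q m ≠ D.q n := by
    intro m n hmn h
    apply (D.gen (2 * n + 1)).notMem
    change D.q n ∈ _
    rw [← h]
    exact D.hg _ _ (by omega)
  intro m n h
  rcases lt_trichotomy m n with h' | h' | h'
  · exact absurd h (key m n h')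
  · exact h'
  · exact absurd h.symm (key n m h')

theorem P1_q {n : ℕ} {h : X} (hP : D.P1 (2 * n + 1) h) :
    h = 1 ∨ h = D.t ∨ ∃ m, m < n ∧ D.E m n ∧ h = (D.q m)⁻¹ := by
  rcases hP with ⟨n', hn, -⟩ | ⟨n', hn, h'⟩
  · omega
  · obtain rfl : n = n' := by omega
    exact h'

theorem edge {m n : ℕ} (hmn : m < n) : D.q n * (D.q m)⁻¹ ∈ D.S ↔ D.E m n := by
  have h1 : (D.q m)⁻¹ ∈ D.L (2 * n + 1) := (D.L _).inv_mem (D.hg _ _ (by omega))
  change D.g (2 * n + 1) * (D.q m)⁻¹ ∈ D.S ↔ _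
  rw [D.mem_one_iff h1]
  constructor
  · intro h
    rcases D.P1_q h with h' | h' | ⟨m', hm', hE, h'⟩
    · exfalso
      apply (D.gen (2 * m + 1)).notMem
      change D.q m ∈ _
      rw [inv_eq_one.1 h']
      exact (D.L _).one_mem
    · exfalso
      apply (D.gen (2 * m + 1)).notMem
      change D.q m ∈ _
      rw [inv_eq_iff_eq_inv.1 h']
      exact (D.L _).inv_mem (D.ht _)
    · rw [D.q_inj (inv_injective h')]
      exact hE
  · intro h
    exact Or.inr ⟨n, rfl, Or.inr (Or.inr ⟨m, hmn, h, rfl⟩)⟩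

/-- The designated set. -/
def Qf (t : X) (S : Set X) : Set X := {x | x ∈ FCc X ∧ x ∈ S ∧ x * t ∈ S ∧ x * x ∈ S}

theorem t_ne : D.t ≠ 1 := fun h => D.tF (by rw [h]; exact D.F4.one_mem)

theorem t_sq : D.t * D.t ≠ 1 := fun h => D.tF2 (by rw [h]; exact D.F4.one_mem)

theorem Qf_eq : Qf D.t D.S = Set.range D.q := by
  ext x
  constructor
  · rintro ⟨hxN, ⟨k, hx⟩, hxt, hx2⟩
    have hcomm : ∀ a ∈ D.L k, a ∈ FCc X → a * D.g k = D.g k * a := (D.gen k).comm
    have hgN : D.g k ∈ FCc X := (D.gen k).fc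
    have htI : (D.t)⁻¹ ∈ D.L k := (D.L k).inv_mem (D.ht k)
    have htIN : (D.t)⁻¹ ∈ FCc X := (FCc X).inv_mem D.tfc
    -- members of the second kind are excluded
    have no2 : ∀ e : X, (e = D.t ∨ e = (D.t)⁻¹) → D.g k * D.g k * e ∉ D.S := by
      rintro e (rfl | rfl) h
      · obtain ⟨-, h | h⟩ := D.mem_two (D.ht k) D.tfc h
        · exact D.t_ne h
        · exact D.tF (by simpa using D.F4.inv_mem h)
      · obtain ⟨-, h | h⟩ := D.mem_two htI htIN h
        · exact D.t_ne (inv_eq_one.1 h)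
        · rw [inv_inv] at h
          exact D.tF h
    -- members of the first kind whose square is a member
    have no1 : ∀ h, D.P1 k h → h ∈ FCc X → (D.g k * h) * (D.g k * h) ∈ D.S →
        h = 1 ∧ ∃ n, k = 2 * n + 1 := by
      intro h hP hN h2
      have hhL := D.P1_mem hP
      have e1 : (D.g k * h) * (D.g k * h) = D.g k * D.g k * (h * h) := by
        calc (D.g k * h) * (D.g k * h) = D.g k * (h * D.g k) * h := by group
          _ = D.g k * (D.g k * h) * h := by rw [hcomm h hhL hN]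
          _ = D.g k * D.g k * (h * h) := by group
      rw [e1] at h2
      obtain ⟨⟨n, rfl⟩, h3⟩ := D.mem_two ((D.L _).mul_mem hhL hhL) ((FCc X).mul_mem hN hN) h2
      refine ⟨?_, n, rfl⟩
      rcases D.P1_q hP with h' | h' | ⟨m, hm, -, h'⟩
      · exact h'
      · exfalso
        rw [h'] at h3
        rcases h3 with h3 | h3
        · exact D.t_sq h3
        · exact D.tF2 (by simpa using D.F4.inv_mem h3)
      · exfalso
        have e2 : h * h = (D.g (2 * m + 1) * D.g (2 * m + 1))⁻¹ := by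
          rw [h', mul_inv_rev]
          rfl
        rw [e2, inv_inv, inv_eq_one] at h3
        rcases h3 with h3 | h3
        · apply (D.gen (2 * m + 1)).sq
          rw [h3]
          exact (D.L _).one_mem
        · exact (D.gen (2 * m + 1)).sq (D.hF _ h3)
    rcases hx with (⟨h, hP, he⟩ | ⟨-, he⟩) | (⟨h, hP, he⟩ | ⟨-, he⟩)
    · have hN : h ∈ FCc X := by
        rw [← (FCc X).mul_mem_cancel_left hgN, ← he]
        exact hxN
      rw [he] at hx2
      obtain ⟨rfl, n, rfl⟩ := no1 h hP hN hx2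
      exact ⟨n, by rw [he, mul_one]; rfl⟩
    · exfalso
      rw [he] at hxt
      exact no2 _ (Or.inl rfl) hxt
    · exfalso
      have hN : h ∈ FCc X := by
        rw [← (FCc X).mul_mem_cancel_left hgN, ← he]
        exact (FCc X).inv_mem hxN
      have hx2' := D.inv_mem hx2
      rw [mul_inv_rev, he] at hx2'
      obtain ⟨rfl, n, rfl⟩ := no1 h hP hN hx2'
      have hxt' := D.inv_mem hxt
      rw [mul_inv_rev, he, mul_one, hcomm _ htI htIN, D.mem_one_iff htI] at hxt'
      rcases D.P1_q hxt' with h' | h' | ⟨m, hm, -, h'⟩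
      · exact D.t_ne (inv_eq_one.1 h')
      · apply D.t_sq
        nth_rewrite 1 [← h']
        exact inv_mul_cancel _
      · apply (D.gen (2 * m + 1)).notMem
        change D.q m ∈ _
        rw [← inv_injective h']
        exact D.ht _
    · exfalso
      have hxt' := D.inv_mem hxt
      rw [mul_inv_rev, he] at hxt'
      have e3 : (D.t)⁻¹ * (D.g k * D.g k) = D.g k * D.g k * (D.t)⁻¹ := by
        calc (D.t)⁻¹ * (D.g k * D.g k) = ((D.t)⁻¹ * D.g k) * D.g k := by group
          _ = (D.g k * (D.t)⁻¹) * D.g k := by rw [hcomm _ htI htIN]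
          _ = D.g k * ((D.t)⁻¹ * D.g k) := by group
          _ = D.g k * (D.g k * (D.t)⁻¹) := by rw [hcomm _ htI htIN]
          _ = D.g k * D.g k * (D.t)⁻¹ := by group
      rw [e3] at hxt'
      exact no2 _ (Or.inr rfl) hxt'
  · rintro ⟨n, rfl⟩
    refine ⟨(D.gen _).fc, ⟨2 * n + 1, Or.inl (Or.inl ⟨1, Or.inr ⟨n, rfl, Or.inl rfl⟩, ?_⟩)⟩,
      ⟨2 * n + 1, Or.inl (Or.inl ⟨D.t, Or.inr ⟨n, rfl, Or.inr (Or.inl rfl)⟩, rfl⟩)⟩,
      ⟨2 * n + 1, Or.inl (Or.inr ⟨⟨n, rfl⟩, rfl⟩)⟩⟩
    rw [mul_one]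
    rfl

end FData

theorem fc_coding {X : Type u} [Group X] [Countable X] (hlf : LocFin X) (F4 : Subgroup X)
    (hF4 : (F4 : Set X).Finite)
    (gen : ∀ L : Subgroup X, (L : Set X).Finite → F4 ≤ L → ∃ g ∈ FCc X, g ∉ L ∧
        (∀ k ∈ L, k ∈ FCc X → k * g = g * k) ∧ g * g ∉ L ∧ g * g * g ∉ L ∧
        (g * g * g * g ∈ L → g * g * g * g ∈ F4) ∧
        (∀ b ∈ L, ∀ c ∈ L, c ≠ 1 → (g * b) * (g * b) ≠ c)) :
    Cardinal.mk (SpecialOrbits X) = Cardinal.continuum := by
  classical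
  obtain ⟨t, htN, htF, -, htF2, -, -, -⟩ := gen F4 hF4 le_rfl
  refine card_of_coding {t} (Set.finite_singleton t) (FData.Qf t) ?_ ?_
  · intro S α hα
    have ht : α t = t := hα t rfl
    ext y
    obtain ⟨x, rfl⟩ := α.surjective y
    rw [α.injective.mem_set_image]
    unfold FData.Qf
    have e1 : α x * t = α (x * t) := by rw [map_mul, ht]
    have e2 : α x * α x = α (x * x) := by rw [map_mul]
    constructor
    · rintro ⟨h1, h2, h3, h4⟩
      rw [e1] at h3
      rw [e2] at h4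
      exact ⟨(map_mem_FCc_iff α).1 h1, α.injective.mem_set_image.1 h2,
        α.injective.mem_set_image.1 h3, α.injective.mem_set_image.1 h4⟩
    · rintro ⟨h1, h2, h3, h4⟩
      refine ⟨(map_mem_FCc_iff α).2 h1, α.injective.mem_set_image.2 h2, ?_, ?_⟩
      · rw [e1]
        exact α.injective.mem_set_image.2 h3
      · rw [e2]
        exact α.injective.mem_set_image.2 h4
  · intro E hE
    have hc : Countable {p : Finset X × Finset X // Disjoint p.1 p.2} := inferInstance
    have hne : Nonempty {p : Finset X × Finset X // Disjoint p.1 p.2} := ⟨⟨(∅, ∅), by simp⟩⟩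
    obtain ⟨e, he⟩ := exists_surjective_nat {p : Finset X × Finset X // Disjoint p.1 p.2}
    let C : ℕ → Set X := fun n =>
      (F4 : Set X) ∪ {t} ∪ ⋃ m : Fin (n + 1), (((e m.1).1.1 ∪ (e m.1).1.2 : Finset X) : Set X)
    have hCfin : ∀ n, (C n).Finite := fun n =>
      (hF4.union (Set.finite_singleton t)).union (Set.finite_iUnion (fun m => Finset.finite_toSet _))
    have hCmono : ∀ m n, m ≤ n → C m ⊆ C n := by
      intro m n hmn
      apply Set.union_subset_union_right
      rintro x hx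
      obtain ⟨i, hi⟩ := Set.mem_iUnion.1 hx
      exact Set.mem_iUnion.2 ⟨⟨i.1, by omega⟩, hi⟩
    have hCmem : ∀ n x, (x ∈ (e n).1.1 ∨ x ∈ (e n).1.2) → x ∈ C n := by
      intro n x hx
      refine Or.inr (Set.mem_iUnion.2 ⟨⟨n, by omega⟩, ?_⟩)
      simp only [Finset.coe_union, Set.mem_union, Finset.mem_coe]
      exact hx
    obtain ⟨g, hg⟩ := exists_gen_chain hlf (fun L => F4 ≤ L) (FGen F4) (by
      intro L hL hFL
      obtain ⟨g, h1, h2, h3, h4, h5, h6, h7⟩ := gen L hL hFL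
      exact ⟨g, h1, h2, h3, h4, h5, h6, h7⟩) C hCfin (by
      intro n L hL x hx
      exact hL (Or.inl (Or.inl hx)))
    let D : FData X :=
      { F4 := F4
        t := t
        U := fun n => (e n).1.1
        V := fun n => (e n).1.2
        E := E
        L := fun k => Subgroup.closure (C k ∪ g '' {m | m < k})
        g := g
        tfc := htN
        tF := htF
        tF2 := htF2
        disj := fun n => (e n).2
        cover := by
          intro U' V' hd
          obtain ⟨n, hn⟩ := he ⟨(U', V'), hd⟩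
          exact ⟨n, by rw [hn], by rw [hn]⟩
        symm := hE
        mono := by
          intro m n hmn
          apply Subgroup.closure_mono
          apply Set.union_subset_union (hCmono m n hmn)
          apply Set.image_mono
          intro i hi
          exact lt_of_lt_of_le hi hmn
        hF := fun n x hx => Subgroup.subset_closure (Or.inl (Or.inl (Or.inl hx)))
        ht := fun n => Subgroup.subset_closure (Or.inl (Or.inl (Or.inr rfl)))
        hU := fun n u hu => Subgroup.subset_closure (Or.inl (hCmem n u (Or.inl hu)))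
        hV := fun n u hu => Subgroup.subset_closure (Or.inl (hCmem n u (Or.inr hu)))
        hg := fun m n hmn => Subgroup.subset_closure (Or.inr ⟨m, hmn, rfl⟩)
        gen := fun k => (hg k).2 }
    refine ⟨D.S, D.special, D.q, D.q_inj, D.Qf_eq, ?_⟩
    intro m n hmn
    rcases lt_or_gt_of_ne hmn with h | h
    · have e4 : (D.q m * (D.q n)⁻¹)⁻¹ = D.q n * (D.q m)⁻¹ := by group
      rw [← D.inv_mem_iff, e4]
      exact D.edge h
    · rw [D.edge h]
      exact ⟨D.symm n m, D.symm m n⟩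

end Pool.Agent.Lib.MP_008109_al.AB
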