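import Pool.Agent.Lib.MP_008109_al.AB.LocFin
import Pool.Agent.Lib.MP_008109_al.AB.Central

/-!
# MP_008109_al, module FNO: finitely many orbits
-/

set_option autoImplicit false
universe u

namespace Pool.Agent.Lib.MP_008109_al.AB

/-- If special subsets with the same trace on a finite set are in one orbit, then there are
finitely many orbits. -/
theorem finite_of_trace {X : Type u} [Group X] (F : Set X) (hF : F.Finite)
    (h : ∀ S T : Set X, IsSpecial S → IsSpecial T → (∀ x ∈ F, x ∈ S ↔ x ∈ T) →
      ∃ α : X ≃* X, α '' S = T) : (SpecialOrbits X).Finite := by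
  classical
  have hrep : ∀ O : SpecialOrbits X, ∃ S : Set X, IsSpecial S ∧
      O.1 = {T | ∃ α : X ≃* X, α '' S = T} := fun O => O.2
  choose rep hS hO using hrep
  have hfin : Finite (𝒫 F) := hF.finite_subsets.to_subtype
  have hinj : Function.Injective (fun O : SpecialOrbits X =>
      (⟨F ∩ rep O, Set.inter_subset_left⟩ : 𝒫 F)) := by
    intro O O' he
    have he' : F ∩ rep O = F ∩ rep O' := congrArg Subtype.val he
    have hiff : ∀ x ∈ F, x ∈ rep O ↔ x ∈ rep O' := by
      intro x hx
      have h1 : x ∈ F ∩ rep O ↔ x ∈ F ∩ rep O' := by rw [he']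
      simpa [hx] using h1
    obtain ⟨α, hα⟩ := h _ _ (hS O) (hS O') hiff
    apply Subtype.ext
    rw [hO O, hO O', ← hα]
    ext T
    constructor
    · rintro ⟨β, rfl⟩
      refine ⟨α.symm.trans β, ?_⟩
      rw [MulEquiv.coe_trans, Set.image_comp, ← Set.image_comp α.symm α]
      simp
    · rintro ⟨β, rfl⟩
      exact ⟨α.trans β, by rw [MulEquiv.coe_trans, Set.image_comp]⟩
  exact Set.finite_coe_iff.1 (Finite.of_injective _ hinj)

theorem finite_orbits {X : Type u} [Group X] [Countable X]
    [(Subgroup.center X).FiniteIndex] (h3 : {y : X | ∃ x : X, y = x * x * x}.Finite) :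
    (SpecialOrbits X).Finite := by
  classical
  obtain ⟨Z, hZ, hZ3, hZf⟩ := exists_central_exponent_three h3
  have hlf := locFin_of_central Z hZ hZ3
  have hfq : Finite (X ⧸ Z) := inferInstance
  have := Fintype.ofFinite (X ⧸ Z)
  let R : Finset X := Finset.univ.image (fun q : X ⧸ Z => q.out)
  apply finite_of_trace (Subgroup.closure (R : Set X) : Set X) (hlf R)
  intro S T hS hT h
  obtain ⟨α, -, hα⟩ := orbit_central Z hZ hZ3 (Subgroup.closure (R : Set X)) (hlf R) (by
    intro x
    refine ⟨((x : X) : X ⧸ Z).out, Subgroup.subset_closure ?_, (((x : X) : X ⧸ Z).out)⁻¹ * x,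
      ?_, by group⟩
    · simp only [R, Finset.coe_image, Finset.coe_univ, Set.image_univ]
      exact ⟨_, rfl⟩
    · rw [← QuotientGroup.eq]
      exact QuotientGroup.out_eq' _) S T hS hT h
  exact ⟨α, hα⟩

end Pool.Agent.Lib.MP_008109_al.AB
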