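import Pool.Agent.Lib.MP_008109_al.AB.Spec

/-!
# MP_008109_al, module GEN: generic elements of an abelian group

By B.H. Neumann's lemma on coverings by cosets, finitely many equations `d • g = a` whose sets of
`d`-fold multiples are infinite can be avoided at the same time.
-/

set_option autoImplicit false
universe u v

open scoped Pointwise

namespace Pool.Agent.Lib.MP_008109_al.AB

/-- The kernel of multiplication by `d` has infinite index if there are infinitely many `d`-fold
multiples. -/
theorem not_finiteIndex_ker {G : Type u} [AddCommGroup G] (d : ℕ) (h : (mult G d).Infinite) :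
    ¬ (nsmulAddMonoidHom d : G →+ G).ker.FiniteIndex := by
  intro hf
  have h0 := hf.index_ne_zero
  rw [AddSubgroup.index_ker] at h0
  have h1 : Finite (nsmulAddMonoidHom d : G →+ G).range := Nat.finite_of_card_ne_zero h0
  apply h
  have h2 : (mult G d) = ((nsmulAddMonoidHom d : G →+ G).range : Set G) := by
    ext x
    simp [mult]
  rw [h2]
  exact Set.toFinite _

/-- Finitely many equations `d • g = a` with infinitely many `d`-fold multiples can be avoided. -/
theorem avoid {G : Type u} [AddCommGroup G] (D : Finset ℕ) (hD : ∀ d ∈ D, (mult G d).Infinite)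
    (K : Finset G) : ∃ g : G, ∀ d ∈ D, ∀ a ∈ K, d • g ≠ a := by
  classical
  by_contra hcon
  push Not at hcon
  let g : ℕ × G → G := fun i => if h : ∃ x : G, i.1 • x = i.2 then h.choose else 0
  have hcov : ⋃ i ∈ D ×ˢ K, g i +ᵥ ((nsmulAddMonoidHom i.1 : G →+ G).ker : Set G) = Set.univ := by
    rw [Set.eq_univ_iff_forall]
    intro x
    obtain ⟨d, hd, a, ha, hx⟩ := hcon x
    rw [Set.mem_iUnion₂]
    refine ⟨(d, a), Finset.mem_product.2 ⟨hd, ha⟩, ?_⟩
    rw [mem_leftAddCoset_iff, SetLike.mem_coe, AddMonoidHom.mem_ker]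
    have h : ∃ x : G, d • x = a := ⟨x, hx⟩
    have hg : g (d, a) = h.choose := by
      simp only [g]
      rw [dif_pos h]
    have hg' : d • g (d, a) = a := by
      rw [hg]
      exact h.choose_spec
    simp only [nsmulAddMonoidHom_apply, smul_add, smul_neg]
    rw [hg', hx, neg_add_cancel]
  obtain ⟨i, hi, hfi⟩ := AddSubgroup.exists_finiteIndex_of_leftCoset_cover
    (H := fun i : ℕ × G => (nsmulAddMonoidHom i.1 : G →+ G).ker) hcov
  exact not_finiteIndex_ker i.1 (hD i.1 (Finset.mem_product.1 hi).1) hfi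

theorem exists_gen {G : Type u} [AddCommGroup G] (h2 : (mult G 2).Infinite) :
    ∃ F3 F4 : Finset G, ((mult G 3).Infinite → F3 = ∅) ∧
      ∀ K : Finset G, ∃ g : G, ∀ a ∈ K,
        g ≠ a ∧ 2 • g ≠ a ∧ (a ∉ F3 → 3 • g ≠ a) ∧ (a ∉ F4 → 4 • g ≠ a) := by
  classical
  have h1 : (mult G 1).Infinite := by
    refine h2.mono ?_
    rintro x ⟨y, rfl⟩
    exact ⟨2 • y, by simp⟩
  let D : Finset ℕ := ({1, 2, 3, 4} : Finset ℕ).filter fun d => (mult G d).Infinite
  have hD : ∀ d ∈ D, (mult G d).Infinite := fun d hd => (Finset.mem_filter.1 hd).2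
  let F : ℕ → Finset G := fun d => if h : (mult G d).Finite then h.toFinset else ∅
  have hF : ∀ d, (mult G d).Infinite → F d = ∅ := fun d hd => by
    simp only [F]
    rw [dif_neg hd]
  have hF' : ∀ d, (mult G d).Finite → ∀ g : G, d • g ∈ F d := fun d hd g => by
    simp only [F]
    rw [dif_pos hd, Set.Finite.mem_toFinset]
    exact ⟨g, rfl⟩
  refine ⟨F 3, F 4, hF 3, fun K => ?_⟩
  obtain ⟨g, hg⟩ := avoid D hD K
  have key : ∀ d ∈ ({1, 2, 3, 4} : Finset ℕ), ∀ a ∈ K, a ∉ F d → d • g ≠ a := by
    intro d hd a ha haF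
    rcases (mult G d).finite_or_infinite with hfin | hinf
    · rintro rfl
      exact haF (hF' d hfin g)
    · exact hg d (Finset.mem_filter.2 ⟨hd, hinf⟩) a ha
  refine ⟨g, fun a ha => ⟨?_, ?_, fun h => ?_, fun h => ?_⟩⟩
  · have := key 1 (by simp) a ha (by rw [hF 1 h1]; simp)
    simpa using this
  · exact key 2 (by simp) a ha (by rw [hF 2 h2]; simp)
  · exact key 3 (by simp) a ha h
  · exact key 4 (by simp) a ha h

end Pool.Agent.Lib.MP_008109_al.AB
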