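import Pool.Agent.Lib.MP_008109_al.AB.GenFcCore
import Pool.Agent.Lib.MP_008109_al.AB.Absorb

set_option autoImplicit false
universe u

namespace Pool.Agent.Lib.MP_008109_al.AB

theorem exists_gen_fc {X : Type u} [Group X] (hX : HasDagger X) (hlf : LocFin X)
    [(FCc X).FiniteIndex] (h2 : ∃ h ∈ FCc X, h * h ≠ 1)
    (h3 : {y : X | ∃ x ∈ FCc X, y = x * x * x}.Infinite) :
    ∃ F4 : Subgroup X, (F4 : Set X).Finite ∧ F4 ≤ FCc X ∧
      ∀ L : Subgroup X, (L : Set X).Finite → F4 ≤ L → ∃ g ∈ FCc X, g ∉ L ∧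
        (∀ k ∈ L, k ∈ FCc X → k * g = g * k) ∧ g * g ∉ L ∧ g * g * g ∉ L ∧
        (g * g * g * g ∈ L → g * g * g * g ∈ F4) ∧
        (∀ b ∈ L, ∀ c ∈ L, c ≠ 1 → (g * b) * (g * b) ≠ c) :=
  exists_gen_fc_of (fun _ hA N _ g => exists_avoid hX hA N g) hlf h2 h3

end Pool.Agent.Lib.MP_008109_al.AB
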