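import Pool.Agent.Lib.MP_008109_al.AB.Avoid

/-!
# MP_008109_al: generic elements of the FC-centre when it has finite index

`exists_gen_fc_of`: for a locally finite group `X` with the avoidance property whose FC-centre `N` has finite index, is
not of exponent two and has infinitely many cubes, there is a finite subgroup `F4 ≤ N` such that
for every finite subgroup `L ≥ F4` some `g ∈ N` outside `L` commutes with `L ∩ N`, has its square
and its cube outside `L` and its fourth power outside `L` or in `F4`, and `(g b)² ≠ c` for all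
`b, c ∈ L`, `c ≠ 1`.
-/

set_option autoImplicit false

universe u

namespace Pool.Agent.Lib.MP_008109_al.AB

/-- An element of the FC-centre has finitely many conjugates. -/
theorem finite_conjugatesOf {X : Type u} [Group X] {r : X} (hr : r ∈ FCc X) :
    (conjugatesOf r).Finite := by
  have hr' : (Subgroup.centralizer ({r} : Set X)).FiniteIndex := hr
  have hf : Finite (X ⧸ Subgroup.centralizer ({r} : Set X)) := inferInstance
  have hsub : conjugatesOf r ⊆
      Set.range (fun q : X ⧸ Subgroup.centralizer ({r} : Set X) => q.out * r * q.out⁻¹) := by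
    intro y hy
    obtain ⟨g, rfl⟩ := isConj_iff.1 (show IsConj r y from hy)
    refine ⟨QuotientGroup.mk g, ?_⟩
    obtain ⟨⟨c, hc⟩, hc'⟩ := QuotientGroup.mk_out_eq_mul (Subgroup.centralizer ({r} : Set X)) g
    have h1 := Subgroup.mem_centralizer_iff.1 hc r rfl
    change (QuotientGroup.mk g : X ⧸ Subgroup.centralizer ({r} : Set X)).out * r *
      (QuotientGroup.mk g : X ⧸ Subgroup.centralizer ({r} : Set X)).out⁻¹ = g * r * g⁻¹
    rw [hc']
    change g * c * r * (g * c)⁻¹ = g * r * g⁻¹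
    rw [mul_assoc g c r, ← h1, mul_inv_rev]
    group
  exact (Set.finite_range _).subset hsub

/-- If the FC-centre of a locally finite group has infinitely many `d`-th powers, then so does
every subgroup of finite index in it. -/
theorem infinite_powers {X : Type u} [Group X] (hlf : LocFin X) (d : ℕ)
    (h : {y : X | ∃ x ∈ FCc X, y = x ^ d}.Infinite) (C : Subgroup X) [hCf : C.FiniteIndex]
    (hC : C ≤ FCc X) : {y : X | ∃ x ∈ C, y = x ^ d}.Infinite := by
  intro hfin
  apply h
  have hf : Finite (X ⧸ C) := inferInstance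
  -- representatives
  let T : Set X := {t | (∃ q : X ⧸ C, t = q.out) ∧ t ∈ FCc X}
  have hT : T.Finite := by
    refine (Set.finite_range (fun q : X ⧸ C => q.out)).subset ?_
    rintro t ⟨⟨q, rfl⟩, -⟩
    exact ⟨q, rfl⟩
  have hconj : (Group.conjugatesOfSet T).Finite := by
    unfold Group.conjugatesOfSet
    exact hT.biUnion fun t ht => finite_conjugatesOf ht.2
  have hR : (Subgroup.normalClosure T : Set X).Finite := by
    have h1 := hlf hconj.toFinset
    rw [Set.Finite.coe_toFinset] at h1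
    exact h1
  refine (Set.Finite.image2 (fun a b : X => a * b) hfin hR).subset ?_
  rintro y ⟨x, hx, rfl⟩
  obtain ⟨⟨c, hc⟩, hc'⟩ := QuotientGroup.mk_out_eq_mul C x
  have hc2 : (QuotientGroup.mk x : X ⧸ C).out = x * c := hc'
  have ht : x * c ∈ Subgroup.normalClosure T := by
    apply Subgroup.subset_normalClosure
    exact ⟨⟨_, hc2.symm⟩, (FCc X).mul_mem hx (hC hc)⟩
  refine ⟨(c⁻¹) ^ d, ⟨c⁻¹, C.inv_mem hc, rfl⟩, ((c⁻¹) ^ d)⁻¹ * x ^ d, ?_, by group⟩
  have hmk : (QuotientGroup.mk' (Subgroup.normalClosure T)) (c⁻¹) =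
      (QuotientGroup.mk' (Subgroup.normalClosure T)) x := by
    have h1 : (QuotientGroup.mk' (Subgroup.normalClosure T)) (x * c) = 1 :=
      (QuotientGroup.eq_one_iff _).2 ht
    rw [map_mul] at h1
    rw [map_inv]
    exact (eq_inv_of_mul_eq_one_left h1).symm
  have h2 : (QuotientGroup.mk' (Subgroup.normalClosure T)) (((c⁻¹) ^ d)⁻¹ * x ^ d) = 1 := by
    rw [map_mul, map_inv, map_pow, map_pow, hmk, inv_mul_cancel]
  exact (QuotientGroup.eq_one_iff _).1 h2

/-- The centraliser of an element of the FC-centre has finite index. -/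
theorem finiteIndex_centralizer {X : Type u} [Group X] {r : X} (hr : r ∈ FCc X) :
    (Subgroup.centralizer ({r} : Set X)).FiniteIndex := hr

theorem comm_of_mem_centralizer {X : Type u} [Group X] {r z : X}
    (hz : z ∈ Subgroup.centralizer ({r} : Set X)) : Commute z r :=
  (Subgroup.mem_centralizer_iff.1 hz r rfl).symm

/-- A `d`-th power outside a finite set. -/
theorem exists_pow_notMem {X : Type u} [Group X] (hlf : LocFin X) (d : ℕ)
    (h : {y : X | ∃ x ∈ FCc X, y = x ^ d}.Infinite) (C : Subgroup X) [hCf : C.FiniteIndex]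
    (hC : C ≤ FCc X) (L : Subgroup X) (hL : (L : Set X).Finite) : ∃ x ∈ C, x ^ d ∉ L := by
  obtain ⟨y, ⟨x, hx, rfl⟩, hy⟩ := ((infinite_powers hlf d h C hC).sdiff hL).nonempty
  exact ⟨x, hx, hy⟩

/-- Elements whose cube and fourth power both avoid a finite subgroup. -/
theorem exists_both {X : Type u} [Group X] (hlf : LocFin X)
    (h3 : {y : X | ∃ x ∈ FCc X, y = x ^ 3}.Infinite)
    (h4 : {y : X | ∃ x ∈ FCc X, y = x ^ 4}.Infinite) (C : Subgroup X) [hCf : C.FiniteIndex]
    (hC : C ≤ FCc X) (L : Subgroup X) (hL : (L : Set X).Finite) :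
    ∃ h ∈ C, h ^ 3 ∉ L ∧ h ^ 4 ∉ L := by
  obtain ⟨h, hh, hh3⟩ := exists_pow_notMem hlf 3 h3 C hC L hL
  by_cases hh4 : h ^ 4 ∈ L
  · have hfi := finiteIndex_centralizer (hC hh)
    obtain ⟨k, hk, hk4⟩ := exists_pow_notMem hlf 4 h4 (C ⊓ Subgroup.centralizer {h})
      (inf_le_left.trans hC) L hL
    have hcomm : Commute h k := (comm_of_mem_centralizer hk.2).symm
    by_cases hk3 : k ^ 3 ∈ L
    · refine ⟨h * k, C.mul_mem hh hk.1, ?_, ?_⟩
      · rw [hcomm.mul_pow]
        exact fun h1 => hh3 ((Subgroup.mul_mem_cancel_right L hk3).1 h1)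
      · rw [hcomm.mul_pow]
        exact fun h1 => hk4 ((Subgroup.mul_mem_cancel_left L hh4).1 h1)
    · exact ⟨k, hk.1, hk3, hk4⟩
  · exact ⟨h, hh, hh3, hh4⟩

/-- The centraliser in `X` of a finite set of elements of the FC-centre has finite index. -/
theorem finiteIndex_centralizer_of_finite {X : Type u} [Group X] {K : Set X} (hK : K.Finite)
    (hKN : K ⊆ FCc X) : (Subgroup.centralizer K).FiniteIndex := by
  induction K, hK using Set.Finite.induction_on with
  | empty =>
    have h : Subgroup.centralizer (∅ : Set X) = ⊤ := by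
      rw [eq_top_iff]
      intro g _
      rw [Subgroup.mem_centralizer_iff]
      intro k hk
      exact absurd hk (Set.notMem_empty _)
    rw [h]
    infer_instance
  | @insert a s _ _ ih =>
    have h1 := ih ((Set.subset_insert a s).trans hKN)
    have h2 := finiteIndex_centralizer (hKN (Set.mem_insert a s))
    have h3 : Subgroup.centralizer ({a} : Set X) ⊓ Subgroup.centralizer s ≤
        Subgroup.centralizer (insert a s) := by
      rintro g ⟨hg1, hg2⟩
      rw [Subgroup.mem_centralizer_iff]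
      rintro k (rfl | hk)
      · exact Subgroup.mem_centralizer_iff.1 hg1 k rfl
      · exact Subgroup.mem_centralizer_iff.1 hg2 k hk
    exact Subgroup.finiteIndex_of_le h3

/-- The conditions on a generic element other than those on its cube and fourth power. -/
def GoodFor {X : Type u} [Group X] (L : Subgroup X) (g : X) : Prop :=
  g ∈ FCc X ∧ g ∉ L ∧ (∀ k ∈ L, k ∈ FCc X → k * g = g * k) ∧ g * g ∉ L ∧
    (∀ b ∈ L, ∀ c ∈ L, c ≠ 1 → (g * b) * (g * b) ≠ c)

/-- All elements of a finite index subgroup `C` of the FC-centre outside an avoidable set are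
good for `L`. -/
theorem exists_good {X : Type u} [Group X] [Infinite X] [(FCc X).FiniteIndex]
    (h2 : ∃ h ∈ FCc X, h * h ≠ 1) (L : Subgroup X) (hL : (L : Set X).Finite) :
    ∃ C : Subgroup X, C.FiniteIndex ∧ C ≤ FCc X ∧ ∃ A : Set X, Avoidable A ∧
      ∀ z ∈ C, z ∉ A → GoodFor L z := by
  obtain ⟨h0, hh0, hh0'⟩ := h2
  have hK : ((L : Set X) ∩ FCc X).Finite := hL.subset Set.inter_subset_left
  have hfi1 := finiteIndex_centralizer_of_finite hK Set.inter_subset_right
  have hfi2 := finiteIndex_centralizer hh0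
  let A : Set X := (L : Set X) ∪ (⋃ p ∈ (L : Set X) ×ˢ (L : Set X),
      {z : X | p.2 ≠ 1 ∧ (z * p.1) * (z * p.1) = p.2}) ∪ {z : X | (z * h0) * (z * h0) = h0 * h0}
  refine ⟨FCc X ⊓ (Subgroup.centralizer ((L : Set X) ∩ FCc X) ⊓ Subgroup.centralizer {h0}),
    inferInstance, inf_le_left, A, ?_, ?_⟩
  · refine Avoidable.union (Avoidable.union (avoidable_finite hL) ?_) (avoidable_sqrt h0 _ hh0')
    refine Avoidable.biUnion (hL.prod hL) fun p _ => ?_
    by_cases hp : p.2 = 1
    · refine Avoidable.mono avoidable_empty ?_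
      rintro z ⟨h1, -⟩
      exact absurd hp h1
    · exact Avoidable.mono (avoidable_sqrt p.1 p.2 hp) fun z hz => hz.2
  · rintro z ⟨hzN, hzL, hz0⟩ hzA
    have hz1 : z ∉ L := fun h1 => hzA (Or.inl (Or.inl h1))
    have hz2 : ∀ b ∈ L, ∀ c ∈ L, c ≠ 1 → (z * b) * (z * b) ≠ c := by
      intro b hb c hc hc1 h1
      apply hzA
      refine Or.inl (Or.inr ?_)
      exact Set.mem_biUnion (show (b, c) ∈ (L : Set X) ×ˢ (L : Set X) from ⟨hb, hc⟩) ⟨hc1, h1⟩
    refine ⟨hzN, hz1, ?_, ?_, hz2⟩
    · intro k hk hkN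
      exact Subgroup.mem_centralizer_iff.1 hzL k ⟨hk, hkN⟩
    · intro h1
      by_cases h3 : z * z = 1
      · apply hzA
        refine Or.inr ?_
        change (z * h0) * (z * h0) = h0 * h0
        have h4 : z * h0 = h0 * z := comm_of_mem_centralizer hz0
        calc (z * h0) * (z * h0) = z * (h0 * z) * h0 := by group
          _ = z * (z * h0) * h0 := by rw [h4]
          _ = (z * z) * (h0 * h0) := by group
          _ = h0 * h0 := by rw [h3, one_mul]
      · exact hz2 1 L.one_mem (z * z) h1 h3 (by rw [mul_one])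

/-- GFC: generic elements of the FC-centre (from the avoidance property). -/
theorem exists_gen_fc_of {X : Type u} [Group X]
    (hav : ∀ A : Set X, Avoidable A → ∀ N : Subgroup X, N.FiniteIndex → ∀ g : X,
      ∃ z : X, g⁻¹ * z ∈ N ∧ z ∉ A)
    (hlf : LocFin X) [(FCc X).FiniteIndex] (h2 : ∃ h ∈ FCc X, h * h ≠ 1)
    (h3 : {y : X | ∃ x ∈ FCc X, y = x * x * x}.Infinite) :
    ∃ F4 : Subgroup X, (F4 : Set X).Finite ∧ F4 ≤ FCc X ∧
      ∀ L : Subgroup X, (L : Set X).Finite → F4 ≤ L → ∃ g ∈ FCc X, g ∉ L ∧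
        (∀ k ∈ L, k ∈ FCc X → k * g = g * k) ∧ g * g ∉ L ∧ g * g * g ∉ L ∧
        (g * g * g * g ∈ L → g * g * g * g ∈ F4) ∧
        (∀ b ∈ L, ∀ c ∈ L, c ≠ 1 → (g * b) * (g * b) ≠ c) := by
  have : Infinite X := by
    rw [← Set.infinite_univ_iff]
    exact h3.mono (Set.subset_univ _)
  have hcube : ∀ x : X, x * x * x = x ^ 3 := fun x => by
    rw [pow_succ, pow_two]
  have hfour : ∀ x : X, x * x * x * x = x ^ 4 := fun x => by
    rw [pow_succ, pow_succ, pow_two]
  have h3' : {y : X | ∃ x ∈ FCc X, y = x ^ 3}.Infinite := by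
    refine h3.mono ?_
    rintro y ⟨x, hx, rfl⟩
    exact ⟨x, hx, hcube x⟩
  by_cases h4 : {y : X | ∃ x ∈ FCc X, y = x ^ 4}.Infinite
  · refine ⟨⊥, by simp, bot_le, ?_⟩
    intro L hL _
    obtain ⟨C, hCf, hCN, A, hA, hgood⟩ := exists_good h2 L hL
    obtain ⟨a, ha, ha3, ha4⟩ := exists_both hlf h3' h4 C hCN L hL
    have hfia := finiteIndex_centralizer (hCN ha)
    -- the subgroup generated by `L` and `a`
    have hL' : (Subgroup.closure (insert a (L : Set X)) : Set X).Finite := by
      have h1 := hlf (hL.insert a).toFinset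
      rw [Set.Finite.coe_toFinset] at h1
      exact h1
    have hLL' : L ≤ Subgroup.closure (insert a (L : Set X)) := fun x hx =>
      Subgroup.subset_closure (Set.mem_insert_of_mem a hx)
    have haL' : a ∈ Subgroup.closure (insert a (L : Set X)) :=
      Subgroup.subset_closure (Set.mem_insert a _)
    obtain ⟨b, hb, hb3, hb4⟩ := exists_both hlf h3' h4 (C ⊓ Subgroup.centralizer {a})
      (inf_le_left.trans hCN) _ hL'
    have hfib := finiteIndex_centralizer (hCN hb.1)
    obtain ⟨z, hz, hzA⟩ := hav _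
      ((hA.union (hA.preimage_mul_right a)).union (hA.preimage_mul_right b))
      (C ⊓ (Subgroup.centralizer {a} ⊓ Subgroup.centralizer {b})) inferInstance 1
    rw [inv_one, one_mul] at hz
    obtain ⟨hzC, hza, hzb⟩ := hz
    have hzA1 : z ∉ A := fun h1 => hzA (Or.inl (Or.inl h1))
    have hzA2 : z * a ∉ A := fun h1 => hzA (Or.inl (Or.inr h1))
    have hzA3 : z * b ∉ A := fun h1 => hzA (Or.inr h1)
    have hg1 := hgood z hzC hzA1
    have hg2 := hgood (z * a) (C.mul_mem hzC ha) hzA2
    have hg3 := hgood (z * b) (C.mul_mem hzC hb.1) hzA3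
    have hca : Commute z a := comm_of_mem_centralizer hza
    have hcb : Commute z b := comm_of_mem_centralizer hzb
    -- two of `z`, `z a`, `z b` cannot both have their `d`-th power in `L`
    have hpair : ∀ d : ℕ, a ^ d ∉ L → b ^ d ∉ Subgroup.closure (insert a (L : Set X)) →
        ¬ (z ^ d ∈ L ∧ (z * a) ^ d ∈ L) ∧ ¬ (z ^ d ∈ L ∧ (z * b) ^ d ∈ L) ∧
          ¬ ((z * a) ^ d ∈ L ∧ (z * b) ^ d ∈ L) := by
      intro d had hbd
      refine ⟨?_, ?_, ?_⟩
      · rintro ⟨h5, h6⟩
        rw [hca.mul_pow] at h6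
        exact had ((Subgroup.mul_mem_cancel_left L h5).1 h6)
      · rintro ⟨h5, h6⟩
        rw [hcb.mul_pow] at h6
        exact hbd (hLL' ((Subgroup.mul_mem_cancel_left L h5).1 h6))
      · rintro ⟨h5, h6⟩
        rw [hca.mul_pow] at h5
        rw [hcb.mul_pow] at h6
        have h7 := (Subgroup.mul_mem_cancel_right _ (Subgroup.pow_mem _ haL' d)).1 (hLL' h5)
        exact hbd ((Subgroup.mul_mem_cancel_left _ h7).1 (hLL' h6))
    obtain ⟨p1, p2, p3⟩ := hpair 3 ha3 hb3
    obtain ⟨q1, q2, q3⟩ := hpair 4 ha4 hb4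
    have hex : ∃ g, GoodFor L g ∧ g ^ 3 ∉ L ∧ g ^ 4 ∉ L := by
      by_contra hcon
      push Not at hcon
      have c1 := hcon z hg1
      have c2 := hcon (z * a) hg2
      have c3 := hcon (z * b) hg3
      by_cases d1 : z ^ 3 ∈ L
      · by_cases d2 : (z * a) ^ 3 ∈ L
        · exact p1 ⟨d1, d2⟩
        · by_cases d3 : (z * b) ^ 3 ∈ L
          · exact p2 ⟨d1, d3⟩
          · exact q3 ⟨c2 d2, c3 d3⟩
      · by_cases d2 : (z * a) ^ 3 ∈ L
        · by_cases d3 : (z * b) ^ 3 ∈ L
          · exact p3 ⟨d2, d3⟩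
          · exact q2 ⟨c1 d1, c3 d3⟩
        · exact q1 ⟨c1 d1, c2 d2⟩
    obtain ⟨g, ⟨g1, g2, g3, g4, g5⟩, g6, g7⟩ := hex
    refine ⟨g, g1, g2, g3, g4, ?_, ?_, g5⟩
    · rw [hcube]
      exact g6
    · rw [hfour]
      exact fun h5 => absurd h5 g7
  · rw [Set.not_infinite] at h4
    refine ⟨Subgroup.closure {y : X | ∃ x ∈ FCc X, y = x ^ 4}, ?_, ?_, ?_⟩
    · have h1 := hlf h4.toFinset
      rw [Set.Finite.coe_toFinset] at h1
      exact h1
    · rw [Subgroup.closure_le]
      rintro y ⟨x, hx, rfl⟩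
      exact (FCc X).pow_mem hx 4
    · intro L hL _
      obtain ⟨C, hCf, hCN, A, hA, hgood⟩ := exists_good h2 L hL
      obtain ⟨a, ha, ha3⟩ := exists_pow_notMem hlf 3 h3' C hCN L hL
      have hfia := finiteIndex_centralizer (hCN ha)
      obtain ⟨z, hz, hzA⟩ := hav _ (hA.union (hA.preimage_mul_right a))
        (C ⊓ Subgroup.centralizer {a}) inferInstance 1
      rw [inv_one, one_mul] at hz
      obtain ⟨hzC, hza⟩ := hz
      have hzA1 : z ∉ A := fun h1 => hzA (Or.inl h1)
      have hzA2 : z * a ∉ A := fun h1 => hzA (Or.inr h1)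
      have hg1 := hgood z hzC hzA1
      have hg2 := hgood (z * a) (C.mul_mem hzC ha) hzA2
      have hca : Commute z a := comm_of_mem_centralizer hza
      have hex : ∃ g, GoodFor L g ∧ g ^ 3 ∉ L := by
        by_cases h5 : z ^ 3 ∈ L
        · refine ⟨z * a, hg2, ?_⟩
          rw [hca.mul_pow]
          exact fun h6 => ha3 ((Subgroup.mul_mem_cancel_left L h5).1 h6)
        · exact ⟨z, hg1, h5⟩
      obtain ⟨g, ⟨g1, g2, g3, g4, g5⟩, g6⟩ := hex
      refine ⟨g, g1, g2, g3, g4, ?_, ?_, g5⟩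
      · rw [hcube]
        exact g6
      · rw [hfour]
        exact fun _ => Subgroup.subset_closure ⟨g, g1, rfl⟩

end Pool.Agent.Lib.MP_008109_al.AB
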