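import Pool.Agent.Lib.MP_008109_al.AB.Absorb

/-!
# MP_008109_al, module GNF: generic elements outside the FC-centre
-/

set_option autoImplicit false
universe u

namespace Pool.Agent.Lib.MP_008109_al.AB

theorem exists_gen_nfc {X : Type u} [Group X] (hX : HasDagger X) (hN : (FCc X).index = 0)
    (K : Set X) (hK : K.Finite) :
    ∃ g : X, (∀ k ∈ K, k⁻¹ * g ∉ FCc X) ∧
      (∀ w ∈ K, w ∉ FCc X → ∀ k ∈ K, g⁻¹ * w * g ≠ k) ∧
      (∀ b ∈ K, ∀ c ∈ K, c ≠ 1 → (g * b) * (g * b) ≠ c) := by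
  have h1 : Avoidable (⋃ k ∈ K, {z : X | k⁻¹ * z ∈ FCc X}) :=
    Avoidable.biUnion hK (fun k _ => avoidable_coset k _ hN)
  have h2 : Avoidable (⋃ w ∈ K, ⋃ k ∈ K, {z : X | w ∉ FCc X ∧ z⁻¹ * w * z = k}) := by
    refine Avoidable.biUnion hK (fun w _ => Avoidable.biUnion hK (fun k _ => ?_))
    by_cases hw : w ∈ FCc X
    · exact avoidable_empty.mono (fun z hz => (hz.1 hw).elim)
    · exact (avoidable_conj w k hw).mono (fun z hz => hz.2)
  have h3 : Avoidable (⋃ b ∈ K, ⋃ c ∈ K, {z : X | c ≠ 1 ∧ (z * b) * (z * b) = c}) := by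
    refine Avoidable.biUnion hK (fun b _ => Avoidable.biUnion hK (fun c _ => ?_))
    by_cases hc : c = 1
    · exact avoidable_empty.mono (fun z hz => (hz.1 hc).elim)
    · exact (avoidable_sqrt b c hc).mono (fun z hz => hz.2)
  obtain ⟨g, -, hg⟩ := exists_avoid hX ((h1.union h2).union h3) ⊤ 1
  refine ⟨g, fun k hk h => hg ?_, fun w hw hwN k hk h => hg ?_, fun b hb c hc hc1 h => hg ?_⟩
  · exact Or.inl (Or.inl (Set.mem_iUnion₂.2 ⟨k, hk, h⟩))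
  · exact Or.inl (Or.inr (Set.mem_iUnion₂.2 ⟨w, hw, Set.mem_iUnion₂.2 ⟨k, hk, hwN, h⟩⟩))
  · exact Or.inr (Set.mem_iUnion₂.2 ⟨b, hb, Set.mem_iUnion₂.2 ⟨c, hc, hc1, h⟩⟩)

end Pool.Agent.Lib.MP_008109_al.AB
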