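import Pool.Agent.Lib.MP_008109_al.AB.Absorb

/-!
# MP_008109_al: module GR1 (helper17)

Generic elements of the FC-centre when it has finite index.
-/

set_option autoImplicit false

universe u

namespace Pool.Agent.Lib.MP_008109_al.AB

theorem infinite_of_hasDagger {X : Type u} [Group X] (hX : HasDagger X) : Infinite X := by
  by_contra hfin
  rw [not_infinite_iff_finite] at hfin
  have := Fintype.ofFinite X
  exact hX ⟨∅, Finset.univ, by simp, fun z => Or.inl (Finset.mem_univ z)⟩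

/-- Finitely many elements of the FC-centre have a common centraliser of finite index. -/
theorem finiteIndex_centralizer_gr1 {X : Type u} [Group X] {K : Set X} (hK : K.Finite)
    (hKN : ∀ k ∈ K, k ∈ FCc X) : (Subgroup.centralizer K).FiniteIndex := by
  have : Finite K := hK
  have h : (⨅ k : K, Subgroup.centralizer {(k : X)}).FiniteIndex :=
    Subgroup.finiteIndex_iInf fun k => hKN k k.2
  refine @Subgroup.finiteIndex_of_le _ _ _ _ h fun g hg => ?_
  rw [Subgroup.mem_iInf] at hg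
  rw [Subgroup.mem_centralizer_iff]
  intro k hk
  exact Subgroup.mem_centralizer_iff.1 (hg ⟨k, hk⟩) k rfl

theorem exists_gen_r1 {X : Type u} [Group X] (hX : HasDagger X) (_hlf : LocFin X)
    [(FCc X).FiniteIndex] (L : Subgroup X) (hL : (L : Set X).Finite) :
    ∃ g ∈ FCc X, g ∉ L ∧ (∀ k ∈ L, k ∈ FCc X → k * g = g * k) ∧
      (∀ w ∈ L, w ∉ FCc X → g⁻¹ * w * g ∉ L) ∧
      (∀ b ∈ L, ∀ c ∈ L, c ≠ 1 → (g * b) * (g * b) ≠ c) ∧
      ((∃ h ∈ FCc X, h * h ≠ 1) → g * g ∉ L) := by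
  classical
  have hinf : Infinite X := infinite_of_hasDagger hX
  obtain ⟨h0, hh0, himp⟩ : ∃ h0 ∈ FCc X, ((∃ h ∈ FCc X, h * h ≠ 1) → h0 * h0 ≠ 1) := by
    by_cases h : ∃ h ∈ FCc X, h * h ≠ 1
    · obtain ⟨h0, h1, h2⟩ := h
      exact ⟨h0, h1, fun _ => h2⟩
    · exact ⟨1, Subgroup.one_mem _, fun h' => absurd h' h⟩
  -- the subgroup of finite index
  let K : Set X := insert h0 {k | k ∈ L ∧ k ∈ FCc X}
  have hK : K.Finite := (hL.subset fun k hk => hk.1).insert h0
  have hKN : ∀ k ∈ K, k ∈ FCc X := by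
    rintro k (rfl | hk)
    · exact hh0
    · exact hk.2
  have hC1 : (Subgroup.centralizer K).FiniteIndex := finiteIndex_centralizer_gr1 hK hKN
  have hC : (FCc X ⊓ Subgroup.centralizer K).FiniteIndex := inferInstance
  -- the avoidable set
  let A1 : Set X := ⋃ w ∈ {w | w ∈ L ∧ w ∉ FCc X}, ⋃ k ∈ (L : Set X), {z : X | z⁻¹ * w * z = k}
  let A2 : Set X := ⋃ b ∈ (L : Set X), ⋃ c ∈ {c | c ∈ L ∧ c ≠ 1}, {z : X | (z * b) * (z * b) = c}
  let A3 : Set X := {z : X | h0 * h0 ≠ 1 ∧ (z * h0) * (z * h0) = h0 * h0}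
  have hA1 : Avoidable A1 := by
    refine Avoidable.biUnion (hL.subset fun w hw => hw.1) fun w hw => ?_
    exact Avoidable.biUnion hL fun k _ => avoidable_conj w k hw.2
  have hA2 : Avoidable A2 := by
    refine Avoidable.biUnion hL fun b _ => ?_
    refine Avoidable.biUnion (hL.subset fun c hc => hc.1) fun c hc => ?_
    exact avoidable_sqrt b c hc.2
  have hA3 : Avoidable A3 := by
    by_cases h : h0 * h0 = 1
    · exact avoidable_empty.mono fun z hz => absurd h hz.1
    · exact (avoidable_sqrt h0 (h0 * h0) h).mono fun z hz => hz.2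
  have hA : Avoidable ((L : Set X) ∪ A1 ∪ A2 ∪ A3) :=
    (((avoidable_finite hL).union hA1).union hA2).union hA3
  obtain ⟨g, hg, hgA⟩ := exists_avoid hX hA (FCc X ⊓ Subgroup.centralizer K) 1
  rw [inv_one, one_mul] at hg
  have hgL : g ∉ L := fun h => hgA (Or.inl (Or.inl (Or.inl h)))
  have hg1 : g ∉ A1 := fun h => hgA (Or.inl (Or.inl (Or.inr h)))
  have hg2 : g ∉ A2 := fun h => hgA (Or.inl (Or.inr h))
  have hg3 : g ∉ A3 := fun h => hgA (Or.inr h)
  have hcomm : ∀ k ∈ K, k * g = g * k := fun k hk => Subgroup.mem_centralizer_iff.1 hg.2 k hk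
  refine ⟨g, hg.1, hgL, ?_, ?_, ?_, ?_⟩
  · intro k hk hkN
    exact hcomm k (Or.inr ⟨hk, hkN⟩)
  · intro w hw hwN hmem
    apply hg1
    exact Set.mem_biUnion (show w ∈ {w | w ∈ L ∧ w ∉ FCc X} from ⟨hw, hwN⟩)
      (Set.mem_biUnion (show g⁻¹ * w * g ∈ (L : Set X) from hmem) rfl)
  · intro b hb c hc hc1 h
    apply hg2
    exact Set.mem_biUnion (show b ∈ (L : Set X) from hb)
      (Set.mem_biUnion (show c ∈ {c | c ∈ L ∧ c ≠ 1} from ⟨hc, hc1⟩) h)
  · intro hex hmem
    have h0ne := himp hex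
    by_cases h1 : g * g = 1
    · apply hg3
      refine ⟨h0ne, ?_⟩
      have hc : h0 * g = g * h0 := hcomm h0 (Or.inl rfl)
      calc (g * h0) * (g * h0) = g * (h0 * g) * h0 := by group
        _ = g * (g * h0) * h0 := by rw [hc]
        _ = (g * g) * (h0 * h0) := by group
        _ = h0 * h0 := by rw [h1, one_mul]
    · apply hg2
      refine Set.mem_biUnion (show (1 : X) ∈ (L : Set X) from Subgroup.one_mem L)
        (Set.mem_biUnion (show g * g ∈ {c | c ∈ L ∧ c ≠ 1} from ⟨hmem, h1⟩) ?_)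
      change (g * 1) * (g * 1) = g * g
      rw [mul_one]

end Pool.Agent.Lib.MP_008109_al.AB
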