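import Pool.Agent.Lib.MP_008109_al.AB.Spec

/-!
# MP_008109_al: continuum many orbits from infinitely many elements with finite orbits

For an arbitrary countable group `X` with property (†): if some finite set has the property that
infinitely many elements of `X` have a finite orbit under its pointwise stabiliser in `Aut X`, then
`Aut X` has exactly `2^ℵ₀` orbits on special subsets.  In particular this holds if `X` is not
locally finite.
-/

set_option autoImplicit false

universe u v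

namespace Pool.Agent.Lib.MP_008109_al.AB

theorem exists_seq_rel {α : Type v} (R : (n : ℕ) → ((m : ℕ) → m < n → α) → α → Prop)
    (h : ∀ n f, ∃ a, R n f a) : ∃ s : ℕ → α, ∀ n, R n (fun m _ => s m) (s n) := by
  classical
  let F : (n : ℕ) → ((m : ℕ) → m < n → α) → α := fun n f => Classical.choose (h n f)
  let s : ℕ → α := (wellFounded_lt (α := ℕ)).fix F
  refine ⟨s, fun n => ?_⟩
  have e : s n = F n (fun m _ => s m) := WellFounded.fix_eq _ _ _
  have h' := Classical.choose_spec (h n (fun m _ => s m))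
  rw [e]
  exact h'

theorem mk_specialOrbits_le (X : Type u) [Group X] [Countable X] :
    Cardinal.mk (SpecialOrbits X) ≤ Cardinal.continuum := by
  have h1 : Function.Surjective (fun S : {S : Set X // IsSpecial S} =>
      (⟨{T | ∃ α : X ≃* X, α '' S.1 = T}, S.1, S.2, rfl⟩ : SpecialOrbits X)) := by
    rintro ⟨O, S, hS, rfl⟩
    exact ⟨⟨S, hS⟩, rfl⟩
  refine (Cardinal.mk_le_of_surjective h1).trans ?_
  refine (Cardinal.mk_subtype_le _).trans ?_
  rw [Cardinal.mk_set, Cardinal.continuum]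
  exact Cardinal.power_le_power_left two_ne_zero (Cardinal.mk_le_aleph0)

/-- Counting: a family of special subsets which is faithful up to countably many choices. -/
theorem card_of_family {X : Type u} [Group X] [Countable X] (f : Set ℕ → Set X)
    (hf : ∀ A, IsSpecial (f A)) (A0 : Set X) (hA0 : A0.Finite)
    (h : ∀ A B, ∀ α : X ≃* X, (∀ a ∈ A0, α a = a) → α '' f A = f B → A = B) :
    Cardinal.mk (SpecialOrbits X) = Cardinal.continuum := by
  classical
  apply le_antisymm (mk_specialOrbits_le X)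
  let F : Set ℕ → SpecialOrbits X := fun A =>
    ⟨{T | ∃ α : X ≃* X, α '' f A = T}, f A, hf A, rfl⟩
  have hfib : ∀ b : SpecialOrbits X, Cardinal.mk (F ⁻¹' {b}) ≤ Cardinal.aleph0 := by
    intro b
    rcases (F ⁻¹' {b}).eq_empty_or_nonempty with he | ⟨A1, hA1⟩
    · rw [he]
      simp
    · have hA : ∀ A : F ⁻¹' {b}, ∃ α : X ≃* X, α '' f A.1 = f A1 := by
        rintro ⟨A, hA⟩
        have e : F A = F A1 := hA.trans hA1.symm
        have e' : {T | ∃ α : X ≃* X, α '' f A = T} = {T | ∃ α : X ≃* X, α '' f A1 = T} :=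
          congrArg Subtype.val e
        have hm : f A1 ∈ {T | ∃ α : X ≃* X, α '' f A = T} := by
          rw [e']
          exact ⟨MulEquiv.refl X, by simp⟩
        exact hm
      choose α hα using hA
      have : Countable A0 := hA0.countable
      have : Finite A0 := hA0
      have hinj : Function.Injective (fun A : F ⁻¹' {b} => (fun a : A0 => α A a.1 : A0 → X)) := by
        intro A B hAB
        apply Subtype.ext
        apply h A.1 B.1 ((α A).trans (α B).symm)
        · intro a ha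
          have := congrFun hAB ⟨a, ha⟩
          simp only at this
          rw [MulEquiv.trans_apply, this, MulEquiv.symm_apply_apply]
        · rw [MulEquiv.coe_trans, Set.image_comp, hα A, ← hα B, ← Set.image_comp]
          simp
      have hc : Countable (A0 → X) := inferInstance
      have : Countable (F ⁻¹' {b}) := hinj.countable
      exact Cardinal.mk_le_aleph0
  have h1 := Cardinal.mk_le_mk_mul_of_mk_preimage_le (c := Cardinal.aleph0)
    (fun A : ULift.{u} (Set ℕ) => F A.down) (by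
      intro b
      have hcnt : (F ⁻¹' {b}).Countable := Cardinal.le_aleph0_iff_set_countable.1 (hfib b)
      have hcnt' : ((ULift.down : ULift.{u} (Set ℕ) → Set ℕ) ⁻¹' (F ⁻¹' {b})).Countable :=
        hcnt.preimage_of_injOn ULift.down_injective.injOn
      exact Cardinal.le_aleph0_iff_set_countable.2 hcnt')
  have h2 : Cardinal.mk (ULift.{u} (Set ℕ)) = Cardinal.continuum := by simp
  rw [h2] at h1
  rcases le_or_gt (Cardinal.mk (SpecialOrbits X)) Cardinal.aleph0 with h3 | h3
  · exfalso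
    have h4 : Cardinal.continuum ≤ (Cardinal.aleph0 : Cardinal.{u}) :=
      h1.trans ((mul_le_mul_left h3 _).trans (by simp))
    exact absurd h4 (not_le.2 Cardinal.aleph0_lt_continuum)
  · rwa [Cardinal.mul_aleph0_eq h3.le] at h1

section Acl

variable {X : Type u} [Group X]

/-- The orbit of `x` under the pointwise stabiliser of `A0`. -/
def orbOf (A0 : Set X) (x : X) : Set X := {y | ∃ α : X ≃* X, (∀ a ∈ A0, α a = a) ∧ α x = y}

theorem orbOf_self (A0 : Set X) (x : X) : x ∈ orbOf A0 x := ⟨MulEquiv.refl X, fun _ _ => rfl, rfl⟩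

theorem orbOf_symm {A0 : Set X} {x y : X} (h : y ∈ orbOf A0 x) : x ∈ orbOf A0 y := by
  obtain ⟨α, hα, rfl⟩ := h
  refine ⟨α.symm, fun a ha => ?_, by simp⟩
  rw [MulEquiv.symm_apply_eq]
  exact (hα a ha).symm

theorem orbOf_trans {A0 : Set X} {x y z : X} (h : y ∈ orbOf A0 x) (h' : z ∈ orbOf A0 y) :
    z ∈ orbOf A0 x := by
  obtain ⟨α, hα, rfl⟩ := h
  obtain ⟨β, hβ, rfl⟩ := h'
  exact ⟨α.trans β, fun a ha => by rw [MulEquiv.trans_apply, hα a ha, hβ a ha], rfl⟩

theorem orbOf_eq {A0 : Set X} {x y : X} (h : y ∈ orbOf A0 x) : orbOf A0 y = orbOf A0 x :=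
  Set.Subset.antisymm (fun _ hz => orbOf_trans h hz) (fun _ hz => orbOf_trans (orbOf_symm h) hz)

/-- The inverse closed orbit. -/
def symOrb (A0 : Set X) (x : X) : Set X := {y | y ∈ orbOf A0 x ∨ y⁻¹ ∈ orbOf A0 x}

theorem symOrb_inv {A0 : Set X} {x y : X} (h : y ∈ symOrb A0 x) : y⁻¹ ∈ symOrb A0 x := by
  rcases h with h | h
  · exact Or.inr (by simpa using h)
  · exact Or.inl h

theorem symOrb_finite {A0 : Set X} {x : X} (h : (orbOf A0 x).Finite) : (symOrb A0 x).Finite := by
  refine (h.union (h.image Inv.inv)).subset ?_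
  rintro y (hy | hy)
  · exact Or.inl hy
  · exact Or.inr ⟨y⁻¹, hy, by simp⟩

theorem one_notMem_symOrb {A0 : Set X} {x : X} (hx : x ≠ 1) : (1 : X) ∉ symOrb A0 x := by
  rintro (⟨α, -, h⟩ | ⟨α, -, h⟩)
  · exact hx ((map_eq_one_iff α α.injective).1 h)
  · exact hx ((map_eq_one_iff α α.injective).1 (by simpa using h))

theorem meet_finite {A0 : Set X} {D : Set X} (hD : D.Finite) :
    {x : X | (orbOf A0 x).Finite ∧ (symOrb A0 x ∩ D).Nonempty}.Finite := by
  classical
  have h1 : (⋃ d ∈ D, {y | (orbOf A0 d).Finite ∧ y ∈ orbOf A0 d} ∪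
      {y | (orbOf A0 d⁻¹).Finite ∧ y ∈ orbOf A0 d⁻¹}).Finite := by
    apply hD.biUnion
    intro d _
    apply Set.Finite.union
    · by_cases h : (orbOf A0 d).Finite
      · exact h.subset (fun y hy => hy.2)
      · convert Set.finite_empty
        ext y
        simp [h]
    · by_cases h : (orbOf A0 d⁻¹).Finite
      · exact h.subset (fun y hy => hy.2)
      · convert Set.finite_empty
        ext y
        simp [h]
  refine h1.subset ?_
  rintro x ⟨hx, d, hd, hdD⟩
  rw [Set.mem_iUnion₂]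
  refine ⟨d, hdD, ?_⟩
  rcases hd with hd | hd
  · left
    refine ⟨?_, orbOf_symm hd⟩
    rw [orbOf_eq hd]
    exact hx
  · right
    refine ⟨?_, orbOf_symm hd⟩
    rw [orbOf_eq hd]
    exact hx

theorem HasDagger.exists_avoid (hX : HasDagger X) (F : Finset (X × X)) (E : Finset X)
    (hF : ∀ p ∈ F, p.1 ≠ p.2) : ∃ z : X, z ∉ E ∧ ∀ p ∈ F, p.1 * z⁻¹ ≠ z * p.2⁻¹ := by
  by_contra hcon
  push Not at hcon
  apply hX
  refine ⟨F, E, hF, fun z => ?_⟩
  by_cases hz : z ∈ E
  · exact Or.inl hz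
  · obtain ⟨p, hp, h⟩ := hcon z hz
    exact Or.inr ⟨p, hp, h⟩

/-- the elements decided at one stage -/
def decided (A0 : Set X) (p : Finset X × Finset X) (s : X × X) : Set X :=
  {y | ∃ w, (w ∈ p.1 ∨ w ∈ p.2) ∧ (y = s.1 * w⁻¹ ∨ y = w * s.1⁻¹)} ∪ symOrb A0 s.2

/-- the condition on a new stage -/
def StageOK (A0 : Set X) (p : Finset X × Finset X) (D : Set X) (s : X × X) : Prop :=
  s.1 ∉ p.1 ∧ s.1 ∉ p.2 ∧ (∀ w, (w ∈ p.1 ∨ w ∈ p.2) → s.1 * w⁻¹ ∉ D) ∧
    (∀ u ∈ p.1, ∀ v ∈ p.2, v * s.1⁻¹ ≠ s.1 * u⁻¹) ∧ (orbOf A0 s.2).Finite ∧ s.2 ≠ 1 ∧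
    (∀ y ∈ symOrb A0 s.2, y ∉ D) ∧
    ∀ y ∈ symOrb A0 s.2, ∀ w, (w ∈ p.1 ∨ w ∈ p.2) → y ≠ s.1 * w⁻¹ ∧ y ≠ w * s.1⁻¹

theorem exists_stage (hX : HasDagger X) (A0 : Set X)
    (hN : {x : X | (orbOf A0 x).Finite}.Infinite) (p : Finset X × Finset X)
    (hp : Disjoint p.1 p.2) (D : Set X) (hD : D.Finite) : ∃ s, StageOK A0 p D s := by
  classical
  obtain ⟨z, hz, hzF⟩ := HasDagger.exists_avoid hX (p.2 ×ˢ p.1)
    (p.1 ∪ p.2 ∪ (hD.toFinset ×ˢ (p.1 ∪ p.2)).image (fun q => q.1 * q.2)) (by
      rintro ⟨v, u⟩ hvu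
      rw [Finset.mem_product] at hvu
      intro hvu'
      have h1 : v = u := hvu'
      subst h1
      exact (Finset.disjoint_left.1 hp) hvu.2 hvu.1)
  let W : Set X := {y | ∃ w, (w ∈ p.1 ∨ w ∈ p.2) ∧ (y = z * w⁻¹ ∨ y = w * z⁻¹)}
  have hW : W.Finite := by
    have h1 : ((p.1 ∪ p.2).image (fun w => z * w⁻¹) ∪
      (p.1 ∪ p.2).image (fun w => w * z⁻¹) : Set X).Finite := by
      exact ((((p.1 ∪ p.2).image (fun w => z * w⁻¹)).finite_toSet).union
        (((p.1 ∪ p.2).image (fun w => w * z⁻¹)).finite_toSet))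
    refine h1.subset ?_
    rintro y ⟨w, hw, rfl | rfl⟩
    · left
      simp only [Finset.coe_image, Set.mem_image, Finset.mem_coe, Finset.mem_union]
      exact ⟨w, hw, rfl⟩
    · right
      simp only [Finset.coe_image, Set.mem_image, Finset.mem_coe, Finset.mem_union]
      exact ⟨w, hw, rfl⟩
  have hfin := (meet_finite (A0 := A0) (hD.union hW)).union (Set.finite_singleton (1 : X))
  obtain ⟨x, hx, hx'⟩ := (hN.sdiff hfin).nonempty
  have hx1 : x ≠ 1 := fun h => hx' (Or.inr h)
  have hxD : ∀ y ∈ symOrb A0 x, y ∉ D ∪ W := by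
    intro y hy hyD
    exact hx' (Or.inl ⟨hx, y, hy, hyD⟩)
  simp only [Finset.mem_union, Finset.mem_image, Finset.mem_product, Set.Finite.mem_toFinset,
    Prod.exists, not_or, not_exists, not_and] at hz
  refine ⟨(z, x), hz.1.1, hz.1.2, ?_, ?_, hx, hx1, fun y hy h => hxD y hy (Or.inl h), ?_⟩
  · intro w hw h
    exact hz.2 (z * w⁻¹) w ⟨h, hw⟩ (by simp)
  · intro u hu v hv
    exact hzF (v, u) (Finset.mem_product.2 ⟨hv, hu⟩)
  · intro y hy w hw
    exact ⟨fun h => hxD y hy (Or.inr ⟨w, hw, Or.inl h⟩),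
      fun h => hxD y hy (Or.inr ⟨w, hw, Or.inr h⟩)⟩

theorem decided_finite {A0 : Set X} (p : Finset X × Finset X) (s : X × X)
    (h : (orbOf A0 s.2).Finite) : (decided A0 p s).Finite := by
  classical
  refine Set.Finite.union ?_ (symOrb_finite h)
  have h1 : (((p.1 ∪ p.2).image (fun w => s.1 * w⁻¹) : Set X) ∪
      ((p.1 ∪ p.2).image (fun w => w * s.1⁻¹) : Set X)).Finite :=
    (((p.1 ∪ p.2).image (fun w => s.1 * w⁻¹)).finite_toSet).union
      (((p.1 ∪ p.2).image (fun w => w * s.1⁻¹)).finite_toSet)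
  refine h1.subset ?_
  rintro y ⟨w, hw, rfl | rfl⟩
  · left
    simp only [Finset.coe_image, Set.mem_image, Finset.mem_coe, Finset.mem_union]
    exact ⟨w, hw, rfl⟩
  · right
    simp only [Finset.coe_image, Set.mem_image, Finset.mem_coe, Finset.mem_union]
    exact ⟨w, hw, rfl⟩

theorem decided_inv {A0 : Set X} {p : Finset X × Finset X} {s : X × X} {y : X}
    (h : y ∈ decided A0 p s) : y⁻¹ ∈ decided A0 p s := by
  rcases h with ⟨w, hw, rfl | rfl⟩ | h
  · exact Or.inl ⟨w, hw, Or.inr (by simp)⟩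
  · exact Or.inl ⟨w, hw, Or.inl (by simp)⟩
  · exact Or.inr (symOrb_inv h)

/-- A family of special subsets indexed by the sets of natural numbers, which can be read off
from the membership of the elements of pairwise disjoint orbits. -/
theorem exists_special_family [Countable X] (hX : HasDagger X) (A0 : Set X)
    (hN : {x : X | (orbOf A0 x).Finite}.Infinite) :
    ∃ (f : Set ℕ → Set X) (x : ℕ → X), (∀ A, IsSpecial (f A)) ∧
      ∀ A n, ∀ y ∈ symOrb A0 (x n), (y ∈ f A ↔ n ∈ A) := by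
  classical
  have hc : Countable {p : Finset X × Finset X // Disjoint p.1 p.2} := inferInstance
  have hne : Nonempty {p : Finset X × Finset X // Disjoint p.1 p.2} := ⟨⟨(∅, ∅), by simp⟩⟩
  obtain ⟨e, he⟩ := exists_surjective_nat {p : Finset X × Finset X // Disjoint p.1 p.2}
  obtain ⟨s, hs⟩ := exists_seq_rel (α := {s : X × X // (orbOf A0 s.2).Finite})
    (fun n f a => StageOK A0 (e n).1 {y | ∃ (m : ℕ) (h : m < n), y ∈ decided A0 (e m).1 (f m h).1}
      a.1) (by
      intro n f
      obtain ⟨a, ha⟩ := exists_stage hX A0 hN (e n).1 (e n).2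
        {y | ∃ (m : ℕ) (h : m < n), y ∈ decided A0 (e m).1 (f m h).1} (by
          have h1 : (⋃ i : Fin n, decided A0 (e i.1).1 (f i.1 i.2).1).Finite :=
            Set.finite_iUnion (fun i => decided_finite _ _ (f i.1 i.2).2)
          refine h1.subset ?_
          rintro y ⟨m, h, hy⟩
          exact Set.mem_iUnion.2 ⟨⟨m, h⟩, hy⟩)
      exact ⟨⟨a, ha.2.2.2.2.1⟩, ha⟩)
  -- notation
  let z : ℕ → X := fun n => (s n).1.1
  let x : ℕ → X := fun n => (s n).1.2
  let U : ℕ → Finset X := fun n => (e n).1.1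
  let V : ℕ → Finset X := fun n => (e n).1.2
  have hz1 : ∀ n, z n ∉ U n := fun n => (hs n).1
  have hz2 : ∀ n, z n ∉ V n := fun n => (hs n).2.1
  -- a difference at stage n is not decided earlier
  have hz3 : ∀ n w, (w ∈ U n ∨ w ∈ V n) → ∀ m, m < n → z n * w⁻¹ ∉ decided A0 (e m).1 (s m).1 :=
    fun n w hw m hm h => (hs n).2.2.1 w hw ⟨m, hm, h⟩
  have hz3' : ∀ n w, (w ∈ U n ∨ w ∈ V n) → ∀ m, m < n → w * (z n)⁻¹ ∉ decided A0 (e m).1 (s m).1 :=
    fun n w hw m hm h => hz3 n w hw m hm (by simpa using decided_inv h)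
  have hz4 : ∀ n, ∀ u ∈ U n, ∀ v ∈ V n, v * (z n)⁻¹ ≠ z n * u⁻¹ := fun n => (hs n).2.2.2.1
  have hx1 : ∀ n, x n ≠ 1 := fun n => (hs n).2.2.2.2.2.1
  have hx2 : ∀ n, ∀ y ∈ symOrb A0 (x n), ∀ m, m < n → y ∉ decided A0 (e m).1 (s m).1 :=
    fun n y hy m hm h => (hs n).2.2.2.2.2.2.1 y hy ⟨m, hm, h⟩
  have hx3 : ∀ n, ∀ y ∈ symOrb A0 (x n), ∀ w, (w ∈ U n ∨ w ∈ V n) →
      y ≠ z n * w⁻¹ ∧ y ≠ w * (z n)⁻¹ := fun n => (hs n).2.2.2.2.2.2.2
  have hd1 : ∀ n w, (w ∈ U n ∨ w ∈ V n) → z n * w⁻¹ ∈ decided A0 (e n).1 (s n).1 :=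
    fun n w hw => Or.inl ⟨w, hw, Or.inl rfl⟩
  have hd2 : ∀ n w, (w ∈ U n ∨ w ∈ V n) → w * (z n)⁻¹ ∈ decided A0 (e n).1 (s n).1 :=
    fun n w hw => Or.inl ⟨w, hw, Or.inr rfl⟩
  have hd3 : ∀ n, ∀ y ∈ symOrb A0 (x n), y ∈ decided A0 (e n).1 (s n).1 :=
    fun n y hy => Or.inr hy
  let f : Set ℕ → Set X := fun A =>
    {y | ∃ n, ∃ u ∈ U n, y = z n * u⁻¹ ∨ y = u * (z n)⁻¹} ∪ {y | ∃ n ∈ A, y ∈ symOrb A0 (x n)}
  -- membership on the coding orbits
  have hcode : ∀ A n, ∀ y ∈ symOrb A0 (x n), (y ∈ f A ↔ n ∈ A) := by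
    intro A n y hy
    constructor
    · rintro (⟨m, u, hu, h⟩ | ⟨m, hm, h⟩)
      · exfalso
        rcases lt_trichotomy m n with hlt | rfl | hlt
        · apply hx2 n y hy m hlt
          rcases h with rfl | rfl
          · exact hd1 m u (Or.inl hu)
          · exact hd2 m u (Or.inl hu)
        · rcases h with h | h
          · exact (hx3 m y hy u (Or.inl hu)).1 h
          · exact (hx3 m y hy u (Or.inl hu)).2 h
        · have hy' := hd3 n y hy
          rcases h with h | h
          · rw [h] at hy'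
            exact hz3 m u (Or.inl hu) n hlt hy'
          · rw [h] at hy'
            exact hz3' m u (Or.inl hu) n hlt hy'
      · rcases lt_trichotomy m n with hlt | rfl | hlt
        · exact absurd (hd3 m y h) (hx2 n y hy m hlt)
        · exact hm
        · exact absurd (hd3 n y hy) (hx2 m y h n hlt)
    · intro hn
      exact Or.inr ⟨n, hn, hy⟩
  have hspec : ∀ A, IsSpecial (f A) := by
    intro A
    refine ⟨?_, ?_, ?_⟩
    · rintro y (⟨n, u, hu, rfl | rfl⟩ | ⟨n, hn, hy⟩)
      · exact Or.inl ⟨n, u, hu, Or.inr (by simp)⟩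
      · exact Or.inl ⟨n, u, hu, Or.inl (by simp)⟩
      · exact Or.inr ⟨n, hn, symOrb_inv hy⟩
    · rintro (⟨n, u, hu, h | h⟩ | ⟨n, hn, hy⟩)
      · apply hz1 n
        rw [eq_comm, mul_inv_eq_one] at h
        rw [h]
        exact hu
      · apply hz1 n
        rw [eq_comm, mul_inv_eq_one] at h
        rw [← h]
        exact hu
      · exact one_notMem_symOrb (hx1 n) hy
    · intro U' V' hd
      obtain ⟨n, hn⟩ := he ⟨(U', V'), hd⟩
      have hU : U n = U' := by
        change (e n).1.1 = U'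
        rw [hn]
      have hV : V n = V' := by
        change (e n).1.2 = V'
        rw [hn]
      subst hU hV
      refine ⟨z n, fun u hu => Or.inl ⟨n, u, hu, Or.inl rfl⟩, ?_⟩
      rintro v hv hadj
      have hadj' : z n * v⁻¹ ∈ f A := hadj
      rcases hadj' with ⟨m, u, hu, h⟩ | ⟨m, hm, h⟩
      · rcases lt_trichotomy m n with hlt | rfl | hlt
        · apply hz3 n v (Or.inr hv) m hlt
          rcases h with h | h
          · rw [h]; exact hd1 m u (Or.inl hu)
          · rw [h]; exact hd2 m u (Or.inl hu)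
        · rcases h with h | h
          · have h3 := inv_injective (mul_left_cancel h)
            subst h3
            exact (Finset.disjoint_left.1 hd) hu hv
          · apply hz4 m u hu v hv
            have h3 := congrArg Inv.inv h
            simpa using h3
        · have h4 := hd1 n v (Or.inr hv)
          rcases h with h | h
          · rw [h] at h4
            exact hz3 m u (Or.inl hu) n hlt h4
          · rw [h] at h4
            exact hz3' m u (Or.inl hu) n hlt h4
      · rcases lt_trichotomy m n with hlt | rfl | hlt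
        · exact hz3 n v (Or.inr hv) m hlt (hd3 m _ h)
        · exact (hx3 m _ h v (Or.inr hv)).1 rfl
        · exact hx2 m _ h n hlt (hd1 n v (Or.inr hv))
  exact ⟨f, x, hspec, hcode⟩

/-- **General theorem.**  Let `X` be a countable group with (†) and `A0` a finite set such that
infinitely many elements have a finite orbit under the pointwise stabiliser of `A0`. Then there are
exactly continuum many orbits on special subsets. -/
theorem card_of_finite_orbits [Countable X] (hX : HasDagger X) (A0 : Set X) (hA0 : A0.Finite)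
    (hN : {x : X | (orbOf A0 x).Finite}.Infinite) :
    Cardinal.mk (SpecialOrbits X) = Cardinal.continuum := by
  obtain ⟨f, x, hspec, hcode⟩ := exists_special_family hX A0 hN
  refine card_of_family f hspec A0 hA0 ?_
  intro A B α hα hAB
  ext n
  rw [← hcode A n (x n) (Or.inl (orbOf_self A0 _)), ← hcode B n (α (x n)) (Or.inl ⟨α, hα, rfl⟩),
    ← hAB]
  exact α.injective.mem_set_image.symm

/-- In particular: exactly continuum many orbits for every countable group with (†) that is not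
locally finite. -/
theorem card_of_not_locallyFinite [Countable X] (hX : HasDagger X) (F : Finset X)
    (hF : (Subgroup.closure (F : Set X) : Set X).Infinite) :
    Cardinal.mk (SpecialOrbits X) = Cardinal.continuum := by
  apply card_of_finite_orbits hX F F.finite_toSet
  refine hF.mono ?_
  intro x hx
  have h1 : ∀ α : X ≃* X, (∀ a ∈ (F : Set X), α a = a) → α x = x := by
    intro α hα
    have h2 : Subgroup.closure (F : Set X) ≤
        MonoidHom.eqLocus (α : X →* X) (MonoidHom.id X) := by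
      rw [Subgroup.closure_le]
      intro a ha
      exact hα a ha
    exact h2 hx
  have h3 : orbOf (F : Set X) x ⊆ {x} := by
    rintro y ⟨α, hα, rfl⟩
    exact h1 α hα
  exact (Set.finite_singleton x).subset h3

end Acl

end Pool.Agent.Lib.MP_008109_al.AB
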