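import Pool.Agent.Lib.MP_008109_al.AB.Prescribe
import Pool.Agent.Lib.MP_008109_al.AB.Dsets

/-!
# MP_008109_al: module INV (helper22)

A subgroup of infinite index which is invariant under the automorphisms that fix a finite set
pointwise: special subsets with prescribed traces on it lie in continuum many orbits.
-/

set_option autoImplicit false
universe u

namespace Pool.Agent.Lib.MP_008109_al.AB

/-- INV -/
theorem card_of_invariant_subgroup {X : Type u} [Group X] [Countable X] (hX : HasDagger X)
    (hlf : LocFin X) (hFC : FCc X = ⊤) (h3 : {y : X | ∃ x : X, y = x * x * x}.Finite)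
    (A0 : Set X) (hA0 : A0.Finite) (H : Subgroup X) (hH : H.index = 0)
    (hHi : (H : Set X).Infinite)
    (hinv : ∀ α : X ≃* X, (∀ a ∈ A0, α a = a) → ∀ x, α x ∈ H ↔ x ∈ H) :
    Cardinal.mk (SpecialOrbits X) = Cardinal.continuum := by
  obtain ⟨D, hD, hDF⟩ := exists_family hlf hFC h3 H hHi
  choose f hf hfD using fun A => exists_special_prescribed hX H hH (D A) (hD A).1 (hD A).2.1
    (hD A).2.2
  refine card_of_family f hf A0 hA0 fun A B α hα hAB => hDF A B α ?_
  rw [← hfD A, ← hfD B, ← hAB]
  ext y
  obtain ⟨x, rfl⟩ := α.surjective y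
  rw [Set.mem_inter_iff, α.injective.mem_set_image, α.injective.mem_set_image, Set.mem_inter_iff,
    SetLike.mem_coe, SetLike.mem_coe, hinv α hα]

end Pool.Agent.Lib.MP_008109_al.AB
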