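import Pool.Agent.Lib.MP_008109_al.AB.Spec2

/-!
# MP_008109_al: three facts on central-by-finite groups and finite derived subgroups
-/

set_option autoImplicit false

universe u

namespace Pool.Agent.Lib.MP_008109_al.AB

theorem locFin_of_central {X : Type u} [Group X] (Z : Subgroup X) (hZ : Z ≤ Subgroup.center X)
    (h3 : ∀ z ∈ Z, z * z * z = 1) [Z.FiniteIndex] : LocFin X := by
  intro F
  let K : Subgroup X := Subgroup.closure (F : Set X)
  have hK : Group.FG K := (Group.fg_iff_subgroup_fg K).2 ⟨F, rfl⟩
  let H : Subgroup K := Z.subgroupOf K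
  have hH : H.FiniteIndex := inferInstance
  have hHfg : Group.FG H := Subgroup.fg_of_index_ne_zero H
  have hcomm : ∀ a b : H, a * b = b * a := by
    intro a b
    apply Subtype.ext
    apply Subtype.ext
    exact (Subgroup.mem_center_iff.1 (hZ a.2) _).symm
  let _ : CommGroup H := { (inferInstance : Group H) with mul_comm := hcomm }
  have htor : Monoid.IsTorsion H := by
    intro a
    rw [isOfFinOrder_iff_pow_eq_one]
    refine ⟨3, by norm_num, ?_⟩
    apply Subtype.ext
    apply Subtype.ext
    have := h3 _ a.2
    change ((a : K) : X) ^ 3 = 1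
    rw [pow_succ, pow_two]
    exact this
  have hfin : Finite H := CommGroup.finite_of_fg_torsion H htor
  have hq : Finite (K ⧸ H) := inferInstance
  have hKfin : Finite K := Finite.of_equiv _ (Subgroup.groupEquivQuotientProdSubgroup (s := H)).symm
  exact Set.toFinite _

theorem exists_central_exponent_three {X : Type u} [Group X]
    [(Subgroup.center X).FiniteIndex] (h3 : {y : X | ∃ x : X, y = x * x * x}.Finite) :
    ∃ Z : Subgroup X, Z ≤ Subgroup.center X ∧ (∀ z ∈ Z, z * z * z = 1) ∧ Z.FiniteIndex := by
  have hcomm : ∀ a b : Subgroup.center X, Commute a b := by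
    intro a b
    apply Subtype.ext
    exact Subgroup.mem_center_iff.1 b.2 a
  let φ : Subgroup.center X →* Subgroup.center X :=
    { toFun := fun z => z ^ 3
      map_one' := one_pow 3
      map_mul' := fun a b => (hcomm a b).mul_pow 3 }
  have hφ : ∀ z, ((φ z : Subgroup.center X) : X) = z * z * z := by
    intro z
    change ((z ^ 3 : Subgroup.center X) : X) = _
    rw [Subgroup.coe_pow, pow_succ, pow_two]
  have hr : Finite φ.range := by
    have h1 : (Subtype.val '' (φ.range : Set (Subgroup.center X))).Finite := by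
      refine h3.subset ?_
      rintro y ⟨-, ⟨z, rfl⟩, rfl⟩
      exact ⟨z, hφ z⟩
    exact (Set.Finite.of_finite_image h1 Subtype.val_injective.injOn)
  have hk : φ.ker.FiniteIndex := by
    have : Finite (Subgroup.center X ⧸ φ.ker) :=
      Finite.of_equiv _ (QuotientGroup.quotientKerEquivRange φ).symm.toEquiv
    exact Subgroup.finiteIndex_of_finite_quotient
  refine ⟨φ.ker.map (Subgroup.center X).subtype, ?_, ?_, ?_⟩
  · exact Subgroup.map_subtype_le _
  · rintro - ⟨z, hz, rfl⟩
    have h1 : φ z = 1 := hz
    have h2 := hφ z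
    rw [h1] at h2
    exact h2.symm
  · constructor
    rw [Subgroup.index_map_subtype]
    exact mul_ne_zero hk.index_ne_zero (Subgroup.FiniteIndex.index_ne_zero)

theorem fcc_eq_top {X : Type u} [Group X] (h : (commutator X : Set X).Finite) :
    FCc X = ⊤ := by
  rw [eq_top_iff]
  intro x _
  rw [mem_FCc]
  have hmem : ∀ a : X, a ∈ Subgroup.centralizer ({x} : Set X) ↔ x * a = a * x := by
    intro a
    rw [Subgroup.mem_centralizer_iff]
    constructor
    · intro h1
      exact h1 x rfl
    · rintro h1 y rfl
      exact h1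
  let f : X ⧸ Subgroup.centralizer ({x} : Set X) → (commutator X : Set X) :=
    Quotient.lift (fun g => ⟨g * x * g⁻¹ * x⁻¹,
      Subgroup.commutator_mem_commutator (Subgroup.mem_top g) (Subgroup.mem_top x)⟩) (by
      intro a b hab
      have h1 := (hmem _).1 (QuotientGroup.leftRel_apply.1 hab)
      apply Subtype.ext
      change a * x * a⁻¹ * x⁻¹ = b * x * b⁻¹ * x⁻¹
      have h2 : a * x * a⁻¹ = b * x * b⁻¹ := by
        calc a * x * a⁻¹ = a * (x * (a⁻¹ * b)) * b⁻¹ := by group
          _ = a * ((a⁻¹ * b) * x) * b⁻¹ := by rw [h1]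
          _ = b * x * b⁻¹ := by group
      rw [h2])
  have hf : Function.Injective f := by
    intro p q
    refine Quotient.inductionOn₂ p q ?_
    intro a b hab
    apply Quotient.sound
    apply QuotientGroup.leftRel_apply.2
    rw [hmem]
    have h1 : a * x * a⁻¹ * x⁻¹ = b * x * b⁻¹ * x⁻¹ := congrArg Subtype.val hab
    have h2 := mul_right_cancel h1
    calc x * (a⁻¹ * b) = a⁻¹ * (a * x * a⁻¹) * b := by group
      _ = a⁻¹ * (b * x * b⁻¹) * b := by rw [h2]
      _ = (a⁻¹ * b) * x := by group
  have : Finite (commutator X : Set X) := h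
  have : Finite (X ⧸ Subgroup.centralizer ({x} : Set X)) := Finite.of_injective f hf
  exact Subgroup.finiteIndex_of_finite_quotient

end Pool.Agent.Lib.MP_008109_al.AB
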