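import Pool.Agent.Lib.MP_008109_al.AB.Spec2
import Pool.Agent.Lib.MP_008109_al.AB.Count

/-!
# MP_008109_al: coding when the FC-centre has infinite index

Let `X` be countable and locally finite, such that over every finite subgroup there is a generic
element (see `GenOver`). Then `Aut X` has exactly continuum many orbits on special subsets. The
graphs on the natural numbers are coded over four parameters: the vertices are the `x` with `x`,
`u₁ x v₁` and `u₂ x v₂` in the special set.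
-/

set_option autoImplicit false

universe u

namespace Pool.Agent.Lib.MP_008109_al.AB

namespace NFCM

variable {X : Type u} [Group X]

/-! ### generic elements -/

/-- The conditions on a new element over a finite subgroup. -/
structure GenOver (L : Subgroup X) (g : X) : Prop where
  c1 : ∀ k ∈ L, k⁻¹ * g ∉ FCc X
  c2 : ∀ w ∈ L, w ∉ FCc X → g⁻¹ * w * g ∉ L
  c3 : ∀ b ∈ L, ∀ c ∈ L, c ≠ 1 → (g * b) * (g * b) ≠ c

section Gen

variable {L : Subgroup X} {g : X}

theorem GenOver.notMem (h : GenOver L g) : g ∉ L := by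
  intro hg
  apply h.c1 g hg
  rw [inv_mul_cancel]
  exact one_mem _

theorem conj_mem {x : X} (g : X) (h : x ∈ FCc X) : g * x * g⁻¹ ∈ FCc X :=
  Subgroup.Normal.conj_mem inferInstance x h g

theorem GenOver.word (h : GenOver L g) {a b : X} (ha : a ∈ L) (hb : b ∈ L) :
    a * g * b ∉ FCc X := by
  intro hc
  apply h.c1 (b * a)⁻¹ (L.inv_mem (L.mul_mem hb ha))
  have e : (b * a)⁻¹⁻¹ * g = b * (a * g * b) * b⁻¹ := by group
  rw [e]
  exact conj_mem b hc

theorem GenOver.word' (h : GenOver L g) {a b : X} (ha : a ∈ L) (hb : b ∈ L) :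
    a * g⁻¹ * b ∉ FCc X := by
  intro hc
  apply h.word (L.inv_mem hb) (L.inv_mem ha)
  have e : b⁻¹ * g * a⁻¹ = (a * g⁻¹ * b)⁻¹ := by group
  rw [e]
  exact inv_mem hc

theorem GenOver.w (h : GenOver L g) {x : X} (a b : X) (ha : a ∈ L) (hb : b ∈ L)
    (e : x = a * g * b ∨ x = a * g⁻¹ * b) : x ∉ FCc X := by
  rcases e with rfl | rfl
  · exact h.word ha hb
  · exact h.word' ha hb

theorem GenOver.plus (h : GenOver L g) {s t γ δ : X} (hs : s ∈ L) (ht : t ∈ L) (hγ : γ ∈ L)
    (hδ : δ ∈ L) (e : s * g * t = γ * g * δ) : γ⁻¹ * s ∈ FCc X := by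
  by_contra hc
  apply h.c2 (γ⁻¹ * s) (L.mul_mem (L.inv_mem hγ) hs) hc
  have e' : g⁻¹ * (γ⁻¹ * s) * g = δ * t⁻¹ := by
    have h1 : s * g = γ * g * δ * t⁻¹ := by
      rw [← e]
      group
    calc g⁻¹ * (γ⁻¹ * s) * g = g⁻¹ * γ⁻¹ * (s * g) := by group
      _ = g⁻¹ * γ⁻¹ * (γ * g * δ * t⁻¹) := by rw [h1]
      _ = δ * t⁻¹ := by group
  rw [e']
  exact L.mul_mem hδ (L.inv_mem ht)

theorem GenOver.minus (h : GenOver L g) {s t γ δ : X} (hs : s ∈ L) (ht : t ∈ L) (hγ : γ ∈ L)
    (hδ : δ ∈ L) (e : s * g * t = (γ * g * δ)⁻¹) :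
    δ⁻¹ * t * γ = s ∧ (g * (t * γ)) * (g * (t * γ)) = 1 := by
  have e1 : (g * (t * γ)) * (g * (t * γ)) = s⁻¹ * δ⁻¹ * t * γ := by
    have h1 : s * g * t * (γ * g * δ) = 1 := by
      rw [e]
      group
    calc (g * (t * γ)) * (g * (t * γ)) = s⁻¹ * (s * g * t * (γ * g * δ)) * δ⁻¹ * (t * γ) := by
          group
      _ = s⁻¹ * δ⁻¹ * t * γ := by
          rw [h1]
          group
  have h2 : s⁻¹ * δ⁻¹ * t * γ = 1 := by
    by_contra hne
    exact h.c3 (t * γ) (L.mul_mem ht hγ) _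
      (L.mul_mem (L.mul_mem (L.mul_mem (L.inv_mem hs) (L.inv_mem hδ)) ht) hγ) hne e1
  refine ⟨?_, e1.trans h2⟩
  calc δ⁻¹ * t * γ = s * (s⁻¹ * δ⁻¹ * t * γ) := by group
    _ = s := by rw [h2, mul_one]

theorem GenOver.invol (h : GenOver L g) {b1 b2 : X} (h1 : b1 ∈ L) (h2 : b2 ∈ L)
    (e1 : (g * b1) * (g * b1) = 1) (e2 : (g * b2) * (g * b2) = 1) : b1⁻¹ * b2 ∈ FCc X := by
  by_contra hc
  have hc' : b2⁻¹ * b1 ∉ FCc X := fun h3 => hc (by simpa using inv_mem h3)
  apply h.c2 (b2⁻¹ * b1) (L.mul_mem (L.inv_mem h2) h1) hc'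
  have e1' : b1 * g = g⁻¹ * b1⁻¹ := by
    calc b1 * g = g⁻¹ * ((g * b1) * (g * b1)) * b1⁻¹ := by group
      _ = g⁻¹ * b1⁻¹ := by
          rw [e1]
          group
  have e2' : g⁻¹ * b2⁻¹ = b2 * g := by
    calc g⁻¹ * b2⁻¹ = g⁻¹ * 1 * b2⁻¹ := by group
      _ = g⁻¹ * ((g * b2) * (g * b2)) * b2⁻¹ := by rw [e2]
      _ = b2 * g := by group
  have e : g⁻¹ * (b2⁻¹ * b1) * g = b2 * b1⁻¹ := by
    calc g⁻¹ * (b2⁻¹ * b1) * g = (g⁻¹ * b2⁻¹) * (b1 * g) := by group
      _ = (b2 * g) * (g⁻¹ * b1⁻¹) := by rw [e2', e1']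
      _ = b2 * b1⁻¹ := by group
  rw [e]
  exact L.mul_mem h2 (L.inv_mem h1)

end Gen

/-! ### the four parameters -/

/-- The properties of the parameters. -/
structure Par (L0 : Subgroup X) (u v : Bool → X) : Prop where
  mu : ∀ i, u i ∈ L0
  mv : ∀ i, v i ∈ L0
  F1u : ∀ i, u i ∉ FCc X
  F1v : ∀ i, v i ∉ FCc X
  F2u : ∀ i j, i ≠ j → u i * (u j)⁻¹ ∉ FCc X
  F2u' : ∀ i j, i ≠ j → (u i)⁻¹ * u j ∉ FCc X
  F2v : ∀ i j, i ≠ j → (v i)⁻¹ * v j ∉ FCc X
  F3 : ∀ i j, v i * u j ∉ FCc X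
  F4 : ∀ i k, i ≠ k → u i * u k ∉ FCc X
  F5 : ∀ i k, i ≠ k → (v i)⁻¹ * u k ∉ FCc X
  F6 : ∀ i k, i ≠ k → (u i)⁻¹ * ((v i)⁻¹ * u k) ∉ FCc X
  E1 : ∀ i, u i ≠ v i
  E2 : ∀ i j, i ≠ j → v j * (v i)⁻¹ * (u j)⁻¹ * u i ≠ 1
  E3 : ∀ i k, i ≠ k → v k * v i ≠ u i * u k
  E4 : ∀ i k, i ≠ k → v k * (u i)⁻¹ ≠ (v i)⁻¹ * u k
  E5 : ∀ i k, i ≠ k → v k * v i * u i ≠ v i * u i * u k

theorem exists_ext (hlf : LocFin X) (L : Subgroup X) (hL : (L : Set X).Finite) (F : Finset X) :
    ∃ L' : Subgroup X, L ≤ L' ∧ (L' : Set X).Finite ∧ ∀ x ∈ F, x ∈ L' := by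
  classical
  refine ⟨Subgroup.closure ((hL.toFinset ∪ F : Finset X) : Set X), ?_, hlf _, ?_⟩
  · intro x hx
    apply Subgroup.subset_closure
    simp only [Finset.coe_union, Set.Finite.coe_toFinset, Set.mem_union, SetLike.mem_coe]
    exact Or.inl hx
  · intro x hx
    apply Subgroup.subset_closure
    simp only [Finset.coe_union, Set.Finite.coe_toFinset, Set.mem_union, SetLike.mem_coe]
    exact Or.inr hx

theorem ne_of_quot {a b : X} (h : a * b⁻¹ ∉ FCc X) : a ≠ b := by
  rintro rfl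
  apply h
  rw [mul_inv_cancel]
  exact one_mem _

theorem exists_par (hlf : LocFin X)
    (gen : ∀ L : Subgroup X, (L : Set X).Finite → ∃ g : X, GenOver L g) :
    ∃ (L0 : Subgroup X) (u v : Bool → X), (L0 : Set X).Finite ∧ Par L0 u v := by
  obtain ⟨v2, hv2⟩ := gen ⊥ (by simp)
  obtain ⟨A1, -, hA1, m1⟩ := exists_ext hlf ⊥ (by simp) {v2}
  have m1v2 : v2 ∈ A1 := m1 v2 (by simp)
  obtain ⟨v1, hv1⟩ := gen A1 hA1
  obtain ⟨A2, l2, hA2, m2⟩ := exists_ext hlf A1 hA1 {v1}
  have m2v2 : v2 ∈ A2 := l2 m1v2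
  have m2v1 : v1 ∈ A2 := m2 v1 (by simp)
  obtain ⟨u2, hu2⟩ := gen A2 hA2
  obtain ⟨A3, l3, hA3, m3⟩ := exists_ext hlf A2 hA2 {u2}
  have m3v2 : v2 ∈ A3 := l3 m2v2
  have m3v1 : v1 ∈ A3 := l3 m2v1
  have m3u2 : u2 ∈ A3 := m3 u2 (by simp)
  obtain ⟨u1, hu1⟩ := gen A3 hA3
  obtain ⟨L0, l4, hL0, m4⟩ := exists_ext hlf A3 hA3 {u1}
  have m4v2 : v2 ∈ L0 := l4 m3v2
  have m4v1 : v1 ∈ L0 := l4 m3v1
  have m4u2 : u2 ∈ L0 := l4 m3u2
  have m4u1 : u1 ∈ L0 := m4 u1 (by simp)
  have n1 : u1 ∉ FCc X := hu1.w 1 1 (one_mem _) (one_mem _) (Or.inl (by group))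
  have n2 : u2 ∉ FCc X := hu2.w 1 1 (one_mem _) (one_mem _) (Or.inl (by group))
  have n3 : v1 ∉ FCc X := hv1.w 1 1 (one_mem _) (one_mem _) (Or.inl (by group))
  have n4 : v2 ∉ FCc X := hv2.w 1 1 (one_mem _) (one_mem _) (Or.inl (by group))
  refine ⟨L0, fun b => cond b u1 u2, fun b => cond b v1 v2, hL0, ?_, ?_, ?_, ?_, ?_, ?_, ?_, ?_,
    ?_, ?_, ?_, ?_, ?_, ?_, ?_, ?_⟩
  · rintro (_ | _)
    · exact m4u2
    · exact m4u1
  · rintro (_ | _)
    · exact m4v2
    · exact m4v1
  · rintro (_ | _)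
    · exact n2
    · exact n1
  · rintro (_ | _)
    · exact n4
    · exact n3
  · rintro (_ | _) (_ | _) hij
    · exact absurd rfl hij
    · exact hu1.w u2 1 m3u2 (one_mem _) (Or.inr (by simp only [cond_false, cond_true]; group))
    · exact hu1.w 1 u2⁻¹ (one_mem _) (inv_mem m3u2)
        (Or.inl (by simp only [cond_false, cond_true]; group))
    · exact absurd rfl hij
  · rintro (_ | _) (_ | _) hij
    · exact absurd rfl hij
    · exact hu1.w u2⁻¹ 1 (inv_mem m3u2) (one_mem _)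
        (Or.inl (by simp only [cond_false, cond_true]; group))
    · exact hu1.w 1 u2 (one_mem _) m3u2
        (Or.inr (by simp only [cond_false, cond_true]; group))
    · exact absurd rfl hij
  · rintro (_ | _) (_ | _) hij
    · exact absurd rfl hij
    · exact hv1.w v2⁻¹ 1 (inv_mem m1v2) (one_mem _)
        (Or.inl (by simp only [cond_false, cond_true]; group))
    · exact hv1.w 1 v2 (one_mem _) m1v2
        (Or.inr (by simp only [cond_false, cond_true]; group))
    · exact absurd rfl hij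
  · rintro (_ | _) (_ | _)
    · exact hu2.w v2 1 m2v2 (one_mem _) (Or.inl (by simp only [cond_false]; group))
    · exact hu1.w v2 1 m3v2 (one_mem _) (Or.inl (by simp only [cond_false, cond_true]; group))
    · exact hu2.w v1 1 m2v1 (one_mem _) (Or.inl (by simp only [cond_false, cond_true]; group))
    · exact hu1.w v1 1 m3v1 (one_mem _) (Or.inl (by simp only [cond_true]; group))
  · rintro (_ | _) (_ | _) hij
    · exact absurd rfl hij
    · exact hu1.w u2 1 m3u2 (one_mem _) (Or.inl (by simp only [cond_false, cond_true]; group))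
    · exact hu1.w 1 u2 (one_mem _) m3u2 (Or.inl (by simp only [cond_false, cond_true]; group))
    · exact absurd rfl hij
  · rintro (_ | _) (_ | _) hij
    · exact absurd rfl hij
    · exact hu1.w v2⁻¹ 1 (inv_mem m3v2) (one_mem _)
        (Or.inl (by simp only [cond_false, cond_true]; group))
    · exact hu2.w v1⁻¹ 1 (inv_mem m2v1) (one_mem _)
        (Or.inl (by simp only [cond_false, cond_true]; group))
    · exact absurd rfl hij
  · rintro (_ | _) (_ | _) hij
    · exact absurd rfl hij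
    · exact hu1.w (u2⁻¹ * v2⁻¹) 1 (mul_mem (inv_mem m3u2) (inv_mem m3v2)) (one_mem _)
        (Or.inl (by simp only [cond_false, cond_true]; group))
    · exact hu1.w 1 (v1⁻¹ * u2) (one_mem _) (mul_mem (inv_mem m3v1) m3u2)
        (Or.inr (by simp only [cond_false, cond_true]; group))
    · exact absurd rfl hij
  · rintro (_ | _)
    · exact ne_of_quot (hu2.w 1 v2⁻¹ (one_mem _) (inv_mem m2v2)
        (Or.inl (by simp only [cond_false]; group)))
    · exact ne_of_quot (hu1.w 1 v1⁻¹ (one_mem _) (inv_mem m3v1)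
        (Or.inl (by simp only [cond_true]; group)))
  · rintro (_ | _) (_ | _) hij h
    · exact absurd rfl hij
    · refine hu1.w (v1 * v2⁻¹) u2 (mul_mem m3v1 (inv_mem m3v2)) m3u2 (Or.inr rfl) ?_
      simp only [cond_false, cond_true] at h
      rw [h]
      exact one_mem _
    · refine hu1.w (v2 * v1⁻¹ * u2⁻¹) 1 (mul_mem (mul_mem m3v2 (inv_mem m3v1)) (inv_mem m3u2))
        (one_mem _) (Or.inl rfl) ?_
      simp only [cond_false, cond_true] at h
      rw [h, mul_one]
      exact one_mem _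
    · exact absurd rfl hij
  · rintro (_ | _) (_ | _) hij
    · exact absurd rfl hij
    · exact ne_of_quot (hu1.w (v1 * v2) u2⁻¹ (mul_mem m3v1 m3v2) (inv_mem m3u2)
        (Or.inr (by simp only [cond_false, cond_true]; group)))
    · exact ne_of_quot (hu1.w (v2 * v1 * u2⁻¹) 1 (mul_mem (mul_mem m3v2 m3v1) (inv_mem m3u2))
        (one_mem _) (Or.inr (by simp only [cond_false, cond_true]; group)))
    · exact absurd rfl hij
  · rintro (_ | _) (_ | _) hij
    · exact absurd rfl hij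
    · exact ne_of_quot (hu1.w (v1 * u2⁻¹) v2 (mul_mem m3v1 (inv_mem m3u2)) m3v2
        (Or.inr (by simp only [cond_false, cond_true]; group)))
    · exact ne_of_quot (hu1.w v2 (u2⁻¹ * v1) m3v2 (mul_mem (inv_mem m3u2) m3v1)
        (Or.inr (by simp only [cond_false, cond_true]; group)))
    · exact absurd rfl hij
  · rintro (_ | _) (_ | _) hij
    · exact absurd rfl hij
    · exact ne_of_quot (hu1.w (v1 * v2 * u2) (u2⁻¹ * v2⁻¹) (mul_mem (mul_mem m3v1 m3v2) m3u2)
        (mul_mem (inv_mem m3u2) (inv_mem m3v2))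
        (Or.inr (by simp only [cond_false, cond_true]; group)))
    · intro h
      simp only [cond_false, cond_true] at h
      have hw : v1⁻¹ * v2 * v1 ∉ FCc X := by
        intro hc
        apply n4
        have := conj_mem v1 hc
        have e : v1 * (v1⁻¹ * v2 * v1) * v1⁻¹ = v2 := by group
        rwa [e] at this
      apply hu1.c2 (v1⁻¹ * v2 * v1) (mul_mem (mul_mem (inv_mem m3v1) m3v2) m3v1) hw
      have e : u1⁻¹ * (v1⁻¹ * v2 * v1) * u1 = u2 := by
        calc u1⁻¹ * (v1⁻¹ * v2 * v1) * u1 = u1⁻¹ * v1⁻¹ * (v2 * v1 * u1) := by group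
          _ = u1⁻¹ * v1⁻¹ * (v1 * u1 * u2) := by rw [h]
          _ = u2 := by group
      rw [e]
      exact m3u2
    · exact absurd rfl hij

/-! ### one stage -/

/-- The elements of one stage: `g a` with `a ∈ A`, and `u j * g * v j` if `c` holds, and their
inverses. -/
def T (u v : Bool → X) (g : X) (A : Set X) (c : Prop) : Set X :=
  {x | (∃ a ∈ A, x = g * a ∨ x⁻¹ = g * a) ∨
    (c ∧ ∃ j, x = u j * g * v j ∨ x⁻¹ = u j * g * v j)}

theorem T_inv {u v : Bool → X} {g : X} {A : Set X} {c : Prop} {x : X}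
    (h : x ∈ T u v g A c) : x⁻¹ ∈ T u v g A c := by
  rcases h with ⟨a, ha, e | e⟩ | ⟨hc, j, e | e⟩
  · exact Or.inl ⟨a, ha, Or.inr (by rw [inv_inv]; exact e)⟩
  · exact Or.inl ⟨a, ha, Or.inl e⟩
  · exact Or.inr ⟨hc, j, Or.inr (by rw [inv_inv]; exact e)⟩
  · exact Or.inr ⟨hc, j, Or.inl e⟩

section Stage

variable {L L0 : Subgroup X} {g : X} {u v : Bool → X} {A : Set X} {c : Prop}

theorem T_notMem (h : GenOver L g) (hu : ∀ i, u i ∈ L) (hv : ∀ i, v i ∈ L) (hA : ∀ a ∈ A, a ∈ L)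
    {x : X} (hx : x ∈ T u v g A c) : x ∉ L := by
  have h1 : ∀ y a : X, a ∈ L → y = g * a → y ∉ L := by
    rintro y a ha rfl hy
    apply h.notMem
    have := mul_mem hy (inv_mem ha)
    rwa [mul_inv_cancel_right] at this
  have h2 : ∀ (y : X) (j : Bool), y = u j * g * v j → y ∉ L := by
    rintro y j rfl hy
    apply h.notMem
    have := mul_mem (mul_mem (inv_mem (hu j)) hy) (inv_mem (hv j))
    have e : (u j)⁻¹ * (u j * g * v j) * (v j)⁻¹ = g := by group
    rwa [e] at this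
  rcases hx with ⟨a, ha, e | e⟩ | ⟨-, j, e | e⟩
  · exact h1 x a (hA a ha) e
  · exact fun hx => h1 x⁻¹ a (hA a ha) e (inv_mem hx)
  · exact h2 x j e
  · exact fun hx => h2 x⁻¹ j e (inv_mem hx)

theorem T_mem {L' : Subgroup X} (hg : g ∈ L') (hu : ∀ i, u i ∈ L') (hv : ∀ i, v i ∈ L')
    (hA : ∀ a ∈ A, a ∈ L') {x : X} (hx : x ∈ T u v g A c) : x ∈ L' := by
  rcases hx with ⟨a, ha, e | e⟩ | ⟨-, j, e | e⟩
  · rw [e]
    exact mul_mem hg (hA a ha)
  · have : x⁻¹ ∈ L' := by
      rw [e]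
      exact mul_mem hg (hA a ha)
    simpa using this
  · rw [e]
    exact mul_mem (mul_mem (hu j) hg) (hv j)
  · have : x⁻¹ ∈ L' := by
      rw [e]
      exact mul_mem (mul_mem (hu j) hg) (hv j)
    simpa using this

theorem analyse (h : GenOver L g) (hu : ∀ i, u i ∈ L) (hv : ∀ i, v i ∈ L)
    (hA : ∀ a ∈ A, a ∈ L) {s t : X} (hs : s ∈ L) (ht : t ∈ L) (hx : s * g * t ∈ T u v g A c) :
    (∃ a ∈ A, s * g * t = g * a ∧ s ∈ FCc X) ∨
    (∃ a ∈ A, a⁻¹ * t = s ∧ (g * t) * (g * t) = 1) ∨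
    (c ∧ ∃ j, s * g * t = u j * g * v j ∧ (u j)⁻¹ * s ∈ FCc X) ∨
    (c ∧ ∃ j, (v j)⁻¹ * t * u j = s ∧ (g * (t * u j)) * (g * (t * u j)) = 1) := by
  rcases hx with ⟨a, ha, e | e⟩ | ⟨hc, j, e | e⟩
  · left
    refine ⟨a, ha, e, ?_⟩
    have := h.plus (γ := 1) hs ht (one_mem _) (hA a ha) (by rw [one_mul]; exact e)
    simpa using this
  · right; left
    have := h.minus (γ := 1) (δ := a) hs ht (one_mem _) (hA a ha)
      (by rw [one_mul, ← e, inv_inv])
    simp only [mul_one] at this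
    exact ⟨a, ha, this⟩
  · right; right; left
    exact ⟨hc, j, e, h.plus hs ht (hu j) (hv j) e⟩
  · right; right; right
    exact ⟨hc, j, h.minus hs ht (hu j) (hv j) (by rw [← e, inv_inv])⟩

/-- An element of one stage, which stays in it under `x ↦ u i * x * v i`, is `g`. -/
theorem stage (par : Par L0 u v) (hL : L0 ≤ L) (h : GenOver L g) (hA : ∀ a ∈ A, a ∈ L)
    (hA0 : c → ∀ a ∈ A, a ∈ L0 → a = 1) {x : X} (hx : x ∈ T u v g A c)
    (hP : ∀ i, u i * x * v i ∈ T u v g A c) : c ∧ x = g := by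
  have hu : ∀ i, u i ∈ L := fun i => hL (par.mu i)
  have hv : ∀ i, v i ∈ L := fun i => hL (par.mv i)
  have nconj : ∀ (y z : X), y⁻¹ * (z * y) ∈ FCc X → z ∈ FCc X := by
    intro y z hyz
    have := conj_mem y hyz
    have e : y * (y⁻¹ * (z * y)) * y⁻¹ = z := by group
    rwa [e] at this
  rcases hx with ⟨a, ha, e | e⟩ | ⟨hc, k, e | e⟩
  · -- `x = g a`
    have key : ∀ i, (c ∧ a = 1) ∨ (g * (a * v i)) * (g * (a * v i)) = 1 := by
      intro i
      have h1 : u i * g * (a * v i) ∈ T u v g A c := by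
        have h2 := hP i
        have e2 : u i * x * v i = u i * g * (a * v i) := by
          rw [e]
          group
        rwa [e2] at h2
      rcases analyse h hu hv hA (hu i) (mul_mem (hA a ha) (hv i)) h1 with
        ⟨a', ha', -, h2⟩ | ⟨a', ha', -, h2⟩ | ⟨hc, j, h2, h3⟩ | ⟨hc, j, h2, h3⟩
      · exact absurd h2 (par.F1u i)
      · exact Or.inr h2
      · by_cases hj : j = i
        · subst hj
          left
          refine ⟨hc, ?_⟩
          have h4 : u j * g * a * v j = u j * g * v j := by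
            rw [← h2]
            group
          have h5 := mul_right_cancel h4
          simpa using h5
        · exact absurd h3 (par.F2u' j i hj)
      · left
        refine ⟨hc, hA0 hc a ha ?_⟩
        have h4 : a = v j * u i * (u j)⁻¹ * (v i)⁻¹ := by
          rw [← h2]
          group
        rw [h4]
        exact mul_mem (mul_mem (mul_mem (par.mv j) (par.mu i)) (inv_mem (par.mu j)))
          (inv_mem (par.mv i))
    rcases key true with ⟨hc, h1⟩ | h1
    · exact ⟨hc, by rw [e, h1, mul_one]⟩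
    rcases key false with ⟨hc, h2⟩ | h2
    · exact ⟨hc, by rw [e, h2, mul_one]⟩
    exfalso
    have h3 := h.invol (mul_mem (hA a ha) (hv true)) (mul_mem (hA a ha) (hv false)) h1 h2
    have e3 : (a * v true)⁻¹ * (a * v false) = (v true)⁻¹ * v false := by group
    rw [e3] at h3
    exact par.F2v true false (by decide) h3
  · -- `x⁻¹ = g a`
    have key : ∀ i, (c ∧ x = g) ∨ (g * (a * (u i)⁻¹)) * (g * (a * (u i)⁻¹)) = 1 := by
      intro i
      have h1 : (v i)⁻¹ * g * (a * (u i)⁻¹) ∈ T u v g A c := by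
        have h2 := T_inv (hP i)
        have e2 : (u i * x * v i)⁻¹ = (v i)⁻¹ * g * (a * (u i)⁻¹) := by
          rw [mul_inv_rev, mul_inv_rev, e]
          group
        rwa [e2] at h2
      rcases analyse h hu hv hA (inv_mem (hv i)) (mul_mem (hA a ha) (inv_mem (hu i))) h1 with
        ⟨a', ha', -, h2⟩ | ⟨a', ha', -, h2⟩ | ⟨hc, j, h2, h3⟩ | ⟨hc, j, h2, h3⟩
      · exact absurd (by simpa using inv_mem h2) (par.F1v i)
      · exact Or.inr h2
      · exfalso
        apply par.F3 i j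
        have := inv_mem h3
        rwa [mul_inv_rev, inv_inv, inv_inv] at this
      · left
        refine ⟨hc, ?_⟩
        have h4 : a = v j * (v i)⁻¹ * (u j)⁻¹ * u i := by
          rw [← h2]
          group
        have h5 : a = 1 := by
          apply hA0 hc a ha
          rw [h4]
          exact mul_mem (mul_mem (mul_mem (par.mv j) (inv_mem (par.mv i))) (inv_mem (par.mu j)))
            (par.mu i)
        by_cases hj : i = j
        · subst hj
          rw [h5, one_mul, inv_mul_cancel, mul_one] at h3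
          rw [h5, mul_one] at e
          have h6 : g⁻¹ = g := by
            rw [inv_eq_iff_mul_eq_one]
            exact h3
          rw [← h6, ← e, inv_inv]
        · exfalso
          apply par.E2 i j hj
          rw [← h4, h5]
    rcases key true with h1 | h1
    · exact h1
    rcases key false with h2 | h2
    · exact h2
    exfalso
    have h3 := h.invol (mul_mem (hA a ha) (inv_mem (hu true)))
      (mul_mem (hA a ha) (inv_mem (hu false))) h1 h2
    have e3 : (a * (u true)⁻¹)⁻¹ * (a * (u false)⁻¹) = u true * (u false)⁻¹ := by group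
    rw [e3] at h3
    exact par.F2u true false (by decide) h3
  · -- `x = u k * g * v k`
    exfalso
    obtain ⟨i, hik⟩ : ∃ i : Bool, i ≠ k := ⟨!k, by cases k <;> decide⟩
    have h1 : (u i * u k) * g * (v k * v i) ∈ T u v g A c := by
      have h2 := hP i
      have e2 : u i * x * v i = (u i * u k) * g * (v k * v i) := by
        rw [e]
        group
      rwa [e2] at h2
    rcases analyse h hu hv hA (mul_mem (hu i) (hu k)) (mul_mem (hv k) (hv i)) h1 with
      ⟨a', ha', -, h2⟩ | ⟨a', ha', h2, -⟩ | ⟨-, j, -, h3⟩ | ⟨-, j, h2, -⟩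
    · exact par.F4 i k hik h2
    · have h4 : a' = v k * v i * (u k)⁻¹ * (u i)⁻¹ := by
        have h5 : v k * v i = a' * (u i * u k) := by
          rw [← h2]
          group
        rw [h5]
        group
      have h5 : a' = 1 := by
        apply hA0 hc a' ha'
        rw [h4]
        exact mul_mem (mul_mem (mul_mem (par.mv k) (par.mv i)) (inv_mem (par.mu k)))
          (inv_mem (par.mu i))
      apply par.E3 i k hik
      rw [← h2, h5]
      group
    · by_cases hj : j = i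
      · subst hj
        rw [inv_mul_cancel_left] at h3
        exact par.F1u k h3
      · have hjk : j = k := by
          revert hj hik
          cases j <;> cases i <;> cases k <;> simp
        subst hjk
        exact par.F1u i (nconj _ _ h3)
    · by_cases hj : j = i
      · subst hj
        apply par.E5 j k hik
        calc v k * v j * u j = v j * ((v j)⁻¹ * (v k * v j) * u j) := by group
          _ = v j * (u j * u k) := by rw [h2]
          _ = v j * u j * u k := by group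
      · have hjk : j = k := by
          revert hj hik
          cases j <;> cases i <;> cases k <;> simp
        subst hjk
        apply par.E1 i
        have h4 : v i * u j = u i * u j := by
          rw [← h2]
          group
        exact (mul_right_cancel h4).symm
  · -- `x⁻¹ = u k * g * v k`
    exfalso
    obtain ⟨i, hik⟩ : ∃ i : Bool, i ≠ k := ⟨!k, by cases k <;> decide⟩
    have h1 : ((v i)⁻¹ * u k) * g * (v k * (u i)⁻¹) ∈ T u v g A c := by
      have h2 := T_inv (hP i)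
      have e2 : (u i * x * v i)⁻¹ = ((v i)⁻¹ * u k) * g * (v k * (u i)⁻¹) := by
        rw [mul_inv_rev, mul_inv_rev, e]
        group
      rwa [e2] at h2
    rcases analyse h hu hv hA (mul_mem (inv_mem (hv i)) (hu k))
        (mul_mem (hv k) (inv_mem (hu i))) h1 with
      ⟨a', ha', -, h2⟩ | ⟨a', ha', h2, -⟩ | ⟨-, j, -, h3⟩ | ⟨-, j, h2, -⟩
    · exact par.F5 i k hik h2
    · have h4 : a' = v k * (u i)⁻¹ * (u k)⁻¹ * v i := by
        have h5 : v k * (u i)⁻¹ = a' * ((v i)⁻¹ * u k) := by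
          rw [← h2]
          group
        rw [h5]
        group
      have h5 : a' = 1 := by
        apply hA0 hc a' ha'
        rw [h4]
        exact mul_mem (mul_mem (mul_mem (par.mv k) (inv_mem (par.mu i))) (inv_mem (par.mu k)))
          (par.mv i)
      apply par.E4 i k hik
      rw [← h2, h5]
      group
    · by_cases hj : j = i
      · subst hj
        exact par.F6 j k hik h3
      · have hjk : j = k := by
          revert hj hik
          cases j <;> cases i <;> cases k <;> simp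
        subst hjk
        exact par.F1v i (by simpa using inv_mem (nconj _ _ h3))
    · by_cases hj : j = i
      · subst hj
        apply par.E1 k
        have h4 : (v j)⁻¹ * v k = (v j)⁻¹ * u k := by
          rw [← h2]
          group
        exact (mul_left_cancel h4).symm
      · have hjk : j = k := by
          revert hj hik
          cases j <;> cases i <;> cases k <;> simp
        subst hjk
        apply par.E1 i
        have h4 : (u i)⁻¹ * u j = (v i)⁻¹ * u j := by
          rw [← h2]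
          group
        exact inv_injective (mul_right_cancel h4)

/-- An element `g a` of one stage has `a ∈ A`. -/
theorem edge (par : Par L0 u v) (hL : L0 ≤ L) (h : GenOver L g) (hA : ∀ a ∈ A, a ∈ L) {a : X}
    (ha : a ∈ L) (ha0 : c → a ∉ L0) (hx : g * a ∈ T u v g A c) : a ∈ A := by
  have hu : ∀ i, u i ∈ L := fun i => hL (par.mu i)
  have hv : ∀ i, v i ∈ L := fun i => hL (par.mv i)
  have hx' : 1 * g * a ∈ T u v g A c := by rwa [one_mul]
  rcases analyse h hu hv hA (one_mem _) ha hx' with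
    ⟨a', ha', h2, -⟩ | ⟨a', ha', h2, -⟩ | ⟨-, j, -, h3⟩ | ⟨hc, j, h2, -⟩
  · rw [one_mul] at h2
    rw [mul_left_cancel h2]
    exact ha'
  · rw [inv_mul_eq_one] at h2
    rw [← h2]
    exact ha'
  · exfalso
    rw [mul_one] at h3
    exact par.F1u j (by simpa using inv_mem h3)
  · exfalso
    apply ha0 hc
    have h4 : a = v j * 1 * (u j)⁻¹ := by
      rw [← h2]
      group
    rw [h4]
    exact mul_mem (mul_mem (par.mv j) (one_mem _)) (inv_mem (par.mu j))

end Stage

/-! ### the tower -/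

theorem exists_tower (hlf : LocFin X)
    (gen : ∀ L : Subgroup X, (L : Set X).Finite → ∃ g : X, GenOver L g) (L0 : Subgroup X)
    (hL0 : (L0 : Set X).Finite) (W : ℕ → Finset X) :
    ∃ (L : ℕ → Subgroup X) (g : ℕ → X), (∀ k, L0 ≤ L k) ∧ (∀ k, ∀ x ∈ W k, x ∈ L k) ∧
      (∀ k, GenOver (L k) (g k)) ∧ (∀ k, L k ≤ L (k + 1)) ∧ ∀ k, g k ∈ L (k + 1) := by
  classical
  choose ext hext1 hext2 hext3 using
    fun (p : {L : Subgroup X // (L : Set X).Finite}) (F : Finset X) => exists_ext hlf p.1 p.2 F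
  choose gn hgn using fun (p : {L : Subgroup X // (L : Set X).Finite}) => gen p.1 p.2
  let Ls : ℕ → {L : Subgroup X // (L : Set X).Finite} := fun k =>
    Nat.rec ⟨ext ⟨L0, hL0⟩ (W 0), hext2 _ _⟩
      (fun k p => ⟨ext p (insert (gn p) (W (k + 1))), hext2 _ _⟩) k
  have hle : ∀ k, (Ls k).1 ≤ (Ls (k + 1)).1 := fun k => hext1 _ _
  have h0 : ∀ k, L0 ≤ (Ls k).1 := by
    intro k
    induction k with
    | zero => exact hext1 ⟨L0, hL0⟩ (W 0)
    | succ k ih => exact ih.trans (hle k)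
  refine ⟨fun k => (Ls k).1, fun k => gn (Ls k), h0, ?_, fun k => hgn _, hle, ?_⟩
  · intro k x hx
    cases k with
    | zero => exact hext3 _ _ x hx
    | succ k => exact hext3 _ _ x (Finset.mem_insert_of_mem hx)
  · intro k
    exact hext3 (Ls k) _ _ (Finset.mem_insert_self _ _)

/-- The right factors of stage `k`. -/
def AS (U : ℕ → Finset X) (g : ℕ → X) (E : ℕ → ℕ → Prop) (k : ℕ) : Set X :=
  {a | (∃ n, k = 2 * n ∧ ∃ w ∈ U n, a = w⁻¹) ∨
    ∃ n, k = 2 * n + 1 ∧ (a = 1 ∨ ∃ m, m < n ∧ E m n ∧ a = (g (2 * m + 1))⁻¹)}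

/-- The special set. -/
def SS (u v : Bool → X) (U : ℕ → Finset X) (g : ℕ → X) (E : ℕ → ℕ → Prop) : Set X :=
  {x | ∃ k, x ∈ T u v (g k) (AS U g E k) (k % 2 = 1)}

/-- The coded set. -/
def Q (u v : Bool → X) (S : Set X) : Set X := {x | x ∈ S ∧ ∀ i, u i * x * v i ∈ S}

/-- The numbers of neighbours in the coded graph. -/
def J (u v : Bool → X) (S : Set X) : Set ℕ :=
  {n | ∃ x ∈ Q u v S, Set.ncard {y | y ∈ Q u v S ∧ x * y⁻¹ ∈ S} = n}

section Image

variable {u v : Bool → X} (α : X ≃* X) (hu : ∀ i, α (u i) = u i) (hv : ∀ i, α (v i) = v i)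

theorem mem_im (S : Set X) (x : X) : α x ∈ α '' S ↔ x ∈ S :=
  α.injective.mem_set_image

include hu hv

theorem Q_image (S : Set X) : Q u v (α '' S) = α '' Q u v S := by
  ext y
  obtain ⟨x, rfl⟩ := α.surjective y
  rw [mem_im]
  have h : ∀ i, u i * α x * v i = α (u i * x * v i) := by
    intro i
    rw [map_mul, map_mul, hu, hv]
  constructor
  · rintro ⟨h1, h2⟩
    refine ⟨(mem_im α S x).1 h1, fun i => ?_⟩
    have := h2 i
    rw [h] at this
    exact (mem_im α S _).1 this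
  · rintro ⟨h1, h2⟩
    refine ⟨(mem_im α S x).2 h1, fun i => ?_⟩
    rw [h]
    exact (mem_im α S _).2 (h2 i)

theorem nb_image (S : Set X) (x : X) :
    {y | y ∈ Q u v (α '' S) ∧ α x * y⁻¹ ∈ α '' S} = α '' {y | y ∈ Q u v S ∧ x * y⁻¹ ∈ S} := by
  ext y
  obtain ⟨z, rfl⟩ := α.surjective y
  rw [mem_im, Q_image α hu hv]
  have e : α x * (α z)⁻¹ = α (x * z⁻¹) := by rw [map_mul, map_inv]
  constructor
  · rintro ⟨h1, h2⟩
    rw [e] at h2
    exact ⟨(mem_im α _ z).1 h1, (mem_im α S _).1 h2⟩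
  · rintro ⟨h1, h2⟩
    refine ⟨(mem_im α _ z).2 h1, ?_⟩
    rw [e]
    exact (mem_im α S _).2 h2

theorem J_image (S : Set X) : J u v (α '' S) = J u v S := by
  ext n
  constructor
  · rintro ⟨w, hw, h⟩
    obtain ⟨x, rfl⟩ := α.surjective w
    rw [nb_image α hu hv, Set.ncard_image_of_injective _ α.injective] at h
    rw [Q_image α hu hv, mem_im] at hw
    exact ⟨x, hw, h⟩
  · rintro ⟨x, hx, h⟩
    refine ⟨α x, ?_, ?_⟩
    · rw [Q_image α hu hv, mem_im]
      exact hx
    · rw [nb_image α hu hv, Set.ncard_image_of_injective _ α.injective]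
      exact h

end Image

open CNTM in
/-- The set can be read off from the numbers of neighbours. -/
theorem decode (u v : Bool → X) (A : Set ℕ) (S : Set X) (h1 : (1 : X) ∉ S) (q : ℕ → X)
    (hq : Function.Injective q) (hQ : ∀ x, x ∈ Q u v S ↔ ∃ n, x = q n)
    (hE : ∀ m n, m ≠ n → (q m * (q n)⁻¹ ∈ S ↔ E A m n)) (k : ℕ) : k + 1 ∈ J u v S ↔ k ∈ A := by
  have hnb : ∀ i, {y | y ∈ Q u v S ∧ q i * y⁻¹ ∈ S} = q '' {j | E A i j} := by
    intro i
    ext y
    constructor
    · rintro ⟨h2, h3⟩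
      obtain ⟨j, rfl⟩ := (hQ y).1 h2
      have hij : i ≠ j := by
        rintro rfl
        rw [mul_inv_cancel] at h3
        exact h1 h3
      exact ⟨j, (hE i j hij).1 h3, rfl⟩
    · rintro ⟨j, hj, rfl⟩
      exact ⟨(hQ _).2 ⟨j, rfl⟩, (hE i j hj.1).2 hj⟩
  have hcard : ∀ i, Set.ncard {y | y ∈ Q u v S ∧ q i * y⁻¹ ∈ S} = Set.ncard {j | E A i j} := by
    intro i
    rw [hnb, Set.ncard_image_of_injective _ hq]
  constructor
  · rintro ⟨x, hx, h⟩
    obtain ⟨i, rfl⟩ := (hQ x).1 hx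
    rw [hcard] at h
    have hne : {j | E A i j}.Nonempty := by
      rw [Set.nonempty_iff_ne_empty]
      intro h0
      rw [h0, Set.ncard_empty] at h
      omega
    obtain ⟨j, hj⟩ := hne
    have h2 := ncard_E A i hj.2.2.1 hj.2.2.2.1
    rw [h2] at h
    have h3 : (Nat.unpair i).1 = k := by omega
    rw [← h3]
    exact hj.2.2.1
  · intro hk
    refine ⟨q (Nat.pair k 0), (hQ _).2 ⟨_, rfl⟩, ?_⟩
    rw [hcard, ncard_E]
    · rw [Nat.unpair_pair]
    · rw [Nat.unpair_pair]
      exact hk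
    · rw [Nat.unpair_pair]
      show 0 < k + 2
      omega

end NFCM

open NFCM in
theorem nfc_coding {X : Type u} [Group X] [Countable X] (hlf : LocFin X)
    (gen : ∀ L : Subgroup X, (L : Set X).Finite → ∃ g : X, (∀ k ∈ L, k⁻¹ * g ∉ FCc X) ∧
      (∀ w ∈ L, w ∉ FCc X → g⁻¹ * w * g ∉ L) ∧
      (∀ b ∈ L, ∀ c ∈ L, c ≠ 1 → (g * b) * (g * b) ≠ c)) :
    Cardinal.mk (SpecialOrbits X) = Cardinal.continuum := by
  classical
  have gen' : ∀ L : Subgroup X, (L : Set X).Finite → ∃ g : X, GenOver L g := by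
    intro L hL
    obtain ⟨g, h1, h2, h3⟩ := gen L hL
    exact ⟨g, h1, h2, h3⟩
  obtain ⟨L0, u, v, hL0, par⟩ := exists_par hlf gen'
  have hne : Nonempty {p : Finset X × Finset X // Disjoint p.1 p.2} := ⟨⟨(∅, ∅), by simp⟩⟩
  obtain ⟨e, he⟩ := exists_surjective_nat {p : Finset X × Finset X // Disjoint p.1 p.2}
  let U : ℕ → Finset X := fun n => (e n).1.1
  let V : ℕ → Finset X := fun n => (e n).1.2
  obtain ⟨L, g, hL, hW, hgen, hle, hg⟩ :=
    exists_tower hlf gen' L0 hL0 (fun k => U (k / 2) ∪ V (k / 2))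
  have hmono : Monotone L := monotone_nat_of_le_succ hle
  have hu : ∀ k i, u i ∈ L k := fun k i => hL k (par.mu i)
  have hv : ∀ k i, v i ∈ L k := fun k i => hL k (par.mv i)
  have hgn : ∀ k, g k ∉ L k := fun k => (hgen k).notMem
  have hUL : ∀ n, ∀ w ∈ U n, w ∈ L (2 * n) := by
    intro n w hw
    apply hW
    rw [Nat.mul_div_cancel_left n (by norm_num : 0 < 2)]
    exact Finset.mem_union_left _ hw
  have hVL : ∀ n, ∀ w ∈ V n, w ∈ L (2 * n) := by
    intro n w hw
    apply hW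
    rw [Nat.mul_div_cancel_left n (by norm_num : 0 < 2)]
    exact Finset.mem_union_right _ hw
  -- the right factors
  have hAS : ∀ E k, ∀ a ∈ AS U g E k, a ∈ L k := by
    rintro E k a (⟨n, rfl, w, hw, rfl⟩ | ⟨n, rfl, rfl | ⟨m, hmn, -, rfl⟩⟩)
    · exact inv_mem (hUL n w hw)
    · exact one_mem _
    · exact inv_mem (hmono (by omega : 2 * m + 1 + 1 ≤ 2 * n + 1) (hg (2 * m + 1)))
  have hAS0 : ∀ E k, k % 2 = 1 → ∀ a ∈ AS U g E k, a ∈ L0 → a = 1 := by
    rintro E k hk a (⟨n, rfl, w, hw, rfl⟩ | ⟨n, rfl, rfl | ⟨m, hmn, -, rfl⟩⟩) ha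
    · omega
    · rfl
    · exfalso
      apply hgn (2 * m + 1)
      have := hL (2 * m + 1) (inv_mem ha)
      rwa [inv_inv] at this
  -- levels
  have hlev1 : ∀ E k x, x ∈ T u v (g k) (AS U g E k) (k % 2 = 1) → x ∉ L k :=
    fun E k x hx => T_notMem (hgen k) (hu k) (hv k) (hAS E k) hx
  have hlev2 : ∀ E k x, x ∈ T u v (g k) (AS U g E k) (k % 2 = 1) → x ∈ L (k + 1) :=
    fun E k x hx => T_mem (hg k) (hu (k + 1)) (hv (k + 1))
      (fun a ha => hle k (hAS E k a ha)) hx
  have hsame : ∀ E k y, y ∈ SS u v U g E → y ∈ L (k + 1) → y ∉ L k →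
      y ∈ T u v (g k) (AS U g E k) (k % 2 = 1) := by
    rintro E k y ⟨l, hy⟩ h1 h2
    rcases lt_trichotomy l k with h | rfl | h
    · exact absurd (hmono (by omega : l + 1 ≤ k) (hlev2 E l y hy)) h2
    · exact hy
    · exact absurd (hmono (by omega : k + 1 ≤ l) h1) (hlev1 E l y hy)
  -- special
  have hinv : ∀ E, ∀ s ∈ SS u v U g E, s⁻¹ ∈ SS u v U g E := by
    rintro E s ⟨k, hk⟩
    exact ⟨k, T_inv hk⟩
  have hone : ∀ E, (1 : X) ∉ SS u v U g E := by
    rintro E ⟨k, hk⟩
    exact hlev1 E k 1 hk (one_mem _)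
  have hgU : ∀ n, ∀ w ∈ L (2 * n), g (2 * n) * w⁻¹ ∈ L (2 * n + 1) ∧
      g (2 * n) * w⁻¹ ∉ L (2 * n) := by
    intro n w hw
    refine ⟨mul_mem (hg _) (inv_mem (hle _ hw)), fun h => hgn (2 * n) ?_⟩
    have := mul_mem h hw
    rwa [inv_mul_cancel_right] at this
  have hspec : ∀ E, IsSpecial (SS u v U g E) := by
    intro E
    refine ⟨hinv E, hone E, ?_⟩
    intro U' V' hd
    obtain ⟨n, hn⟩ := he ⟨(U', V'), hd⟩
    have hU : U n = U' := by
      change (e n).1.1 = U'
      rw [hn]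
    have hV : V n = V' := by
      change (e n).1.2 = V'
      rw [hn]
    subst hU hV
    refine ⟨g (2 * n), ?_, ?_⟩
    · intro w hw
      exact ⟨2 * n, Or.inl ⟨w⁻¹, Or.inl ⟨n, rfl, w, hw, rfl⟩, Or.inl rfl⟩⟩
    · intro w hw hadj
      have hadj' : g (2 * n) * w⁻¹ ∈ SS u v U g E := hadj
      have h1 := hgU n w (hVL n w hw)
      have h2 := hsame E (2 * n) _ hadj' h1.1 h1.2
      have h3 := edge par (hL _) (hgen _) (hAS E _) (inv_mem (hVL n w hw)) (by omega) h2
      rcases h3 with ⟨n', hn', w', hw', h4⟩ | ⟨n', hn', -⟩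
      · have : n' = n := by omega
        subst this
        rw [inv_inj] at h4
        subst h4
        exact (Finset.disjoint_left.1 hd) hw' hw
      · omega
  -- the coded set
  let q : ℕ → X := fun n => g (2 * n + 1)
  have hq : Function.Injective q := by
    intro m n hmn
    have hmn' : g (2 * m + 1) = g (2 * n + 1) := hmn
    rcases lt_trichotomy m n with h | h | h
    · exfalso
      apply hgn (2 * n + 1)
      rw [← hmn']
      exact hmono (by omega : 2 * m + 1 + 1 ≤ 2 * n + 1) (hg (2 * m + 1))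
    · exact h
    · exfalso
      apply hgn (2 * m + 1)
      rw [hmn']
      exact hmono (by omega : 2 * n + 1 + 1 ≤ 2 * m + 1) (hg (2 * n + 1))
  have hQ : ∀ E x, x ∈ Q u v (SS u v U g E) ↔ ∃ n, x = q n := by
    intro E x
    constructor
    · rintro ⟨⟨k, hk⟩, hP⟩
      have h1 := hlev1 E k x hk
      have h2 := hlev2 E k x hk
      have h3 : ∀ i, u i * x * v i ∈ T u v (g k) (AS U g E k) (k % 2 = 1) := by
        intro i
        apply hsame E k _ (hP i)
        · exact mul_mem (mul_mem (hu _ i) h2) (hv _ i)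
        · intro h
          apply h1
          have := mul_mem (mul_mem (inv_mem (hu k i)) h) (inv_mem (hv k i))
          have e : (u i)⁻¹ * (u i * x * v i) * (v i)⁻¹ = x := by group
          rwa [e] at this
      obtain ⟨h4, h5⟩ := stage par (hL k) (hgen k) (hAS E k) (hAS0 E k) hk h3
      refine ⟨k / 2, ?_⟩
      change x = g (2 * (k / 2) + 1)
      rw [h5]
      congr 1
      omega
    · rintro ⟨n, rfl⟩
      refine ⟨⟨2 * n + 1, Or.inl ⟨1, Or.inr ⟨n, rfl, Or.inl rfl⟩, Or.inl (by simp [q])⟩⟩, ?_⟩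
      intro i
      exact ⟨2 * n + 1, Or.inr ⟨by omega, i, Or.inl rfl⟩⟩
  have hE1 : ∀ E m n, m < n → (q n * (q m)⁻¹ ∈ SS u v U g E ↔ E m n) := by
    intro E m n hmn
    have hm1 : g (2 * m + 1) ∈ L (2 * n + 1) :=
      hmono (by omega : 2 * m + 1 + 1 ≤ 2 * n + 1) (hg (2 * m + 1))
    constructor
    · intro h
      have h1 : q n * (q m)⁻¹ ∈ L (2 * n + 1 + 1) := mul_mem (hg _) (inv_mem (hle _ hm1))
      have h2 : q n * (q m)⁻¹ ∉ L (2 * n + 1) := by
        intro h
        apply hgn (2 * n + 1)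
        have := mul_mem h hm1
        change g (2 * n + 1) * (g (2 * m + 1))⁻¹ * g (2 * m + 1) ∈ _ at this
        rwa [inv_mul_cancel_right] at this
      have h3 := hsame E (2 * n + 1) _ h h1 h2
      have hm0 : ∀ k, (g (2 * m + 1))⁻¹ ∈ L0 → k := by
        intro k h
        exfalso
        apply hgn (2 * m + 1)
        have := hL (2 * m + 1) (inv_mem h)
        rwa [inv_inv] at this
      have h4 := edge par (hL _) (hgen _) (hAS E _) (inv_mem hm1)
        (fun _ h => hm0 _ h) h3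
      rcases h4 with ⟨n', hn', -⟩ | ⟨n', hn', h5 | ⟨m', hm', hE, h5⟩⟩
      · omega
      · exact hm0 _ (by rw [h5]; exact one_mem _)
      · have h6 : n' = n := by omega
        have h7 : m = m' := hq (inv_injective h5)
        rw [h7, ← h6]
        exact hE
    · intro h
      exact ⟨2 * n + 1, Or.inl ⟨(g (2 * m + 1))⁻¹,
        Or.inr ⟨n, rfl, Or.inr ⟨m, hmn, h, rfl⟩⟩, Or.inl rfl⟩⟩
  have hE2 : ∀ A m n, m ≠ n → (q m * (q n)⁻¹ ∈ SS u v U g (CNTM.E A) ↔ CNTM.E A m n) := by
    intro A m n hmn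
    rcases lt_or_gt_of_ne hmn with h | h
    · rw [← hE1 (CNTM.E A) m n h]
      constructor
      · intro h1
        have := hinv _ _ h1
        rwa [mul_inv_rev, inv_inv] at this
      · intro h1
        have := hinv _ _ h1
        rwa [mul_inv_rev, inv_inv] at this
    · rw [hE1 (CNTM.E A) n m h]
      exact ⟨CNTM.E_symm A n m, CNTM.E_symm A m n⟩
  refine card_of_family (fun A => SS u v U g (CNTM.E A)) (fun A => hspec _)
    (Set.range u ∪ Set.range v) ((Set.finite_range u).union (Set.finite_range v)) ?_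
  intro A B α hα hAB
  have hAB' : α '' SS u v U g (CNTM.E A) = SS u v U g (CNTM.E B) := hAB
  have hJ := J_image (u := u) (v := v) α (fun i => hα _ (Or.inl ⟨i, rfl⟩))
    (fun i => hα _ (Or.inr ⟨i, rfl⟩)) (SS u v U g (CNTM.E A))
  rw [hAB'] at hJ
  ext k
  rw [← decode u v A _ (hone _) q hq (hQ _) (hE2 A) k,
    ← decode u v B _ (hone _) q hq (hQ _) (hE2 B) k, hJ]

end Pool.Agent.Lib.MP_008109_al.AB
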