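import Pool.Agent.Lib.MP_008109_al.AB.Mult

/-!
# MP_008109_al, module R1A: coding when the FC-centre has exponent two
-/

set_option autoImplicit false

universe u

namespace Pool.Agent.Lib.MP_008109_al.AB

/-- The generic condition. -/
structure RaGen {X : Type u} [Group X] (L : Subgroup X) (g : X) : Prop where
  fc : g ∈ FCc X
  notMem : g ∉ L
  conj : ∀ w ∈ L, w ∉ FCc X → g⁻¹ * w * g ∉ L
  root : ∀ b ∈ L, ∀ c ∈ L, c ≠ 1 → (g * b) * (g * b) ≠ c

/-- The ingredients of the construction. -/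
structure RaData (X : Type u) [Group X] where
  τ : X
  s : X
  U : ℕ → Finset X
  V : ℕ → Finset X
  E : ℕ → ℕ → Prop
  L : ℕ → Subgroup X
  g : ℕ → X
  h2 : ∀ h ∈ FCc X, h * h = 1
  hτ : τ ∉ FCc X
  hs : s ∈ FCc X
  hs1 : s ≠ 1
  disj : ∀ n, Disjoint (U n) (V n)
  cover : ∀ U' V' : Finset X, Disjoint U' V' → ∃ n, U n = U' ∧ V n = V'
  symm : ∀ m n, E m n → E n m
  mono : ∀ m n, m ≤ n → L m ≤ L n
  hτL : ∀ n, τ ∈ L n
  hsL : ∀ n, s ∈ L n
  hU : ∀ n, ∀ u ∈ U n, u ∈ L n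
  hV : ∀ n, ∀ u ∈ V n, u ∈ L n
  hg : ∀ m n, m < n → g m ∈ L n
  gen : ∀ k, RaGen (L k) (g k)

namespace RaData

variable {X : Type u} [Group X] (D : RaData X)

/-- the designated elements -/
def q (n : ℕ) : X := D.g (2 * n + 1)

/-- the first kind of members added at stage `k`: `g k * h` -/
def P1 (k : ℕ) (h : X) : Prop :=
  (∃ n, k = 2 * n ∧ ∃ u ∈ D.U n, h = u⁻¹) ∨
    ∃ n, k = 2 * n + 1 ∧ (h = 1 ∨ h = D.s ∨ ∃ m, m < n ∧ D.E m n ∧ h = (D.q m)⁻¹)

/-- the second kind of members added at stage `k`: `τ * g k * τ⁻¹` -/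
def P2 (k : ℕ) : Prop := ∃ n, k = 2 * n + 1

/-- the members added at stage `k`, up to inversion -/
def Pos (k : ℕ) (x : X) : Prop :=
  (∃ h, D.P1 k h ∧ x = D.g k * h) ∨ (P2 k ∧ x = D.τ * D.g k * D.τ⁻¹)

/-- the members added at stage `k` -/
def InS (k : ℕ) (x : X) : Prop := D.Pos k x ∨ D.Pos k x⁻¹

/-- the special subset -/
def S : Set X := {x | ∃ k, D.InS k x}

include D in
theorem self_inv {x : X} (hx : x ∈ FCc X) : x⁻¹ = x := by
  rw [inv_eq_iff_mul_eq_one]
  exact D.h2 x hx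

theorem P1_mem {k : ℕ} {h : X} (hP : D.P1 k h) : h ∈ D.L k := by
  rcases hP with ⟨n, rfl, u, hu, rfl⟩ | ⟨n, rfl, rfl | rfl | ⟨m, hm, -, rfl⟩⟩
  · exact (D.L _).inv_mem (D.mono n _ (by omega) (D.hU n u hu))
  · exact (D.L _).one_mem
  · exact D.hsL _
  · exact (D.L _).inv_mem (D.hg _ _ (by omega))

theorem inv_mem {x : X} (h : x ∈ D.S) : x⁻¹ ∈ D.S := by
  obtain ⟨k, h | h⟩ := h
  · exact ⟨k, Or.inr (by simpa using h)⟩
  · exact ⟨k, Or.inl h⟩

theorem inv_mem_iff {x : X} : x⁻¹ ∈ D.S ↔ x ∈ D.S :=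
  ⟨fun h => by simpa using D.inv_mem h, D.inv_mem⟩

theorem conj_mem_iff {l : ℕ} {x : X} : D.τ * x * D.τ⁻¹ ∈ D.L l ↔ x ∈ D.L l := by
  rw [(D.L l).mul_mem_cancel_right ((D.L l).inv_mem (D.hτL l)), (D.L l).mul_mem_cancel_left (D.hτL l)]

/-- Lemma A -/
theorem lt_of_inS {k l : ℕ} {y : X} (hy : y ∈ D.L l) (h : D.InS k y) : k < l := by
  by_contra hlt
  rw [not_lt] at hlt
  have hyk : y ∈ D.L k := D.mono _ _ hlt hy
  have key : ∀ y : X, y ∈ D.L k → ¬ D.Pos k y := by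
    rintro y hy (⟨h, hP, rfl⟩ | ⟨-, rfl⟩)
    · exact (D.gen k).notMem (((D.L k).mul_mem_cancel_right (D.P1_mem hP)).1 hy)
    · exact (D.gen k).notMem (D.conj_mem_iff.1 hy)
  rcases h with h | h
  · exact key y hyk h
  · exact key y⁻¹ ((D.L k).inv_mem hyk) h

/-- Lemma B -/
theorem mem_of_inS {k l : ℕ} {y : X} (hkl : k < l) (h : D.InS k y) : y ∈ D.L l := by
  have key : ∀ y : X, D.Pos k y → y ∈ D.L l := by
    rintro y (⟨h, hP, rfl⟩ | ⟨-, rfl⟩)
    · exact (D.L l).mul_mem (D.hg _ _ hkl) (D.mono _ _ hkl.le (D.P1_mem hP))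
    · exact D.conj_mem_iff.2 (D.hg _ _ hkl)
  rcases h with h | h
  · exact key y h
  · have := (D.L l).inv_mem (key _ h)
    simpa using this

theorem stage_eq {k : ℕ} {y : X} (hy : y ∈ D.L (k + 1)) (hy' : y ∉ D.L k) {l : ℕ}
    (hl : D.InS l y) : l = k := by
  have h1 := D.lt_of_inS hy hl
  rcases Nat.lt_succ_iff_lt_or_eq.1 h1 with h2 | h2
  · exact absurd (D.mem_of_inS h2 hl) hy'
  · exact h2

/-- the excluded equation -/
theorem no_conj {k : ℕ} {b c : X} (hb : b ∈ D.L k) (hc : c ∈ D.L k) :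
    D.g k * b ≠ D.τ * D.g k * D.τ⁻¹ * c := by
  intro h
  apply (D.gen k).conj D.τ (D.hτL k) D.hτ
  have h1 : (D.g k)⁻¹ * D.τ * D.g k = b * c⁻¹ * D.τ := by
    have h3 : D.τ * D.g k = D.g k * b * c⁻¹ * D.τ := by
      rw [h]
      group
    rw [mul_assoc (D.g k)⁻¹, h3]
    group
  rw [h1]
  exact (D.L k).mul_mem ((D.L k).mul_mem hb ((D.L k).inv_mem hc)) (D.hτL k)

/-- Lemma C -/
theorem mem_one_iff {k : ℕ} {a : X} (ha : a ∈ D.L k) : D.g k * a ∈ D.S ↔ D.P1 k a := by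
  constructor
  · rintro ⟨l, hl⟩
    have hk1 : D.g k * a ∈ D.L (k + 1) :=
      (D.L _).mul_mem (D.hg _ _ (by omega)) (D.mono _ _ (by omega) ha)
    have hk2 : D.g k * a ∉ D.L k := fun h =>
      (D.gen k).notMem (((D.L k).mul_mem_cancel_right ha).1 h)
    obtain rfl := D.stage_eq hk1 hk2 hl
    rcases hl with (⟨h, hP, he⟩ | ⟨-, he⟩) | (⟨h, hP, he⟩ | ⟨-, he⟩)
    · rw [mul_left_cancel he]
      exact hP
    · exfalso
      exact D.no_conj ha (D.L l).one_mem (by rw [mul_one]; exact he)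
    · by_cases hah : h⁻¹ * a = 1
      · rw [inv_mul_eq_one] at hah
        rw [← hah]
        exact hP
      · exfalso
        refine (D.gen l).root a ha (h⁻¹ * a)
          ((D.L l).mul_mem ((D.L l).inv_mem (D.P1_mem hP)) ha) hah ?_
        have h3 : D.g l * a = (D.g l * h)⁻¹ := by
          rw [← he, inv_inv]
        calc (D.g l * a) * (D.g l * a) = (D.g l * h)⁻¹ * (D.g l * a) := by rw [← h3]
          _ = h⁻¹ * a := by group
    · exfalso
      apply D.no_conj ha (D.L l).one_mem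
      have h3 : D.g l * a = (D.τ * D.g l * D.τ⁻¹)⁻¹ := by
        rw [← he, inv_inv]
      rw [h3, mul_one, mul_inv_rev, mul_inv_rev, inv_inv, D.self_inv (D.gen l).fc]
      group
  · intro h
    exact ⟨k, Or.inl (Or.inl ⟨a, h, rfl⟩)⟩

theorem one_notMem : (1 : X) ∉ D.S := by
  rintro ⟨k, hk⟩
  exact absurd (D.lt_of_inS (l := 0) (D.L 0).one_mem hk) (by omega)

theorem special : IsSpecial D.S := by
  refine ⟨fun s hs => D.inv_mem hs, D.one_notMem, ?_⟩
  intro U' V' hd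
  obtain ⟨n, rfl, rfl⟩ := D.cover U' V' hd
  refine ⟨D.g (2 * n), ?_, ?_⟩
  · intro u hu
    change D.g (2 * n) * u⁻¹ ∈ D.S
    rw [D.mem_one_iff ((D.L _).inv_mem (D.mono n _ (by omega) (D.hU n u hu)))]
    exact Or.inl ⟨n, rfl, u, hu, rfl⟩
  · intro v hv hS
    change D.g (2 * n) * v⁻¹ ∈ D.S at hS
    rw [D.mem_one_iff ((D.L _).inv_mem (D.mono n _ (by omega) (D.hV n v hv)))] at hS
    rcases hS with ⟨n', hn, u, hu, he⟩ | ⟨n', hn, -⟩
    · obtain rfl : n = n' := by omega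
      rw [inv_injective he] at hv
      exact (Finset.disjoint_left.1 (D.disj n)) hu hv
    · omega

theorem q_inj : Function.Injective D.q := by
  have key : ∀ m n, m < n → D.q m ≠ D.q n := by
    intro m n hmn h
    apply (D.gen (2 * n + 1)).notMem
    change D.q n ∈ _
    rw [← h]
    exact D.hg _ _ (by omega)
  intro m n h
  rcases lt_trichotomy m n with h' | h' | h'
  · exact absurd h (key m n h')
  · exact h'
  · exact absurd h.symm (key n m h')

theorem P1_q {n : ℕ} {h : X} (hP : D.P1 (2 * n + 1) h) :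
    h = 1 ∨ h = D.s ∨ ∃ m, m < n ∧ D.E m n ∧ h = (D.q m)⁻¹ := by
  rcases hP with ⟨n', hn, -⟩ | ⟨n', hn, h'⟩
  · omega
  · obtain rfl : n = n' := by omega
    exact h'

theorem edge {m n : ℕ} (hmn : m < n) : D.q n * (D.q m)⁻¹ ∈ D.S ↔ D.E m n := by
  have h1 : (D.q m)⁻¹ ∈ D.L (2 * n + 1) := (D.L _).inv_mem (D.hg _ _ (by omega))
  change D.g (2 * n + 1) * (D.q m)⁻¹ ∈ D.S ↔ _
  rw [D.mem_one_iff h1]
  constructor
  · intro h
    rcases D.P1_q h with h' | h' | ⟨m', hm', hE, h'⟩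
    · exfalso
      apply (D.gen (2 * m + 1)).notMem
      change D.q m ∈ _
      rw [inv_eq_one.1 h']
      exact (D.L _).one_mem
    · exfalso
      apply (D.gen (2 * m + 1)).notMem
      change D.q m ∈ _
      rw [inv_eq_iff_eq_inv.1 h']
      exact (D.L _).inv_mem (D.hsL _)
    · rw [D.q_inj (inv_injective h')]
      exact hE
  · intro h
    exact Or.inr ⟨n, rfl, Or.inr (Or.inr ⟨m, hmn, h, rfl⟩)⟩

/-- The designated set. -/
def Qf (τ s : X) (S : Set X) : Set X := {x | x ∈ FCc X ∧ x ∈ S ∧ x * s ∈ S ∧ τ * x * τ⁻¹ ∈ S}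

theorem pos_of_mem {k : ℕ} {x : X} (hx : x ∈ FCc X) (h : D.InS k x) : D.Pos k x := by
  rcases h with h | h
  · exact h
  · rwa [D.self_inv hx] at h

theorem Qf_eq : Qf D.τ D.s D.S = Set.range D.q := by
  ext x
  constructor
  · rintro ⟨hxN, ⟨k, hx⟩, hxs, hxτ⟩
    have hxk : x ∉ D.L k := fun h => absurd (D.lt_of_inS h hx) (lt_irrefl k)
    have hxk1 : x ∈ D.L (k + 1) := D.mem_of_inS (by omega) hx
    rcases D.pos_of_mem hxN hx with ⟨h, hP, he⟩ | ⟨hP, he⟩
    · obtain ⟨l, hl⟩ := hxτ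
      obtain rfl := D.stage_eq (D.conj_mem_iff.2 hxk1) (fun h' => hxk (D.conj_mem_iff.1 h')) hl
      have hN : D.τ * x * D.τ⁻¹ ∈ FCc X := by
        have : (FCc X).Normal := inferInstance
        exact this.conj_mem x hxN D.τ
      have hhL := D.P1_mem hP
      rcases D.pos_of_mem hN hl with ⟨h', hP', he'⟩ | ⟨⟨n, rfl⟩, he'⟩
      · exfalso
        -- τ g h τ⁻¹ = g h'
        have hc : D.τ * h⁻¹ * D.τ⁻¹ ∈ D.L l := D.conj_mem_iff.2 ((D.L l).inv_mem hhL)
        refine D.no_conj (k := l) (b := h' * (D.τ * h⁻¹ * D.τ⁻¹)) (c := 1)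
          ((D.L l).mul_mem (D.P1_mem hP') hc) (D.L l).one_mem ?_
        rw [mul_one, ← mul_assoc, ← he', he]
        group
      · refine ⟨n, ?_⟩
        have h3 : x = D.g (2 * n + 1) := mul_left_cancel (mul_right_cancel he')
        rw [h3]
        rfl
    · exfalso
      obtain ⟨n, rfl⟩ := hP
      obtain ⟨l, hl⟩ := hxs
      have h3 : x * D.s ∉ D.L (2 * n + 1) := fun h' =>
        hxk (((D.L _).mul_mem_cancel_right (D.hsL _)).1 h')
      obtain rfl := D.stage_eq ((D.L _).mul_mem hxk1 (D.hsL _)) h3 hl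
      rcases D.pos_of_mem ((FCc X).mul_mem hxN D.hs) hl with ⟨h', hP', he'⟩ | ⟨-, he'⟩
      · refine D.no_conj (k := 2 * n + 1) (b := h') (c := D.s) (D.P1_mem hP') (D.hsL _) ?_
        rw [← he', he]
      · apply D.hs1
        rw [← he] at he'
        exact mul_eq_left.1 he'
  · rintro ⟨n, rfl⟩
    refine ⟨(D.gen _).fc, ⟨2 * n + 1, Or.inl (Or.inl ⟨1, Or.inr ⟨n, rfl, Or.inl rfl⟩, ?_⟩)⟩,
      ⟨2 * n + 1, Or.inl (Or.inl ⟨D.s, Or.inr ⟨n, rfl, Or.inr (Or.inl rfl)⟩, rfl⟩)⟩,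
      ⟨2 * n + 1, Or.inl (Or.inr ⟨⟨n, rfl⟩, rfl⟩)⟩⟩
    rw [mul_one]
    rfl

end RaData

theorem r1a_coding {X : Type u} [Group X] [Countable X] (hlf : LocFin X) (τ : X)
    (hτ : τ ∉ FCc X) (h2 : ∀ h ∈ FCc X, h * h = 1)
    (gen : ∀ L : Subgroup X, (L : Set X).Finite → ∃ g ∈ FCc X, g ∉ L ∧
      (∀ w ∈ L, w ∉ FCc X → g⁻¹ * w * g ∉ L) ∧
      (∀ b ∈ L, ∀ c ∈ L, c ≠ 1 → (g * b) * (g * b) ≠ c)) :
    Cardinal.mk (SpecialOrbits X) = Cardinal.continuum := by
  classical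
  obtain ⟨s, hsN, hs1, -, -⟩ := gen ⊥ (by simp)
  have hs1' : s ≠ 1 := fun h => hs1 (Subgroup.mem_bot.2 h)
  refine card_of_coding {τ, s} (by simp) (RaData.Qf τ s) ?_ ?_
  · intro S α hα
    have ht : α τ = τ := hα τ (by simp)
    have hs : α s = s := hα s (by simp)
    ext y
    obtain ⟨x, rfl⟩ := α.surjective y
    rw [α.injective.mem_set_image]
    unfold RaData.Qf
    have e1 : α x * s = α (x * s) := by rw [map_mul, hs]
    have e2 : τ * α x * τ⁻¹ = α (τ * x * τ⁻¹) := by rw [map_mul, map_mul, map_inv, ht]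
    constructor
    · rintro ⟨h1, h2, h3, h4⟩
      rw [e1] at h3
      rw [e2] at h4
      exact ⟨(map_mem_FCc_iff α).1 h1, α.injective.mem_set_image.1 h2,
        α.injective.mem_set_image.1 h3, α.injective.mem_set_image.1 h4⟩
    · rintro ⟨h1, h2, h3, h4⟩
      refine ⟨(map_mem_FCc_iff α).2 h1, α.injective.mem_set_image.2 h2, ?_, ?_⟩
      · rw [e1]
        exact α.injective.mem_set_image.2 h3
      · rw [e2]
        exact α.injective.mem_set_image.2 h4
  · intro E hE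
    have hc : Countable {p : Finset X × Finset X // Disjoint p.1 p.2} := inferInstance
    have hne : Nonempty {p : Finset X × Finset X // Disjoint p.1 p.2} := ⟨⟨(∅, ∅), by simp⟩⟩
    obtain ⟨e, he⟩ := exists_surjective_nat {p : Finset X × Finset X // Disjoint p.1 p.2}
    let C : ℕ → Set X := fun n =>
      ({τ, s} : Set X) ∪ ⋃ m : Fin (n + 1), (((e m.1).1.1 ∪ (e m.1).1.2 : Finset X) : Set X)
    have hCfin : ∀ n, (C n).Finite := fun n =>
      (by simp : ({τ, s} : Set X).Finite).union (Set.finite_iUnion (fun m => Finset.finite_toSet _))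
    have hCmono : ∀ m n, m ≤ n → C m ⊆ C n := by
      intro m n hmn
      apply Set.union_subset_union_right
      rintro x hx
      obtain ⟨i, hi⟩ := Set.mem_iUnion.1 hx
      exact Set.mem_iUnion.2 ⟨⟨i.1, by omega⟩, hi⟩
    have hCmem : ∀ n x, (x ∈ (e n).1.1 ∨ x ∈ (e n).1.2) → x ∈ C n := by
      intro n x hx
      refine Or.inr (Set.mem_iUnion.2 ⟨⟨n, by omega⟩, ?_⟩)
      simp only [Finset.coe_union, Set.mem_union, Finset.mem_coe]
      exact hx
    obtain ⟨g, hg⟩ := exists_gen_chain hlf (fun _ => True) RaGen (by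
      intro L hL _
      obtain ⟨g, h1, h2, h3, h4⟩ := gen L hL
      exact ⟨g, h1, h2, h3, h4⟩) C hCfin (by
      intro n L hL
      trivial)
    let D : RaData X :=
      { τ := τ
        s := s
        U := fun n => (e n).1.1
        V := fun n => (e n).1.2
        E := E
        L := fun k => Subgroup.closure (C k ∪ g '' {m | m < k})
        g := g
        h2 := h2
        hτ := hτ
        hs := hsN
        hs1 := hs1'
        disj := fun n => (e n).2
        cover := by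
          intro U' V' hd
          obtain ⟨n, hn⟩ := he ⟨(U', V'), hd⟩
          exact ⟨n, by rw [hn], by rw [hn]⟩
        symm := hE
        mono := by
          intro m n hmn
          apply Subgroup.closure_mono
          apply Set.union_subset_union (hCmono m n hmn)
          apply Set.image_mono
          intro i hi
          exact lt_of_lt_of_le hi hmn
        hτL := fun n => Subgroup.subset_closure (Or.inl (Or.inl (by simp)))
        hsL := fun n => Subgroup.subset_closure (Or.inl (Or.inl (by simp)))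
        hU := fun n u hu => Subgroup.subset_closure (Or.inl (hCmem n u (Or.inl hu)))
        hV := fun n u hu => Subgroup.subset_closure (Or.inl (hCmem n u (Or.inr hu)))
        hg := fun m n hmn => Subgroup.subset_closure (Or.inr ⟨m, hmn, rfl⟩)
        gen := fun k => (hg k).2 }
    refine ⟨D.S, D.special, D.q, D.q_inj, D.Qf_eq, ?_⟩
    intro m n hmn
    rcases lt_or_gt_of_ne hmn with h | h
    · have e4 : (D.q m * (D.q n)⁻¹)⁻¹ = D.q n * (D.q m)⁻¹ := by group
      rw [← D.inv_mem_iff, e4]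
      exact D.edge h
    · rw [D.edge h]
      exact ⟨D.symm n m, D.symm m n⟩

end Pool.Agent.Lib.MP_008109_al.AB
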