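import Pool.Agent.Lib.MP_008109_al.AB.Mult

/-!
# MP_008109_al, module R1B: the FC-centre is proper, of finite index and not of exponent two
-/

set_option autoImplicit false

universe u

namespace Pool.Agent.Lib.MP_008109_al.AB

/-- The generic condition. -/
structure RGen {X : Type u} [Group X] (L : Subgroup X) (g : X) : Prop where
  fc : g ∈ FCc X
  notMem : g ∉ L
  comm : ∀ k ∈ L, k ∈ FCc X → k * g = g * k
  conj : ∀ w ∈ L, w ∉ FCc X → g⁻¹ * w * g ∉ L
  root : ∀ b ∈ L, ∀ c ∈ L, c ≠ 1 → (g * b) * (g * b) ≠ c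
  sq : g * g ∉ L

namespace RGen

variable {X : Type u} [Group X] {L : Subgroup X} {z : X} (hz : RGen L z)
include hz

theorem plus {α β γ δ : X} (hα : α ∈ L) (hβ : β ∈ L) (hγ : γ ∈ L) (hδ : δ ∈ L)
    (h : α * z * β = γ * z * δ) : γ⁻¹ * α ∈ FCc X := by
  by_contra hcon
  apply hz.conj (γ⁻¹ * α) (L.mul_mem (L.inv_mem hγ) hα) hcon
  have e : z⁻¹ * (γ⁻¹ * α) * z = δ * β⁻¹ := by
    calc z⁻¹ * (γ⁻¹ * α) * z = z⁻¹ * γ⁻¹ * (α * z * β) * β⁻¹ := by group
      _ = z⁻¹ * γ⁻¹ * (γ * z * δ) * β⁻¹ := by rw [h]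
      _ = δ * β⁻¹ := by group
  rw [e]
  exact L.mul_mem hδ (L.inv_mem hβ)

theorem minus {α β γ δ : X} (hα : α ∈ L) (hβ : β ∈ L) (hγ : γ ∈ L) (hδ : δ ∈ L)
    (h : α * z * β = (γ * z * δ)⁻¹) : β * γ = δ * α ∧ (z * (β * γ)) * (z * (β * γ)) = 1 := by
  have e : (z * (β * γ)) * (z * (β * γ)) = α⁻¹ * δ⁻¹ * β * γ := by
    calc (z * (β * γ)) * (z * (β * γ)) = α⁻¹ * (α * z * β) * (γ * z * δ) * δ⁻¹ * β * γ := by group
      _ = α⁻¹ * (γ * z * δ)⁻¹ * (γ * z * δ) * δ⁻¹ * β * γ := by rw [h]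
      _ = α⁻¹ * δ⁻¹ * β * γ := by group
  have h1 : α⁻¹ * δ⁻¹ * β * γ = 1 := by
    by_contra hcon
    refine hz.root (β * γ) (L.mul_mem hβ hγ) _ ?_ hcon e
    exact L.mul_mem (L.mul_mem (L.mul_mem (L.inv_mem hα) (L.inv_mem hδ)) hβ) hγ
  refine ⟨?_, by rw [e, h1]⟩
  calc β * γ = δ * α * (α⁻¹ * δ⁻¹ * β * γ) := by group
    _ = δ * α := by rw [h1, mul_one]

theorem no_inv {b : X} (hb : b ∈ L) (hbN : b ∈ FCc X) (h : (z * b) * (z * b) = 1) : False := by
  apply hz.sq
  have hc := hz.comm b hb hbN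
  have e : z * z * (b * b) = 1 := by
    calc z * z * (b * b) = z * (z * b) * b := by group
      _ = z * (b * z) * b := by rw [hc]
      _ = (z * b) * (z * b) := by group
      _ = 1 := h
  rw [mul_eq_one_iff_eq_inv] at e
  rw [e]
  exact L.inv_mem (L.mul_mem hb hb)

end RGen

/-- The ingredients of the construction. -/
structure RData (X : Type u) [Group X] where
  τ : X
  s : X
  U : ℕ → Finset X
  V : ℕ → Finset X
  E : ℕ → ℕ → Prop
  L : ℕ → Subgroup X
  g : ℕ → X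
  hτ : τ ∉ FCc X
  hτ4 : τ * τ ∈ FCc X ∨ τ * τ * τ * τ ∉ FCc X
  hs : s ∉ FCc X
  hs1 : τ * s * τ ≠ s
  hs2 : τ * τ ∈ FCc X → s⁻¹ * τ ≠ τ * s
  disj : ∀ n, Disjoint (U n) (V n)
  cover : ∀ U' V' : Finset X, Disjoint U' V' → ∃ n, U n = U' ∧ V n = V'
  symm : ∀ m n, E m n → E n m
  mono : ∀ m n, m ≤ n → L m ≤ L n
  hτL : ∀ n, τ ∈ L n
  hsL : ∀ n, s ∈ L n
  hU : ∀ n, ∀ u ∈ U n, u ∈ L n
  hV : ∀ n, ∀ u ∈ V n, u ∈ L n
  hg : ∀ m n, m < n → g m ∈ L n
  gen : ∀ k, RGen (L k) (g k)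

namespace RData

variable {X : Type u} [Group X] (D : RData X)

/-- the designated elements -/
def q (n : ℕ) : X := D.g (2 * n + 1) * D.τ

/-- the right factors at odd stages -/
def Aset (n : ℕ) (a : X) : Prop := a = 1 ∨ a = D.s ∨ ∃ m, m < n ∧ D.E m n ∧ a = (D.q m)⁻¹

/-- the first kind of members added at stage `k`: `g k * b` -/
def P1 (k : ℕ) (b : X) : Prop :=
  (∃ n, k = 2 * n ∧ ∃ u ∈ D.U n, b = u⁻¹) ∨ ∃ n, k = 2 * n + 1 ∧ ∃ a, D.Aset n a ∧ b = D.τ * a

/-- the second kind of members added at stage `k`: `τ * g k` -/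
def P2 (k : ℕ) : Prop := ∃ n, k = 2 * n + 1

/-- the members added at stage `k`, up to inversion -/
def Pos (k : ℕ) (x : X) : Prop :=
  (∃ b, D.P1 k b ∧ x = D.g k * b) ∨ (P2 k ∧ x = D.τ * D.g k)

/-- the members added at stage `k` -/
def InS (k : ℕ) (x : X) : Prop := D.Pos k x ∨ D.Pos k x⁻¹

/-- the special subset -/
def S : Set X := {x | ∃ k, D.InS k x}

theorem q_mem {m l : ℕ} (h : 2 * m + 1 < l) : D.q m ∈ D.L l :=
  (D.L l).mul_mem (D.hg _ _ h) (D.hτL _)

theorem q_notMem (m : ℕ) : D.q m ∉ D.L (2 * m + 1) := fun h =>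
  (D.gen _).notMem (((D.L _).mul_mem_cancel_right (D.hτL _)).1 h)

theorem P1_mem {k : ℕ} {b : X} (hP : D.P1 k b) : b ∈ D.L k := by
  rcases hP with ⟨n, rfl, u, hu, rfl⟩ | ⟨n, rfl, a, ha, rfl⟩
  · exact (D.L _).inv_mem (D.mono n _ (by omega) (D.hU n u hu))
  · apply (D.L _).mul_mem (D.hτL _)
    rcases ha with rfl | rfl | ⟨m, hm, -, rfl⟩
    · exact (D.L _).one_mem
    · exact D.hsL _
    · exact (D.L _).inv_mem (D.q_mem (by omega))

theorem inv_mem {x : X} (h : x ∈ D.S) : x⁻¹ ∈ D.S := by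
  obtain ⟨k, h | h⟩ := h
  · exact ⟨k, Or.inr (by simpa using h)⟩
  · exact ⟨k, Or.inl h⟩

theorem inv_mem_iff {x : X} : x⁻¹ ∈ D.S ↔ x ∈ D.S :=
  ⟨fun h => by simpa using D.inv_mem h, D.inv_mem⟩

/-- Lemma A -/
theorem lt_of_inS {k l : ℕ} {y : X} (hy : y ∈ D.L l) (h : D.InS k y) : k < l := by
  by_contra hlt
  rw [not_lt] at hlt
  have hyk : y ∈ D.L k := D.mono _ _ hlt hy
  have key : ∀ y : X, y ∈ D.L k → ¬ D.Pos k y := by
    rintro y hy (⟨b, hP, rfl⟩ | ⟨-, rfl⟩)
    · exact (D.gen k).notMem (((D.L k).mul_mem_cancel_right (D.P1_mem hP)).1 hy)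
    · exact (D.gen k).notMem (((D.L k).mul_mem_cancel_left (D.hτL k)).1 hy)
  rcases h with h | h
  · exact key y hyk h
  · exact key y⁻¹ ((D.L k).inv_mem hyk) h

/-- Lemma B -/
theorem mem_of_inS {k l : ℕ} {y : X} (hkl : k < l) (h : D.InS k y) : y ∈ D.L l := by
  have key : ∀ y : X, D.Pos k y → y ∈ D.L l := by
    rintro y (⟨b, hP, rfl⟩ | ⟨-, rfl⟩)
    · exact (D.L l).mul_mem (D.hg _ _ hkl) (D.mono _ _ hkl.le (D.P1_mem hP))
    · exact (D.L l).mul_mem (D.hτL _) (D.hg _ _ hkl)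
  rcases h with h | h
  · exact key y h
  · have := (D.L l).inv_mem (key _ h)
    simpa using this

theorem stage_eq {k : ℕ} {y : X} (hy : y ∈ D.L (k + 1)) (hy' : y ∉ D.L k) {l : ℕ}
    (hl : D.InS l y) : l = k := by
  have h1 := D.lt_of_inS hy hl
  rcases Nat.lt_succ_iff_lt_or_eq.1 h1 with h2 | h2
  · exact absurd (D.mem_of_inS h2 hl) hy'
  · exact h2

/-- Lemma F -/
theorem form {k : ℕ} {α β : X} (hα : α ∈ D.L k) (hβ : β ∈ D.L k)
    (h : α * D.g k * β ∈ D.S) :
    (α ∈ FCc X ∧ ∃ b, D.P1 k b ∧ α * D.g k * β = D.g k * b) ∨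
    (∃ b, D.P1 k b ∧ β = b * α ∧ (D.g k * β) * (D.g k * β) = 1) ∨
    (P2 k ∧ D.τ⁻¹ * α ∈ FCc X ∧ α * D.g k * β = D.τ * D.g k) ∨
    (P2 k ∧ β * D.τ = α ∧ (D.g k * (β * D.τ)) * (D.g k * (β * D.τ)) = 1) := by
  obtain ⟨l, hl⟩ := h
  have hk1 : α * D.g k * β ∈ D.L (k + 1) :=
    (D.L _).mul_mem ((D.L _).mul_mem (D.mono _ _ (by omega) hα) (D.hg _ _ (by omega)))
      (D.mono _ _ (by omega) hβ)
  have hk2 : α * D.g k * β ∉ D.L k := fun h =>
    (D.gen k).notMem (((D.L k).mul_mem_cancel_left hα).1 (((D.L k).mul_mem_cancel_right hβ).1 h))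
  obtain rfl := D.stage_eq hk1 hk2 hl
  have h1 : (1 : X) ∈ D.L l := (D.L l).one_mem
  rcases hl with (⟨b, hP, he⟩ | ⟨hP, he⟩) | (⟨b, hP, he⟩ | ⟨hP, he⟩)
  · left
    have e : α * D.g l * β = 1 * D.g l * b := by rw [he, one_mul]
    have h2 := (D.gen l).plus hα hβ h1 (D.P1_mem hP) e
    rw [inv_one, one_mul] at h2
    exact ⟨h2, b, hP, he⟩
  · right; right; left
    have e : α * D.g l * β = D.τ * D.g l * 1 := by rw [he, mul_one]
    exact ⟨hP, (D.gen l).plus hα hβ (D.hτL l) h1 e, he⟩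
  · right; left
    have e : α * D.g l * β = (1 * D.g l * b)⁻¹ := by rw [one_mul, ← he, inv_inv]
    have h2 := (D.gen l).minus hα hβ h1 (D.P1_mem hP) e
    rw [mul_one] at h2
    exact ⟨b, hP, h2.1, h2.2⟩
  · right; right; right
    have e : α * D.g l * β = (D.τ * D.g l * 1)⁻¹ := by rw [mul_one, ← he, inv_inv]
    have h2 := (D.gen l).minus hα hβ (D.hτL l) h1 e
    rw [one_mul] at h2
    exact ⟨hP, h2.1, h2.2⟩

/-- Lemma C -/
theorem mem_one_iff {k : ℕ} {a : X} (ha : a ∈ D.L k) : D.g k * a ∈ D.S ↔ D.P1 k a := by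
  constructor
  · intro h
    rcases D.form (D.L k).one_mem ha (by rwa [one_mul]) with
      ⟨-, b, hP, he⟩ | ⟨b, hP, he, -⟩ | ⟨-, hN, -⟩ | ⟨-, he, hsq⟩
    · rw [one_mul] at he
      rw [mul_left_cancel he]
      exact hP
    · rw [mul_one] at he
      rw [he]
      exact hP
    · exfalso
      rw [mul_one] at hN
      exact D.hτ ((FCc X).inv_mem_iff.1 hN)
    · exfalso
      rw [he, mul_one] at hsq
      apply (D.gen k).sq
      rw [hsq]
      exact (D.L k).one_mem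
  · intro h
    exact ⟨k, Or.inl (Or.inl ⟨a, h, rfl⟩)⟩

theorem one_notMem : (1 : X) ∉ D.S := by
  rintro ⟨k, hk⟩
  exact absurd (D.lt_of_inS (l := 0) (D.L 0).one_mem hk) (by omega)

theorem special : IsSpecial D.S := by
  refine ⟨fun s hs => D.inv_mem hs, D.one_notMem, ?_⟩
  intro U' V' hd
  obtain ⟨n, rfl, rfl⟩ := D.cover U' V' hd
  refine ⟨D.g (2 * n), ?_, ?_⟩
  · intro u hu
    change D.g (2 * n) * u⁻¹ ∈ D.S
    rw [D.mem_one_iff ((D.L _).inv_mem (D.mono n _ (by omega) (D.hU n u hu)))]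
    exact Or.inl ⟨n, rfl, u, hu, rfl⟩
  · intro v hv hS
    change D.g (2 * n) * v⁻¹ ∈ D.S at hS
    rw [D.mem_one_iff ((D.L _).inv_mem (D.mono n _ (by omega) (D.hV n v hv)))] at hS
    rcases hS with ⟨n', hn, u, hu, he⟩ | ⟨n', hn, -⟩
    · obtain rfl : n = n' := by omega
      rw [inv_injective he] at hv
      exact (Finset.disjoint_left.1 (D.disj n)) hu hv
    · omega

theorem q_inj : Function.Injective D.q := by
  have key : ∀ m n, m < n → D.q m ≠ D.q n := by
    intro m n hmn h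
    apply D.q_notMem n
    rw [← h]
    exact D.q_mem (by omega)
  intro m n h
  rcases lt_trichotomy m n with h' | h' | h'
  · exact absurd h (key m n h')
  · exact h'
  · exact absurd h.symm (key n m h')

theorem P1_q {n : ℕ} {b : X} (hP : D.P1 (2 * n + 1) b) : ∃ a, D.Aset n a ∧ b = D.τ * a := by
  rcases hP with ⟨n', hn, -⟩ | ⟨n', hn, h'⟩
  · omega
  · obtain rfl : n = n' := by omega
    exact h'

theorem edge {m n : ℕ} (hmn : m < n) : D.q n * (D.q m)⁻¹ ∈ D.S ↔ D.E m n := by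
  have h1 : (D.q m)⁻¹ ∈ D.L (2 * n + 1) := (D.L _).inv_mem (D.q_mem (by omega))
  have e : D.q n * (D.q m)⁻¹ = D.g (2 * n + 1) * (D.τ * (D.q m)⁻¹) := by
    unfold q
    group
  rw [e, D.mem_one_iff ((D.L _).mul_mem (D.hτL _) h1)]
  constructor
  · intro h
    obtain ⟨a, ha, he⟩ := D.P1_q h
    have he' := mul_left_cancel he
    rcases ha with rfl | rfl | ⟨m', hm', hE, rfl⟩
    · exfalso
      apply D.q_notMem m
      rw [inv_eq_one.1 he']
      exact (D.L _).one_mem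
    · exfalso
      apply D.q_notMem m
      rw [inv_eq_iff_eq_inv.1 he']
      exact (D.L _).inv_mem (D.hsL _)
    · rw [D.q_inj (inv_injective he')]
      exact hE
  · intro h
    exact Or.inr ⟨n, rfl, (D.q m)⁻¹, Or.inr (Or.inr ⟨m, hmn, h, rfl⟩), rfl⟩

/-- The designated set. -/
def Qf (τ s : X) (S : Set X) : Set X :=
  {x | x * τ⁻¹ ∈ FCc X ∧ x ∈ S ∧ x * s ∈ S ∧ τ * x * τ⁻¹ ∈ S}

theorem s_ne : D.s ≠ 1 := fun h => D.hs (by rw [h]; exact (FCc X).one_mem)

theorem Qf_eq : Qf D.τ D.s D.S = Set.range D.q := by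
  ext x
  constructor
  · rintro ⟨hxN, ⟨k, hx⟩, hxs, hxc⟩
    have hz := D.gen k
    have hzN : D.g k ∈ FCc X := hz.fc
    have hτL := D.hτL k
    have hsL := D.hsL k
    -- the first kind: `τ g b τ⁻¹ ∈ S`
    have c1 : ∀ b, D.P1 k b → (D.g k * (b * D.τ⁻¹)) * (D.g k * (b * D.τ⁻¹)) ≠ 1 →
        D.τ * D.g k * (b * D.τ⁻¹) ∈ D.S → b = D.τ ∧ P2 k := by
      intro b hP hne h
      rcases D.form hτL ((D.L k).mul_mem (D.P1_mem hP) ((D.L k).inv_mem hτL)) h with
        ⟨hN, -⟩ | ⟨b', hP', -, hsq⟩ | ⟨hP2, -, he⟩ | ⟨hP2, he, -⟩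
      · exact absurd hN D.hτ
      · exact absurd hsq hne
      · refine ⟨?_, hP2⟩
        have h2 : b * D.τ⁻¹ = 1 := by
          have h3 : D.τ * D.g k * (b * D.τ⁻¹) = D.τ * D.g k * 1 := by rw [he, mul_one]
          exact mul_left_cancel h3
        rwa [mul_inv_eq_one] at h2
      · refine ⟨?_, hP2⟩
        rwa [inv_mul_cancel_right] at he
    rcases hx with (⟨b, hP, he⟩ | ⟨⟨n, rfl⟩, he⟩) | (⟨b, hP, he⟩ | ⟨⟨n, rfl⟩, he⟩)
    · -- x = g b
      have hbN : b * D.τ⁻¹ ∈ FCc X := by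
        rw [he, mul_assoc] at hxN
        exact ((FCc X).mul_mem_cancel_left hzN).1 hxN
      have hbL : b * D.τ⁻¹ ∈ D.L k := (D.L k).mul_mem (D.P1_mem hP) ((D.L k).inv_mem hτL)
      have e : D.τ * x * D.τ⁻¹ = D.τ * D.g k * (b * D.τ⁻¹) := by
        rw [he]
        group
      rw [e] at hxc
      obtain ⟨rfl, n, rfl⟩ := c1 b hP (fun h => hz.no_inv hbL hbN h) hxc
      exact ⟨n, he.symm⟩
    · -- x = τ g
      exfalso
      have e : D.τ * x * D.τ⁻¹ = (D.τ * D.τ) * D.g (2 * n + 1) * D.τ⁻¹ := by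
        rw [he]
        group
      rw [e] at hxc
      have hA : D.τ * D.τ ∈ FCc X := by
        rcases D.form ((D.L _).mul_mem hτL hτL) ((D.L _).inv_mem hτL) hxc with
          ⟨hN, -⟩ | ⟨b', hP', -, hsq⟩ | ⟨-, hN, -⟩ | ⟨-, -, hsq⟩
        · exact hN
        · -- modulo the FC-centre
          have h3 : D.g (2 * n + 1) * D.τ⁻¹ * (D.g (2 * n + 1) * D.τ⁻¹) =
              D.g (2 * n + 1) * (D.τ⁻¹ * D.g (2 * n + 1) * D.τ) * (D.τ⁻¹ * D.τ⁻¹) := by group
          rw [h3] at hsq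
          have h4 : D.τ⁻¹ * D.g (2 * n + 1) * D.τ ∈ FCc X := by
            have := (inferInstance : (FCc X).Normal).conj_mem _ hzN D.τ⁻¹
            simpa using this
          have h5 : D.τ⁻¹ * D.τ⁻¹ ∈ FCc X := by
            rw [← (FCc X).mul_mem_cancel_left ((FCc X).mul_mem hzN h4), hsq]
            exact (FCc X).one_mem
          have h6 := (FCc X).inv_mem h5
          simpa using h6
        · exfalso
          rw [inv_mul_cancel_left] at hN
          exact D.hτ hN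
        · exfalso
          rw [inv_mul_cancel, mul_one] at hsq
          apply hz.sq
          rw [hsq]
          exact (D.L _).one_mem
      rw [he] at hxs
      rcases D.form hτL hsL hxs with ⟨hN, -⟩ | ⟨b', hP', hb, -⟩ | ⟨-, -, he'⟩ | ⟨-, he', -⟩
      · exact D.hτ hN
      · obtain ⟨a, ha, rfl⟩ := D.P1_q hP'
        rcases ha with rfl | rfl | ⟨m, hm, -, rfl⟩
        · apply D.hs
          rw [hb, mul_one]
          exact hA
        · exact D.hs1 hb.symm
        · apply D.q_notMem m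
          have h3 : D.q m = D.τ * D.s⁻¹ * D.τ := by
            have h4 : (D.q m)⁻¹ = D.τ⁻¹ * D.s * D.τ⁻¹ := by
              rw [hb]
              group
            rw [← inv_inj, h4]
            group
          rw [h3]
          exact (D.L _).mul_mem ((D.L _).mul_mem (D.hτL _) ((D.L _).inv_mem (D.hsL _)))
            (D.hτL _)
      · apply D.s_ne
        have h3 : D.τ * D.g (2 * n + 1) * D.s = D.τ * D.g (2 * n + 1) * 1 := by
          rw [he', mul_one]
        exact mul_left_cancel h3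
      · exact D.s_ne (mul_eq_right.1 he')
    · -- x⁻¹ = g b
      have hτb : D.τ * b ∈ FCc X := by
        have h3 := (FCc X).inv_mem hxN
        rw [mul_inv_rev, inv_inv, he] at h3
        have h4 : D.τ * (D.g k * b) = (D.τ * D.g k * D.τ⁻¹) * (D.τ * b) := by group
        rw [h4] at h3
        exact ((FCc X).mul_mem_cancel_left
          ((inferInstance : (FCc X).Normal).conj_mem _ hzN D.τ)).1 h3
      have hbL : b * D.τ⁻¹ ∈ D.L k := (D.L k).mul_mem (D.P1_mem hP) ((D.L k).inv_mem hτL)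
      have hne : (D.g k * (b * D.τ⁻¹)) * (D.g k * (b * D.τ⁻¹)) ≠ 1 := by
        intro hsq
        rcases D.hτ4 with hA | hB
        · apply hz.no_inv hbL _ hsq
          -- b τ⁻¹ = (τ⁻¹ (τ b) τ) (τ τ)⁻¹ τ ... modulo N
          have h3 : b * D.τ⁻¹ = (D.τ⁻¹ * (D.τ * b) * D.τ) * (D.τ * D.τ)⁻¹ := by group
          rw [h3]
          apply (FCc X).mul_mem _ ((FCc X).inv_mem hA)
          have := (inferInstance : (FCc X).Normal).conj_mem _ hτb D.τ⁻¹
          simpa using this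
        · apply hB
          -- pass to the quotient
          have hq : ((D.g k * (b * D.τ⁻¹) * (D.g k * (b * D.τ⁻¹)) : X) : X ⧸ FCc X) = 1 := by
            rw [hsq]
            rfl
          have hg1 : ((D.g k : X) : X ⧸ FCc X) = 1 := (QuotientGroup.eq_one_iff _).2 hzN
          have hb1 : ((b : X) : X ⧸ FCc X) = ((D.τ : X) : X ⧸ FCc X)⁻¹ := by
            have h5 : ((D.τ * b : X) : X ⧸ FCc X) = 1 := (QuotientGroup.eq_one_iff _).2 hτb
            rw [QuotientGroup.mk_mul] at h5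
            exact (eq_inv_of_mul_eq_one_right h5)
          simp only [QuotientGroup.mk_mul, QuotientGroup.mk_inv, hg1, hb1, one_mul] at hq
          have h6 : ((D.τ * D.τ * D.τ * D.τ : X) : X ⧸ FCc X) = 1 := by
            simp only [QuotientGroup.mk_mul]
            have h7 := congrArg Inv.inv hq
            simp only [mul_inv_rev, inv_inv, inv_one] at h7
            simpa [mul_assoc] using h7
          exact (QuotientGroup.eq_one_iff _).1 h6
      have hxc' := D.inv_mem hxc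
      have e : (D.τ * x * D.τ⁻¹)⁻¹ = D.τ * D.g k * (b * D.τ⁻¹) := by
        have h3 : (D.τ * x * D.τ⁻¹)⁻¹ = D.τ * x⁻¹ * D.τ⁻¹ := by group
        rw [h3, he]
        group
      rw [e] at hxc'
      obtain ⟨rfl, n, rfl⟩ := c1 b hP hne hxc'
      -- x = q⁻¹
      have hxs' := D.inv_mem hxs
      rw [mul_inv_rev, he, ← mul_assoc] at hxs'
      rcases D.form ((D.L _).inv_mem hsL) hτL hxs' with
        ⟨hN, -⟩ | ⟨b', hP', -, hsq⟩ | ⟨-, hN, he'⟩ | ⟨-, he', -⟩
      · exact absurd ((FCc X).inv_mem_iff.1 hN) D.hs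
      · refine ⟨n, ?_⟩
        have h3 : x = (D.g (2 * n + 1) * D.τ)⁻¹ := by rw [← he, inv_inv]
        rw [h3]
        exact eq_inv_of_mul_eq_one_left hsq
      · exfalso
        have hc := hz.comm _ ((D.L _).mul_mem ((D.L _).inv_mem hτL) ((D.L _).inv_mem hsL)) hN
        have h3 : D.g (2 * n + 1) * (D.τ⁻¹ * D.s⁻¹ * D.τ) = D.g (2 * n + 1) * 1 := by
          calc D.g (2 * n + 1) * (D.τ⁻¹ * D.s⁻¹ * D.τ) =
              (D.g (2 * n + 1) * (D.τ⁻¹ * D.s⁻¹)) * D.τ := by group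
            _ = (D.τ⁻¹ * D.s⁻¹ * D.g (2 * n + 1)) * D.τ := by rw [hc]
            _ = D.τ⁻¹ * (D.s⁻¹ * D.g (2 * n + 1) * D.τ) := by group
            _ = D.τ⁻¹ * (D.τ * D.g (2 * n + 1)) := by rw [he']
            _ = D.g (2 * n + 1) * 1 := by group
        have h4 := mul_left_cancel h3
        apply D.s_ne
        have h5 : D.s = (D.τ * (D.τ⁻¹ * D.s⁻¹ * D.τ) * D.τ⁻¹)⁻¹ := by group
        rw [h5, h4]
        group
      · exfalso
        apply D.hs
        apply (FCc X).inv_mem_iff.1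
        rw [← he']
        exact hτb
    · -- x⁻¹ = τ g
      exfalso
      have hA : D.τ * D.τ ∈ FCc X := by
        have h3 := (FCc X).inv_mem hxN
        rw [mul_inv_rev, inv_inv, he, ← mul_assoc] at h3
        exact ((FCc X).mul_mem_cancel_right hzN).1 h3
      have hxs' := D.inv_mem hxs
      have e : (x * D.s)⁻¹ = (D.s⁻¹ * D.τ) * D.g (2 * n + 1) * 1 := by
        rw [mul_inv_rev, he]
        group
      rw [e] at hxs'
      rcases D.form ((D.L _).mul_mem ((D.L _).inv_mem hsL) hτL) (D.L _).one_mem hxs' with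
        ⟨hN, b', hP', he'⟩ | ⟨b', hP', -, hsq⟩ | ⟨-, hN, -⟩ | ⟨-, he', -⟩
      · have hc := hz.comm _ ((D.L _).mul_mem ((D.L _).inv_mem hsL) hτL) hN
        rw [mul_one, hc] at he'
        have h3 := mul_left_cancel he'
        obtain ⟨a, ha, rfl⟩ := D.P1_q hP'
        rcases ha with rfl | rfl | ⟨m, hm, -, rfl⟩
        · rw [mul_one] at h3
          exact D.s_ne (inv_eq_one.1 (mul_eq_right.1 h3))
        · exact D.hs2 hA h3
        · apply D.q_notMem m
          have h4 : D.q m = D.τ⁻¹ * D.s * D.τ := by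
            have h5 : (D.q m)⁻¹ = D.τ⁻¹ * (D.s⁻¹ * D.τ) := by
              rw [h3]
              group
            rw [← inv_inj, h5]
            group
          rw [h4]
          exact (D.L _).mul_mem ((D.L _).mul_mem ((D.L _).inv_mem (D.hτL _)) (D.hsL _)) (D.hτL _)
      · rw [mul_one] at hsq
        apply hz.sq
        rw [hsq]
        exact (D.L _).one_mem
      · apply D.hs
        have h3 := (inferInstance : (FCc X).Normal).conj_mem _ hN D.τ
        have h4 : D.τ * (D.τ⁻¹ * (D.s⁻¹ * D.τ)) * D.τ⁻¹ = D.s⁻¹ := by group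
        rw [h4] at h3
        exact (FCc X).inv_mem_iff.1 h3
      · rw [one_mul] at he'
        exact D.s_ne (inv_eq_one.1 (mul_eq_right.1 he'.symm))
  · rintro ⟨n, rfl⟩
    refine ⟨?_, ⟨2 * n + 1, Or.inl (Or.inl ⟨D.τ, Or.inr ⟨n, rfl, 1, Or.inl rfl, ?_⟩, rfl⟩)⟩,
      ⟨2 * n + 1, Or.inl (Or.inl ⟨D.τ * D.s, Or.inr ⟨n, rfl, D.s, Or.inr (Or.inl rfl), rfl⟩, ?_⟩)⟩,
      ⟨2 * n + 1, Or.inl (Or.inr ⟨⟨n, rfl⟩, ?_⟩)⟩⟩
    · unfold q
      rw [mul_inv_cancel_right]
      exact (D.gen _).fc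
    · rw [mul_one]
    · unfold q
      rw [mul_assoc]
    · unfold q
      group

end RData

theorem r1b_coding {X : Type u} [Group X] [Countable X] (hlf : LocFin X) (τ : X)
    (hτ : τ ∉ FCc X) (hτ4 : τ * τ ∈ FCc X ∨ τ * τ * τ * τ ∉ FCc X)
    (gen : ∀ L : Subgroup X, (L : Set X).Finite → ∃ g ∈ FCc X, g ∉ L ∧
      (∀ k ∈ L, k ∈ FCc X → k * g = g * k) ∧
      (∀ w ∈ L, w ∉ FCc X → g⁻¹ * w * g ∉ L) ∧
      (∀ b ∈ L, ∀ c ∈ L, c ≠ 1 → (g * b) * (g * b) ≠ c) ∧ g * g ∉ L) :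
    Cardinal.mk (SpecialOrbits X) = Cardinal.continuum := by
  classical
  -- the parameter s
  have hfin1 : (Subgroup.closure ({τ} : Set X) : Set X).Finite := by
    have := hlf {τ}
    simpa using this
  obtain ⟨w, hwN, -, -, hwc, -, hwsq⟩ := gen _ hfin1
  have hτcl : τ ∈ Subgroup.closure ({τ} : Set X) := Subgroup.subset_closure rfl
  have hs : w * τ ∉ FCc X := fun h => hτ (((FCc X).mul_mem_cancel_left hwN).1 h)
  have hs1 : τ * (w * τ) * τ ≠ w * τ := by
    intro h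
    apply hwc τ hτcl hτ
    have h3 : w⁻¹ * τ * w = τ⁻¹ := by
      have h4 : τ * w * τ = w := by
        have h5 : τ * w * τ * τ = w * τ := by
          rw [← h]
          group
        exact mul_right_cancel h5
      calc w⁻¹ * τ * w = w⁻¹ * (τ * w * τ) * τ⁻¹ := by group
        _ = w⁻¹ * w * τ⁻¹ := by rw [h4]
        _ = τ⁻¹ := by group
    rw [h3]
    exact (Subgroup.closure _).inv_mem hτcl
  have hs2 : (w * τ)⁻¹ * τ ≠ τ * (w * τ) := by
    intro h
    apply hwsq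
    have h3 : w * w = (τ * τ)⁻¹ := by
      have h4 : w⁻¹ = τ * τ * w := by
        calc w⁻¹ = τ * ((w * τ)⁻¹ * τ) * τ⁻¹ := by group
          _ = τ * (τ * (w * τ)) * τ⁻¹ := by rw [h]
          _ = τ * τ * w := by group
      calc w * w = (τ * τ)⁻¹ * (τ * τ * w) * w := by group
        _ = (τ * τ)⁻¹ * w⁻¹ * w := by rw [← h4]
        _ = (τ * τ)⁻¹ := by group
    rw [h3]
    exact (Subgroup.closure _).inv_mem ((Subgroup.closure _).mul_mem hτcl hτcl)
  refine card_of_coding {τ, w * τ} ((Set.finite_singleton _).insert _) (RData.Qf τ (w * τ)) ?_ ?_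
  · intro S α hα
    have hατ : α τ = τ := hα τ (Or.inl rfl)
    have hαs : α (w * τ) = w * τ := hα _ (Or.inr rfl)
    ext y
    obtain ⟨x, rfl⟩ := α.surjective y
    rw [α.injective.mem_set_image]
    have e0 : α x * τ⁻¹ = α (x * τ⁻¹) := by rw [map_mul, map_inv, hατ]
    have e1 : α x * (w * τ) = α (x * (w * τ)) := by rw [map_mul α x, hαs]
    have e2 : τ * α x * τ⁻¹ = α (τ * x * τ⁻¹) := by rw [map_mul, map_mul, map_inv, hατ]
    constructor
    · rintro ⟨h1, h2, h3, h4⟩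
      rw [e0] at h1
      rw [e1] at h3
      rw [e2] at h4
      exact ⟨(map_mem_FCc_iff α).1 h1, α.injective.mem_set_image.1 h2,
        α.injective.mem_set_image.1 h3, α.injective.mem_set_image.1 h4⟩
    · rintro ⟨h1, h2, h3, h4⟩
      refine ⟨?_, α.injective.mem_set_image.2 h2, ?_, ?_⟩
      · rw [e0]
        exact (map_mem_FCc_iff α).2 h1
      · rw [e1]
        exact α.injective.mem_set_image.2 h3
      · rw [e2]
        exact α.injective.mem_set_image.2 h4
  · intro E hE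
    have hc : Countable {p : Finset X × Finset X // Disjoint p.1 p.2} := inferInstance
    have hne : Nonempty {p : Finset X × Finset X // Disjoint p.1 p.2} := ⟨⟨(∅, ∅), by simp⟩⟩
    obtain ⟨e, he⟩ := exists_surjective_nat {p : Finset X × Finset X // Disjoint p.1 p.2}
    let C : ℕ → Set X := fun n =>
      {τ, w * τ} ∪ ⋃ m : Fin (n + 1), (((e m.1).1.1 ∪ (e m.1).1.2 : Finset X) : Set X)
    have hCfin : ∀ n, (C n).Finite := fun n =>
      ((Set.finite_singleton _).insert _).union (Set.finite_iUnion (fun m => Finset.finite_toSet _))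
    have hCmono : ∀ m n, m ≤ n → C m ⊆ C n := by
      intro m n hmn
      apply Set.union_subset_union_right
      rintro x hx
      obtain ⟨i, hi⟩ := Set.mem_iUnion.1 hx
      exact Set.mem_iUnion.2 ⟨⟨i.1, by omega⟩, hi⟩
    have hCmem : ∀ n x, (x ∈ (e n).1.1 ∨ x ∈ (e n).1.2) → x ∈ C n := by
      intro n x hx
      refine Or.inr (Set.mem_iUnion.2 ⟨⟨n, by omega⟩, ?_⟩)
      simp only [Finset.coe_union, Set.mem_union, Finset.mem_coe]
      exact hx
    obtain ⟨g, hg⟩ := exists_gen_chain hlf (fun _ => True) RGen (by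
      intro L hL _
      obtain ⟨g, h1, h2, h3, h4, h5, h6⟩ := gen L hL
      exact ⟨g, h1, h2, h3, h4, h5, h6⟩) C hCfin (fun _ _ _ => trivial)
    let D : RData X :=
      { τ := τ
        s := w * τ
        U := fun n => (e n).1.1
        V := fun n => (e n).1.2
        E := E
        L := fun k => Subgroup.closure (C k ∪ g '' {m | m < k})
        g := g
        hτ := hτ
        hτ4 := hτ4
        hs := hs
        hs1 := hs1
        hs2 := fun _ => hs2
        disj := fun n => (e n).2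
        cover := by
          intro U' V' hd
          obtain ⟨n, hn⟩ := he ⟨(U', V'), hd⟩
          exact ⟨n, by rw [hn], by rw [hn]⟩
        symm := hE
        mono := by
          intro m n hmn
          apply Subgroup.closure_mono
          apply Set.union_subset_union (hCmono m n hmn)
          apply Set.image_mono
          intro i hi
          exact lt_of_lt_of_le hi hmn
        hτL := fun n => Subgroup.subset_closure (Or.inl (Or.inl (Or.inl rfl)))
        hsL := fun n => Subgroup.subset_closure (Or.inl (Or.inl (Or.inr rfl)))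
        hU := fun n u hu => Subgroup.subset_closure (Or.inl (hCmem n u (Or.inl hu)))
        hV := fun n u hu => Subgroup.subset_closure (Or.inl (hCmem n u (Or.inr hu)))
        hg := fun m n hmn => Subgroup.subset_closure (Or.inr ⟨m, hmn, rfl⟩)
        gen := fun k => (hg k).2 }
    refine ⟨D.S, D.special, D.q, D.q_inj, D.Qf_eq, ?_⟩
    intro m n hmn
    rcases lt_or_gt_of_ne hmn with h | h
    · have e4 : (D.q m * (D.q n)⁻¹)⁻¹ = D.q n * (D.q m)⁻¹ := by group
      rw [← D.inv_mem_iff, e4]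
      exact D.edge h
    · rw [D.edge h]
      exact ⟨D.symm n m, D.symm m n⟩

end Pool.Agent.Lib.MP_008109_al.AB
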