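import Pool.Agent.Lib.MP_008109_al.AB.GenNfc
import Pool.Agent.Lib.MP_008109_al.AB.Nfc
import Pool.Agent.Lib.MP_008109_al.AB.GenFc
import Pool.Agent.Lib.MP_008109_al.AB.Fc
import Pool.Agent.Lib.MP_008109_al.AB.GenR1
import Pool.Agent.Lib.MP_008109_al.AB.R1a
import Pool.Agent.Lib.MP_008109_al.AB.R1b
import Pool.Agent.Lib.MP_008109_al.AB.Derived
import Pool.Agent.Lib.MP_008109_al.AB.Invariant
import Pool.Agent.Lib.MP_008109_al.AB.LocFin

/-!
# MP_008109_al: the main theorem on arbitrary countable groups with property (†)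
-/

set_option autoImplicit false

universe u

namespace Pool.Agent.Lib.MP_008109_al.AB

/-- The set of cubes. -/
def cubeSet (X : Type u) [Group X] : Set X := {y : X | ∃ x : X, y = x * x * x}

/-- Exactly continuum many orbits for every countable group with (†) which is not of exponent two
and in which the commutator subgroup or the set of cubes is infinite. -/
theorem card_of_infinite {X : Type u} [Group X] [Countable X] (hX : HasDagger X)
    (h2 : ∃ x : X, x * x ≠ 1) (h : (commutator X : Set X).Infinite ∨ (cubeSet X).Infinite) :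
    Cardinal.mk (SpecialOrbits X) = Cardinal.continuum := by
  by_cases hlf : LocFin X
  swap
  · unfold LocFin at hlf
    push Not at hlf
    obtain ⟨F, hF⟩ := hlf
    exact card_of_not_locallyFinite hX F hF
  by_cases hidx : (FCc X).index = 0
  · apply nfc_coding hlf
    intro L hL
    obtain ⟨g, h1, h2, h3⟩ := exists_gen_nfc hX hidx (L : Set X) hL
    exact ⟨g, h1, fun w hw hwN hmem => h2 w hw hwN _ hmem rfl, h3⟩
  have hFI : (FCc X).FiniteIndex := ⟨hidx⟩
  by_cases htop : FCc X = ⊤
  · by_cases h3 : (cubeSet X).Infinite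
    · obtain ⟨x, hx⟩ := h2
      obtain ⟨F4, hF4, -, gen⟩ := exists_gen_fc hX hlf ⟨x, by rw [htop]; trivial, hx⟩ (by
        refine h3.mono ?_
        rintro y ⟨x, rfl⟩
        exact ⟨x, by rw [htop]; trivial, rfl⟩)
      exact fc_coding hlf F4 hF4 gen
    · have hc : (commutator X : Set X).Infinite := h.resolve_right h3
      rw [Set.not_infinite] at h3
      refine card_of_invariant_subgroup hX hlf htop h3 ∅ Set.finite_empty (commutator X)
        (commutator_index_eq_zero hlf htop h3 hc) hc ?_
      intro α _ x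
      have hchar : (commutator X).map (α : X →* X) = commutator X :=
        (Subgroup.characteristic_iff_map_eq.1 inferInstance) α
      constructor
      · intro hx
        rw [← hchar] at hx
        obtain ⟨y, hy, hyx⟩ := hx
        have : y = x := α.injective hyx
        rw [← this]
        exact hy
      · intro hx
        rw [← hchar]
        exact ⟨x, hx, rfl⟩
  · obtain ⟨τ0, hτ0⟩ : ∃ τ0, τ0 ∉ FCc X := by
      by_contra hcon
      push Not at hcon
      exact htop (eq_top_iff.2 fun x _ => hcon x)
    by_cases hN2 : ∀ h ∈ FCc X, h * h = 1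
    · apply r1a_coding hlf τ0 hτ0 hN2
      intro L hL
      obtain ⟨g, h1, h2, h3, h4, h5, h6⟩ := exists_gen_r1 hX hlf L hL
      exact ⟨g, h1, h2, h4, h5⟩
    · push Not at hN2
      have gen : ∀ L : Subgroup X, (L : Set X).Finite → ∃ g ∈ FCc X, g ∉ L ∧
          (∀ k ∈ L, k ∈ FCc X → k * g = g * k) ∧
          (∀ w ∈ L, w ∉ FCc X → g⁻¹ * w * g ∉ L) ∧
          (∀ b ∈ L, ∀ c ∈ L, c ≠ 1 → (g * b) * (g * b) ≠ c) ∧ g * g ∉ L := by
        intro L hL
        obtain ⟨g, h1, h2, h3, h4, h5, h6⟩ := exists_gen_r1 hX hlf L hL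
        exact ⟨g, h1, h2, h3, h4, h5, h6 hN2⟩
      by_cases hs : τ0 * τ0 ∈ FCc X
      · exact r1b_coding hlf τ0 hτ0 (Or.inl hs) gen
      · by_cases hq : τ0 * τ0 * τ0 * τ0 ∈ FCc X
        · refine r1b_coding hlf (τ0 * τ0) hs (Or.inl ?_) gen
          have e : τ0 * τ0 * (τ0 * τ0) = τ0 * τ0 * τ0 * τ0 := by group
          rw [e]
          exact hq
        · exact r1b_coding hlf τ0 hτ0 (Or.inr hq) gen

/-- Exactly continuum many orbits if the commutator subgroup and the set of cubes are finite and
the centre is infinite and of infinite index. -/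
theorem card_of_center {X : Type u} [Group X] [Countable X] (hX : HasDagger X)
    (hc : (commutator X : Set X).Finite) (h3 : (cubeSet X).Finite)
    (hZ : (Subgroup.center X : Set X).Infinite) (hZi : (Subgroup.center X).index = 0) :
    Cardinal.mk (SpecialOrbits X) = Cardinal.continuum := by
  by_cases hlf : LocFin X
  swap
  · unfold LocFin at hlf
    push Not at hlf
    obtain ⟨F, hF⟩ := hlf
    exact card_of_not_locallyFinite hX F hF
  refine card_of_invariant_subgroup hX hlf (fcc_eq_top hc) h3 ∅ Set.finite_empty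
    (Subgroup.center X) hZi hZ ?_
  intro α _ x
  have hchar : (Subgroup.center X).map (α : X →* X) = Subgroup.center X :=
    (Subgroup.characteristic_iff_map_eq.1 inferInstance) α
  constructor
  · intro hx
    rw [← hchar] at hx
    obtain ⟨y, hy, hyx⟩ := hx
    have : y = x := α.injective hyx
    rw [← this]
    exact hy
  · intro hx
    rw [← hchar]
    exact ⟨x, hx, rfl⟩

end Pool.Agent.Lib.MP_008109_al.AB
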