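import Pool.Agent.Lib.MP_008109_al.AB.Spec2
import Pool.Agent.Lib.MP_008109_al.AB.Count

/-!
# MP_008109_al: counting from a coding of graphs, multiplicative form; generic chains
-/

set_option autoImplicit false

universe u

namespace Pool.Agent.Lib.MP_008109_al.AB

/-- Counting from a coding.  `Qf S` is a set attached to `S` which is equivariant under the
automorphisms that fix the finite set `A0` pointwise; every symmetric relation on the natural
numbers is coded by a special subset. -/
theorem card_of_coding {X : Type u} [Group X] [Countable X] (A0 : Set X) (hA0 : A0.Finite)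
    (Qf : Set X → Set X)
    (hQ : ∀ (S : Set X) (α : X ≃* X), (∀ a ∈ A0, α a = a) → Qf (α '' S) = α '' Qf S)
    (hcod : ∀ E : ℕ → ℕ → Prop, (∀ m n, E m n → E n m) →
      ∃ S : Set X, IsSpecial S ∧ ∃ q : ℕ → X, Function.Injective q ∧ Qf S = Set.range q ∧
        ∀ m n, m ≠ n → (q m * (q n)⁻¹ ∈ S ↔ E m n)) :
    Cardinal.mk (SpecialOrbits X) = Cardinal.continuum := by
  classical
  choose S hS q hq hQS hE using fun A : Set ℕ => hcod (CNTM.E A) (CNTM.E_symm A)
  let J : Set X → Set ℕ := fun T => {n | ∃ x ∈ Qf T, Set.ncard {y | y ∈ Qf T ∧ x * y⁻¹ ∈ T} = n}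
  have hJ : ∀ (T : Set X) (α : X ≃* X), (∀ a ∈ A0, α a = a) → J (α '' T) = J T := by
    intro T α hα
    have hnb : ∀ x, {y | y ∈ Qf (α '' T) ∧ α x * y⁻¹ ∈ α '' T} =
        α '' {y | y ∈ Qf T ∧ x * y⁻¹ ∈ T} := by
      intro x
      ext y
      obtain ⟨z, rfl⟩ := α.surjective y
      rw [α.injective.mem_set_image, hQ T α hα]
      simp only [Set.mem_setOf_eq]
      rw [← map_inv, ← map_mul, α.injective.mem_set_image, α.injective.mem_set_image]
    ext n
    simp only [J, Set.mem_setOf_eq]
    constructor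
    · rintro ⟨w, hw, h⟩
      obtain ⟨x, rfl⟩ := α.surjective w
      rw [hnb, Set.ncard_image_of_injective _ α.injective] at h
      rw [hQ T α hα, α.injective.mem_set_image] at hw
      exact ⟨x, hw, h⟩
    · rintro ⟨x, hx, h⟩
      refine ⟨α x, ?_, ?_⟩
      · rw [hQ T α hα, α.injective.mem_set_image]
        exact hx
      · rw [hnb, Set.ncard_image_of_injective _ α.injective]
        exact h
  have hdec : ∀ A k, k + 1 ∈ J (S A) ↔ k ∈ A := by
    intro A k
    have h1 : ∀ a, (1 : X) ∉ S a := fun a => (hS a).2.1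
    have hnb : ∀ i, {y | y ∈ Qf (S A) ∧ q A i * y⁻¹ ∈ S A} = q A '' {j | CNTM.E A i j} := by
      intro i
      ext y
      rw [hQS A]
      simp only [Set.mem_setOf_eq, Set.mem_image, Set.mem_range]
      constructor
      · rintro ⟨⟨j, rfl⟩, h2⟩
        have hij : i ≠ j := by
          rintro rfl
          rw [mul_inv_cancel] at h2
          exact h1 A h2
        exact ⟨j, (hE A i j hij).1 h2, rfl⟩
      · rintro ⟨j, hj, rfl⟩
        exact ⟨⟨j, rfl⟩, (hE A i j hj.1).2 hj⟩
    have hcard : ∀ i, Set.ncard {y | y ∈ Qf (S A) ∧ q A i * y⁻¹ ∈ S A} =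
        Set.ncard {j | CNTM.E A i j} := by
      intro i
      rw [hnb, Set.ncard_image_of_injective _ (hq A)]
    constructor
    · rintro ⟨x, hx, h⟩
      rw [hQS A] at hx
      obtain ⟨i, rfl⟩ := hx
      rw [hcard] at h
      have hne : {j | CNTM.E A i j}.Nonempty := by
        rw [Set.nonempty_iff_ne_empty]
        intro h0
        rw [h0, Set.ncard_empty] at h
        omega
      obtain ⟨j, hj⟩ := hne
      have h2 := CNTM.ncard_E A i hj.2.2.1 hj.2.2.2.1
      rw [h2] at h
      have h3 : (Nat.unpair i).1 = k := by omega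
      rw [← h3]
      exact hj.2.2.1
    · intro hk
      refine ⟨q A (Nat.pair k 0), ?_, ?_⟩
      · rw [hQS A]
        exact ⟨_, rfl⟩
      · rw [hcard, CNTM.ncard_E]
        · rw [Nat.unpair_pair]
        · rw [Nat.unpair_pair]
          exact hk
        · rw [Nat.unpair_pair]
          show 0 < k + 2
          omega
  refine card_of_family S hS A0 hA0 ?_
  intro A B α hα hAB
  ext k
  rw [← hdec A k, ← hdec B k, ← hAB, hJ _ α hα]

/-- Generic chains over finite subgroups. -/
theorem exists_gen_chain {X : Type u} [Group X] (hlf : LocFin X) (P : Subgroup X → Prop)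
    (Q : Subgroup X → X → Prop)
    (gen : ∀ L : Subgroup X, (L : Set X).Finite → P L → ∃ g, Q L g)
    (C : ℕ → Set X) (hC : ∀ n, (C n).Finite)
    (hP : ∀ n, ∀ L : Subgroup X, C n ⊆ L → P L) :
    ∃ g : ℕ → X, ∀ k, (Subgroup.closure (C k ∪ g '' {m | m < k}) : Set X).Finite ∧
      Q (Subgroup.closure (C k ∪ g '' {m | m < k})) (g k) := by
  classical
  have hfin : ∀ (K : Set X), K.Finite → (Subgroup.closure K : Set X).Finite := by
    intro K hK
    have := hlf hK.toFinset
    rwa [Set.Finite.coe_toFinset] at this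
  have hset : ∀ (n : ℕ) (f : (m : ℕ) → m < n → X),
      (C n ∪ {x | ∃ (m : ℕ) (h : m < n), x = f m h}).Finite := by
    intro n f
    refine (hC n).union ?_
    refine (Set.finite_range (fun i : Fin n => f i.1 i.2)).subset ?_
    rintro x ⟨m, h, rfl⟩
    exact ⟨⟨m, h⟩, rfl⟩
  obtain ⟨g, hg⟩ := exists_seq_rel (α := X) (fun n f a =>
    Q (Subgroup.closure (C n ∪ {x | ∃ (m : ℕ) (h : m < n), x = f m h})) a) (by
      intro n f
      apply gen _ (hfin _ (hset n f))
      apply hP n
      exact Set.Subset.trans Set.subset_union_left Subgroup.subset_closure)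
  refine ⟨g, fun k => ?_⟩
  have e : g '' {m | m < k} = {x | ∃ (m : ℕ) (h : m < k), x = g m} := by
    ext x
    constructor
    · rintro ⟨m, hm, rfl⟩
      exact ⟨m, hm, rfl⟩
    · rintro ⟨m, hm, rfl⟩
      exact ⟨m, hm, rfl⟩
  rw [e]
  exact ⟨hfin _ (hset k (fun m _ => g m)), hg k⟩

end Pool.Agent.Lib.MP_008109_al.AB
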