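import Pool.Agent.Lib.MP_008109_al.AB.PrescribeCore
import Pool.Agent.Lib.MP_008109_al.AB.Absorb

/-!
# MP_008109_al, module PRE: special subsets with a prescribed trace on a subgroup of infinite index
-/

set_option autoImplicit false

universe u

namespace Pool.Agent.Lib.MP_008109_al.AB

theorem exists_special_prescribed {X : Type u} [Group X] [Countable X] (hX : HasDagger X)
    (H : Subgroup X) (hH : H.index = 0) (D : Set X) (hD : D ⊆ H) (hDi : ∀ d ∈ D, d⁻¹ ∈ D)
    (h1 : (1 : X) ∉ D) : ∃ S : Set X, IsSpecial S ∧ S ∩ H = D :=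
  exists_special_prescribed_of (fun A hA => by
    obtain ⟨z, _, hz⟩ := exists_avoid hX hA ⊤ 1
    exact ⟨z, hz⟩) H hH D hD hDi h1

end Pool.Agent.Lib.MP_008109_al.AB
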