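import Pool.Agent.Lib.MP_008109_al.AB.Spec2

/-!
# MP_008109_al, module PRE: special subsets with a prescribed trace on a subgroup of infinite index

Only the existence of points outside avoidable sets is used.
-/

set_option autoImplicit false

universe u

namespace Pool.Agent.Lib.MP_008109_al.AB

namespace PREM

variable {X : Type u} [Group X]

/-- the conjugate `w⁻¹ H w` -/
def cj (H : Subgroup X) (w : X) : Subgroup X := H.map (MulAut.conj w⁻¹).toMonoidHom

theorem cj_index {H : Subgroup X} (hH : H.index = 0) (w : X) : (cj H w).index = 0 := by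
  unfold cj
  rw [Subgroup.index_map_of_bijective]
  · exact hH
  · exact (MulAut.conj w⁻¹).bijective

theorem mem_cj {H : Subgroup X} {w z : X} (h : z * w⁻¹ ∈ H) : w⁻¹ * z ∈ cj H w := by
  unfold cj
  rw [Subgroup.mem_map]
  refine ⟨z * w⁻¹, h, ?_⟩
  change w⁻¹ * (z * w⁻¹) * (w⁻¹)⁻¹ = w⁻¹ * z
  group

theorem bot_index {H : Subgroup X} (hH : H.index = 0) : (⊥ : Subgroup X).index = 0 := by
  rw [Subgroup.index_bot]
  have h := H.index_dvd_card
  rw [hH] at h
  exact Nat.eq_zero_of_zero_dvd h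

/-- one stage -/
theorem stage (hav : ∀ A : Set X, Avoidable A → ∃ z : X, z ∉ A) {H : Subgroup X}
    (hH : H.index = 0) (A P : Finset X) :
    ∃ z : X, z ∉ P ∧ (∀ w ∈ A, z * w⁻¹ ∉ H) ∧
      ∀ w ∈ A, ∀ w' ∈ A, w ≠ w' → z * w⁻¹ ≠ w' * z⁻¹ := by
  classical
  obtain ⟨z, hz⟩ := hav {z | z ∈ P ∨ (∃ w ∈ A, z * w⁻¹ ∈ H) ∨
    ∃ w ∈ A, ∃ w' ∈ A, w ≠ w' ∧ z * w⁻¹ = w' * z⁻¹} (by
      refine ⟨((A ×ˢ A).filter (fun q => q.1 ≠ q.2)).image (fun q => (q.2 * q.1⁻¹, q.1)),
        A.image (fun w => (w, cj H w)) ∪ P.image (fun k => (k, ⊥)), ?_, ?_, ?_⟩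
      · intro p hp
        rw [Finset.mem_image] at hp
        obtain ⟨q, hq, rfl⟩ := hp
        rw [Finset.mem_filter] at hq
        intro h
        exact hq.2 (mul_inv_eq_one.1 h).symm
      · intro p hp
        rw [Finset.mem_union, Finset.mem_image, Finset.mem_image] at hp
        rcases hp with ⟨w, _, rfl⟩ | ⟨k, _, rfl⟩
        · exact cj_index hH w
        · exact bot_index hH
      · rintro z (h | ⟨w, hw, h⟩ | ⟨w, hw, w', hw', hne, h⟩)
        · refine Or.inr ⟨(z, ⊥), ?_, ?_⟩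
          · exact Finset.mem_union_right _ (Finset.mem_image_of_mem _ h)
          · change z⁻¹ * z ∈ (⊥ : Subgroup X)
            rw [inv_mul_cancel]
            exact Subgroup.one_mem _
        · refine Or.inr ⟨(w, cj H w), ?_, mem_cj h⟩
          exact Finset.mem_union_left _ (Finset.mem_image_of_mem (fun w => (w, cj H w)) hw)
        · refine Or.inl ⟨(w' * w⁻¹, w), ?_, ?_⟩
          · rw [Finset.mem_image]
            exact ⟨(w, w'), Finset.mem_filter.2 ⟨Finset.mem_product.2 ⟨hw, hw'⟩, hne⟩, rfl⟩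
          · change (z * w⁻¹) * (z * w⁻¹) = w' * w⁻¹
            nth_rewrite 1 [h]
            group)
  simp only [Set.mem_ofPred_eq, not_or, not_exists, not_and] at hz
  exact ⟨z, hz.1, hz.2.1, fun w hw w' hw' hne h => hz.2.2 w hw w' hw' hne h⟩

end PREM

open PREM in
/-- Special subsets with prescribed trace on a subgroup of infinite index, if no avoidable set is
the whole group. -/
theorem exists_special_prescribed_of {X : Type u} [Group X] [Countable X]
    (hav : ∀ A : Set X, Avoidable A → ∃ z : X, z ∉ A)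
    (H : Subgroup X) (hH : H.index = 0) (D : Set X) (hD : D ⊆ H) (hDi : ∀ d ∈ D, d⁻¹ ∈ D)
    (h1 : (1 : X) ∉ D) : ∃ S : Set X, IsSpecial S ∧ S ∩ H = D := by
  classical
  have hc : Countable {p : Finset X × Finset X // Disjoint p.1 p.2} := inferInstance
  have hne : Nonempty {p : Finset X × Finset X // Disjoint p.1 p.2} := ⟨⟨(∅, ∅), by simp⟩⟩
  obtain ⟨e, he⟩ := exists_surjective_nat {p : Finset X × Finset X // Disjoint p.1 p.2}
  let A : ℕ → Finset X := fun n => (e n).1.1 ∪ (e n).1.2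
  let P : (n : ℕ) → ((m : ℕ) → m < n → X) → Finset X := fun n f =>
    A n ∪
      ((Finset.range n).attach.biUnion (fun m =>
        (A m.1 ×ˢ A n).image (fun q => f m.1 (Finset.mem_range.1 m.2) * q.1⁻¹ * q.2) ∪
        (A m.1 ×ˢ A n).image (fun q => q.1 * (f m.1 (Finset.mem_range.1 m.2))⁻¹ * q.2)))
  obtain ⟨z, hz⟩ := exists_seq_rel (fun n f z => z ∉ P n f ∧ (∀ w ∈ A n, z * w⁻¹ ∉ H) ∧
      ∀ w ∈ A n, ∀ w' ∈ A n, w ≠ w' → z * w⁻¹ ≠ w' * z⁻¹) (fun n f => stage hav hH (A n) (P n f))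
  have hz1 : ∀ n, ∀ w ∈ A n, z n ≠ w := by
    rintro n w hw rfl
    exact (hz n).1 (Finset.mem_union_left _ hw)
  have hz2 : ∀ n m, m < n → ∀ w ∈ A n, ∀ w' ∈ A m, z n * w⁻¹ ≠ z m * w'⁻¹ := by
    intro n m hmn w hw w' hw' h
    apply (hz n).1
    refine Finset.mem_union_right _ ?_
    rw [Finset.mem_biUnion]
    refine ⟨⟨m, Finset.mem_range.2 hmn⟩, Finset.mem_attach _ _, ?_⟩
    refine Finset.mem_union_left _ (Finset.mem_image.2 ⟨(w', w), Finset.mem_product.2 ⟨hw', hw⟩, ?_⟩)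
    change z m * w'⁻¹ * w = z n
    rw [← h, inv_mul_cancel_right]
  have hz3 : ∀ n m, m < n → ∀ w ∈ A n, ∀ w' ∈ A m, z n * w⁻¹ ≠ w' * (z m)⁻¹ := by
    intro n m hmn w hw w' hw' h
    apply (hz n).1
    refine Finset.mem_union_right _ ?_
    rw [Finset.mem_biUnion]
    refine ⟨⟨m, Finset.mem_range.2 hmn⟩, Finset.mem_attach _ _, ?_⟩
    refine Finset.mem_union_right _
      (Finset.mem_image.2 ⟨(w', w), Finset.mem_product.2 ⟨hw', hw⟩, ?_⟩)
    change w' * (z m)⁻¹ * w = z n
    rw [← h, inv_mul_cancel_right]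
  have hzH : ∀ n, ∀ w ∈ A n, z n * w⁻¹ ∉ H := fun n => (hz n).2.1
  have hz4 : ∀ n, ∀ w ∈ A n, ∀ w' ∈ A n, w ≠ w' → z n * w⁻¹ ≠ w' * (z n)⁻¹ := fun n => (hz n).2.2
  let S : Set X := {s | s ∈ D ∨ ∃ n, ∃ u ∈ (e n).1.1, s = z n * u⁻¹ ∨ s = u * (z n)⁻¹}
  have hSi : ∀ s ∈ S, s⁻¹ ∈ S := by
    rintro s (h | ⟨n, u, hu, h | h⟩)
    · exact Or.inl (hDi s h)
    · exact Or.inr ⟨n, u, hu, Or.inr (by rw [h, mul_inv_rev, inv_inv])⟩
    · exact Or.inr ⟨n, u, hu, Or.inl (by rw [h, mul_inv_rev, inv_inv])⟩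
  have hS1 : (1 : X) ∉ S := by
    rintro (h | ⟨n, u, hu, h | h⟩)
    · exact h1 h
    · exact hz1 n u (Finset.mem_union_left _ hu) (mul_inv_eq_one.1 h.symm)
    · exact hz1 n u (Finset.mem_union_left _ hu) (mul_inv_eq_one.1 h.symm).symm
  refine ⟨S, ⟨hSi, hS1, ?_⟩, ?_⟩
  · intro U V hd
    obtain ⟨n, hn⟩ := he ⟨(U, V), hd⟩
    have hU : (e n).1.1 = U := by rw [hn]
    have hV : (e n).1.2 = V := by rw [hn]
    refine ⟨z n, fun u hu => ?_, ?_⟩
    · change z n * u⁻¹ ∈ S
      exact Or.inr ⟨n, u, by rw [hU]; exact hu, Or.inl rfl⟩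
    · intro v hv hadj
      have hadj' : z n * v⁻¹ ∈ S := hadj
      have hvn : v ∈ A n := Finset.mem_union_right _ (by rw [hV]; exact hv)
      rcases hadj' with h | ⟨m, u, hu, h⟩
      · exact hzH n v hvn (hD h)
      have hum : u ∈ A m := Finset.mem_union_left _ hu
      rcases lt_trichotomy n m with hlt | rfl | hlt
      · rcases h with h | h
        · exact hz2 m n hlt u hum v hvn h.symm
        · refine hz3 m n hlt u hum v hvn ?_
          have h3 := congrArg (fun x : X => x⁻¹) h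
          simp only [mul_inv_rev, inv_inv] at h3
          exact h3.symm
      · rcases h with h | h
        · have h3 : v = u := inv_injective (mul_left_cancel h)
          subst h3
          rw [hU] at hu
          exact (Finset.disjoint_left.1 hd) hu hv
        · refine hz4 n v hvn u hum ?_ h
          rintro rfl
          rw [hU] at hu
          exact (Finset.disjoint_left.1 hd) hu hv
      · rcases h with h | h
        · exact hz2 n m hlt v hvn u hum h
        · exact hz3 n m hlt v hvn u hum h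
  · ext s
    constructor
    · rintro ⟨h | ⟨n, u, hu, h | h⟩, hsH⟩
      · exact h
      · exact absurd (by rw [h] at hsH; exact hsH) (hzH n u (Finset.mem_union_left _ hu))
      · refine absurd ?_ (hzH n u (Finset.mem_union_left _ hu))
        have h3 := H.inv_mem hsH
        rw [h, mul_inv_rev, inv_inv] at h3
        exact h3
    · intro h
      exact ⟨Or.inl h, hD h⟩

end Pool.Agent.Lib.MP_008109_al.AB
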