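import Pool.Agent.Lib.MP_008109_al.Own

/-!
# MP_008109_al: abelian groups, definitions used by the modules of `AB`
-/

set_option autoImplicit false

universe u

namespace Pool.Agent.Lib.MP_008109_al.AB

/-- The set of all `d`-fold multiples of an additive group. -/
def mult (G : Type u) [AddCommGroup G] (d : ℕ) : Set G := Set.range fun x : G => d • x

/-- Additive form of special subsets (in the strong form where the witness avoids both sets). -/
structure Spec {G : Type u} [AddCommGroup G] (S : Set G) : Prop where
  neg : ∀ s ∈ S, -s ∈ S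
  zero : (0 : G) ∉ S
  ext : ∀ U V : Finset G, Disjoint U V →
    ∃ z : G, z ∉ U ∧ z ∉ V ∧ (∀ u ∈ U, z - u ∈ S) ∧ (∀ v ∈ V, z - v ∉ S)

/-- The set coded by a graph `E` on the natural numbers: `q` enumerates the set of all `x` with
`x`, `x + t` and `2 x` in `S`, and differences of its members are in `S` exactly along `E`. -/
def Codes {G : Type u} [AddCommGroup G] (t : G) (E : ℕ → ℕ → Prop) (S : Set G) : Prop :=
  ∃ q : ℕ → G, Function.Injective q ∧
    (∀ x : G, (x ∈ S ∧ x + t ∈ S ∧ 2 • x ∈ S) ↔ ∃ n, x = q n) ∧
    ∀ m n, m ≠ n → (q m - q n ∈ S ↔ E m n)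

/-- The orbits of the automorphism group of an additive group on its special subsets. -/
def AOrbits (G : Type u) [AddCommGroup G] : Set (Set (Set G)) :=
  {O | ∃ S : Set G, Spec S ∧ O = {T | ∃ α : G ≃+ G, α '' S = T}}

/-- The orbits of `Aut X` on the special subsets of `X`. -/
def SpecialOrbits (X : Type u) [Group X] : Set (Set (Set X)) :=
  {O | ∃ S : Set X, IsSpecial S ∧ O = {T | ∃ α : X ≃* X, α '' S = T}}

end Pool.Agent.Lib.MP_008109_al.AB
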