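import Pool.Agent.Lib.MP_008109_al.AB.General

/-!
# MP_008109_al: definitions for the results on arbitrary countable groups
-/

set_option autoImplicit false

universe u

namespace Pool.Agent.Lib.MP_008109_al.AB

/-- The FC-centre: the elements whose centraliser has finite index (finite conjugacy class). -/
def FCc (X : Type u) [Group X] : Subgroup X where
  carrier := {x | (Subgroup.centralizer {x}).FiniteIndex}
  one_mem' := by
    have h : Subgroup.centralizer ({1} : Set X) = ⊤ := by
      rw [eq_top_iff]
      intro g _
      rw [Subgroup.mem_centralizer_iff]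
      rintro h rfl
      simp
    change (Subgroup.centralizer ({1} : Set X)).FiniteIndex
    rw [h]
    infer_instance
  mul_mem' := by
    intro a b ha hb
    have ha' : (Subgroup.centralizer ({a} : Set X)).FiniteIndex := ha
    have hb' : (Subgroup.centralizer ({b} : Set X)).FiniteIndex := hb
    have h : Subgroup.centralizer ({a} : Set X) ⊓ Subgroup.centralizer ({b} : Set X) ≤
        Subgroup.centralizer ({a * b} : Set X) := by
      rintro g ⟨h1, h2⟩
      have h1' := Subgroup.mem_centralizer_iff.1 h1 a rfl
      have h2' := Subgroup.mem_centralizer_iff.1 h2 b rfl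
      rw [Subgroup.mem_centralizer_iff]
      rintro h rfl
      rw [mul_assoc, h2', ← mul_assoc, h1', mul_assoc]
    exact Subgroup.finiteIndex_of_le h
  inv_mem' := by
    intro a ha
    have ha' : (Subgroup.centralizer ({a} : Set X)).FiniteIndex := ha
    have h : Subgroup.centralizer ({a} : Set X) ≤ Subgroup.centralizer ({a⁻¹} : Set X) := by
      intro g h1
      have h1' := Subgroup.mem_centralizer_iff.1 h1 a rfl
      rw [Subgroup.mem_centralizer_iff]
      rintro h rfl
      rw [inv_mul_eq_iff_eq_mul, ← mul_assoc, h1', mul_assoc, mul_inv_cancel, mul_one]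
    exact Subgroup.finiteIndex_of_le h

theorem mem_FCc {X : Type u} [Group X] {x : X} :
    x ∈ FCc X ↔ (Subgroup.centralizer {x}).FiniteIndex := Iff.rfl

/-- The FC-centre is invariant under automorphisms. -/
theorem map_mem_FCc {X : Type u} [Group X] (α : X ≃* X) {x : X} (hx : x ∈ FCc X) :
    α x ∈ FCc X := by
  have hx' : (Subgroup.centralizer ({x} : Set X)).FiniteIndex := hx
  have h : Subgroup.centralizer ({α x} : Set X) =
      (Subgroup.centralizer ({x} : Set X)).map (α : X →* X) := by
    ext g
    rw [Subgroup.mem_map, Subgroup.mem_centralizer_iff]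
    constructor
    · intro hg
      refine ⟨α.symm g, ?_, by simp⟩
      rw [Subgroup.mem_centralizer_iff]
      rintro h rfl
      apply α.injective
      rw [map_mul, map_mul, MulEquiv.apply_symm_apply]
      exact hg _ rfl
    · rintro ⟨y, hy, rfl⟩
      rintro h rfl
      have := Subgroup.mem_centralizer_iff.1 hy x rfl
      rw [MonoidHom.coe_coe, ← map_mul, this, map_mul]
  rw [mem_FCc, h]
  constructor
  rw [Subgroup.index_map_of_bijective]
  · exact hx'.index_ne_zero
  · exact α.bijective

theorem map_mem_FCc_iff {X : Type u} [Group X] (α : X ≃* X) {x : X} :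
    α x ∈ FCc X ↔ x ∈ FCc X := by
  constructor
  · intro h
    have := map_mem_FCc α.symm h
    simpa using this
  · exact map_mem_FCc α

instance {X : Type u} [Group X] : (FCc X).Normal := by
  constructor
  intro n hn g
  exact map_mem_FCc (MulAut.conj g) hn

/-- Avoidable sets: covered by finitely many sets `{z | (z y⁻¹)² = c}` with `c ≠ 1` and finitely
many left cosets of subgroups of infinite index (`index = 0`). -/
def Avoidable {X : Type u} [Group X] (A : Set X) : Prop :=
  ∃ (F : Finset (X × X)) (G : Finset (X × Subgroup X)), (∀ p ∈ F, p.1 ≠ 1) ∧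
    (∀ p ∈ G, p.2.index = 0) ∧
    ∀ z ∈ A, (∃ p ∈ F, (z * p.2⁻¹) * (z * p.2⁻¹) = p.1) ∨ ∃ p ∈ G, p.1⁻¹ * z ∈ p.2

/-- All finitely generated subgroups are finite. -/
def LocFin (X : Type u) [Group X] : Prop :=
  ∀ F : Finset X, (Subgroup.closure (F : Set X) : Set X).Finite

end Pool.Agent.Lib.MP_008109_al.AB
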