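import Pool.Agent.Lib.MP_008109_al.AB.Spec

/-!
# MP_008109_al, module TRC: special subsets and their traces on the cubes

If there are only finitely many cubes and two special subsets with the same trace on the cubes are
always in one orbit, then the orbits on special subsets correspond to the orbits on the inverse
closed sets of non-identity cubes.
-/

set_option autoImplicit false
universe u

namespace Pool.Agent.Lib.MP_008109_al.AB

/-- The orbits of `Aut X` on the inverse closed sets of non-identity cubes. -/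
def TraceOrbits (X : Type u) [Group X] : Set (Set (Set X)) :=
  {O | ∃ D : Set X, D ⊆ (Set.range fun x : X => x ^ 3) ∧ (∀ d ∈ D, d⁻¹ ∈ D) ∧ (1 : X) ∉ D ∧
    O = {T | ∃ α : X ≃* X, α '' D = T}}

theorem modify {X : Type u} [CommGroup X] (S : Set X) (hS : IsSpecial S) (C D : Set X)
    (hC : C.Finite) (hCi : ∀ c ∈ C, c⁻¹ ∈ C) (hDC : D ⊆ C) (hD : ∀ d ∈ D, d⁻¹ ∈ D)
    (h1 : (1 : X) ∉ D) : IsSpecial ((S \ C) ∪ D) := by
  classical
  obtain ⟨hi, hS1, hs⟩ := hS
  refine ⟨?_, ?_, ?_⟩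
  · rintro s (⟨hsS, hsC⟩ | hsD)
    · left
      refine ⟨hi s hsS, fun h => hsC ?_⟩
      have := hCi _ h
      rwa [inv_inv] at this
    · exact Or.inr (hD s hsD)
  · rintro (⟨h, -⟩ | h)
    · exact hS1 h
    · exact h1 h
  · intro U W hd
    obtain ⟨z, hzU, hzW, hz1, hz2⟩ := hs.strong U
      (W ∪ ((hC.toFinset ×ˢ (U ∪ W)).image (fun p => p.1 * p.2) \ U)) (by
        rw [Finset.disjoint_union_right]
        exact ⟨hd, Finset.disjoint_sdiff⟩)
    have key : ∀ u ∈ U ∪ W, z * u⁻¹ ∉ C := by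
      intro u hu hc
      apply hzW
      refine Finset.mem_union_right _ (Finset.mem_sdiff.2 ⟨?_, hzU⟩)
      refine Finset.mem_image.2 ⟨(z * u⁻¹, u), ?_, by simp⟩
      exact Finset.mem_product.2 ⟨hC.mem_toFinset.2 hc, hu⟩
    refine ⟨z, fun u hu => ?_, fun w hw hadj => ?_⟩
    · left
      exact ⟨hz1 u hu, key u (Finset.mem_union_left _ hu)⟩
    · rcases hadj with ⟨h, -⟩ | h
      · exact hz2 w (Finset.mem_union_left _ hw) h
      · exact key w (Finset.mem_union_right _ hw) (hDC h)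

namespace TRCM

/-- The orbit of a set under the automorphism group. -/
def autOrb {X : Type u} [Group X] (S : Set X) : Set (Set X) := {T | ∃ α : X ≃* X, α '' S = T}

theorem self_mem {X : Type u} [Group X] (S : Set X) : S ∈ autOrb S :=
  ⟨MulEquiv.refl X, by simp⟩

theorem autOrb_eq {X : Type u} [Group X] {S T : Set X} (h : T ∈ autOrb S) : autOrb T = autOrb S := by
  obtain ⟨γ, rfl⟩ := h
  ext R
  constructor
  · rintro ⟨α, rfl⟩
    refine ⟨γ.trans α, ?_⟩
    rw [Set.image_image]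
    rfl
  · rintro ⟨α, rfl⟩
    refine ⟨γ.symm.trans α, ?_⟩
    rw [Set.image_image]
    apply Set.image_congr
    intro a _
    simp

/-- The set of cubes. -/
def cubes (X : Type u) [Group X] : Set X := Set.range fun x : X => x ^ 3

theorem image_cubes {X : Type u} [Group X] (α : X ≃* X) : α '' (cubes X) = cubes X := by
  ext y
  constructor
  · rintro ⟨_, ⟨x, rfl⟩, rfl⟩
    exact ⟨α x, by simp⟩
  · rintro ⟨x, rfl⟩
    exact ⟨(α.symm x) ^ 3, ⟨α.symm x, rfl⟩, by simp⟩

theorem image_inter_cubes {X : Type u} [Group X] (α : X ≃* X) (S : Set X) :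
    α '' (S ∩ cubes X) = α '' S ∩ cubes X := by
  rw [Set.image_inter α.injective, image_cubes]

theorem special_image {X : Type u} [Group X] (α : X ≃* X) {S : Set X} (hS : IsSpecial S) :
    IsSpecial (α '' S) := by
  classical
  obtain ⟨hi, h1, hs⟩ := hS
  refine ⟨?_, ?_, ?_⟩
  · rintro _ ⟨s, hs', rfl⟩
    exact ⟨s⁻¹, hi s hs', by simp⟩
  · rintro ⟨s, hs', h⟩
    have : s = 1 := by
      apply α.injective
      rw [h, map_one]
    exact h1 (this ▸ hs')
  · intro U W hd
    obtain ⟨z, hz1, hz2⟩ := hs (U.image α.symm) (W.image α.symm) (by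
      rw [Finset.disjoint_image α.symm.injective]
      exact hd)
    refine ⟨α z, fun u hu => ?_, fun w hw hadj => ?_⟩
    · have h := hz1 (α.symm u) (Finset.mem_image_of_mem _ hu)
      refine ⟨z * (α.symm u)⁻¹, h, by simp⟩
    · obtain ⟨s, hs', h⟩ := hadj
      apply hz2 (α.symm w) (Finset.mem_image_of_mem _ hw)
      have h' : s = z * (α.symm w)⁻¹ := by
        apply α.injective
        rw [h]
        simp
      change z * (α.symm w)⁻¹ ∈ S
      rw [← h']
      exact hs'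

theorem image_orb {X : Type u} [Group X] (S : Set X) :
    (fun T : Set X => T ∩ cubes X) '' autOrb S = autOrb (S ∩ cubes X) := by
  ext R
  constructor
  · rintro ⟨_, ⟨α, rfl⟩, rfl⟩
    exact ⟨α, image_inter_cubes α S⟩
  · rintro ⟨α, rfl⟩
    exact ⟨α '' S, ⟨α, rfl⟩, (image_inter_cubes α S).symm⟩

end TRCM

open TRCM

theorem mk_specialOrbits_eq {X : Type u} [CommGroup X] (hex : ∃ S : Set X, IsSpecial S)
    (hfin : (Set.range fun x : X => x ^ 3).Finite)
    (horb : ∀ S T : Set X, IsSpecial S → IsSpecial T → (∀ x : X, x ^ 3 ∈ S ↔ x ^ 3 ∈ T) →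
      ∃ α : X ≃* X, α '' S = T) :
    Cardinal.mk (SpecialOrbits X) = Cardinal.mk (TraceOrbits X) := by
  have hci : ∀ c ∈ cubes X, c⁻¹ ∈ cubes X := by
    rintro _ ⟨x, rfl⟩
    exact ⟨x⁻¹, by simp⟩
  have hmap : ∀ O ∈ SpecialOrbits X, (fun T : Set X => T ∩ cubes X) '' O ∈ TraceOrbits X := by
    rintro _ ⟨S, hS, rfl⟩
    refine ⟨S ∩ cubes X, Set.inter_subset_right, ?_, ?_, image_orb S⟩
    · rintro d ⟨h, h'⟩
      exact ⟨hS.1 d h, hci d h'⟩
    · rintro ⟨h, -⟩
      exact hS.2.1 h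
  refine Cardinal.mk_congr (Equiv.ofBijective (fun O : SpecialOrbits X =>
    (⟨(fun T : Set X => T ∩ cubes X) '' O.1, hmap O.1 O.2⟩ : TraceOrbits X)) ⟨?_, ?_⟩)
  · rintro ⟨_, S, hS, rfl⟩ ⟨_, S', hS', rfl⟩ h
    have h' : (fun T : Set X => T ∩ cubes X) '' autOrb S = (fun T : Set X => T ∩ cubes X) '' autOrb S' :=
      congrArg Subtype.val h
    have h2 : S ∩ cubes X ∈ (fun T : Set X => T ∩ cubes X) '' autOrb S' := by
      rw [← h']
      exact ⟨S, self_mem S, rfl⟩
    obtain ⟨_, ⟨α, rfl⟩, h3⟩ := h2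
    obtain ⟨β, hβ⟩ := horb S (α '' S') hS (special_image α hS') (by
      intro x
      have h4 : ∀ y ∈ cubes X, y ∈ α '' S' ↔ y ∈ S := by
        intro y hy
        have h5 : y ∈ α '' S' ∩ cubes X ↔ y ∈ S ∩ cubes X := by
          have h6 : α '' S' ∩ cubes X = S ∩ cubes X := h3
          rw [h6]
        constructor
        · intro h7
          exact (h5.1 ⟨h7, hy⟩).1
        · intro h7
          exact (h5.2 ⟨h7, hy⟩).1
      exact (h4 (x ^ 3) ⟨x, rfl⟩).symm)
    have h8 : autOrb S = autOrb S' := by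
      rw [← autOrb_eq (S := S) (T := α '' S') ⟨β, hβ⟩, autOrb_eq (S := S') (T := α '' S') ⟨α, rfl⟩]
    exact Subtype.ext h8
  · rintro ⟨_, D, hDC, hDi, hD1, rfl⟩
    obtain ⟨S₀, hS₀⟩ := hex
    have hS := modify S₀ hS₀ (cubes X) D hfin hci hDC hDi hD1
    refine ⟨⟨autOrb ((S₀ \ cubes X) ∪ D), ⟨_, hS, rfl⟩⟩, ?_⟩
    apply Subtype.ext
    change (fun T : Set X => T ∩ cubes X) '' autOrb ((S₀ \ cubes X) ∪ D) = autOrb D
    rw [image_orb]
    congr 1
    ext y
    constructor
    · rintro ⟨⟨-, h⟩ | h, h'⟩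
      · exact absurd h' h
      · exact h
    · intro h
      exact ⟨Or.inr h, hDC h⟩

theorem mk_traceOrbits_le {X : Type u} [CommGroup X]
    (hfin : (Set.range fun x : X => x ^ 3).Finite) :
    Cardinal.mk (TraceOrbits X) ≤ ((2 ^ (Set.range fun x : X => x ^ 3).ncard : ℕ) : Cardinal) := by
  have h1 : TraceOrbits X ⊆ (fun D : Set X => autOrb D) '' (Set.powerset (cubes X)) := by
    rintro _ ⟨D, hDC, -, -, rfl⟩
    exact ⟨D, hDC, rfl⟩
  refine (Cardinal.mk_le_mk_of_subset h1).trans (Cardinal.mk_image_le.trans ?_)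
  have h2 : Cardinal.mk (cubes X) = ((Set.range fun x : X => x ^ 3).ncard : Cardinal) :=
    (Set.cast_ncard hfin).symm
  rw [Cardinal.mk_powerset, h2]
  push_cast
  rw [Cardinal.power_natCast]

end Pool.Agent.Lib.MP_008109_al.AB
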